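import Pool.Agent.Lib.MP_f7aa1b_gt.T2

/-!
Row B1. First identities of a Patch (u in U).
unit_deriv: differentiate <xi, xi> = 1 on the open set U.
II_second: the function w' -> <dX w' w, xi w'> vanishes on U; differentiate in direction v:
<D2X v w, xi> + <dX w, dxi v> = 0, where D2X = fderiv (fderiv X) u. II_symm: from this and the symmetry of D2X
(as in HH_symm). shape_symm: the same identity without the name II.
perp_range: the range of fderiv X u is an m-dimensional subspace (injectivity) of the orthogonal complement of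
xi u, which has dimension m: they are equal.
eq_zero_of_perp: y orthogonal to the range and to xi: y = y' + c xi, ... so y = 0.
-/

open Set Filter Topology Metric MeasureTheory
open scoped ContDiff

namespace MPf7aa

theorem B1_two_le : (2 : WithTop ℕ∞) ≤ ∞ := WithTop.coe_le_coe.2 (le_top : (2 : ℕ∞) ≤ ⊤)

theorem unit_deriv {m : ℕ} {U : Set (E m)} {X ξ : E m → E (m + 1)} (h : Patch U X ξ) {u : E m}
    (hu : u ∈ U) (v : E m) : inner ℝ (fderiv ℝ ξ u v) (ξ u) = 0 := by
  have hd : DifferentiableAt ℝ ξ u := (h.cξ.contDiffAt (h.op.mem_nhds hu)).differentiableAt (by simp)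
  have h1 : HasFDerivAt (fun w => inner ℝ (ξ w) (ξ w)) _ u := hd.hasFDerivAt.inner ℝ hd.hasFDerivAt
  have h2 : (fun w => inner ℝ (ξ w) (ξ w)) =ᶠ[𝓝 u] fun _ => (1 : ℝ) := by
    filter_upwards [h.op.mem_nhds hu] with w hw
    rw [real_inner_self_eq_norm_sq, h.unit w hw, one_pow]
  have h3 : HasFDerivAt (fun w => inner ℝ (ξ w) (ξ w)) (0 : E m →L[ℝ] ℝ) u :=
    (hasFDerivAt_const (1 : ℝ) u).congr_of_eventuallyEq h2
  have h4 := congrArg (fun L : E m →L[ℝ] ℝ => L v) (h1.unique h3)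
  simp only [ContinuousLinearMap.comp_apply, ContinuousLinearMap.prod_apply, fderivInnerCLM_apply,
    _root_.zero_apply] at h4
  rw [real_inner_comm (fderiv ℝ ξ u v) (ξ u)] at h4
  linarith

theorem II_second {m : ℕ} {U : Set (E m)} {X ξ : E m → E (m + 1)} (h : Patch U X ξ) {u : E m}
    (hu : u ∈ U) (v w : E m) :
    inner ℝ (fderiv ℝ (fderiv ℝ X) u v w) (ξ u) = II X ξ u w v := by
  have hn := h.op.mem_nhds hu
  have hd : DifferentiableAt ℝ ξ u := (h.cξ.contDiffAt hn).differentiableAt (by simp)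
  have hX : DifferentiableAt ℝ (fderiv ℝ X) u :=
    ((h.cX.contDiffAt hn).fderiv_right (m := 1) (by
      rw [one_add_one_eq_two]
      exact B1_two_le)).differentiableAt (by simp)
  have hXw : HasFDerivAt (fun x => fderiv ℝ X x w) ((ContinuousLinearMap.apply ℝ (E (m + 1)) w).comp
      (fderiv ℝ (fderiv ℝ X) u)) u :=
    (ContinuousLinearMap.apply ℝ (E (m + 1)) w).hasFDerivAt.comp u hX.hasFDerivAt
  have h1 := hXw.inner ℝ hd.hasFDerivAt
  have h2 : (fun x => inner ℝ (fderiv ℝ X x w) (ξ x)) =ᶠ[𝓝 u] fun _ => (0 : ℝ) := by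
    filter_upwards [hn] with x hx
    exact h.perp x hx w
  have h3 : HasFDerivAt (fun x => inner ℝ (fderiv ℝ X x w) (ξ x)) (0 : E m →L[ℝ] ℝ) u :=
    (hasFDerivAt_const (0 : ℝ) u).congr_of_eventuallyEq h2
  have h4 := congrArg (fun L : E m →L[ℝ] ℝ => L v) (h1.unique h3)
  simp only [ContinuousLinearMap.comp_apply, ContinuousLinearMap.prod_apply, fderivInnerCLM_apply,
    _root_.zero_apply, ContinuousLinearMap.apply_apply] at h4
  unfold II
  linarith

theorem II_symm {m : ℕ} {U : Set (E m)} {X ξ : E m → E (m + 1)} (h : Patch U X ξ) {u : E m}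
    (hu : u ∈ U) (v w : E m) : II X ξ u v w = II X ξ u w v := by
  rw [← II_second h hu v w, ← II_second h hu w v]
  have hs : IsSymmSndFDerivAt ℝ X u := by
    apply (h.cX.contDiffAt (h.op.mem_nhds hu)).isSymmSndFDerivAt
    simp only [minSmoothness_of_isRCLikeNormedField]
    exact B1_two_le
  rw [hs.eq w v]

theorem perp_range {m : ℕ} {U : Set (E m)} {X ξ : E m → E (m + 1)} (h : Patch U X ξ) {u : E m}
    (hu : u ∈ U) {y : E (m + 1)} (hy : inner ℝ y (ξ u) = 0) : ∃ v : E m, fderiv ℝ X u v = y := by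
  have hξ : ξ u ≠ 0 := by
    intro h0
    have := h.unit u hu
    rw [h0, norm_zero] at this
    exact zero_ne_one this
  have hle : LinearMap.range (fderiv ℝ X u : E m →ₗ[ℝ] E (m + 1)) ≤ (ℝ ∙ ξ u)ᗮ := by
    rintro _ ⟨v, rfl⟩
    rw [Submodule.mem_orthogonal_singleton_iff_inner_left]
    exact h.perp u hu v
  have hr : Module.finrank ℝ (LinearMap.range (fderiv ℝ X u : E m →ₗ[ℝ] E (m + 1))) = m := by
    rw [LinearMap.finrank_range_of_inj (h.imm u hu), finrank_euclideanSpace_fin]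
  have : Fact (Module.finrank ℝ (E (m + 1)) = m + 1) := ⟨finrank_euclideanSpace_fin⟩
  have ho : Module.finrank ℝ ↥((ℝ ∙ ξ u)ᗮ) = m := Submodule.finrank_orthogonal_span_singleton hξ
  have he := Submodule.eq_of_le_of_finrank_eq hle (hr.trans ho.symm)
  have hm : y ∈ (ℝ ∙ ξ u)ᗮ := by
    rw [Submodule.mem_orthogonal_singleton_iff_inner_left]
    exact hy
  rw [← he] at hm
  obtain ⟨v, hv⟩ := hm
  exact ⟨v, hv⟩

theorem eq_zero_of_perp {m : ℕ} {U : Set (E m)} {X ξ : E m → E (m + 1)} (h : Patch U X ξ)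
    {u : E m} (hu : u ∈ U) {y : E (m + 1)} (hy : inner ℝ y (ξ u) = 0)
    (hx : ∀ v, inner ℝ (fderiv ℝ X u v) y = 0) : y = 0 := by
  obtain ⟨v, hv⟩ := perp_range h hu hy
  have h1 := hx v
  rw [hv] at h1
  exact inner_self_eq_zero.1 h1

end MPf7aa
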