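import Pool.Agent.Lib.MP_f7aa1b_gt.Core

/-!
Row T2. Algebra of HH, LL, GG and change of centre.
HH_symm: second derivatives are symmetric (ContDiffAt of order 2 at u, so
ContDiffAt.isSymmSndFDerivAt or second_derivative_symmetric). The rest is bilinearity of the inner
product. HH_center: X u - (X u + s (p - X u)) = s (X u - p), and HH at centre p is
GG + <D2X, X u - p>. LL_center: expand the squares; with a = X u - X us, b = X us - p (real inner
product): |a + s b|^2 - s^2|b|^2 = |a|^2 + 2 s <a,b> and |a+b|^2 - |b|^2 = |a|^2 + 2 <a,b>.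
-/

open Set Filter Topology Metric MeasureTheory
open scoped ContDiff

namespace MPf7aa

theorem HH_symm {m k : ℕ} {U : Set (E m)} {X : E m → E k} (hU : IsOpen U)
    (hX : ContDiffOn ℝ ∞ X U) (p : E k) {u : E m} (hu : u ∈ U) (v w : E m) :
    HH X p u v w = HH X p u w v := by
  have h1 : ContDiffAt ℝ ∞ X u := hX.contDiffAt (hU.mem_nhds hu)
  have h2 : IsSymmSndFDerivAt ℝ X u := h1.isSymmSndFDerivAt (by simp; exact WithTop.coe_le_coe.2 le_top)
  unfold HH
  rw [h2 v w, real_inner_comm]

theorem HH_add_left {m k : ℕ} (X : E m → E k) (p : E k) (u v v' w : E m) :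
    HH X p u (v + v') w = HH X p u v w + HH X p u v' w := by
  simp only [HH, map_add, add_apply, inner_add_left]
  ring

theorem HH_add_right {m k : ℕ} (X : E m → E k) (p : E k) (u v w w' : E m) :
    HH X p u v (w + w') = HH X p u v w + HH X p u v w' := by
  simp only [HH, map_add, inner_add_left, inner_add_right]
  ring

theorem HH_smul_left {m k : ℕ} (X : E m → E k) (p : E k) (u v w : E m) (c : ℝ) :
    HH X p u (c • v) w = c * HH X p u v w := by
  simp only [HH, map_smul, smul_apply, real_inner_smul_left]
  ring

theorem HH_smul_right {m k : ℕ} (X : E m → E k) (p : E k) (u v w : E m) (c : ℝ) :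
    HH X p u v (c • w) = c * HH X p u v w := by
  simp only [HH, map_smul, real_inner_smul_left, real_inner_smul_right]
  ring

theorem HH_center {m k : ℕ} (X : E m → E k) (p : E k) (u v w : E m) (s : ℝ) :
    HH X (X u + s • (p - X u)) u v w = (1 - s) * GG X u v w + s * HH X p u v w := by
  have h : X u - (X u + s • (p - X u)) = s • (X u - p) := by
    rw [smul_sub, smul_sub]; abel
  unfold HH GG
  rw [h, real_inner_smul_right]
  ring

theorem LL_center {m k : ℕ} (X : E m → E k) (p : E k) (u us : E m) (s : ℝ) :
    LL X (X us + s • (p - X us)) u - LL X (X us + s • (p - X us)) us =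
      (1 - s) * ((1 / 2) * ‖X u - X us‖ ^ 2) + s * (LL X p u - LL X p us) := by
  have h1 : X u - (X us + s • (p - X us)) = (X u - X us) + s • (X us - p) := by
    rw [smul_sub, smul_sub]; abel
  have h2 : X us - (X us + s • (p - X us)) = s • (X us - p) := by
    rw [smul_sub, smul_sub]; abel
  have h3 : X u - p = (X u - X us) + (X us - p) := by abel
  unfold LL
  rw [h1, h2, h3, norm_add_sq_real, norm_add_sq_real, real_inner_smul_right]
  ring

theorem LL_shift {m k : ℕ} (X : E m → E k) (c w : E k) (u us : E m) :
    LL X (c + w) u - LL X (c + w) us = LL X c u - LL X c us - inner ℝ w (X u - X us) := by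
  have h1 : X u - (c + w) = (X u - c) - w := by abel
  have h2 : X us - (c + w) = (X us - c) - w := by abel
  have h3 : X u - X us = (X u - c) - (X us - c) := by abel
  unfold LL
  rw [h1, h2, norm_sub_sq_real (X u - c) w, norm_sub_sq_real (X us - c) w, h3, inner_sub_right,
    real_inner_comm w (X u - c), real_inner_comm w (X us - c)]
  ring

theorem Crit_center {m k : ℕ} {X : E m → E k} {p : E k} {u : E m} (h : Crit X p u) (s : ℝ) :
    Crit X (X u + s • (p - X u)) u := by
  intro v
  have h1 : X u - (X u + s • (p - X u)) = s • (X u - p) := by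
    rw [smul_sub, smul_sub]; abel
  rw [h1, real_inner_smul_right, h v, mul_zero]

/-- L_{alpha p} = alpha ( Q / alpha - <X, p> ) + const -/
theorem LL_scale {m k : ℕ} (X : E m → E k) (p : E k) (u : E m) (α : ℝ) :
    LL X (α • p) u = LL X 0 u - α * inner ℝ (X u) p + (1 / 2) * ‖α • p‖ ^ 2 := by
  unfold LL
  rw [norm_sub_sq_real, real_inner_smul_right, sub_zero]
  ring

end MPf7aa
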