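import Pool.Agent.Lib.MP_f7aa1b_gt.M1
import Pool.Agent.Lib.MP_f7aa1b_gt.T2

/-!
Row M2. With t = 1/lam: 0 < t < sigma. Crit: <dX v, X us - t eta> = <dX v, X us> - t lam <dX v, X us> = 0.
Minimum on the level set: LL_scale (p = eta, alpha = t): LL X (t eta) u = Q u - t h u + const.
-/

open Set Filter Topology Metric MeasureTheory
open scoped ContDiff

namespace MPf7aa

theorem crit_data {m : ℕ} {X : E m → E (m + 1)} {U : Set (E m)} {R r0 : ℝ} {η : E (m + 1)}
    {σ : ℝ} {P Bad : Set (E (m + 1))} (h : Core X U R r0 η σ P Bad) {u1 : E m}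
    (h1 : u1 ∈ closedBall (0 : E m) R) (l1 : LL X 0 u1 < r0 ^ 2 / 2)
    (hbig : (1 / σ) * LL X 0 u1 < inner ℝ (X u1) η) :
    ∃ us ∈ closedBall (0 : E m) R, us ≠ 0 ∧ LL X 0 us < r0 ^ 2 / 2 ∧ ∃ t : ℝ, 0 < t ∧ t < σ ∧
      Crit X (t • η) us ∧
      ∀ u ∈ closedBall (0 : E m) R, LL X 0 u = LL X 0 us →
        LL X (t • η) us ≤ LL X (t • η) u := by
  obtain ⟨us, hus, hus0, hlev, lam, hlam, hgrad, hmax⟩ := maxpt h h1 l1 hbig
  have hσ := h.hσ
  have hlam0 : 0 < lam := lt_trans (by positivity) hlam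
  refine ⟨us, hus, hus0, hlev, 1 / lam, by positivity, ?_, ?_, ?_⟩
  · rw [one_div_lt hlam0 hσ]
    exact hlam
  · intro v
    rw [inner_sub_right, real_inner_smul_right, hgrad v]
    field_simp
    ring
  · intro u hu hQ
    rw [LL_scale, LL_scale, hQ]
    have h2 := hmax u hu hQ
    have h3 : 1 / lam * inner ℝ (X u) η ≤ 1 / lam * inner ℝ (X us) η :=
      mul_le_mul_of_nonneg_left h2 (by positivity)
    linarith

end MPf7aa
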