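import Pool.Agent.Lib.MP_f7aa1b_gt.L4

/-!
Row M3. Case II of Proposition FF.
Proof. 0 is Good for t eta: Crit X (t eta) 0 from crit0 and X0 (<dX v, 0 - t eta> = 0), positivity is
pos0. level_interior at 0 (LL X 0 0 = 0 < r0^2/2) gives d; persist at (t eta, 0) with
rho0 = min d (|us|/2): for |p' - t eta| < delta a Good point u' with |u'| < rho0, so u' != us,
u' in closedBall 0 R, LL X 0 u' < r0^2/2. For s < 1 close to 1 put p_s = X us + s (t eta - X us) -> t eta
as s -> 1; P open and t eta in P (field P-eta), so p_s in P and |p_s - t eta| < delta. us is Good for p_s: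
Crit_center; HH_center: HH = (1-s) GG + s HH >= (1-s) GG > 0 (GG_pos). uniq: us = u', contradiction.
-/

open Set Filter Topology Metric MeasureTheory
open scoped ContDiff

namespace MPf7aa

theorem caseII {m : ℕ} {X : E m → E (m + 1)} {U : Set (E m)} {R r0 : ℝ} {η : E (m + 1)}
    {σ : ℝ} {P Bad : Set (E (m + 1))} (h : Core X U R r0 η σ P Bad) {us : E m}
    (hus : us ∈ closedBall (0 : E m) R) (h0 : us ≠ 0) (lev : LL X 0 us < r0 ^ 2 / 2)
    {t : ℝ} (t0 : 0 < t) (tσ : t < σ) (hc : Crit X (t • η) us)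
    (hn : ∀ v, 0 ≤ HH X (t • η) us v v) : False := by
  have h00 : (0 : E m) ∈ closedBall (0 : E m) R := mem_closedBall_self h.hR.le
  have hU0 : (0 : E m) ∈ U := h.ball h00
  have g0 : Good X (t • η) 0 := by
    refine ⟨fun v => ?_, fun v hv => h.pos0 t t0 tσ v hv⟩
    rw [h.X0, zero_sub, inner_neg_right, inner_smul_right, h.crit0 v]
    simp
  have hr : (0 : ℝ) < r0 ^ 2 / 2 := by
    have := h.hr0
    positivity
  obtain ⟨d, hd, hd'⟩ := level_interior h h00 (ρ := r0 ^ 2 / 2) le_rfl (by rw [LL_zero h]; exact hr)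
  obtain ⟨ρ, hρ, hρ', -, δ, hδ, H⟩ := persist h.op h.cX hU0 g0
    (ρ0 := min d ‖us‖) (lt_min hd (norm_pos_iff.2 h0))
  have hcont : Tendsto (fun s : ℝ => X us + s • (t • η - X us)) (𝓝[<] 1) (𝓝 (t • η)) := by
    have h1 : ContinuousAt (fun s : ℝ => X us + s • (t • η - X us)) 1 := by fun_prop
    have h2 := h1.tendsto.mono_left (nhdsWithin_le_nhds (s := Iio 1))
    simpa using h2
  have e1 : ∀ᶠ s in 𝓝[<] (1 : ℝ), X us + s • (t • η - X us) ∈ P :=
    hcont.eventually (h.Pop.eventually_mem (h.Pη t t0))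
  have e2 : ∀ᶠ s in 𝓝[<] (1 : ℝ), X us + s • (t • η - X us) ∈ ball (t • η) δ :=
    hcont.eventually (isOpen_ball.eventually_mem (mem_ball_self hδ))
  have e3 : ∀ᶠ s in 𝓝[<] (1 : ℝ), s ∈ Ioo (0 : ℝ) 1 := Ioo_mem_nhdsLT (by norm_num)
  obtain ⟨s, ⟨hs1, hs2⟩, hs3⟩ := ((e1.and e2).and e3).exists
  obtain ⟨u', hu', gu', -, -⟩ := H _ (mem_ball_iff_norm.1 hs2)
  have m1 := hd' u' (mem_closedBall.2 ((mem_ball.1 hu').le.trans
    (hρ'.le.trans (min_le_left _ _))))
  have gus : Good X (X us + s • (t • η - X us)) us := by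
    refine ⟨Crit_center hc s, fun v hv => ?_⟩
    rw [HH_center]
    have a1 := GG_pos h hus hv
    have a2 := hn v
    have a3 : 0 < (1 - s) * GG X us v v := mul_pos (by linarith [hs3.2]) a1
    have a4 : 0 ≤ s * HH X (t • η) us v v := mul_nonneg hs3.1.le a2
    linarith
  have heq : us = u' := uniq h hs1 hus m1.1 lev m1.2 gus gu'
  have hfin : ‖us‖ < ‖us‖ := by
    calc ‖us‖ = dist u' 0 := by rw [← heq, dist_zero_right]
      _ < ρ := mem_ball.1 hu'
      _ < min d ‖us‖ := hρ'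
      _ ≤ ‖us‖ := min_le_right _ _
  exact lt_irrefl _ hfin

end MPf7aa
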