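import Pool.Agent.Lib.MP_f7aa1b_gt.I12
import Pool.Agent.Lib.MP_f7aa1b_gt.M2
import Pool.Agent.Lib.MP_f7aa1b_gt.M3

/-!
Row I13. Proposition FF for Core. Proof: by contradiction; crit_data (M2) gives us, t; if HH X (t eta) us >= 0
apply caseII (M3), otherwise caseI_exists (I1) and caseI_false (I12).
-/

open Set Filter Topology Metric MeasureTheory
open scoped ContDiff

namespace MPf7aa

theorem ff_core {m : ℕ} {X : E m → E (m + 1)} {U : Set (E m)} {R r0 : ℝ} {η : E (m + 1)}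
    {σ : ℝ} {P Bad : Set (E (m + 1))} (h : Core X U R r0 η σ P Bad) {u : E m}
    (hu : u ∈ closedBall (0 : E m) R) (hl : LL X 0 u < r0 ^ 2 / 2) :
    inner ℝ (X u) η ≤ (1 / σ) * LL X 0 u := by
  by_contra hcon
  have hbig : (1 / σ) * LL X 0 u < inner ℝ (X u) η := not_le.mp hcon
  obtain ⟨us, hus, h0, lev, t, t0, tσ, hc, hmin⟩ := crit_data h hu hl hbig
  by_cases hn : ∀ v, 0 ≤ HH X (t • η) us v v
  · exact caseII h hus h0 lev t0 tσ hc hn
  · obtain ⟨s1, e, hI⟩ := caseI_exists h hus h0 lev t0 tσ hc hmin hn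
    exact caseI_false hI

end MPf7aa
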