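import Pool.Agent.Lib.MP_f7aa1b_gt.B9
import Pool.Agent.Lib.MP_f7aa1b_gt.I13

/-!
Row B10. Proposition FF for a Patch (no normalisation of X 0).
Proof. Apply core_of_patch and ff_core (I13) to X' = X - X 0 (fderiv, II, GG, Kap, Patch, DHyp unchanged, by
fderiv_sub_const). For u near 0: u in closedBall 0 R and LL X' 0 u < r0^2/2 (continuity, LL_zero), so
<X u - X 0, xi 0> <= Kap 0 * |X u - X 0|^2/2.
-/

open Set Filter Topology Metric MeasureTheory
open scoped ContDiff

namespace MPf7aa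

theorem ff_patch {m : ℕ} (hm : 0 < m) {U : Set (E m)} {X ξ : E m → E (m + 1)}
    (h : Patch U X ξ) (hD : DHyp U X ξ) (h0 : (0 : E m) ∈ U) (hk : 0 < Kap X ξ 0) :
    ∀ᶠ u in 𝓝 (0 : E m),
      inner ℝ (X u - X 0) (ξ 0) ≤ Kap X ξ 0 * ((1 / 2) * ‖X u - X 0‖ ^ 2) := by
  obtain ⟨X', hX'⟩ : ∃ X' : E m → E (m + 1), X' = fun u => X u - X 0 := ⟨_, rfl⟩
  have hfd : fderiv ℝ X' = fderiv ℝ X := by
    funext u
    rw [hX', fderiv_sub_const]
  have hKap : ∀ u, Kap X' ξ u = Kap X ξ u := by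
    intro u
    simp only [Kap, II, GG, hfd]
  have hP : Patch U X' ξ :=
    { op := h.op
      cX := by rw [hX']; exact h.cX.sub contDiffOn_const
      cξ := h.cξ
      unit := h.unit
      perp := fun u hu v => by rw [hfd]; exact h.perp u hu v
      imm := fun u hu => by rw [hfd]; exact h.imm u hu }
  have hD' : DHyp U X' ξ := by
    unfold DHyp
    simp only [hfd, hKap]
    exact hD
  obtain ⟨R, r0, P, Bad, hC⟩ := core_of_patch hm hP hD' h0 (by rw [hX']; simp)
    (by rw [hKap]; exact hk)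
  have e1 : ∀ᶠ u in 𝓝 (0 : E m), u ∈ closedBall (0 : E m) R :=
    closedBall_mem_nhds 0 hC.hR
  have hX0 : ContinuousAt X' 0 :=
    (hC.cX.continuousOn.continuousAt (hC.op.mem_nhds h0))
  have hLc : ContinuousAt (fun u => LL X' 0 u) 0 := by
    unfold LL
    exact continuousAt_const.mul (((hX0.sub continuousAt_const).norm).pow 2)
  have hr : (0 : ℝ) < r0 ^ 2 / 2 := by
    have := hC.hr0
    positivity
  have e2 : ∀ᶠ u in 𝓝 (0 : E m), LL X' 0 u < r0 ^ 2 / 2 := by
    have h1 : LL X' 0 0 < r0 ^ 2 / 2 := by rw [LL_zero hC]; exact hr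
    exact hLc.eventually (gt_mem_nhds h1)
  filter_upwards [e1, e2] with u hu1 hu2
  have hfin := ff_core hC hu1 hu2
  rw [hKap] at hfin
  simp only [LL, sub_zero, one_div, inv_inv] at hfin
  rw [hX'] at hfin
  simpa [one_div] using hfin

end MPf7aa
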