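import Pool.Agent.Lib.MP_f7aa1b_gt.B1

/-!
Row B2. Critical points of L_p on a Patch.
crit_form: p - X u is orthogonal to the range of dX u; y = p - X u - <p - X u, xi> xi is orthogonal to xi (unit)
and to the range (perp), so y = 0 by eq_zero_of_perp. crit_of_form: <dX v, X u - (X u + s xi)> = 0 by perp.
HH_form: X u - (X u + s xi) = - s xi and II_second (with II_symm).
-/

open Set Filter Topology Metric MeasureTheory
open scoped ContDiff

namespace MPf7aa

theorem crit_form {m : ℕ} {U : Set (E m)} {X ξ : E m → E (m + 1)} (h : Patch U X ξ) {u : E m}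
    (hu : u ∈ U) {p : E (m + 1)} (hc : Crit X p u) :
    p = X u + (inner ℝ (p - X u) (ξ u) : ℝ) • ξ u := by
  have hξξ : (inner ℝ (ξ u) (ξ u) : ℝ) = 1 := by
    rw [real_inner_self_eq_norm_sq, h.unit u hu]; norm_num
  have h0 : p - X u - (inner ℝ (p - X u) (ξ u) : ℝ) • ξ u = 0 := by
    apply eq_zero_of_perp h hu
    · rw [inner_sub_left, real_inner_smul_left, hξξ, mul_one, sub_self]
    · intro v
      have h1 := hc v
      rw [← neg_sub p (X u), inner_neg_right] at h1
      rw [inner_sub_right, real_inner_smul_right, h.perp u hu, mul_zero, sub_zero]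
      linarith
  have h1 := sub_eq_zero.mp h0
  rw [← h1]
  abel

theorem crit_of_form {m : ℕ} {U : Set (E m)} {X ξ : E m → E (m + 1)} (h : Patch U X ξ) {u : E m}
    (hu : u ∈ U) (s : ℝ) : Crit X (X u + s • ξ u) u := by
  intro v
  have h1 : X u - (X u + s • ξ u) = -(s • ξ u) := by abel
  rw [h1, inner_neg_right, real_inner_smul_right, h.perp u hu, mul_zero, neg_zero]

theorem HH_form {m : ℕ} {U : Set (E m)} {X ξ : E m → E (m + 1)} (h : Patch U X ξ) {u : E m}
    (hu : u ∈ U) (s : ℝ) (v w : E m) :
    HH X (X u + s • ξ u) u v w = GG X u v w - s * II X ξ u v w := by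
  have h1 : X u - (X u + s • ξ u) = -(s • ξ u) := by abel
  unfold HH GG
  rw [h1, inner_neg_right, real_inner_smul_right, II_second h hu, II_symm h hu w v]
  ring

end MPf7aa
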