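import Pool.Agent.Lib.MP_f7aa1b_gt.Core

/-!
Row I0. Linear algebra: a pencil of two symmetric bilinear forms G > 0 and H on E m, m > 0.
pencil_max: the continuous function v -> H v v / G v v attains its maximum kap on the compact unit sphere
(nonempty as m > 0) at e. By homogeneity H v v <= kap G v v for all v. The form K = kap G - H is >= 0
and K e e = 0, so psd_null gives K e v = 0 for all v.
psd_null: for real t, 0 <= K (e + t v) (e + t v) = 2 t K e v + t^2 K v v, so K e v = 0.
pencil_min: apply pencil_max to - H.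
-/

open Set Filter Topology Metric MeasureTheory
open scoped ContDiff

namespace MPf7aa

/-- symmetric bilinear form on E m given as a function, with continuous quadratic form -/
structure BForm {m : ℕ} (B : E m → E m → ℝ) : Prop where
  symm : ∀ a b, B a b = B b a
  add : ∀ a b c, B (a + b) c = B a c + B b c
  smul : ∀ (r : ℝ) a c, B (r • a) c = r * B a c
  cont : Continuous fun v => B v v

theorem psd_null {m : ℕ} {B : E m → E m → ℝ} (hB : BForm B) (hn : ∀ v, 0 ≤ B v v) {e : E m}
    (he : B e e = 0) (v : E m) : B e v = 0 := by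
  have key : ∀ t : ℝ, 0 ≤ 2 * t * B e v + t ^ 2 * B v v := by
    intro t
    have h1 := hn (e + t • v)
    have h2 : B (e + t • v) (e + t • v) = B e e + 2 * t * B e v + t ^ 2 * B v v := by
      rw [hB.add, hB.smul, hB.symm e (e + t • v), hB.symm v (e + t • v), hB.add, hB.add, hB.smul,
        hB.smul, hB.symm v e]
      ring
    rw [h2, he, zero_add] at h1
    exact h1
  by_contra hne
  have hv := hn v
  -- take t = - B e v / (B v v + 1)
  have hd : 0 < B v v + 1 := by linarith
  have h1 := key (- B e v / (B v v + 1))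
  have h2 : 2 * (- B e v / (B v v + 1)) * B e v + (- B e v / (B v v + 1)) ^ 2 * B v v
      = - (B e v ^ 2 * (B v v + 2)) / (B v v + 1) ^ 2 := by
    field_simp
    ring
  rw [h2] at h1
  have h3 : 0 < B e v ^ 2 * (B v v + 2) := mul_pos (by positivity) (by linarith)
  have h4 : - (B e v ^ 2 * (B v v + 2)) / (B v v + 1) ^ 2 < 0 :=
    div_neg_of_neg_of_pos (by linarith) (by positivity)
  linarith

theorem pencil_max {m : ℕ} (hm : 0 < m) {G H : E m → E m → ℝ} (hG : BForm G) (hH : BForm H)
    (pos : ∀ v, v ≠ 0 → 0 < G v v) :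
    ∃ (κ : ℝ) (e : E m), ‖e‖ = 1 ∧ (∀ v, H e v = κ * G e v) ∧ ∀ v, H v v ≤ κ * G v v := by
  have hnt : Nontrivial (E m) := by
    have : Nonempty (Fin m) := ⟨⟨0, hm⟩⟩
    infer_instance
  have hne : (sphere (0 : E m) 1).Nonempty := NormedSpace.sphere_nonempty.2 zero_le_one
  have hGs : ∀ v ∈ sphere (0 : E m) 1, G v v ≠ 0 := fun v hv =>
    (pos v (ne_zero_of_mem_unit_sphere ⟨v, hv⟩)).ne'
  have hc : ContinuousOn (fun v => H v v / G v v) (sphere (0 : E m) 1) :=
    hH.cont.continuousOn.div hG.cont.continuousOn hGs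
  obtain ⟨e, he, hmax⟩ := (isCompact_sphere (0 : E m) 1).exists_isMaxOn hne hc
  have hen : ‖e‖ = 1 := by simpa using he
  have hGe : 0 < G e e := pos e (ne_zero_of_mem_unit_sphere ⟨e, he⟩)
  have hsc : ∀ (B : E m → E m → ℝ), BForm B → ∀ (r : ℝ) (v : E m),
      B (r • v) (r • v) = r ^ 2 * B v v := by
    intro B hB r v
    rw [hB.smul, hB.symm, hB.smul]
    ring
  have hle : ∀ v, H v v ≤ (H e e / G e e) * G v v := by
    intro v
    by_cases hv : v = 0
    · have h0 : ∀ (B : E m → E m → ℝ), BForm B → B 0 0 = 0 := by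
        intro B hB
        have := hsc B hB 0 0
        simpa using this
      rw [hv, h0 H hH, h0 G hG, mul_zero]
    · have hvn : ‖v‖ ≠ 0 := norm_ne_zero_iff.2 hv
      have h1 : ‖v‖⁻¹ • v ∈ sphere (0 : E m) 1 := by
        rw [mem_sphere_zero_iff_norm, norm_smul, norm_inv, norm_norm, inv_mul_cancel₀ hvn]
      have h2 : H (‖v‖⁻¹ • v) (‖v‖⁻¹ • v) / G (‖v‖⁻¹ • v) (‖v‖⁻¹ • v) ≤ H e e / G e e := hmax h1
      rw [hsc H hH, hsc G hG, mul_div_mul_left _ _ (by positivity)] at h2
      exact (div_le_iff₀ (pos v hv)).1 h2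
  refine ⟨H e e / G e e, e, hen, ?_, hle⟩
  intro v
  have hK : BForm (fun a b => (H e e / G e e) * G a b - H a b) :=
    { symm := fun a b => by rw [hG.symm a b, hH.symm a b]
      add := fun a b c => by rw [hG.add, hH.add]; ring
      smul := fun r a c => by rw [hG.smul, hH.smul]; ring
      cont := (continuous_const.mul hG.cont).sub hH.cont }
  have := psd_null hK (fun v => sub_nonneg.2 (hle v)) (e := e)
    (by rw [div_mul_cancel₀ _ hGe.ne', sub_self]) v
  linarith

theorem pencil_min {m : ℕ} (hm : 0 < m) {G H : E m → E m → ℝ} (hG : BForm G) (hH : BForm H)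
    (pos : ∀ v, v ≠ 0 → 0 < G v v) :
    ∃ (κ : ℝ) (e : E m), ‖e‖ = 1 ∧ (∀ v, H e v = κ * G e v) ∧ ∀ v, κ * G v v ≤ H v v := by
  have hH' : BForm (fun a b => - H a b) :=
    { symm := fun a b => by rw [hH.symm a b]
      add := fun a b c => by rw [hH.add]; ring
      smul := fun r a c => by rw [hH.smul]; ring
      cont := hH.cont.neg }
  obtain ⟨κ, e, h1, h2, h3⟩ := pencil_max hm hG hH' pos
  refine ⟨-κ, e, h1, fun v => ?_, fun v => ?_⟩
  · have := h2 v
    linarith
  · have := h3 v
    linarith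

end MPf7aa
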