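import Pool.Agent.Lib.MP_f7aa1b_gt.B2
import Pool.Agent.Lib.MP_f7aa1b_gt.I0

/-!
Row B3. The largest principal curvature (m > 0). GG X u, II X xi u are BForms (II_symm), GG > 0 (imm).
pencil_max gives kap, e (|e| = 1) with II e v = kap GG e v, II v v <= kap GG v v. So the set of quotients over the
unit sphere has greatest element kap (attained at e), hence Kap X xi u = kap (IsGreatest.csSup_eq).
kernel_of_II: if II v w = k GG v w for all w then y = dxi v + k dX v satisfies <dX w, y> = 0 (II_symm / II is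
- <dX w, dxi v>) and <y, xi> = 0 (unit_deriv, perp), so y = 0 (eq_zero_of_perp). Conversely direct.
Kap_ge: if dxi v + k dX v = 0, v != 0, then II v v = k GG v v (II_symm), so k <= Kap.
-/

open Set Filter Topology Metric MeasureTheory
open scoped ContDiff

namespace MPf7aa

theorem B3_GG_pos {m : ℕ} {U : Set (E m)} {X ξ : E m → E (m + 1)} (h : Patch U X ξ)
    {u : E m} (hu : u ∈ U) (v : E m) (hv : v ≠ 0) : 0 < GG X u v v := by
  unfold GG
  rw [real_inner_self_eq_norm_sq]
  have h1 : fderiv ℝ X u v ≠ 0 := by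
    intro h2
    exact hv (h.imm u hu (by rw [h2, map_zero]))
  have h3 := norm_pos_iff.mpr h1
  positivity

theorem B3_GG_form {m : ℕ} {X : E m → E (m + 1)} {u : E m} : BForm (fun v w => GG X u v w) := by
  refine ⟨?_, ?_, ?_, ?_⟩
  · intro a b
    exact real_inner_comm _ _
  · intro a b c
    show (inner ℝ (fderiv ℝ X u (a + b)) (fderiv ℝ X u c) : ℝ) = _
    rw [map_add, inner_add_left]
    rfl
  · intro r a c
    show (inner ℝ (fderiv ℝ X u (r • a)) (fderiv ℝ X u c) : ℝ) = _
    rw [map_smul, real_inner_smul_left]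
    rfl
  · show Continuous (fun v => (inner ℝ (fderiv ℝ X u v) (fderiv ℝ X u v) : ℝ))
    exact (fderiv ℝ X u).continuous.inner (fderiv ℝ X u).continuous

theorem B3_II_form {m : ℕ} {U : Set (E m)} {X ξ : E m → E (m + 1)} (h : Patch U X ξ)
    {u : E m} (hu : u ∈ U) : BForm (fun v w => II X ξ u v w) := by
  refine ⟨?_, ?_, ?_, ?_⟩
  · intro a b
    exact II_symm h hu a b
  · intro a b c
    show -(inner ℝ (fderiv ℝ X u (a + b)) (fderiv ℝ ξ u c) : ℝ) =
      -(inner ℝ (fderiv ℝ X u a) (fderiv ℝ ξ u c) : ℝ) + -(inner ℝ (fderiv ℝ X u b) (fderiv ℝ ξ u c) : ℝ)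
    rw [map_add, inner_add_left]
    ring
  · intro r a c
    show -(inner ℝ (fderiv ℝ X u (r • a)) (fderiv ℝ ξ u c) : ℝ) =
      r * -(inner ℝ (fderiv ℝ X u a) (fderiv ℝ ξ u c) : ℝ)
    rw [map_smul, real_inner_smul_left]
    ring
  · show Continuous (fun v => -(inner ℝ (fderiv ℝ X u v) (fderiv ℝ ξ u v) : ℝ))
    exact ((fderiv ℝ X u).continuous.inner (fderiv ℝ ξ u).continuous).neg

theorem Kap_spec {m : ℕ} (hm : 0 < m) {U : Set (E m)} {X ξ : E m → E (m + 1)} (h : Patch U X ξ)
    {u : E m} (hu : u ∈ U) :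
    (∃ e : E m, ‖e‖ = 1 ∧ ∀ v, II X ξ u e v = Kap X ξ u * GG X u e v) ∧
      ∀ v, II X ξ u v v ≤ Kap X ξ u * GG X u v v := by
  obtain ⟨κ, e, he, h1, h2⟩ := pencil_max hm (B3_GG_form (X := X) (u := u)) (B3_II_form h hu)
    (B3_GG_pos h hu)
  have hK : Kap X ξ u = κ := by
    unfold Kap
    refine IsGreatest.csSup_eq ⟨?_, ?_⟩
    · refine ⟨e, by simp [he], ?_⟩
      have he0 : e ≠ 0 := by
        rintro rfl
        rw [norm_zero] at he
        exact zero_ne_one he
      have h3 := h1 e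
      have h4 := B3_GG_pos h hu e he0
      show II X ξ u e e / GG X u e e = κ
      rw [div_eq_iff h4.ne']
      exact h3
    · rintro _ ⟨v, hv, rfl⟩
      have hv0 : v ≠ 0 := by
        rintro rfl
        rw [mem_sphere_iff_norm, sub_self, norm_zero] at hv
        exact zero_ne_one hv
      have h4 := B3_GG_pos h hu v hv0
      show II X ξ u v v / GG X u v v ≤ κ
      rw [div_le_iff₀ h4]
      exact h2 v
  rw [hK]
  exact ⟨⟨e, he, h1⟩, h2⟩

theorem kernel_iff {m : ℕ} {U : Set (E m)} {X ξ : E m → E (m + 1)} (h : Patch U X ξ)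
    {u : E m} (hu : u ∈ U) (k : ℝ) (v : E m) :
    (∀ w, II X ξ u v w = k * GG X u v w) ↔ fderiv ℝ ξ u v + k • fderiv ℝ X u v = 0 := by
  constructor
  · intro h1
    refine eq_zero_of_perp h hu ?_ ?_
    · rw [inner_add_left, real_inner_smul_left, unit_deriv h hu v, h.perp u hu v, mul_zero, add_zero]
    · intro w
      have h2 := h1 w
      rw [II_symm h hu v w] at h2
      unfold II GG at h2
      rw [inner_add_right, real_inner_smul_right, real_inner_comm (fderiv ℝ X u v) (fderiv ℝ X u w)]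
      linarith
  · intro h1 w
    rw [II_symm h hu v w]
    unfold II GG
    have h2 : (inner ℝ (fderiv ℝ X u w) (fderiv ℝ ξ u v + k • fderiv ℝ X u v) : ℝ) = 0 := by
      rw [h1, inner_zero_right]
    rw [inner_add_right, real_inner_smul_right, real_inner_comm (fderiv ℝ X u v) (fderiv ℝ X u w)] at h2
    linarith

theorem Kap_ge {m : ℕ} (hm : 0 < m) {U : Set (E m)} {X ξ : E m → E (m + 1)} (h : Patch U X ξ)
    {u : E m} (hu : u ∈ U) {k : ℝ} {v : E m} (hv : v ≠ 0)
    (hk : fderiv ℝ ξ u v + k • fderiv ℝ X u v = 0) : k ≤ Kap X ξ u := by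
  have h1 := (kernel_iff h hu k v).mpr hk v
  have h2 := (Kap_spec hm h hu).2 v
  rw [h1] at h2
  exact le_of_mul_le_mul_right h2 (B3_GG_pos h hu v hv)

end MPf7aa
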