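import Pool.Agent.Lib.MP_f7aa1b_gt.B3

/-!
Row B4. Kap is Lipschitz on a closed ball B in U (m > 0).
Proof. On the compact convex set B the maps X, xi and their derivatives are bounded and Lipschitz, and
GG X u v v >= c |v|^2 (compactness and injectivity). For a unit vector v the quotient
r_v(u) = II X xi u v v / GG X u v v is Lipschitz on B with a constant L independent of v. By Kap_spec
Kap u = max_v r_v(u) (attained at a unit vector): with e for u: Kap u = r_e(u) <= r_e(w) + L|u-w| <= Kap w + L |u-w|.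
-/

open Set Filter Topology Metric MeasureTheory
open scoped ContDiff

namespace MPf7aa

theorem B4_lip {m : ℕ} {F : Type*} [NormedAddCommGroup F] [NormedSpace ℝ F] {U : Set (E m)}
    {f : E m → F} (hU : IsOpen U) (hf : ContDiffOn ℝ 1 f U) {a : E m} {R : ℝ}
    (hR : closedBall a R ⊆ U) : ∃ M K : ℝ, 0 ≤ M ∧ 0 ≤ K ∧ (∀ u ∈ closedBall a R, ‖f u‖ ≤ M) ∧
      ∀ u ∈ closedBall a R, ∀ w ∈ closedBall a R, ‖f u - f w‖ ≤ K * ‖u - w‖ := by
  obtain ⟨M, hM⟩ := (isCompact_closedBall a R).exists_bound_of_continuousOn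
    (hf.continuousOn.mono hR)
  obtain ⟨K, hK⟩ := (isCompact_closedBall a R).exists_bound_of_continuousOn
    ((hf.continuousOn_fderiv_of_isOpen hU le_rfl).mono hR)
  refine ⟨max M 0, max K 0, le_max_right _ _, le_max_right _ _,
    fun u hu => (hM u hu).trans (le_max_left _ _), fun u hu w hw => ?_⟩
  refine (convex_closedBall a R).norm_image_sub_le_of_norm_fderiv_le (𝕜 := ℝ) (f := f)
    (C := max K 0) (fun x hx => ?_) (fun x hx => (hK x hx).trans (le_max_left _ _)) hw hu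
  exact (hf.contDiffAt (hU.mem_nhds (hR hx))).differentiableAt (by norm_num)

theorem Kap_lipschitz {m : ℕ} (hm : 0 < m) {U : Set (E m)} {X ξ : E m → E (m + 1)}
    (h : Patch U X ξ) {a : E m} {R : ℝ} (hR : closedBall a R ⊆ U) :
    ∃ L : NNReal, LipschitzOnWith L (Kap X ξ) (closedBall a R) := by
  have hF : ContDiffOn ℝ 1 (fderiv ℝ X) U := h.cX.fderiv_of_isOpen h.op (by norm_cast)
  have hG : ContDiffOn ℝ 1 (fderiv ℝ ξ) U := h.cξ.fderiv_of_isOpen h.op (by norm_cast)
  obtain ⟨M1, K1, hM10, hK10, hM1, hK1⟩ := B4_lip h.op hF hR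
  obtain ⟨M2, K2, hM20, hK20, hM2, hK2⟩ := B4_lip h.op hG hR
  rcases (closedBall a R).eq_empty_or_nonempty with hemp | hne
  · exact ⟨0, by rw [hemp]; exact fun x hx => absurd hx (Set.notMem_empty x)⟩
  -- lower bound of the first fundamental form
  have hlow : ∃ c : ℝ, 0 < c ∧ ∀ u ∈ closedBall a R, ∀ v : E m, ‖v‖ = 1 → c ≤ GG X u v v := by
    have hcomp : IsCompact ((closedBall a R) ×ˢ (sphere (0 : E m) 1)) :=
      (isCompact_closedBall a R).prod (isCompact_sphere _ _)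
    have hne2 : ((closedBall a R) ×ˢ (sphere (0 : E m) 1)).Nonempty := by
      refine hne.prod ?_
      have : Nonempty (Fin m) := ⟨⟨0, hm⟩⟩
      exact NormedSpace.sphere_nonempty.mpr zero_le_one
    have hcont : ContinuousOn (fun p : E m × E m => GG X p.1 p.2 p.2)
        ((closedBall a R) ×ˢ (sphere (0 : E m) 1)) := by
      have h1 : ContinuousOn (fun p : E m × E m => fderiv ℝ X p.1 p.2)
          ((closedBall a R) ×ˢ (sphere (0 : E m) 1)) := by
        refine ContinuousOn.clm_apply ?_ continuousOn_snd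
        exact (hF.continuousOn.mono hR).comp continuousOn_fst fun p hp => hp.1
      exact h1.inner h1
    obtain ⟨p, hp, hmin⟩ := hcomp.exists_isMinOn hne2 hcont
    have hp2 : p.2 ≠ 0 := by
      have := hp.2
      rw [mem_sphere_zero_iff_norm] at this
      intro h0
      rw [h0, norm_zero] at this
      exact zero_ne_one this
    refine ⟨GG X p.1 p.2 p.2, ?_, fun u hu v hv => ?_⟩
    · have h1 : fderiv ℝ X p.1 p.2 ≠ 0 := by
        intro h2
        exact hp2 (h.imm p.1 (hR hp.1) (by rw [h2, map_zero]))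
      unfold GG
      rw [real_inner_self_eq_norm_sq]
      exact pow_pos (norm_pos_iff.mpr h1) 2
    · exact hmin (show (u, v) ∈ _ from ⟨hu, by rw [mem_sphere_zero_iff_norm]; exact hv⟩)
  obtain ⟨c, hc, hlow⟩ := hlow
  have hGGd : ∀ u ∈ closedBall a R, ∀ w ∈ closedBall a R, ∀ v : E m, ‖v‖ = 1 →
      |GG X u v v - GG X w v v| ≤ (2 * M1 * K1) * ‖u - w‖ := by
    intro u hu w hw v hv
    unfold GG
    have e1 : (inner ℝ (fderiv ℝ X u v) (fderiv ℝ X u v) : ℝ) -
        inner ℝ (fderiv ℝ X w v) (fderiv ℝ X w v) =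
        inner ℝ ((fderiv ℝ X u - fderiv ℝ X w) v) (fderiv ℝ X u v) +
        inner ℝ (fderiv ℝ X w v) ((fderiv ℝ X u - fderiv ℝ X w) v) := by
      rw [sub_apply, inner_sub_left, inner_sub_right]
      ring
    rw [e1]
    have a1 : ‖(fderiv ℝ X u - fderiv ℝ X w) v‖ ≤ K1 * ‖u - w‖ := by
      refine (ContinuousLinearMap.le_opNorm _ _).trans ?_
      rw [hv, mul_one]
      exact hK1 u hu w hw
    have a2 : ∀ u ∈ closedBall a R, ‖fderiv ℝ X u v‖ ≤ M1 := by
      intro u hu
      refine (ContinuousLinearMap.le_opNorm _ _).trans ?_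
      rw [hv, mul_one]
      exact hM1 u hu
    have b1 := (abs_real_inner_le_norm ((fderiv ℝ X u - fderiv ℝ X w) v) (fderiv ℝ X u v)).trans
      (mul_le_mul a1 (a2 u hu) (norm_nonneg _) (by positivity))
    have b2 := (abs_real_inner_le_norm (fderiv ℝ X w v) ((fderiv ℝ X u - fderiv ℝ X w) v)).trans
      (mul_le_mul (a2 w hw) a1 (norm_nonneg _) hM10)
    refine (abs_add_le _ _).trans ?_
    nlinarith
  have hIId : ∀ u ∈ closedBall a R, ∀ w ∈ closedBall a R, ∀ v : E m, ‖v‖ = 1 →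
      |II X ξ u v v - II X ξ w v v| ≤ (M2 * K1 + M1 * K2) * ‖u - w‖ := by
    intro u hu w hw v hv
    unfold II
    have e1 : -(inner ℝ (fderiv ℝ X u v) (fderiv ℝ ξ u v) : ℝ) -
        -inner ℝ (fderiv ℝ X w v) (fderiv ℝ ξ w v) =
        -(inner ℝ ((fderiv ℝ X u - fderiv ℝ X w) v) (fderiv ℝ ξ u v) +
        inner ℝ (fderiv ℝ X w v) ((fderiv ℝ ξ u - fderiv ℝ ξ w) v)) := by
      rw [sub_apply, sub_apply, inner_sub_left,
        inner_sub_right]
      ring
    rw [e1, abs_neg]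
    have a1 : ‖(fderiv ℝ X u - fderiv ℝ X w) v‖ ≤ K1 * ‖u - w‖ := by
      refine (ContinuousLinearMap.le_opNorm _ _).trans ?_
      rw [hv, mul_one]
      exact hK1 u hu w hw
    have a1' : ‖(fderiv ℝ ξ u - fderiv ℝ ξ w) v‖ ≤ K2 * ‖u - w‖ := by
      refine (ContinuousLinearMap.le_opNorm _ _).trans ?_
      rw [hv, mul_one]
      exact hK2 u hu w hw
    have a2 : ‖fderiv ℝ X w v‖ ≤ M1 := by
      refine (ContinuousLinearMap.le_opNorm _ _).trans ?_
      rw [hv, mul_one]
      exact hM1 w hw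
    have a3 : ‖fderiv ℝ ξ u v‖ ≤ M2 := by
      refine (ContinuousLinearMap.le_opNorm _ _).trans ?_
      rw [hv, mul_one]
      exact hM2 u hu
    have b1 := (abs_real_inner_le_norm ((fderiv ℝ X u - fderiv ℝ X w) v) (fderiv ℝ ξ u v)).trans
      (mul_le_mul a1 a3 (norm_nonneg _) (by positivity))
    have b2 := (abs_real_inner_le_norm (fderiv ℝ X w v) ((fderiv ℝ ξ u - fderiv ℝ ξ w) v)).trans
      (mul_le_mul a2 a1' (norm_nonneg _) hM10)
    refine (abs_add_le _ _).trans ?_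
    nlinarith
  -- bound of Kap
  have hKb : ∀ w ∈ closedBall a R, |Kap X ξ w| ≤ M1 * M2 / c := by
    intro w hw
    obtain ⟨⟨e, he1, he⟩, -⟩ := Kap_spec hm h (hR hw)
    have h1 := he e
    have h2 := hlow w hw e he1
    have h3 : |II X ξ w e e| ≤ M1 * M2 := by
      unfold II
      rw [abs_neg]
      refine (abs_real_inner_le_norm _ _).trans ?_
      have a2 : ‖fderiv ℝ X w e‖ ≤ M1 := by
        refine (ContinuousLinearMap.le_opNorm _ _).trans ?_
        rw [he1, mul_one]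
        exact hM1 w hw
      have a3 : ‖fderiv ℝ ξ w e‖ ≤ M2 := by
        refine (ContinuousLinearMap.le_opNorm _ _).trans ?_
        rw [he1, mul_one]
        exact hM2 w hw
      exact mul_le_mul a2 a3 (norm_nonneg _) hM10
    rw [h1, abs_mul, abs_of_pos (lt_of_lt_of_le hc h2)] at h3
    rw [le_div_iff₀ hc]
    have h4 := mul_le_mul_of_nonneg_left h2 (abs_nonneg (Kap X ξ w))
    linarith
  set Lr : ℝ := ((M1 * M2 / c) * (2 * M1 * K1) + (M2 * K1 + M1 * K2)) / c with hLr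
  have hLr0 : 0 ≤ Lr := by positivity
  refine ⟨⟨Lr, hLr0⟩, LipschitzOnWith.of_le_add_mul _ fun u hu w hw => ?_⟩
  rw [dist_eq_norm]
  show Kap X ξ u ≤ Kap X ξ w + Lr * ‖u - w‖
  obtain ⟨⟨e, he1, he⟩, -⟩ := Kap_spec hm h (hR hu)
  have h1 := he e
  have h2 := (Kap_spec hm h (hR hw)).2 e
  have h3 := hlow u hu e he1
  have h4 := abs_le.mp (hIId u hu w hw e he1)
  have h5 := hGGd u hu w hw e he1
  have h6 := hKb w hw
  have h7 : |Kap X ξ w * (GG X w e e - GG X u e e)| ≤
      (M1 * M2 / c) * ((2 * M1 * K1) * ‖u - w‖) := by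
    rw [abs_mul]
    refine mul_le_mul h6 ?_ (abs_nonneg _) (by positivity)
    rw [abs_sub_comm]
    exact h5
  have h8 := (abs_le.mp h7).2
  have hd0 : 0 ≤ ‖u - w‖ := norm_nonneg _
  -- (Kap u - Kap w) GG u ≤ c Lr d
  have h9 : (Kap X ξ u - Kap X ξ w) * GG X u e e ≤ (c * Lr) * ‖u - w‖ := by
    have e1 : c * Lr = (M1 * M2 / c) * (2 * M1 * K1) + (M2 * K1 + M1 * K2) := by
      rw [hLr]
      field_simp
    rw [e1]
    have := h4.2
    nlinarith
  by_contra hcon
  push Not at hcon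
  have h10 : Lr * ‖u - w‖ < Kap X ξ u - Kap X ξ w := by linarith
  have h11 : 0 ≤ Lr * ‖u - w‖ := by positivity
  have h12 : c * (Lr * ‖u - w‖) < GG X u e e * (Kap X ξ u - Kap X ξ w) := by
    have h13 : c * (Lr * ‖u - w‖) ≤ GG X u e e * (Lr * ‖u - w‖) :=
      mul_le_mul_of_nonneg_right h3 h11
    have h14 := mul_lt_mul_of_pos_left h10 (lt_of_lt_of_le hc h3)
    linarith
  nlinarith

end MPf7aa
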