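import Pool.Agent.Lib.MP_f7aa1b_gt.B4

/-!
Row B5. Consequences. Kap_cont: from Kap_lipschitz on a small closed ball around u.
ff_lipschitz: X, xi are Lipschitz on the ball (T7 style, or ContDiffOn on compact convex), Kap >= k0 > 0 and Lipschitz,
so 1/Kap is Lipschitz and bounded; products of bounded Lipschitz functions are Lipschitz.
-/

open Set Filter Topology Metric MeasureTheory
open scoped ContDiff

namespace MPf7aa

theorem Kap_cont {m : ℕ} (hm : 0 < m) {U : Set (E m)} {X ξ : E m → E (m + 1)}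
    (h : Patch U X ξ) {u : E m} (hu : u ∈ U) : ContinuousAt (Kap X ξ) u := by
  obtain ⟨R, hR, hRU⟩ := Metric.nhds_basis_closedBall.mem_iff.1 (h.op.mem_nhds hu)
  obtain ⟨L, hL⟩ := Kap_lipschitz hm h hRU
  exact hL.continuousOn.continuousAt (closedBall_mem_nhds u hR)

/-- a smooth map is Lipschitz on a closed ball -/
theorem B5_lip {m k : ℕ} {U : Set (E m)} (hU : IsOpen U) {X : E m → E k}
    (hX : ContDiffOn ℝ ∞ X U) {a : E m} {R : ℝ} (hR : closedBall a R ⊆ U) :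
    ∃ C : ℝ, 0 ≤ C ∧ ∀ u ∈ closedBall a R, ∀ w ∈ closedBall a R, ‖X u - X w‖ ≤ C * ‖u - w‖ := by
  have hd : ∀ u ∈ closedBall a R, DifferentiableAt ℝ X u := fun u hu =>
    (hX.contDiffAt (hU.mem_nhds (hR hu))).differentiableAt (by simp)
  have hc : ContinuousOn (fun u => fderiv ℝ X u) (closedBall a R) :=
    (hX.continuousOn_fderiv_of_isOpen hU (by simp)).mono hR
  obtain ⟨C, hC⟩ := (isCompact_closedBall a R).exists_bound_of_continuousOn hc
  refine ⟨|C|, abs_nonneg C, fun u hu w hw => ?_⟩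
  exact (convex_closedBall a R).norm_image_sub_le_of_norm_fderiv_le hd
    (fun x hx => (hC x hx).trans (le_abs_self C)) hw hu

theorem ff_lipschitz {m : ℕ} (hm : 0 < m) {U : Set (E m)} {X ξ : E m → E (m + 1)}
    (h : Patch U X ξ) {a : E m} {R k0 : ℝ} (hR : closedBall a R ⊆ U) (hk : 0 < k0)
    (hK : ∀ u ∈ closedBall a R, k0 ≤ Kap X ξ u) :
    ∃ L : NNReal, LipschitzOnWith L (ff X ξ) (closedBall a R) := by
  obtain ⟨A, hA0, hA⟩ := B5_lip h.op h.cX hR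
  obtain ⟨B, hB0, hB⟩ := B5_lip h.op h.cξ hR
  obtain ⟨L, hL⟩ := Kap_lipschitz hm h hR
  refine ⟨Real.toNNReal (A + (L / k0 ^ 2 + k0⁻¹ * B)), LipschitzOnWith.of_dist_le_mul ?_⟩
  intro u hu w hw
  have hc0 : 0 ≤ A + ((L : ℝ) / k0 ^ 2 + k0⁻¹ * B) := by positivity
  rw [Real.coe_toNNReal _ hc0, dist_eq_norm, dist_eq_norm]
  have hKu := hK u hu
  have hKw := hK w hw
  have pu : 0 < Kap X ξ u := hk.trans_le hKu
  have pw : 0 < Kap X ξ w := hk.trans_le hKw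
  have h1 : |Kap X ξ u - Kap X ξ w| ≤ L * ‖u - w‖ := by
    have := hL.dist_le_mul u hu w hw
    rwa [Real.dist_eq, dist_eq_norm] at this
  have h2 : |(Kap X ξ u)⁻¹ - (Kap X ξ w)⁻¹| ≤ L / k0 ^ 2 * ‖u - w‖ := by
    have e : (Kap X ξ u)⁻¹ - (Kap X ξ w)⁻¹ =
        (Kap X ξ w - Kap X ξ u) / (Kap X ξ u * Kap X ξ w) := by
      field_simp
    rw [e, abs_div, abs_sub_comm, abs_of_pos (mul_pos pu pw), div_mul_eq_mul_div]
    exact div_le_div₀ (by positivity) h1 (by positivity)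
      (by rw [sq]; exact mul_le_mul hKu hKw hk.le pu.le)
  have h3 : |(Kap X ξ w)⁻¹| ≤ k0⁻¹ := by
    rw [abs_of_pos (inv_pos.2 pw)]
    exact inv_anti₀ hk hKw
  have hξ : ‖ξ u‖ = 1 := h.unit u (hR hu)
  have e2 : ff X ξ u - ff X ξ w = (X u - X w) +
      (((Kap X ξ u)⁻¹ - (Kap X ξ w)⁻¹) • ξ u + (Kap X ξ w)⁻¹ • (ξ u - ξ w)) := by
    unfold ff
    rw [sub_smul, smul_sub]
    abel
  have hn := norm_nonneg (u - w)
  calc ‖ff X ξ u - ff X ξ w‖ ≤ ‖X u - X w‖ +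
        (‖((Kap X ξ u)⁻¹ - (Kap X ξ w)⁻¹) • ξ u‖ + ‖(Kap X ξ w)⁻¹ • (ξ u - ξ w)‖) := by
        rw [e2]
        exact (norm_add_le _ _).trans (add_le_add le_rfl (norm_add_le _ _))
    _ ≤ A * ‖u - w‖ + (L / k0 ^ 2 * ‖u - w‖ + k0⁻¹ * (B * ‖u - w‖)) := by
        refine add_le_add (hA u hu w hw) (add_le_add ?_ ?_)
        · rw [norm_smul, hξ, mul_one, Real.norm_eq_abs]
          exact h2
        · rw [norm_smul, Real.norm_eq_abs]
          exact mul_le_mul h3 (hB u hu w hw) (norm_nonneg _) (by positivity)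
    _ = (A + (L / k0 ^ 2 + k0⁻¹ * B)) * ‖u - w‖ := by ring

end MPf7aa
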