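import Pool.Agent.Lib.MP_f7aa1b_gt.B5

/-!
Row B6. The derivative of the first focal map is singular where Kap is differentiable (u in U, Kap u > 0, m > 0,
DHyp). Proof. W = {v | dxi v + Kap dX v = 0} is a subspace, nonzero by Kap_spec and kernel_iff. ff is
differentiable at u (product, inverse) with fderiv ff u v = dX v + Kap^-1 dxi v - (dKap v / Kap^2) xi u
= -(dKap v/Kap^2) xi u for v in W. If dKap v = 0 for some v != 0 in W: done. If W contains two linearly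
independent vectors a, b: v = dKap(b) a - dKap(a) b works (or a if both are 0). Otherwise W = R e: DHyp gives
gam, k. For t near 0, gam t in U and Kap_ge: k t <= Kap (gam t), with equality at t = 0. So
t -> Kap (gam t) - k t has a local minimum at 0; it is differentiable at 0 with derivative dKap e - 0; hence
dKap e = 0.
-/

open Set Filter Topology Metric MeasureTheory
open scoped ContDiff

namespace MPf7aa

theorem B6_ker {m : ℕ} (hm : 0 < m) {U : Set (E m)} {X ξ : E m → E (m + 1)}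
    (h : Patch U X ξ) (hD : DHyp U X ξ) {u : E m} (hu : u ∈ U)
    (hd : DifferentiableAt ℝ (Kap X ξ) u) :
    ∃ v : E m, v ≠ 0 ∧ fderiv ℝ ξ u v + Kap X ξ u • fderiv ℝ X u v = 0 ∧
      fderiv ℝ (Kap X ξ) u v = 0 := by
  obtain ⟨⟨e, he1, he⟩, -⟩ := Kap_spec hm h hu
  have heW := (kernel_iff h hu (Kap X ξ u) e).mp he
  have he0 : e ≠ 0 := by
    rintro rfl
    rw [norm_zero] at he1
    exact zero_ne_one he1
  by_cases hz : fderiv ℝ (Kap X ξ) u e = 0
  · exact ⟨e, he0, heW, hz⟩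
  by_cases hW : ∀ v, fderiv ℝ ξ u v + Kap X ξ u • fderiv ℝ X u v = 0 → ∃ c : ℝ, v = c • e
  · exfalso
    obtain ⟨γ, k, hγ0, hγ, hk0, hk, hev⟩ := hD u hu e he0 heW hW
    apply hz
    have h1 : HasDerivAt (fun t => Kap X ξ (γ t)) (fderiv ℝ (Kap X ξ) u e) 0 := by
      have h2 : HasFDerivAt (Kap X ξ) (fderiv ℝ (Kap X ξ) u) (γ 0) := by
        rw [hγ0]
        exact hd.hasFDerivAt
      exact h2.comp_hasDerivAt 0 hγ
    have h3 : HasDerivAt (fun t => Kap X ξ (γ t) - k t) (fderiv ℝ (Kap X ξ) u e - 0) 0 := h1.sub hk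
    rw [sub_zero] at h3
    refine IsLocalMin.hasDerivAt_eq_zero ?_ h3
    have hU : ∀ᶠ t in 𝓝 (0 : ℝ), γ t ∈ U := by
      refine hγ.continuousAt.eventually ?_
      rw [hγ0]
      exact h.op.mem_nhds hu
    filter_upwards [hU, hev] with t ht ⟨v, hv0, hv⟩
    have h4 := Kap_ge hm h ht hv0 hv
    show Kap X ξ (γ 0) - k 0 ≤ Kap X ξ (γ t) - k t
    rw [hγ0, hk0]
    linarith
  · push Not at hW
    obtain ⟨b, hbW, hb⟩ := hW
    refine ⟨fderiv ℝ (Kap X ξ) u b • e - fderiv ℝ (Kap X ξ) u e • b, ?_, ?_, ?_⟩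
    · intro h0
      apply hb (fderiv ℝ (Kap X ξ) u b / fderiv ℝ (Kap X ξ) u e)
      have h1 : fderiv ℝ (Kap X ξ) u e • b = fderiv ℝ (Kap X ξ) u b • e := (sub_eq_zero.mp h0).symm
      have h2 : b = (fderiv ℝ (Kap X ξ) u e)⁻¹ • (fderiv ℝ (Kap X ξ) u e • b) := by
        rw [smul_smul, inv_mul_cancel₀ hz, one_smul]
      calc b = (fderiv ℝ (Kap X ξ) u e)⁻¹ • (fderiv ℝ (Kap X ξ) u e • b) := h2
        _ = (fderiv ℝ (Kap X ξ) u e)⁻¹ • (fderiv ℝ (Kap X ξ) u b • e) := by rw [h1]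
        _ = (fderiv ℝ (Kap X ξ) u b / fderiv ℝ (Kap X ξ) u e) • e := by
            rw [smul_smul, div_eq_inv_mul]
    · rw [map_sub, map_sub, map_smul, map_smul, map_smul, map_smul]
      have e1 : fderiv ℝ (Kap X ξ) u b • fderiv ℝ ξ u e - fderiv ℝ (Kap X ξ) u e • fderiv ℝ ξ u b +
          Kap X ξ u • (fderiv ℝ (Kap X ξ) u b • fderiv ℝ X u e -
            fderiv ℝ (Kap X ξ) u e • fderiv ℝ X u b) =
          fderiv ℝ (Kap X ξ) u b • (fderiv ℝ ξ u e + Kap X ξ u • fderiv ℝ X u e) -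
          fderiv ℝ (Kap X ξ) u e • (fderiv ℝ ξ u b + Kap X ξ u • fderiv ℝ X u b) := by
        module
      rw [e1, heW, hbW, smul_zero, smul_zero, sub_zero]
    · rw [map_sub, map_smul, map_smul, smul_eq_mul, smul_eq_mul]
      ring

theorem ff_sing {m : ℕ} (hm : 0 < m) {U : Set (E m)} {X ξ : E m → E (m + 1)}
    (h : Patch U X ξ) (hD : DHyp U X ξ) {u : E m} (hu : u ∈ U) (hk : 0 < Kap X ξ u)
    (hd : DifferentiableAt ℝ (Kap X ξ) u) :
    DifferentiableAt ℝ (ff X ξ) u ∧ ∃ v : E m, v ≠ 0 ∧ fderiv ℝ (ff X ξ) u v = 0 := by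
  have hX : HasFDerivAt X (fderiv ℝ X u) u :=
    ((h.cX.contDiffAt (h.op.mem_nhds hu)).differentiableAt (by simp)).hasFDerivAt
  have hξ : HasFDerivAt ξ (fderiv ℝ ξ u) u :=
    ((h.cξ.contDiffAt (h.op.mem_nhds hu)).differentiableAt (by simp)).hasFDerivAt
  have hinv : HasFDerivAt (fun w => (Kap X ξ w)⁻¹)
      (-(Kap X ξ u ^ 2)⁻¹ • fderiv ℝ (Kap X ξ) u) u := by
    have h1 := (hasDerivAt_inv hk.ne').comp_hasFDerivAt u hd.hasFDerivAt
    exact h1
  have hff := hX.add (hinv.smul hξ)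
  have hff' : HasFDerivAt (ff X ξ) (fderiv ℝ X u + ((Kap X ξ u)⁻¹ • fderiv ℝ ξ u +
      (-(Kap X ξ u ^ 2)⁻¹ • fderiv ℝ (Kap X ξ) u).smulRight (ξ u))) u := hff
  refine ⟨hff'.differentiableAt, ?_⟩
  obtain ⟨v, hv0, hvW, hvK⟩ := B6_ker hm h hD hu hd
  refine ⟨v, hv0, ?_⟩
  rw [hff'.fderiv]
  simp only [add_apply, smul_apply,
    ContinuousLinearMap.smulRight_apply, hvK, smul_zero, zero_smul, add_zero]
  have e1 : fderiv ℝ X u v = (Kap X ξ u)⁻¹ • (Kap X ξ u • fderiv ℝ X u v) := by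
    rw [smul_smul, inv_mul_cancel₀ hk.ne', one_smul]
  rw [e1, ← smul_add, add_comm (Kap X ξ u • fderiv ℝ X u v) (fderiv ℝ ξ u v), hvW, smul_zero]

end MPf7aa
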