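import Pool.Agent.Lib.MP_f7aa1b_gt.N1

/-!
Row N2. Cylinders and cones over the image of f.
Setting: D open and bounded in E m, f Lipschitz on D, for almost every u in D f is differentiable at u and
fderiv f u has a kernel vector != 0.
null_cyl: for natural N let S_N = D x (-N, N), F (u, s) = f u - s v. F is Lipschitz on S_N; for almost every
(u, s) in S_N (product measure: Measure.ae_prod... , the bad set is (null set) x R) F is differentiable at (u,s)
with kernel vector (v0, 0). null_prod: the image is null; the set in the theorem is contained in the countable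
union of the F '' S_N, w = f u - s v.
null_cone: F (u, b) = b f u on S_N (f is bounded on D since D is bounded and f Lipschitz); if alpha > 0 and
alpha p = f u then p = b f u, b = 1/alpha; kernel vector (v0, 0) again.
-/

open Set Filter Topology Metric MeasureTheory
open scoped ContDiff

namespace MPf7aa

/-- almost every point of the product has a first coordinate with the property `hd` -/
theorem N2_ae {m : ℕ} {f : E m → E (m + 1)} {D : Set (E m)}
    (hd : ∀ᵐ u ∂(volume : Measure (E m)), u ∈ D →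
      DifferentiableAt ℝ f u ∧ ∃ v : E m, v ≠ 0 ∧ fderiv ℝ f u v = 0) :
    ∀ᵐ x ∂(volume : Measure (E m × ℝ)), x.1 ∈ D →
      DifferentiableAt ℝ f x.1 ∧ ∃ v : E m, v ≠ 0 ∧ fderiv ℝ f x.1 v = 0 := by
  rw [Measure.volume_eq_prod]
  exact Measure.quasiMeasurePreserving_fst.ae hd

theorem null_cyl {m : ℕ} {f : E m → E (m + 1)} {D : Set (E m)} (hD : IsOpen D)
    (hb : Bornology.IsBounded D) {K : NNReal} (hf : LipschitzOnWith K f D)
    (hd : ∀ᵐ u ∂(volume : Measure (E m)), u ∈ D →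
      DifferentiableAt ℝ f u ∧ ∃ v : E m, v ≠ 0 ∧ fderiv ℝ f u v = 0) (v : E (m + 1)) :
    volume {w : E (m + 1) | ∃ s : ℝ, ∃ u ∈ D, w + s • v = f u} = 0 := by
  have hL : LipschitzOnWith (K + ‖v‖₊) (fun x : E m × ℝ => f x.1 - x.2 • v) (D ×ˢ (univ : Set ℝ)) := by
    apply LipschitzOnWith.of_dist_le_mul
    rintro ⟨u, s⟩ ⟨hu, -⟩ ⟨u', s'⟩ ⟨hu', -⟩
    have h1 : dist (f u) (f u') ≤ K * dist u u' := hf.dist_le_mul u hu u' hu'
    have h2 : dist u u' ≤ dist (u, s) (u', s') := by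
      rw [Prod.dist_eq]; exact le_max_left _ _
    have h3 : dist s s' ≤ dist (u, s) (u', s') := by
      rw [Prod.dist_eq]; exact le_max_right _ _
    have h4 : dist (s • v) (s' • v) = dist s s' * ‖v‖ := by
      rw [dist_eq_norm, ← sub_smul, norm_smul, ← dist_eq_norm]
    calc dist (f u - s • v) (f u' - s' • v) ≤ dist (f u) (f u') + dist (s • v) (s' • v) :=
          dist_sub_sub_le _ _ _ _
      _ ≤ K * dist (u, s) (u', s') + dist (u, s) (u', s') * ‖v‖ := by
          rw [h4]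
          exact add_le_add (h1.trans (mul_le_mul_of_nonneg_left h2 K.2))
            (mul_le_mul_of_nonneg_right h3 (norm_nonneg _))
      _ = ((K + ‖v‖₊ : NNReal) : ℝ) * dist (u, s) (u', s') := by
          rw [NNReal.coe_add, coe_nnnorm]; ring
  have hnull : volume ((fun x : E m × ℝ => f x.1 - x.2 • v) '' (D ×ˢ (univ : Set ℝ))) = 0 := by
    refine null_prod hL ?_
    filter_upwards [N2_ae hd] with x hx hxS
    obtain ⟨h1, v0, hv0, h2⟩ := hx hxS.1
    have h3 : HasFDerivAt (fun x : E m × ℝ => f x.1 - x.2 • v)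
        ((fderiv ℝ f x.1).comp (ContinuousLinearMap.fst ℝ (E m) ℝ) -
          (ContinuousLinearMap.snd ℝ (E m) ℝ).smulRight v) x := by
      have a1 : HasFDerivAt (fun x : E m × ℝ => f x.1)
          ((fderiv ℝ f x.1).comp (ContinuousLinearMap.fst ℝ (E m) ℝ)) x :=
        h1.hasFDerivAt.comp x hasFDerivAt_fst
      have a2 : HasFDerivAt (fun x : E m × ℝ => x.2 • v)
          ((ContinuousLinearMap.snd ℝ (E m) ℝ).smulRight v) x :=
        hasFDerivAt_snd.smul_const v
      exact a1.sub a2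
    refine ⟨h3.differentiableAt, (v0, 0), fun h => hv0 (congrArg Prod.fst h), ?_⟩
    rw [h3.fderiv]
    simp [h2]
  refine measure_mono_null ?_ hnull
  rintro w ⟨s, u, hu, hw⟩
  exact ⟨(u, s), ⟨hu, mem_univ _⟩, by simp only; rw [← hw, add_sub_cancel_right]⟩

theorem null_cone {m : ℕ} {f : E m → E (m + 1)} {D : Set (E m)} (hD : IsOpen D)
    (hb : Bornology.IsBounded D) {K : NNReal} (hf : LipschitzOnWith K f D)
    (hd : ∀ᵐ u ∂(volume : Measure (E m)), u ∈ D →
      DifferentiableAt ℝ f u ∧ ∃ v : E m, v ≠ 0 ∧ fderiv ℝ f u v = 0) :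
    volume {p : E (m + 1) | ∃ α : ℝ, 0 < α ∧ ∃ u ∈ D, α • p = f u} = 0 := by
  obtain ⟨M, hM0, hM⟩ : ∃ M : ℝ, 0 ≤ M ∧ ∀ u ∈ D, ‖f u‖ ≤ M := by
    rcases D.eq_empty_or_nonempty with h | ⟨u0, hu0⟩
    · exact ⟨0, le_rfl, fun u hu => absurd hu (h ▸ notMem_empty u)⟩
    · refine ⟨‖f u0‖ + K * Metric.diam D, by positivity, fun u hu => ?_⟩
      have h1 := hf.dist_le_mul u hu u0 hu0
      have h2 : dist u u0 ≤ Metric.diam D := Metric.dist_le_diam_of_mem hb hu hu0
      have h3 : ‖f u‖ ≤ ‖f u0‖ + dist (f u) (f u0) := by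
        rw [dist_eq_norm]
        calc ‖f u‖ = ‖f u0 + (f u - f u0)‖ := by rw [add_sub_cancel]
          _ ≤ _ := norm_add_le _ _
      exact h3.trans (add_le_add le_rfl (h1.trans (mul_le_mul_of_nonneg_left h2 K.2)))
  have hL : ∀ N : ℕ, LipschitzOnWith (N * K + M.toNNReal) (fun x : E m × ℝ => x.2 • f x.1)
      (D ×ˢ Ioo (-(N : ℝ)) N) := by
    intro N
    apply LipschitzOnWith.of_dist_le_mul
    rintro ⟨u, s⟩ ⟨hu, hs⟩ ⟨u', s'⟩ ⟨hu', -⟩
    have h1 : dist (f u) (f u') ≤ K * dist u u' := hf.dist_le_mul u hu u' hu'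
    have h2 : dist u u' ≤ dist (u, s) (u', s') := by
      rw [Prod.dist_eq]; exact le_max_left _ _
    have h3 : dist s s' ≤ dist (u, s) (u', s') := by
      rw [Prod.dist_eq]; exact le_max_right _ _
    have h4 : ‖s‖ ≤ N := by
      rw [Real.norm_eq_abs]
      exact (abs_lt.2 hs).le
    have h5 : dist (s • f u) (s • f u') = ‖s‖ * dist (f u) (f u') := by
      rw [dist_eq_norm, ← smul_sub, norm_smul, ← dist_eq_norm]
    have h6 : dist (s • f u') (s' • f u') = dist s s' * ‖f u'‖ := by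
      rw [dist_eq_norm, ← sub_smul, norm_smul, ← dist_eq_norm]
    have h7 := dist_nonneg (x := (u, s)) (y := (u', s'))
    have hK0 : (0 : ℝ) ≤ K := K.2
    calc dist (s • f u) (s' • f u') ≤ dist (s • f u) (s • f u') + dist (s • f u') (s' • f u') :=
          dist_triangle _ _ _
      _ ≤ N * (K * dist (u, s) (u', s')) + dist (u, s) (u', s') * M := by
          rw [h5, h6]
          refine add_le_add (mul_le_mul h4 (h1.trans (mul_le_mul_of_nonneg_left h2 hK0)) dist_nonneg
            (Nat.cast_nonneg N)) (mul_le_mul h3 (hM u' hu') (norm_nonneg _) h7)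
      _ = ((N * K + M.toNNReal : NNReal) : ℝ) * dist (u, s) (u', s') := by
          rw [NNReal.coe_add, NNReal.coe_mul, NNReal.coe_natCast, Real.coe_toNNReal M hM0]; ring
  have hnull : ∀ N : ℕ, volume ((fun x : E m × ℝ => x.2 • f x.1) '' (D ×ˢ Ioo (-(N : ℝ)) N)) = 0 := by
    intro N
    refine null_prod (hL N) ?_
    filter_upwards [N2_ae hd] with x hx hxS
    obtain ⟨h1, v0, hv0, h2⟩ := hx hxS.1
    have h3 : HasFDerivAt (fun x : E m × ℝ => x.2 • f x.1)
        (x.2 • ((fderiv ℝ f x.1).comp (ContinuousLinearMap.fst ℝ (E m) ℝ)) +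
          (ContinuousLinearMap.snd ℝ (E m) ℝ).smulRight (f x.1)) x := by
      have a1 : HasFDerivAt (fun x : E m × ℝ => f x.1)
          ((fderiv ℝ f x.1).comp (ContinuousLinearMap.fst ℝ (E m) ℝ)) x :=
        h1.hasFDerivAt.comp x hasFDerivAt_fst
      exact hasFDerivAt_snd.smul a1
    refine ⟨h3.differentiableAt, (v0, 0), fun h => hv0 (congrArg Prod.fst h), ?_⟩
    rw [h3.fderiv]
    simp [h2]
  refine measure_mono_null (t := ⋃ N : ℕ, (fun x : E m × ℝ => x.2 • f x.1) '' (D ×ˢ Ioo (-(N : ℝ)) N))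
    ?_ (measure_iUnion_null hnull)
  rintro p ⟨α, hα, u, hu, hp⟩
  obtain ⟨N, hN⟩ := exists_nat_gt |α⁻¹|
  refine mem_iUnion.2 ⟨N, (u, α⁻¹), ⟨hu, abs_lt.1 hN⟩, ?_⟩
  simp only
  rw [← hp, smul_smul, inv_mul_cancel₀ hα.ne', one_smul]

end MPf7aa
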