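import Pool.Agent.Lib.MP_f7aa1b_gt.B6
import Pool.Agent.Lib.MP_f7aa1b_gt.N2

/-!
Row B7. Null sets for a Patch. Let closedBall a R in U, Kap >= k0 > 0 on it, m > 0. On the open ball Kap is
Lipschitz, hence almost everywhere differentiable (LipschitzOnWith.ae_differentiableWithinAt_of_mem, Rademacher;
inside the open ball within = at). ff_sing and ff_lipschitz (restricted to the open ball), then null_cyl, null_cone.
-/

open Set Filter Topology Metric MeasureTheory
open scoped ContDiff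

namespace MPf7aa

theorem B7_ae {m : ℕ} (hm : 0 < m) {U : Set (E m)} {X ξ : E m → E (m + 1)}
    (h : Patch U X ξ) (hD : DHyp U X ξ) {a : E m} {R k0 : ℝ} (hR : closedBall a R ⊆ U)
    (hk : 0 < k0) (hK : ∀ u ∈ closedBall a R, k0 ≤ Kap X ξ u) :
    ∀ᵐ u ∂(volume : Measure (E m)), u ∈ ball a R →
      DifferentiableAt ℝ (ff X ξ) u ∧ ∃ v : E m, v ≠ 0 ∧ fderiv ℝ (ff X ξ) u v = 0 := by
  obtain ⟨L, hL⟩ := Kap_lipschitz hm h hR
  have h1 := (hL.mono ball_subset_closedBall).ae_differentiableWithinAt_of_mem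
    (μ := (volume : Measure (E m)))
  filter_upwards [h1] with u hu hmem
  have h2 : DifferentiableAt ℝ (Kap X ξ) u :=
    (hu hmem).differentiableAt (isOpen_ball.mem_nhds hmem)
  exact ff_sing hm h hD (hR (ball_subset_closedBall hmem))
    (hk.trans_le (hK u (ball_subset_closedBall hmem))) h2

theorem patch_null_cyl {m : ℕ} (hm : 0 < m) {U : Set (E m)} {X ξ : E m → E (m + 1)}
    (h : Patch U X ξ) (hD : DHyp U X ξ) {a : E m} {R k0 : ℝ} (hR : closedBall a R ⊆ U)
    (hk : 0 < k0) (hK : ∀ u ∈ closedBall a R, k0 ≤ Kap X ξ u) (v : E (m + 1)) :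
    volume {w : E (m + 1) | ∃ s : ℝ, ∃ u ∈ ball a R, w + s • v = ff X ξ u} = 0 := by
  obtain ⟨L, hL⟩ := ff_lipschitz hm h hR hk hK
  exact null_cyl isOpen_ball isBounded_ball (hL.mono ball_subset_closedBall)
    (B7_ae hm h hD hR hk hK) v

theorem patch_null_cone {m : ℕ} (hm : 0 < m) {U : Set (E m)} {X ξ : E m → E (m + 1)}
    (h : Patch U X ξ) (hD : DHyp U X ξ) {a : E m} {R k0 : ℝ} (hR : closedBall a R ⊆ U)
    (hk : 0 < k0) (hK : ∀ u ∈ closedBall a R, k0 ≤ Kap X ξ u) :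
    volume {p : E (m + 1) | ∃ α : ℝ, 0 < α ∧ ∃ u ∈ ball a R, α • p = ff X ξ u} = 0 := by
  obtain ⟨L, hL⟩ := ff_lipschitz hm h hR hk hK
  exact null_cone isOpen_ball isBounded_ball (hL.mono ball_subset_closedBall)
    (B7_ae hm h hD hR hk hK)

end MPf7aa
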