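import Pool.Agent.Lib.MP_f7aa1b_gt.B3

/-!
Row B8. Degenerate critical points lie at the first focal point, if they are on the positive side.
deg_pos: s := <p - X u, xi u> > 0, p = X u + s xi (crit_form), HH = GG - s II (HH_form). There is v != 0 with
GG v v = s II v v <= s Kap GG v v, so 1 <= s Kap (GG v v > 0 by imm). With e of Kap_spec:
0 <= GG e e - s II e e = (1 - s Kap) GG e e, so s Kap <= 1. So s = Kap^-1, p = ff u, and Kap > 0.
not_deg_small: if s <= 0 and |s| |II v v| < GG v v for all v != 0 then HH v v > 0: not Deg.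
-/

open Set Filter Topology Metric MeasureTheory
open scoped ContDiff

namespace MPf7aa

theorem B8_GG_pos {m : ℕ} {U : Set (E m)} {X ξ : E m → E (m + 1)} (h : Patch U X ξ)
    {u : E m} (hu : u ∈ U) {v : E m} (hv : v ≠ 0) : 0 < GG X u v v := by
  have h1 : fderiv ℝ X u v ≠ 0 := fun h0 => hv (h.imm u hu (by rw [h0, map_zero]))
  exact real_inner_self_pos.2 h1

theorem B8_HH {m : ℕ} {U : Set (E m)} {X ξ : E m → E (m + 1)} (h : Patch U X ξ)
    {u : E m} (hu : u ∈ U) {p : E (m + 1)} (hc : Crit X p u) (v : E m) :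
    HH X p u v v = GG X u v v - (inner ℝ (p - X u) (ξ u) : ℝ) * II X ξ u v v := by
  have h1 := HH_form h hu (inner ℝ (p - X u) (ξ u) : ℝ) v v
  rw [← crit_form h hu hc] at h1
  exact h1

theorem deg_pos {m : ℕ} (hm : 0 < m) {U : Set (E m)} {X ξ : E m → E (m + 1)} (h : Patch U X ξ)
    {u : E m} (hu : u ∈ U) {p : E (m + 1)} (hd : Deg X p u)
    (hs : 0 < (inner ℝ (p - X u) (ξ u) : ℝ)) :
    p = ff X ξ u ∧ (inner ℝ (p - X u) (ξ u) : ℝ) = (Kap X ξ u)⁻¹ := by
  obtain ⟨hc, hnn, v, hv, hv0⟩ := hd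
  obtain ⟨⟨e, he, hek⟩, hle⟩ := Kap_spec hm h hu
  have hp := crit_form h hu hc
  have hHH := fun w => B8_HH h hu hc w
  generalize hsdef : (inner ℝ (p - X u) (ξ u) : ℝ) = s at hs hp hHH ⊢
  have he0 : e ≠ 0 := fun h0 => by rw [h0, norm_zero] at he; exact zero_ne_one he
  have hGv := B8_GG_pos h hu hv
  have hGe := B8_GG_pos h hu he0
  have h1 : 1 ≤ s * Kap X ξ u := by
    have a1 : GG X u v v = s * II X ξ u v v := by
      have := hHH v
      rw [hv0] at this
      linarith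
    have a2 : s * II X ξ u v v ≤ s * (Kap X ξ u * GG X u v v) :=
      mul_le_mul_of_nonneg_left (hle v) hs.le
    by_contra hlt
    have a3 : s * Kap X ξ u < 1 := not_le.1 hlt
    have a4 : s * Kap X ξ u * GG X u v v < 1 * GG X u v v := mul_lt_mul_of_pos_right a3 hGv
    linarith [mul_assoc s (Kap X ξ u) (GG X u v v)]
  have h2 : s * Kap X ξ u ≤ 1 := by
    have a1 := hnn e
    rw [hHH e, hek e] at a1
    by_contra hlt
    have a3 : 1 < s * Kap X ξ u := not_le.1 hlt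
    have a4 : 1 * GG X u e e < s * Kap X ξ u * GG X u e e := mul_lt_mul_of_pos_right a3 hGe
    linarith [mul_assoc s (Kap X ξ u) (GG X u e e)]
  have h3 : s * Kap X ξ u = 1 := le_antisymm h2 h1
  have h4 : s = (Kap X ξ u)⁻¹ := eq_inv_of_mul_eq_one_left h3
  refine ⟨?_, h4⟩
  rw [ff, ← h4]
  exact hp

theorem not_deg_small {m : ℕ} {U : Set (E m)} {X ξ : E m → E (m + 1)} (h : Patch U X ξ)
    {u : E m} (hu : u ∈ U) {p : E (m + 1)}
    (hsm : ∀ v, v ≠ 0 → |(inner ℝ (p - X u) (ξ u) : ℝ)| * |II X ξ u v v| < GG X u v v) :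
    ¬ Deg X p u := by
  rintro ⟨hc, -, v, hv, hv0⟩
  have h1 := hsm v hv
  rw [B8_HH h hu hc v] at hv0
  rw [← abs_mul] at h1
  have h2 := le_abs_self ((inner ℝ (p - X u) (ξ u) : ℝ) * II X ξ u v v)
  linarith

end MPf7aa
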