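import Pool.Agent.Lib.MP_f7aa1b_gt.T1
import Pool.Agent.Lib.MP_f7aa1b_gt.T2

/-!
Row T4. Uniform positivity near a point where the second derivative is positive definite.
Proof. On the compact set {p} x {u} x sphere the continuous function (q, w, v) -> HH X q w v v
(continuousOn_HH) is positive; by compactness of the unit sphere (tube lemma, or sequences) there are
c, delta > 0 with HH X q w v v >= c for |q - p| < delta, |w - u| < delta (also w in U), |v| = 1.
Homogeneity (HH_smul_left, HH_smul_right) gives c |v|^2 for all v. If m = 0 everything is trivial.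
-/

open Set Filter Topology Metric MeasureTheory
open scoped ContDiff

namespace MPf7aa

theorem HH_lower {m k : ℕ} {U : Set (E m)} {X : E m → E k} (hU : IsOpen U)
    (hX : ContDiffOn ℝ ∞ X U) {p : E k} {u : E m} (hu : u ∈ U)
    (hpos : ∀ v, v ≠ 0 → 0 < HH X p u v v) :
    ∃ c : ℝ, 0 < c ∧ ∃ δ : ℝ, 0 < δ ∧ ∀ p' : E k, ‖p' - p‖ < δ → ∀ w : E m, ‖w - u‖ < δ →
      w ∈ U ∧ ∀ v : E m, c * ‖v‖ ^ 2 ≤ HH X p' w v v := by
  have hg : ContinuousOn (fun z : (E k × E m) × E m => HH X z.1.1 z.1.2 z.2 z.2)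
      {z | z.1.2 ∈ U} := by
    have h1 : Continuous (fun z : (E k × E m) × E m => ((z.1.1, z.1.2, z.2, z.2) :
        E k × E m × E m × E m)) := by
      exact (continuous_fst.fst).prodMk ((continuous_fst.snd).prodMk
        (continuous_snd.prodMk continuous_snd))
    have h4 : MapsTo (fun z : (E k × E m) × E m => ((z.1.1, z.1.2, z.2, z.2) :
        E k × E m × E m × E m)) {z | z.1.2 ∈ U} {q | q.2.1 ∈ U} := by
      intro z hz
      exact hz
    have h5 := ContinuousOn.comp (continuousOn_HH hU hX) h1.continuousOn h4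
    rw [Function.comp_def] at h5
    exact h5
  have hopen : IsOpen {z : (E k × E m) × E m | z.1.2 ∈ U} :=
    hU.preimage (continuous_fst.snd)
  have hcomp : IsCompact (sphere (0 : E m) 1) := isCompact_sphere _ _
  obtain ⟨c0, hc0, hc0'⟩ : ∃ c0 : ℝ, 0 < c0 ∧ ∀ v ∈ sphere (0 : E m) 1, c0 ≤ HH X p u v v := by
    have h2 : ContinuousOn (fun v : E m => HH X p u v v) (sphere (0 : E m) 1) := by
      have h3 : Continuous (fun v : E m => (((p, u), v) : (E k × E m) × E m)) :=
        continuous_const.prodMk continuous_id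
      have h4 : MapsTo (fun v : E m => (((p, u), v) : (E k × E m) × E m))
          (sphere (0 : E m) 1) {z | z.1.2 ∈ U} := by
        intro v _
        exact hu
      have h5 := ContinuousOn.comp hg h3.continuousOn h4
      rw [Function.comp_def] at h5
      exact h5
    refine IsCompact.exists_forall_le' (f := fun v : E m => HH X p u v v) hcomp h2
      (a := (0 : ℝ)) ?_
    intro v hv
    apply hpos v
    rintro rfl
    simp at hv
  obtain ⟨A, B, hA, hB, hpA, hsB, hAB⟩ := generalized_tube_lemma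
    (s := ({(p, u)} : Set (E k × E m))) isCompact_singleton hcomp
    (hg.isOpen_inter_preimage hopen (isOpen_Ioi (a := c0 / 2))) (by
      rintro ⟨q, v⟩ ⟨hq, hv⟩
      rw [Set.mem_singleton_iff] at hq
      subst hq
      refine ⟨hu, ?_⟩
      have := hc0' v hv
      change c0 / 2 < HH X p u v v
      linarith)
  obtain ⟨δ₁, hδ₁, hA'⟩ := Metric.isOpen_iff.1 hA (p, u) (hpA rfl)
  obtain ⟨δ₂, hδ₂, hU'⟩ := Metric.isOpen_iff.1 hU u hu
  refine ⟨c0 / 2, by positivity, min δ₁ δ₂, lt_min hδ₁ hδ₂, ?_⟩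
  intro p' hp' w hw
  have hwU : w ∈ U := by
    apply hU'
    rw [mem_ball, dist_eq_norm]
    exact hw.trans_le (min_le_right _ _)
  refine ⟨hwU, fun v => ?_⟩
  rcases eq_or_ne v 0 with rfl | hv
  · have h0 : HH X p' w 0 0 = 0 := by
      have := HH_smul_left X p' w 0 0 0
      rw [zero_smul, zero_mul] at this
      exact this
    rw [h0, norm_zero]
    simp
  · have hv0 : 0 < ‖v‖ := norm_pos_iff.2 hv
    have hmem : ((p', w) : E k × E m) ∈ A := by
      apply hA'
      rw [mem_ball, Prod.dist_eq, max_lt_iff]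
      constructor
      · rw [dist_eq_norm]; exact hp'.trans_le (min_le_left _ _)
      · rw [dist_eq_norm]; exact hw.trans_le (min_le_left _ _)
    have hsph : ‖v‖⁻¹ • v ∈ B := by
      apply hsB
      rw [mem_sphere_zero_iff_norm, norm_smul, norm_inv, norm_norm, inv_mul_cancel₀ hv0.ne']
    have h3 : c0 / 2 < HH X p' w (‖v‖⁻¹ • v) (‖v‖⁻¹ • v) :=
      (hAB (Set.mk_mem_prod hmem hsph)).2
    rw [HH_smul_left, HH_smul_right] at h3
    have h4 : ‖v‖ ^ 2 * (‖v‖⁻¹ * (‖v‖⁻¹ * HH X p' w v v)) = HH X p' w v v := by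
      field_simp
    calc c0 / 2 * ‖v‖ ^ 2 = ‖v‖ ^ 2 * (c0 / 2) := mul_comm _ _
      _ ≤ ‖v‖ ^ 2 * (‖v‖⁻¹ * (‖v‖⁻¹ * HH X p' w v v)) :=
          mul_le_mul_of_nonneg_left h3.le (by positivity)
      _ = HH X p' w v v := h4

end MPf7aa
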