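import Pool.Agent.Lib.MP_f7aa1b_gt.B5
import Pool.Agent.Lib.MP_f7aa1b_gt.T4

/-!
Row B9a. Choice of the small ball. (X 0 = 0, m > 0, Kap 0 > 0.) All properties hold for all small R; take the
minimum. (1) |X u - X w| >= c|u-w| : X is C^1 at 0, HasStrictFDerivAt with injective derivative, so
antilipschitz on a neighbourhood. (2) c|v| <= |dX u v|: continuity of fderiv X at 0 and injectivity at 0.
(3) c|v|^2 <= HH X 0 u v v: T4 HH_lower at u = 0, p = 0; HH X 0 0 v v = GG X 0 v v > 0 because X 0 = 0.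
(4) Kap_cont at 0. (5) continuity of xi. (6) boundedness of fderiv X, fderiv xi on the compact ball.
-/

open Set Filter Topology Metric MeasureTheory
open scoped ContDiff

namespace MPf7aa

theorem B9a_lower {m k : ℕ} (A : E m →L[ℝ] E k) (hA : Function.Injective A) :
    ∃ c : ℝ, 0 < c ∧ ∀ v, c * ‖v‖ ≤ ‖A v‖ := by
  obtain ⟨K, hK, hanti⟩ := (A : E m →ₗ[ℝ] E k).exists_antilipschitzWith
    (LinearMap.ker_eq_bot.2 hA)
  refine ⟨(K : ℝ)⁻¹, by positivity, fun v => ?_⟩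
  have h1 := hanti.le_mul_dist v 0
  rw [dist_zero_right, map_zero, dist_zero_right] at h1
  have hK' : (0 : ℝ) < K := hK
  rw [inv_mul_le_iff₀ hK']
  exact h1

theorem B9a_anti {m k : ℕ} {X : E m → E k} {A : E m →L[ℝ] E k} (hX : HasStrictFDerivAt X A 0)
    {c : ℝ} (hc : 0 < c) (hA : ∀ v, c * ‖v‖ ≤ ‖A v‖) :
    ∃ δ : ℝ, 0 < δ ∧ ∀ u ∈ ball (0 : E m) δ, ∀ w ∈ ball (0 : E m) δ,
      c / 2 * ‖u - w‖ ≤ ‖X u - X w‖ := by
  have h1 := (hasStrictFDerivAt_iff_isLittleO.1 hX).def (half_pos hc)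
  obtain ⟨δ, hδ, h2⟩ := Metric.eventually_nhds_iff.1 h1
  refine ⟨δ, hδ, fun u hu w hw => ?_⟩
  have h3 : dist (u, w) ((0 : E m), (0 : E m)) < δ := by
    rw [Prod.dist_eq]
    exact max_lt hu hw
  have h4 := h2 h3
  simp only at h4
  have h5 := hA (u - w)
  have h6 : ‖A (u - w)‖ ≤ ‖X u - X w‖ + ‖X u - X w - A (u - w)‖ := by
    have : A (u - w) = (X u - X w) - (X u - X w - A (u - w)) := by abel
    conv_lhs => rw [this]
    exact norm_sub_le _ _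
  linarith

theorem B9a_imm {m k : ℕ} {A B : E m →L[ℝ] E k} {c : ℝ} (hA : ∀ v, c * ‖v‖ ≤ ‖A v‖)
    (hB : ‖B - A‖ < c / 2) (v : E m) : c / 2 * ‖v‖ ≤ ‖B v‖ := by
  have h1 := hA v
  have h2 : ‖(B - A) v‖ ≤ ‖B - A‖ * ‖v‖ := (B - A).le_opNorm v
  have h3 : ‖A v‖ ≤ ‖B v‖ + ‖(B - A) v‖ := by
    have : A v = B v - (B - A) v := by simp
    conv_lhs => rw [this]
    exact norm_sub_le _ _
  have h4 : ‖B - A‖ * ‖v‖ ≤ c / 2 * ‖v‖ := mul_le_mul_of_nonneg_right hB.le (norm_nonneg v)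
  linarith

theorem B9a_cont {m k : ℕ} {U : Set (E m)} {X : E m → E k} (hU : IsOpen U)
    (hX : ContDiffOn ℝ ∞ X U) (h0 : (0 : E m) ∈ U) :
    ContinuousAt (fderiv ℝ X) 0 ∧ ContinuousAt X 0 ∧ HasStrictFDerivAt X (fderiv ℝ X 0) 0 := by
  have h1 : ContDiffAt ℝ ∞ X 0 := hX.contDiffAt (hU.mem_nhds h0)
  refine ⟨?_, h1.continuousAt, h1.hasStrictFDerivAt (by simp)⟩
  exact (h1.fderiv_right (m := 0) (by simp)).continuousAt

theorem small_ball {m : ℕ} (hm : 0 < m) {U : Set (E m)} {X ξ : E m → E (m + 1)}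
    (h : Patch U X ξ) (h0 : (0 : E m) ∈ U) (hX0 : X 0 = 0) (hk : 0 < Kap X ξ 0) :
    ∃ R c K : ℝ, 0 < R ∧ 0 < c ∧ 0 < K ∧ closedBall (0 : E m) (2 * R) ⊆ U ∧
      (∀ u ∈ closedBall (0 : E m) R, ∀ w ∈ closedBall (0 : E m) R,
        c * ‖u - w‖ ≤ ‖X u - X w‖) ∧
      (∀ u ∈ closedBall (0 : E m) R, ∀ v : E m, c * ‖v‖ ≤ ‖fderiv ℝ X u v‖) ∧
      (∀ u ∈ closedBall (0 : E m) R, ∀ v : E m, c * ‖v‖ ^ 2 ≤ HH X 0 u v v) ∧
      (∀ u ∈ closedBall (0 : E m) (2 * R), Kap X ξ 0 / 2 ≤ Kap X ξ u ∧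
        Kap X ξ u ≤ 2 * Kap X ξ 0) ∧
      (∀ u ∈ closedBall (0 : E m) R, ‖ξ u - ξ 0‖ ≤ 1 / 4) ∧
      (∀ u ∈ closedBall (0 : E m) R, ∀ v : E m, |II X ξ u v v| ≤ K * ‖v‖ ^ 2) := by
  obtain ⟨hcX', hcX, hsX⟩ := B9a_cont h.op h.cX h0
  obtain ⟨hcξ', hcξ, -⟩ := B9a_cont h.op h.cξ h0
  obtain ⟨c1, hc1, hA⟩ := B9a_lower (fderiv ℝ X 0) (h.imm 0 h0)
  obtain ⟨δ1, hδ1, hanti⟩ := B9a_anti hsX hc1 hA
  have hpos : ∀ v, v ≠ 0 → 0 < HH X 0 0 v v := by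
    intro v hv
    unfold HH
    rw [hX0, sub_zero, inner_zero_right, add_zero, real_inner_self_eq_norm_sq]
    have h1 := hA v
    have h2 : 0 < ‖v‖ := norm_pos_iff.2 hv
    have h3 : 0 < ‖fderiv ℝ X 0 v‖ := lt_of_lt_of_le (by positivity) h1
    positivity
  obtain ⟨c3, hc3, δ3, hδ3, hHH⟩ := HH_lower h.op h.cX h0 hpos
  have hev : ∀ᶠ u in 𝓝 (0 : E m), u ∈ U ∧ ‖fderiv ℝ X u - fderiv ℝ X 0‖ < c1 / 2 ∧
      ‖fderiv ℝ X u - fderiv ℝ X 0‖ < 1 ∧ ‖fderiv ℝ ξ u - fderiv ℝ ξ 0‖ < 1 ∧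
      ‖ξ u - ξ 0‖ < 1 / 4 ∧ Kap X ξ 0 / 2 < Kap X ξ u ∧ Kap X ξ u < 2 * Kap X ξ 0 := by
    have e0 : ∀ᶠ u in 𝓝 (0 : E m), u ∈ U := h.op.mem_nhds h0
    have e1 : ∀ ε : ℝ, 0 < ε → ∀ᶠ u in 𝓝 (0 : E m), ‖fderiv ℝ X u - fderiv ℝ X 0‖ < ε := by
      intro ε hε
      filter_upwards [hcX'.eventually (Metric.ball_mem_nhds _ hε)] with u hu
      rwa [← dist_eq_norm]
    have e2 : ∀ᶠ u in 𝓝 (0 : E m), ‖fderiv ℝ ξ u - fderiv ℝ ξ 0‖ < 1 := by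
      filter_upwards [hcξ'.eventually (Metric.ball_mem_nhds _ one_pos)] with u hu
      rwa [← dist_eq_norm]
    have e3 : ∀ᶠ u in 𝓝 (0 : E m), ‖ξ u - ξ 0‖ < 1 / 4 := by
      filter_upwards [hcξ.eventually (Metric.ball_mem_nhds _ (by norm_num : (0 : ℝ) < 1 / 4))]
        with u hu
      rwa [← dist_eq_norm]
    have e4 : ∀ᶠ u in 𝓝 (0 : E m), Kap X ξ u ∈ Ioo (Kap X ξ 0 / 2) (2 * Kap X ξ 0) :=
      (Kap_cont hm h h0).eventually (Ioo_mem_nhds (by linarith) (by linarith))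
    filter_upwards [e0, e1 (c1 / 2) (by linarith), e1 1 one_pos, e2, e3, e4] with u a0 a1 a2 a3 a4 a5
    exact ⟨a0, a1, a2, a3, a4, a5.1, a5.2⟩
  obtain ⟨δ, hδ, hall⟩ := Metric.eventually_nhds_iff.1 hev
  obtain ⟨R, hR, hR1, hR2, hR3⟩ : ∃ R : ℝ, 0 < R ∧ 2 * R < δ ∧ R < δ1 ∧ R < δ3 := by
    refine ⟨min δ (min δ1 δ3) / 4, by positivity, ?_, ?_, ?_⟩
    · have : min δ (min δ1 δ3) ≤ δ := min_le_left _ _
      linarith
    · have : min δ (min δ1 δ3) ≤ δ1 := (min_le_right _ _).trans (min_le_left _ _)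
      linarith
    · have : min δ (min δ1 δ3) ≤ δ3 := (min_le_right _ _).trans (min_le_right _ _)
      linarith
  have hallR : ∀ u ∈ closedBall (0 : E m) (2 * R), _ := fun u hu =>
    hall (lt_of_le_of_lt (mem_closedBall.1 hu) hR1)
  have hallR1 : ∀ u ∈ closedBall (0 : E m) R, _ := fun u hu =>
    hallR u (closedBall_subset_closedBall (by linarith) hu)
  obtain ⟨c, hc, hca, hcb⟩ : ∃ c : ℝ, 0 < c ∧ c ≤ c1 / 2 ∧ c ≤ c3 :=
    ⟨min (c1 / 2) c3, by positivity, min_le_left _ _, min_le_right _ _⟩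
  refine ⟨R, c, (‖fderiv ℝ X 0‖ + 1) * (‖fderiv ℝ ξ 0‖ + 1), hR, hc, by positivity,
    fun u hu => (hallR u hu).1, ?_, ?_, ?_, fun u hu => ⟨(hallR u hu).2.2.2.2.2.1.le,
      (hallR u hu).2.2.2.2.2.2.le⟩, fun u hu => (hallR1 u hu).2.2.2.2.1.le, ?_⟩
  · intro u hu w hw
    refine le_trans (mul_le_mul_of_nonneg_right hca (norm_nonneg _)) ?_
    exact hanti u (closedBall_subset_ball hR2 hu) w (closedBall_subset_ball hR2 hw)
  · intro u hu v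
    refine le_trans (mul_le_mul_of_nonneg_right hca (norm_nonneg _)) ?_
    exact B9a_imm hA (hallR1 u hu).2.1 v
  · intro u hu v
    refine le_trans (mul_le_mul_of_nonneg_right hcb (by positivity)) ?_
    have hu' : ‖u - 0‖ < δ3 := by
      rw [sub_zero]
      exact lt_of_le_of_lt (mem_closedBall_zero_iff.1 hu) hR3
    exact (hHH 0 (by rw [sub_self, norm_zero]; exact hδ3) u hu').2 v
  · intro u hu v
    have a := hallR1 u hu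
    have hB : ‖fderiv ℝ X u‖ ≤ ‖fderiv ℝ X 0‖ + 1 := by
      have : fderiv ℝ X u = fderiv ℝ X 0 + (fderiv ℝ X u - fderiv ℝ X 0) := by abel
      rw [this]
      refine (norm_add_le _ _).trans ?_
      linarith [a.2.2.1]
    have hB2 : ‖fderiv ℝ ξ u‖ ≤ ‖fderiv ℝ ξ 0‖ + 1 := by
      have : fderiv ℝ ξ u = fderiv ℝ ξ 0 + (fderiv ℝ ξ u - fderiv ℝ ξ 0) := by abel
      rw [this]
      refine (norm_add_le _ _).trans ?_
      linarith [a.2.2.2.1]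
    unfold II
    rw [abs_neg]
    refine (abs_real_inner_le_norm _ _).trans ?_
    have e1 : ‖fderiv ℝ X u v‖ ≤ (‖fderiv ℝ X 0‖ + 1) * ‖v‖ :=
      ((fderiv ℝ X u).le_opNorm v).trans (mul_le_mul_of_nonneg_right hB (norm_nonneg _))
    have e2 : ‖fderiv ℝ ξ u v‖ ≤ (‖fderiv ℝ ξ 0‖ + 1) * ‖v‖ :=
      ((fderiv ℝ ξ u).le_opNorm v).trans (mul_le_mul_of_nonneg_right hB2 (norm_nonneg _))
    calc ‖fderiv ℝ X u v‖ * ‖fderiv ℝ ξ u v‖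
        ≤ ((‖fderiv ℝ X 0‖ + 1) * ‖v‖) * ((‖fderiv ℝ ξ 0‖ + 1) * ‖v‖) :=
          mul_le_mul e1 e2 (norm_nonneg _) (by positivity)
      _ = (‖fderiv ℝ X 0‖ + 1) * (‖fderiv ℝ ξ 0‖ + 1) * ‖v‖ ^ 2 := by ring

end MPf7aa
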