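import Pool.Agent.Lib.MP_f7aa1b_gt.B8

/-!
Row B9b. The fields bad and focal of Core at one point u (|X u| <= r0, |xi u - xi 0| <= 1/4,
c|v| <= |dX u v|, |II| <= K|v|^2, r0 K < c^2, r0 < sigma/16 with sigma = 1/Kap 0, Kap u <= 2 Kap 0).
small: |s| <= r0 gives |s||II v v| <= r0 K|v|^2 < c^2 |v|^2 <= GG v v (v != 0), so not_deg_small.
bad_point: s = <p - X u, xi u> >= <p, xi 0> - |p|/4 - r0 >= -r0 as <p, xi 0> > |p|/2. If s <= 0 then |s| <= r0,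
contradiction. So s > 0 and deg_pos.
focal_point: c' = X u + s (t xi 0 - X u), s* = <c' - X u, xi u> = s (t <xi 0, xi u> - <X u, xi u>) >= - r0 since
<xi 0, xi u> >= 3/4 (|xi u - xi 0|^2 = 2 - 2<..> <= 1/16) and 0 < s < 1. So s* > 0, deg_pos: s* = 1/Kap u >=
sigma/2 > 8 r0, c' = X u + s* xi u (crit_form); |c'| <= r0 + s*, <c', xi 0> >= -r0 + (3/4) s* > (r0 + s*)/2.
-/

open Set Filter Topology Metric MeasureTheory
open scoped ContDiff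

namespace MPf7aa

theorem B9b_small {m : ℕ} {U : Set (E m)} {X ξ : E m → E (m + 1)} (h : Patch U X ξ)
    {r0 c K : ℝ} (hc : 0 < c) (hrK : r0 * K < c ^ 2) {u : E m} (hu : u ∈ U)
    (himm : ∀ v : E m, c * ‖v‖ ≤ ‖fderiv ℝ X u v‖)
    (hII : ∀ v : E m, |II X ξ u v v| ≤ K * ‖v‖ ^ 2) {p : E (m + 1)}
    (hs : |(inner ℝ (p - X u) (ξ u) : ℝ)| ≤ r0) (hd : Deg X p u) : False := by
  refine not_deg_small h hu ?_ hd
  intro v hv
  have hv1 : 0 < ‖v‖ := norm_pos_iff.2 hv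
  have h1 : |(inner ℝ (p - X u) (ξ u) : ℝ)| * |II X ξ u v v| ≤ r0 * (K * ‖v‖ ^ 2) :=
    mul_le_mul hs (hII v) (abs_nonneg _) ((abs_nonneg _).trans hs)
  have h2 : r0 * (K * ‖v‖ ^ 2) < c ^ 2 * ‖v‖ ^ 2 := by
    rw [← mul_assoc]
    exact mul_lt_mul_of_pos_right hrK (by positivity)
  have h3 : c ^ 2 * ‖v‖ ^ 2 ≤ GG X u v v := by
    unfold GG
    rw [real_inner_self_eq_norm_sq, ← mul_pow]
    exact pow_le_pow_left₀ (by positivity) (himm v) 2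
  linarith

theorem bad_point {m : ℕ} (hm : 0 < m) {U : Set (E m)} {X ξ : E m → E (m + 1)} (h : Patch U X ξ)
    {r0 c K : ℝ} (hr0 : 0 < r0) (hc : 0 < c) (hrK : r0 * K < c ^ 2) {u : E m} (hu : u ∈ U)
    (hXu : ‖X u‖ ≤ r0) (hξ : ‖ξ u - ξ 0‖ ≤ 1 / 4) (himm : ∀ v : E m, c * ‖v‖ ≤ ‖fderiv ℝ X u v‖)
    (hII : ∀ v : E m, |II X ξ u v v| ≤ K * ‖v‖ ^ 2) {p : E (m + 1)}
    (hp : ‖p‖ / 2 < inner ℝ p (ξ 0)) (hd : Deg X p u) : p = ff X ξ u := by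
  have hunit := h.unit u hu
  have h1 : (inner ℝ (p - X u) (ξ u) : ℝ) =
      inner ℝ p (ξ 0) + inner ℝ p (ξ u - ξ 0) - inner ℝ (X u) (ξ u) := by
    rw [inner_sub_left, inner_sub_right]; ring
  have h2 : |(inner ℝ p (ξ u - ξ 0) : ℝ)| ≤ ‖p‖ * (1 / 4) :=
    (abs_real_inner_le_norm _ _).trans (mul_le_mul_of_nonneg_left hξ (norm_nonneg _))
  have h3 : |(inner ℝ (X u) (ξ u) : ℝ)| ≤ r0 := by
    refine (abs_real_inner_le_norm _ _).trans ?_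
    rw [hunit, mul_one]; exact hXu
  have h2' := abs_le.1 h2
  have h3' := abs_le.1 h3
  have hpn := norm_nonneg p
  by_cases hs : 0 < (inner ℝ (p - X u) (ξ u) : ℝ)
  · exact (deg_pos hm h hu hd hs).1
  · exfalso
    push Not at hs
    refine B9b_small h hc hrK hu himm hII ?_ hd
    rw [abs_le]
    constructor
    · rw [h1]; linarith
    · linarith

theorem focal_point {m : ℕ} (hm : 0 < m) {U : Set (E m)} {X ξ : E m → E (m + 1)}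
    (h : Patch U X ξ) (h0 : (0 : E m) ∈ U)
    {r0 c K : ℝ} (hr0 : 0 < r0) (hc : 0 < c) (hrK : r0 * K < c ^ 2) {u : E m} (hu : u ∈ U)
    (hXu : ‖X u‖ ≤ r0) (hξ : ‖ξ u - ξ 0‖ ≤ 1 / 4) (himm : ∀ v : E m, c * ‖v‖ ≤ ‖fderiv ℝ X u v‖)
    (hII : ∀ v : E m, |II X ξ u v v| ≤ K * ‖v‖ ^ 2)
    (hk : 0 < Kap X ξ 0) (hku : Kap X ξ u ≤ 2 * Kap X ξ 0) (hrs : r0 < (Kap X ξ 0)⁻¹ / 16)
    {t : ℝ} (ht : 0 < t) {s : ℝ} (hs : 0 < s) (hs1 : s < 1)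
    (hd : Deg X (X u + s • (t • ξ 0 - X u)) u) :
    ‖X u + s • (t • ξ 0 - X u)‖ / 2 < inner ℝ (X u + s • (t • ξ 0 - X u)) (ξ 0) := by
  have hunit := h.unit u hu
  have hunit0 := h.unit 0 h0
  -- the angle
  have hang : 3 / 4 ≤ (inner ℝ (ξ 0) (ξ u) : ℝ) := by
    have e1 : ‖ξ u - ξ 0‖ ^ 2 = ‖ξ u‖ ^ 2 - 2 * inner ℝ (ξ u) (ξ 0) + ‖ξ 0‖ ^ 2 :=
      norm_sub_sq_real _ _
    rw [hunit, hunit0, real_inner_comm] at e1
    have e2 : ‖ξ u - ξ 0‖ ^ 2 ≤ (1 / 4) ^ 2 := pow_le_pow_left₀ (norm_nonneg _) hξ 2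
    linarith
  have h3 : |(inner ℝ (X u) (ξ u) : ℝ)| ≤ r0 := by
    refine (abs_real_inner_le_norm _ _).trans ?_
    rw [hunit, mul_one]; exact hXu
  have h3' := abs_le.1 h3
  have h4 : |(inner ℝ (X u) (ξ 0) : ℝ)| ≤ r0 := by
    refine (abs_real_inner_le_norm _ _).trans ?_
    rw [hunit0, mul_one]; exact hXu
  have h4' := abs_le.1 h4
  have hsst : (inner ℝ (X u + s • (t • ξ 0 - X u) - X u) (ξ u) : ℝ) =
      s * (t * inner ℝ (ξ 0) (ξ u) - inner ℝ (X u) (ξ u)) := by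
    rw [add_sub_cancel_left, real_inner_smul_left, inner_sub_left, real_inner_smul_left]
  have hge : -r0 ≤ (inner ℝ (X u + s • (t • ξ 0 - X u) - X u) (ξ u) : ℝ) := by
    rw [hsst]
    have e1 : 0 ≤ t * (inner ℝ (ξ 0) (ξ u) : ℝ) := mul_nonneg ht.le (by linarith)
    have e2 : -r0 ≤ t * (inner ℝ (ξ 0) (ξ u) : ℝ) - inner ℝ (X u) (ξ u) := by linarith
    have e3 : s * (-r0) ≤ s * (t * (inner ℝ (ξ 0) (ξ u) : ℝ) - inner ℝ (X u) (ξ u)) :=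
      mul_le_mul_of_nonneg_left e2 hs.le
    have e4 : s * r0 ≤ 1 * r0 := mul_le_mul_of_nonneg_right hs1.le hr0.le
    linarith
  have hpos : 0 < (inner ℝ (X u + s • (t • ξ 0 - X u) - X u) (ξ u) : ℝ) := by
    by_contra hn
    push Not at hn
    refine B9b_small h hc hrK hu himm hII ?_ hd
    rw [abs_le]
    exact ⟨hge, by linarith⟩
  have hst := (deg_pos hm h hu hd hpos).2
  have hform := crit_form h hu hd.1
  generalize hS : (inner ℝ (X u + s • (t • ξ 0 - X u) - X u) (ξ u) : ℝ) = S at hst hform hpos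
  have hkupos : 0 < Kap X ξ u := by
    rw [hst] at hpos; exact inv_pos.1 hpos
  have hS8 : 8 * r0 < S := by
    rw [hst]
    have e1 : (2 * Kap X ξ 0)⁻¹ ≤ (Kap X ξ u)⁻¹ := inv_anti₀ hkupos hku
    have e2 : (2 * Kap X ξ 0)⁻¹ = (Kap X ξ 0)⁻¹ / 2 := by
      rw [mul_inv]; ring
    linarith
  rw [hform]
  have e1 : ‖X u + S • ξ u‖ ≤ r0 + S := by
    refine (norm_add_le _ _).trans ?_
    rw [norm_smul, hunit, mul_one, Real.norm_of_nonneg hpos.le]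
    linarith
  have e2 : (inner ℝ (X u + S • ξ u) (ξ 0) : ℝ) = inner ℝ (X u) (ξ 0) + S * inner ℝ (ξ 0) (ξ u) := by
    rw [inner_add_left, real_inner_smul_left, real_inner_comm (ξ 0) (ξ u)]
  have e3 : S * (3 / 4) ≤ S * (inner ℝ (ξ 0) (ξ u) : ℝ) := mul_le_mul_of_nonneg_left hang hpos.le
  rw [e2]
  linarith

end MPf7aa
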