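import Pool.Agent.Lib.MP_f7aa1b_gt.B7
import Pool.Agent.Lib.MP_f7aa1b_gt.B9a
import Pool.Agent.Lib.MP_f7aa1b_gt.B9b

/-!
Row B9. From a Patch to Core (X 0 = 0, m > 0, Kap 0 > 0). R, c, K from small_ball; eta = xi 0, sigma = 1/Kap 0;
r0 > 0 with r0^2 < c R^2, r0 < sigma/16, r0 K < c^2; P = {p | |p|/2 < <p, eta>} (open by continuity, a cone,
contains t eta for t > 0 because |eta| = 1); Bad := ff '' closedBall 0 R.
bad, focal: B9b (LL X 0 u <= r0^2/2 means |X u| <= r0).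
null1, null2: patch_null_cone, patch_null_cyl (B7) with a = 0, radius 2R, k0 = Kap 0/2; closedBall 0 R is contained
in ball 0 (2R); turn the null sets into almost everywhere statements (ae_iff, measure_mono_null): if alpha p in Bad
then alpha p = ff u for some u.
crit0: perp at 0. pos0: X 0 = 0, so HH X (t eta) 0 v v = GG - t II (HH_form) >= (1 - t Kap 0) GG > 0 (Kap_spec).
-/

open Set Filter Topology Metric MeasureTheory
open scoped ContDiff

namespace MPf7aa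

theorem B9_choose_r0 {c R σ K : ℝ} (hc : 0 < c) (hR : 0 < R) (hσ : 0 < σ) (hK : 0 < K) :
    ∃ r0 : ℝ, 0 < r0 ∧ r0 ^ 2 < c * R ^ 2 ∧ r0 < σ / 16 ∧ r0 * K < c ^ 2 := by
  have hs : 0 < Real.sqrt c * R := mul_pos (Real.sqrt_pos.2 hc) hR
  refine ⟨min (min (Real.sqrt c * R / 2) (σ / 32)) (c ^ 2 / (2 * K)), by positivity, ?_, ?_, ?_⟩
  · have h1 : min (min (Real.sqrt c * R / 2) (σ / 32)) (c ^ 2 / (2 * K)) ≤ Real.sqrt c * R / 2 :=
      (min_le_left _ _).trans (min_le_left _ _)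
    have h0 : 0 ≤ min (min (Real.sqrt c * R / 2) (σ / 32)) (c ^ 2 / (2 * K)) := by positivity
    calc (min (min (Real.sqrt c * R / 2) (σ / 32)) (c ^ 2 / (2 * K))) ^ 2
        ≤ (Real.sqrt c * R / 2) ^ 2 := pow_le_pow_left₀ h0 h1 2
      _ = c * R ^ 2 / 4 := by rw [div_pow, mul_pow, Real.sq_sqrt hc.le]; ring
      _ < c * R ^ 2 := by
          have : 0 < c * R ^ 2 := by positivity
          linarith
  · calc min (min (Real.sqrt c * R / 2) (σ / 32)) (c ^ 2 / (2 * K)) ≤ σ / 32 :=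
          (min_le_left _ _).trans (min_le_right _ _)
      _ < σ / 16 := by linarith
  · calc min (min (Real.sqrt c * R / 2) (σ / 32)) (c ^ 2 / (2 * K)) * K
        ≤ (c ^ 2 / (2 * K)) * K := mul_le_mul_of_nonneg_right (min_le_right _ _) hK.le
      _ = c ^ 2 / 2 := by field_simp
      _ < c ^ 2 := by
          have : 0 < c ^ 2 := by positivity
          linarith

theorem B9_norm_le {m : ℕ} {X : E m → E (m + 1)} {u : E m} {r0 : ℝ} (hr0 : 0 < r0)
    (h : LL X 0 u ≤ r0 ^ 2 / 2) : ‖X u‖ ≤ r0 := by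
  unfold LL at h
  rw [sub_zero] at h
  have h1 : ‖X u‖ ^ 2 ≤ r0 ^ 2 := by linarith
  exact le_of_sq_le_sq h1 hr0.le

theorem B9_pos {m : ℕ} (hm : 0 < m) {U : Set (E m)} {X ξ : E m → E (m + 1)}
    (h : Patch U X ξ) (h0 : (0 : E m) ∈ U) (hX0 : X 0 = 0) (hk : 0 < Kap X ξ 0)
    {t : ℝ} (ht : 0 < t) (ht1 : t < (Kap X ξ 0)⁻¹) {v : E m} (hv : v ≠ 0) :
    0 < HH X (t • ξ 0) 0 v v := by
  have h1 : t • ξ 0 = X 0 + t • ξ 0 := by rw [hX0, zero_add]
  rw [h1, HH_form h h0]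
  have h2 := (Kap_spec hm h h0).2 v
  have h3 : 0 < GG X 0 v v := by
    unfold GG
    rw [real_inner_self_eq_norm_sq]
    have h4 : fderiv ℝ X 0 v ≠ 0 := by
      intro h5
      exact hv (h.imm 0 h0 (h5.trans (map_zero _).symm))
    have h5 : 0 < ‖fderiv ℝ X 0 v‖ := norm_pos_iff.2 h4
    positivity
  have h4 : t * Kap X ξ 0 < 1 := by
    calc t * Kap X ξ 0 < (Kap X ξ 0)⁻¹ * Kap X ξ 0 := mul_lt_mul_of_pos_right ht1 hk
      _ = 1 := inv_mul_cancel₀ hk.ne'
  have h5 : t * II X ξ 0 v v ≤ t * (Kap X ξ 0 * GG X 0 v v) := mul_le_mul_of_nonneg_left h2 ht.le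
  have h6 : 0 < (1 - t * Kap X ξ 0) * GG X 0 v v := mul_pos (by linarith) h3
  have h7 : (1 - t * Kap X ξ 0) * GG X 0 v v = GG X 0 v v - t * (Kap X ξ 0 * GG X 0 v v) := by ring
  linarith

theorem core_of_patch {m : ℕ} (hm : 0 < m) {U : Set (E m)} {X ξ : E m → E (m + 1)}
    (h : Patch U X ξ) (hD : DHyp U X ξ) (h0 : (0 : E m) ∈ U) (hX0 : X 0 = 0)
    (hk : 0 < Kap X ξ 0) :
    ∃ (R r0 : ℝ) (P Bad : Set (E (m + 1))), Core X U R r0 (ξ 0) (Kap X ξ 0)⁻¹ P Bad := by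
  obtain ⟨R, c, K, hR, hc, hK, hball, hinj, himm, hconv, hKap, hξ, hII⟩ := small_ball hm h h0 hX0 hk
  have hσ : 0 < (Kap X ξ 0)⁻¹ := inv_pos.2 hk
  obtain ⟨r0, hr0, hrR, hrs, hrK⟩ := B9_choose_r0 hc hR hσ hK
  have hsub : closedBall (0 : E m) R ⊆ closedBall (0 : E m) (2 * R) :=
    closedBall_subset_closedBall (by linarith)
  have hsub2 : closedBall (0 : E m) R ⊆ ball (0 : E m) (2 * R) :=
    closedBall_subset_ball (by linarith)
  have hu0 : ‖ξ 0‖ = 1 := h.unit 0 h0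
  have hk2 : 0 < Kap X ξ 0 / 2 := by linarith
  refine ⟨R, r0, {p | ‖p‖ / 2 < inner ℝ p (ξ 0)}, ff X ξ '' closedBall (0 : E m) R, ?_⟩
  refine
    { op := h.op
      cX := h.cX
      hR := hR
      ball := hsub.trans hball
      X0 := hX0
      inj := ⟨c, hc, hinj⟩
      imm := ⟨c, hc, himm⟩
      hr0 := hr0
      conv := ⟨c, hc, hrR, hconv⟩
      hσ := hσ
      unit := hu0
      Pop := ?_
      Pcone := ?_
      Pη := ?_
      bad := ?_
      null1 := ?_
      null2 := ?_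
      crit0 := h.perp 0 h0
      pos0 := fun t ht ht1 v hv => B9_pos hm h h0 hX0 hk ht ht1 hv
      focal := ?_ }
  · exact isOpen_lt (continuous_norm.div_const 2) (continuous_id.inner continuous_const)
  · intro p hp α hα
    rw [mem_ofPred_eq] at hp ⊢
    rw [norm_smul, Real.norm_of_nonneg hα.le, real_inner_smul_left, mul_div_assoc]
    exact mul_lt_mul_of_pos_left hp hα
  · intro t ht
    rw [mem_ofPred_eq, norm_smul, Real.norm_of_nonneg ht.le, real_inner_smul_left,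
      real_inner_self_eq_norm_sq, hu0]
    linarith
  · intro p hp u hu hL hd
    exact ⟨u, hu, (bad_point hm h hr0 hc hrK (hball (hsub hu)) (B9_norm_le hr0 hL) (hξ u hu)
      (himm u hu) (hII u hu) hp hd).symm⟩
  · have h1 := patch_null_cone hm h hD hball hk2 (fun u hu => (hKap u hu).1)
    rw [ae_iff]
    refine measure_mono_null ?_ h1
    intro p hp
    rw [mem_ofPred_eq] at hp ⊢
    push Not at hp
    obtain ⟨α, hα, -, u, hu, hfu⟩ := hp
    exact ⟨α, hα, u, hsub2 hu, hfu.symm⟩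
  · intro v
    have h1 := patch_null_cyl hm h hD hball hk2 (fun u hu => (hKap u hu).1) v
    rw [ae_iff]
    refine measure_mono_null ?_ h1
    intro w hw
    rw [mem_ofPred_eq] at hw ⊢
    push Not at hw
    obtain ⟨s, u, hu, hfu⟩ := hw
    exact ⟨s, u, hsub2 hu, hfu.symm⟩
  · intro u hu hL t ht _ s hs hs1 hd
    exact focal_point hm h h0 hr0 hc hrK (hball (hsub hu)) (B9_norm_le hr0 hL) (hξ u hu)
      (himm u hu) (hII u hu) hk (hKap u (hsub hu)).2 hrs ht hs hs1 hd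

end MPf7aa
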