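import Pool.Agent.Lib.MP_f7aa1b_gt.Defs

/-!
Analytic definitions for MP_f7aa1b_gt. No proofs here. The paper is /team-store/f7aa_paper.md.
-/

open Set Filter Topology Metric MeasureTheory
open scoped ContDiff

namespace MPf7aa

/-- L_p(u) = |X(u) - p|^2 / 2 -/
noncomputable def LL {m k : ℕ} (X : E m → E k) (p : E k) (u : E m) : ℝ := (1 / 2) * ‖X u - p‖ ^ 2

/-- second derivative of L_p at u -/
noncomputable def HH {m k : ℕ} (X : E m → E k) (p : E k) (u v w : E m) : ℝ :=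
  inner ℝ (fderiv ℝ X u v) (fderiv ℝ X u w) + inner ℝ (fderiv ℝ (fderiv ℝ X) u v w) (X u - p)

/-- u is a critical point of L_p -/
def Crit {m k : ℕ} (X : E m → E k) (p : E k) (u : E m) : Prop :=
  ∀ v, inner ℝ (fderiv ℝ X u v) (X u - p) = 0

/-- u is a critical point of L_p with positive definite second derivative -/
def Good {m k : ℕ} (X : E m → E k) (p : E k) (u : E m) : Prop :=
  Crit X p u ∧ ∀ v, v ≠ 0 → 0 < HH X p u v v

/-- u is a critical point of L_p, the second derivative is semidefinite and degenerate -/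
def Deg {m k : ℕ} (X : E m → E k) (p : E k) (u : E m) : Prop :=
  Crit X p u ∧ (∀ v, 0 ≤ HH X p u v v) ∧ ∃ v, v ≠ 0 ∧ HH X p u v v = 0

/-- first fundamental form -/
noncomputable def GG {m k : ℕ} (X : E m → E k) (u v w : E m) : ℝ :=
  inner ℝ (fderiv ℝ X u v) (fderiv ℝ X u w)

/-- second fundamental form with respect to ξ -/
noncomputable def II {m k : ℕ} (X ξ : E m → E k) (u v w : E m) : ℝ :=
  - inner ℝ (fderiv ℝ X u v) (fderiv ℝ ξ u w)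

/-- largest principal curvature -/
noncomputable def Kap {m k : ℕ} (X ξ : E m → E k) (u : E m) : ℝ :=
  sSup ((fun v => II X ξ u v v / GG X u v v) '' sphere (0 : E m) 1)

/-- first focal point -/
noncomputable def ff {m k : ℕ} (X ξ : E m → E k) (u : E m) : E k := X u + (Kap X ξ u)⁻¹ • ξ u

/-- a smooth parametrised hypersurface with unit normal ξ -/
structure Patch {m : ℕ} (U : Set (E m)) (X ξ : E m → E (m + 1)) : Prop where
  op : IsOpen U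
  cX : ContDiffOn ℝ ∞ X U
  cξ : ContDiffOn ℝ ∞ ξ U
  unit : ∀ u ∈ U, ‖ξ u‖ = 1
  perp : ∀ u ∈ U, ∀ v, inner ℝ (fderiv ℝ X u v) (ξ u) = 0
  imm : ∀ u ∈ U, Function.Injective (fderiv ℝ X u)

/-- Where the largest principal curvature is simple there is a curve, tangent to the principal
direction, along which a principal curvature is stationary to first order. -/
def DHyp {m : ℕ} (U : Set (E m)) (X ξ : E m → E (m + 1)) : Prop :=
  ∀ u ∈ U, ∀ e : E m, e ≠ 0 →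
    fderiv ℝ ξ u e + Kap X ξ u • fderiv ℝ X u e = 0 →
    (∀ v, fderiv ℝ ξ u v + Kap X ξ u • fderiv ℝ X u v = 0 → ∃ c : ℝ, v = c • e) →
    ∃ (γ : ℝ → E m) (k : ℝ → ℝ), γ 0 = u ∧ HasDerivAt γ e 0 ∧ k 0 = Kap X ξ u ∧
      HasDerivAt k 0 0 ∧ ∀ᶠ t in 𝓝 (0 : ℝ),
        ∃ v : E m, v ≠ 0 ∧ fderiv ℝ ξ (γ t) v + k t • fderiv ℝ X (γ t) v = 0

/-- Legendrian pair: local parametrisation (x, ξ) of the unit normal bundle -/
structure Leg {m : ℕ} (U : Set (E m)) (x ξ : E m → E (m + 1)) : Prop where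
  op : IsOpen U
  cx : ContDiffOn ℝ ∞ x U
  cξ : ContDiffOn ℝ ∞ ξ U
  unit : ∀ u ∈ U, ‖ξ u‖ = 1
  perp : ∀ u ∈ U, ∀ v, inner ℝ (fderiv ℝ x u v) (ξ u) = 0
  inj : ∀ u ∈ U, ∀ v, fderiv ℝ x u v = 0 → fderiv ℝ ξ u v = 0 → v = 0

/-- the Dupin property of a Legendrian pair, in the form in which it is used: at a simple principal
curvature κ there is a curve tangent to the principal direction along which some principal curvature
k(t), k(0) = κ, is stationary to first order -/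
def DStar {m : ℕ} (U : Set (E m)) (x ξ : E m → E (m + 1)) : Prop :=
  ∀ u ∈ U, ∀ κ : ℝ, ∀ e : E m, e ≠ 0 →
    fderiv ℝ ξ u e + κ • fderiv ℝ x u e = 0 →
    (∀ v, fderiv ℝ ξ u v + κ • fderiv ℝ x u v = 0 → ∃ c : ℝ, v = c • e) →
    ∃ (γ : ℝ → E m) (k : ℝ → ℝ), γ 0 = u ∧ HasDerivAt γ e 0 ∧ k 0 = κ ∧ HasDerivAt k 0 0 ∧
      ∀ᶠ t in 𝓝 (0 : ℝ), ∃ v : E m, v ≠ 0 ∧ fderiv ℝ ξ (γ t) v + k t • fderiv ℝ x (γ t) v = 0

/-- The data of section 2 of the paper: X parametrises a piece of hypersurface through 0 = X(0)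
with normal η at 0, σ = first focal distance at 0, P an open cone of admissible centres, Bad the
set of first focal points. -/
structure Core {m : ℕ} (X : E m → E (m + 1)) (U : Set (E m)) (R r0 : ℝ) (η : E (m + 1)) (σ : ℝ)
    (P Bad : Set (E (m + 1))) : Prop where
  op : IsOpen U
  cX : ContDiffOn ℝ ∞ X U
  hR : 0 < R
  ball : closedBall (0 : E m) R ⊆ U
  X0 : X 0 = 0
  inj : ∃ c : ℝ, 0 < c ∧ ∀ u ∈ closedBall (0 : E m) R, ∀ w ∈ closedBall (0 : E m) R,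
    c * ‖u - w‖ ≤ ‖X u - X w‖
  imm : ∃ c : ℝ, 0 < c ∧ ∀ u ∈ closedBall (0 : E m) R, ∀ v : E m, c * ‖v‖ ≤ ‖fderiv ℝ X u v‖
  hr0 : 0 < r0
  conv : ∃ c : ℝ, 0 < c ∧ r0 ^ 2 < c * R ^ 2 ∧
    ∀ u ∈ closedBall (0 : E m) R, ∀ v : E m, c * ‖v‖ ^ 2 ≤ HH X 0 u v v
  hσ : 0 < σ
  unit : ‖η‖ = 1
  Pop : IsOpen P
  Pcone : ∀ p ∈ P, ∀ α : ℝ, 0 < α → α • p ∈ P
  Pη : ∀ t : ℝ, 0 < t → t • η ∈ P
  bad : ∀ p ∈ P, ∀ u ∈ closedBall (0 : E m) R, LL X 0 u ≤ r0 ^ 2 / 2 → Deg X p u → p ∈ Bad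
  null1 : ∀ᵐ p ∂(volume : Measure (E (m + 1))), ∀ α : ℝ, 0 < α → α ≤ 1 → α • p ∉ Bad
  null2 : ∀ v : E (m + 1), ∀ᵐ w ∂(volume : Measure (E (m + 1))), ∀ s : ℝ, w + s • v ∉ Bad
  crit0 : ∀ v, inner ℝ (fderiv ℝ X 0 v) η = 0
  pos0 : ∀ t : ℝ, 0 < t → t < σ → ∀ v : E m, v ≠ 0 → 0 < HH X (t • η) 0 v v
  focal : ∀ u ∈ closedBall (0 : E m) R, LL X 0 u ≤ r0 ^ 2 / 2 → ∀ t : ℝ, 0 < t → t ≤ σ →
    ∀ s : ℝ, 0 < s → s < 1 → Deg X (X u + s • (t • η - X u)) u → X u + s • (t • η - X u) ∈ P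

/-- the centre X(us) + s (t η - X(us)) + w -/
noncomputable def cen {m : ℕ} (X : E m → E (m + 1)) (η : E (m + 1)) (us : E m) (t s : ℝ)
    (w : E (m + 1)) : E (m + 1) :=
  X us + s • (t • η - X us) + w

/-- Case I of the proof of Proposition FF -/
structure CaseI {m : ℕ} (X : E m → E (m + 1)) (U : Set (E m)) (R r0 : ℝ) (η : E (m + 1)) (σ : ℝ)
    (P Bad : Set (E (m + 1))) (us : E m) (t s1 : ℝ) (e : E m) : Prop where
  core : Core X U R r0 η σ P Bad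
  mem : us ∈ closedBall (0 : E m) R
  lev : LL X 0 us < r0 ^ 2 / 2
  t0 : 0 < t
  tσ : t < σ
  crit : Crit X (t • η) us
  minS : ∀ u ∈ closedBall (0 : E m) R, LL X 0 u = LL X 0 us → LL X (t • η) us ≤ LL X (t • η) u
  s10 : 0 < s1
  s11 : s1 < 1
  e0 : inner ℝ (fderiv ℝ X us e) (X us) < 0
  ker : ∀ v, (1 - s1) * GG X us e v + s1 * HH X (t • η) us e v = 0
  nn : ∀ v, 0 ≤ (1 - s1) * GG X us v v + s1 * HH X (t • η) us v v

end MPf7aa
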