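import Pool.Agent.Lib.MP_f7aa1b_gt.Core

/-!
Row D1. Identities of a Legendrian pair (u in U).
leg_unit: differentiate <xi, xi> = 1. leg_symm: the function u' -> <dx u' w, xi u'> vanishes on the open set U;
its derivative in direction v is <D2x v w, xi> + <dx w, dxi v> = 0, D2x = fderiv (fderiv x) u symmetric
(second_derivative_symmetric / ContDiffAt.isSymmSndFDerivAt), so <dx w, dxi v> is symmetric in v, w.
leg_lagrangian: T = {(dx v, dxi v)} has dimension m (inj) and lies in H = xi-perp x xi-perp (perp, leg_unit) of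
dimension 2m. On H the form om((a,b),(a',b')) = <a,b'> - <b,a'> is nondegenerate and T is isotropic
(leg_symm), so T^om = T (dimension). The hypothesis says (al, be) in T^om.
-/

open Set Filter Topology Metric MeasureTheory
open scoped ContDiff

namespace MPf7aa

theorem leg_unit {m : ℕ} {U : Set (E m)} {x ξ : E m → E (m + 1)} (h : Leg U x ξ) {u : E m}
    (hu : u ∈ U) (v : E m) : inner ℝ (fderiv ℝ ξ u v) (ξ u) = 0 := by
  have hξd : HasFDerivAt ξ (fderiv ℝ ξ u) u :=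
    ((h.cξ.contDiffAt (h.op.mem_nhds hu)).differentiableAt (by simp)).hasFDerivAt
  have h1 := hξd.inner ℝ hξd
  have h2 : HasFDerivAt (fun u => inner ℝ (ξ u) (ξ u)) (0 : E m →L[ℝ] ℝ) u := by
    refine (hasFDerivAt_const (1 : ℝ) u).congr_of_eventuallyEq ?_
    filter_upwards [h.op.mem_nhds hu] with w hw
    rw [real_inner_self_eq_norm_sq, h.unit w hw, one_pow]
  have h3 := congrArg (fun L => L v) (h1.unique h2)
  simp only [ContinuousLinearMap.comp_apply, ContinuousLinearMap.prod_apply,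
    fderivInnerCLM_apply, _root_.zero_apply] at h3
  rw [real_inner_comm] at h3
  linarith [h3]

/-- the derivative of `<dx w, xi> = 0` -/
theorem D1_der {m : ℕ} {U : Set (E m)} {x ξ : E m → E (m + 1)} (h : Leg U x ξ) {u : E m}
    (hu : u ∈ U) (v w : E m) :
    inner ℝ (fderiv ℝ (fderiv ℝ x) u v w) (ξ u) + inner ℝ (fderiv ℝ x u w) (fderiv ℝ ξ u v) = 0 := by
  have hξd : HasFDerivAt ξ (fderiv ℝ ξ u) u :=
    ((h.cξ.contDiffAt (h.op.mem_nhds hu)).differentiableAt (by simp)).hasFDerivAt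
  have hx : ContDiffAt ℝ ∞ x u := h.cx.contDiffAt (h.op.mem_nhds hu)
  have hdx : DifferentiableAt ℝ (fderiv ℝ x) u :=
    (hx.fderiv_right (m := ∞) (by simp)).differentiableAt (by simp)
  have hdxw : HasFDerivAt (fun u => fderiv ℝ x u w)
      ((ContinuousLinearMap.apply ℝ (E (m + 1)) w).comp (fderiv ℝ (fderiv ℝ x) u)) u :=
    (ContinuousLinearMap.apply ℝ (E (m + 1)) w).hasFDerivAt.comp u hdx.hasFDerivAt
  have h1 := hdxw.inner ℝ hξd
  have h2 : HasFDerivAt (fun u => inner ℝ (fderiv ℝ x u w) (ξ u)) (0 : E m →L[ℝ] ℝ) u := by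
    refine (hasFDerivAt_const (0 : ℝ) u).congr_of_eventuallyEq ?_
    filter_upwards [h.op.mem_nhds hu] with w' hw'
    exact h.perp w' hw' w
  have h3 := congrArg (fun L => L v) (h1.unique h2)
  simp only [ContinuousLinearMap.comp_apply, ContinuousLinearMap.prod_apply,
    fderivInnerCLM_apply, _root_.zero_apply, ContinuousLinearMap.apply_apply] at h3
  linarith [h3]

theorem leg_symm {m : ℕ} {U : Set (E m)} {x ξ : E m → E (m + 1)} (h : Leg U x ξ) {u : E m}
    (hu : u ∈ U) (v w : E m) :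
    inner ℝ (fderiv ℝ x u v) (fderiv ℝ ξ u w) = inner ℝ (fderiv ℝ x u w) (fderiv ℝ ξ u v) := by
  have h1 := D1_der h hu v w
  have h2 := D1_der h hu w v
  have hx : ContDiffAt ℝ ∞ x u := h.cx.contDiffAt (h.op.mem_nhds hu)
  have hs : IsSymmSndFDerivAt ℝ x u := hx.isSymmSndFDerivAt (by
    simpa using (WithTop.coe_le_coe.2 (le_top : (2 : ℕ∞) ≤ ⊤)))
  have h3 : fderiv ℝ (fderiv ℝ x) u v w = fderiv ℝ (fderiv ℝ x) u w v := hs v w
  rw [h3] at h1
  linarith

/-- linear algebra: an isotropic subspace of half dimension is its own orthogonal -/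
theorem D1_lag {m : ℕ} {W V : Type*} [NormedAddCommGroup W] [InnerProductSpace ℝ W]
    [FiniteDimensional ℝ W] [NormedAddCommGroup V] [InnerProductSpace ℝ V] [FiniteDimensional ℝ V]
    (hW : Module.finrank ℝ W = m) (hV : Module.finrank ℝ V = m) (A B : V →ₗ[ℝ] W)
    (hinj : ∀ v, A v = 0 → B v = 0 → v = 0)
    (hs : ∀ v w, inner ℝ (A v) (B w) = inner ℝ (A w) (B v)) {α β : W}
    (hT : ∀ v, inner ℝ α (B v) = inner ℝ β (A v)) : ∃ v, A v = α ∧ B v = β := by
  let Φ : V →ₗ[ℝ] W × W := A.prod B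
  let Ψ : W × W →ₗ[ℝ] V := (LinearMap.adjoint B).coprod (-(LinearMap.adjoint A))
  have hΨ : ∀ (p : W × W) (v : V),
      inner ℝ (Ψ p) v = inner ℝ p.1 (B v) - inner ℝ p.2 (A v) := by
    intro p v
    simp only [Ψ, LinearMap.coprod_apply, LinearMap.neg_apply, inner_add_left, inner_neg_left,
      LinearMap.adjoint_inner_left]
    ring
  have hsurj : LinearMap.range Ψ = ⊤ := by
    rw [← Submodule.orthogonal_eq_bot_iff, Submodule.eq_bot_iff]
    intro v hv
    have h1 : inner ℝ (Ψ (B v, -A v)) v = 0 := (Submodule.mem_orthogonal _ _).1 hv _ ⟨_, rfl⟩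
    rw [hΨ] at h1
    simp only [inner_neg_left, sub_neg_eq_add, real_inner_self_eq_norm_sq] at h1
    have h2 : ‖B v‖ ^ 2 = 0 := by nlinarith [sq_nonneg ‖B v‖, sq_nonneg ‖A v‖]
    have h3 : ‖A v‖ ^ 2 = 0 := by nlinarith [sq_nonneg ‖B v‖, sq_nonneg ‖A v‖]
    exact hinj v (norm_eq_zero.1 (pow_eq_zero_iff two_ne_zero |>.1 h3))
      (norm_eq_zero.1 (pow_eq_zero_iff two_ne_zero |>.1 h2))
  have hinjΦ : Function.Injective Φ := by
    rw [injective_iff_map_eq_zero]
    intro v hv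
    have h1 : (A v, B v) = 0 := hv
    rw [Prod.mk_eq_zero] at h1
    exact hinj v h1.1 h1.2
  have h1 : Module.finrank ℝ (LinearMap.range Φ) = m := by
    rw [LinearMap.finrank_range_of_inj hinjΦ, hV]
  have h2 : Module.finrank ℝ (LinearMap.ker Ψ) = m := by
    have h3 := LinearMap.finrank_range_add_finrank_ker Ψ
    rw [hsurj, finrank_top, hV, Module.finrank_prod, hW] at h3
    omega
  have hle : LinearMap.range Φ ≤ LinearMap.ker Ψ := by
    rintro _ ⟨v, rfl⟩
    rw [LinearMap.mem_ker]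
    apply ext_inner_right ℝ
    intro w
    rw [hΨ, inner_zero_left]
    have h3 : inner ℝ (A v) (B w) = inner ℝ (A w) (B v) := hs v w
    have h4 : (Φ v).1 = A v := rfl
    have h5 : (Φ v).2 = B v := rfl
    rw [h4, h5, h3, real_inner_comm (A w) (B v)]
    ring
  have heq : LinearMap.range Φ = LinearMap.ker Ψ :=
    Submodule.eq_of_le_of_finrank_eq hle (by rw [h1, h2])
  have hmem : ((α, β) : W × W) ∈ LinearMap.ker Ψ := by
    rw [LinearMap.mem_ker]
    apply ext_inner_right ℝ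
    intro w
    rw [hΨ, inner_zero_left]
    simp only [hT w, sub_self]
  rw [← heq] at hmem
  obtain ⟨v, hv⟩ := hmem
  exact ⟨v, congrArg Prod.fst hv, congrArg Prod.snd hv⟩

theorem leg_lagrangian {m : ℕ} {U : Set (E m)} {x ξ : E m → E (m + 1)} (h : Leg U x ξ) {u : E m}
    (hu : u ∈ U) {α β : E (m + 1)} (hα : inner ℝ α (ξ u) = 0) (hβ : inner ℝ β (ξ u) = 0)
    (hT : ∀ v, inner ℝ α (fderiv ℝ ξ u v) = inner ℝ β (fderiv ℝ x u v)) :
    ∃ v : E m, fderiv ℝ x u v = α ∧ fderiv ℝ ξ u v = β := by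
  have hne : ξ u ≠ 0 := by
    intro h0
    have := h.unit u hu
    rw [h0, norm_zero] at this
    norm_num at this
  have : Fact (Module.finrank ℝ (E (m + 1)) = m + 1) := ⟨by simp⟩
  have hW : Module.finrank ℝ ((ℝ ∙ (ξ u))ᗮ : Submodule ℝ (E (m + 1))) = m :=
    Submodule.finrank_orthogonal_span_singleton hne
  have hmem : ∀ a : E (m + 1), inner ℝ a (ξ u) = 0 → a ∈ (ℝ ∙ (ξ u))ᗮ := fun a ha =>
    Submodule.mem_orthogonal_singleton_iff_inner_left.2 ha
  let A : E m →ₗ[ℝ] ((ℝ ∙ (ξ u))ᗮ : Submodule ℝ (E (m + 1))) :=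
    (fderiv ℝ x u).toLinearMap.codRestrict _ (fun v => hmem _ (h.perp u hu v))
  let B : E m →ₗ[ℝ] ((ℝ ∙ (ξ u))ᗮ : Submodule ℝ (E (m + 1))) :=
    (fderiv ℝ ξ u).toLinearMap.codRestrict _ (fun v => hmem _ (leg_unit h hu v))
  obtain ⟨v, hv1, hv2⟩ := D1_lag (α := ⟨α, hmem α hα⟩) (β := ⟨β, hmem β hβ⟩) hW
    (by simp : Module.finrank ℝ (E m) = m) A B
    (fun v h1 h2 => h.inj u hu v (congrArg Subtype.val h1) (congrArg Subtype.val h2))
    (fun v w => leg_symm h hu v w) (fun v => hT v)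
  exact ⟨v, congrArg Subtype.val hv1, congrArg Subtype.val hv2⟩

end MPf7aa
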