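import Pool.Agent.Lib.MP_f7aa1b_gt.D1
import Pool.Agent.Lib.MP_f7aa1b_gt.B3

/-!
Row D2. Lemma 1 of the paper: the parallel hypersurface just before (s = 1) or after (s = -1) the focal point.
Notation at u = 0: dz = dx + tau0 dxi, a = tau0 - s sigma, dX = dx + a dxi = dz - s sigma dxi,
xi_s = s xi, K = ker dz != 0. B(v,w) := <dX v, dz w> is symmetric (leg_symm) and
B v v = |dz v|^2 - s sigma <dxi v, dz v>; B vanishes if one argument is in K. On K-perp
|dz v|^2 >= c |v|^2 and |<dxi v, dz v>| <= C |v|^2, so for sigma < c/(C+1) B > 0 on K-perp minus 0; hence B >= 0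
with B v v = 0 iff v in K (split v along K + K-perp).
B = GG - sigma II for X, xi_s (dz = dX + sigma d(xi_s)). dX injective: dX v = 0 implies B v v = 0, v in K,
dz v = 0, s sigma dxi v = 0, dx v = 0, v = 0 (inj). Kap = 1/sigma: for v in K, d(xi_s) v = -(1/sigma) dX v; for all v
II v v <= (1/sigma) GG v v. (Kap is the supremum over the unit sphere; for the Patch use Kap_spec, Kap_ge.)
Patch on V: V = {u in U | fderiv X u injective} is open (the injective continuous linear maps from a finite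
dimensional space form an open set) and contains 0; perp: <dX v, s xi> = s <dx v, xi> + s a <dxi v, xi> = 0.
-/

open Set Filter Topology Metric MeasureTheory
open scoped ContDiff

namespace MPf7aa

/-- abstract linear algebra: positivity of `|D v|^2 - t <B v, D v>` off the kernel of `D` -/
theorem D2_pos {m k : ℕ} (D B : E m →L[ℝ] E k)
    (hsymm : ∀ v w, inner ℝ (B v) (D w) = (inner ℝ (B w) (D v) : ℝ)) :
    ∃ σ : ℝ, 0 < σ ∧ ∀ t : ℝ, |t| ≤ σ → ∀ v, 0 ≤ ‖D v‖ ^ 2 - t * inner ℝ (B v) (D v) ∧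
      (‖D v‖ ^ 2 - t * inner ℝ (B v) (D v) = 0 → D v = 0) := by
  let K : Submodule ℝ (E m) := LinearMap.ker (D : E m →ₗ[ℝ] E k)
  let f : Kᗮ →ₗ[ℝ] E k := (D : E m →ₗ[ℝ] E k).domRestrict Kᗮ
  have hf : LinearMap.ker f = ⊥ := by
    rw [LinearMap.ker_eq_bot']
    intro v hv
    have h1 : (v : E m) ∈ K := hv
    have h2 : (v : E m) ∈ Kᗮ := v.2
    have h3 : (inner ℝ (v : E m) (v : E m) : ℝ) = 0 := (Submodule.mem_orthogonal K (v : E m)).mp h2 _ h1
    have h4 : (v : E m) = 0 := inner_self_eq_zero.mp h3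
    exact Subtype.ext h4
  obtain ⟨c, hc, hanti⟩ := LinearMap.exists_antilipschitzWith f hf
  have hlow : ∀ v ∈ Kᗮ, ‖v‖ ≤ c * ‖D v‖ := by
    intro v hv
    have h1 := hanti.le_mul_dist (⟨v, hv⟩ : Kᗮ) 0
    rw [dist_zero_right, map_zero, dist_zero_right] at h1
    exact h1
  have hc' : (0 : ℝ) < (c : ℝ) := by exact_mod_cast hc
  have hden : (0 : ℝ) < 2 * (c * (‖B‖ + 1)) := by positivity
  refine ⟨(2 * (c * (‖B‖ + 1)))⁻¹, inv_pos.mpr hden, ?_⟩
  intro t ht v
  obtain ⟨a, ha, b, hb, hab⟩ := K.exists_add_mem_mem_orthogonal v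
  have hDa : D a = 0 := ha
  have hDv : D v = D b := by rw [hab, map_add, hDa, zero_add]
  have hBv : (inner ℝ (B v) (D v) : ℝ) = inner ℝ (B b) (D b) := by
    rw [hDv, hab, map_add, inner_add_left, hsymm a b, hDa, inner_zero_right, zero_add]
  rw [hBv, hDv]
  have h1 : |(inner ℝ (B b) (D b) : ℝ)| ≤ ‖B b‖ * ‖D b‖ := abs_real_inner_le_norm _ _
  have h2 : ‖B b‖ ≤ ‖B‖ * ‖b‖ := B.le_opNorm b
  have h3 : ‖b‖ ≤ c * ‖D b‖ := hlow b hb
  have h4 : |(inner ℝ (B b) (D b) : ℝ)| ≤ (‖B‖ + 1) * c * ‖D b‖ ^ 2 := by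
    calc |(inner ℝ (B b) (D b) : ℝ)| ≤ ‖B b‖ * ‖D b‖ := h1
      _ ≤ (‖B‖ * ‖b‖) * ‖D b‖ := mul_le_mul_of_nonneg_right h2 (norm_nonneg _)
      _ ≤ ((‖B‖ + 1) * (c * ‖D b‖)) * ‖D b‖ := by
        refine mul_le_mul_of_nonneg_right ?_ (norm_nonneg _)
        exact mul_le_mul (by linarith) h3 (norm_nonneg _) (by positivity)
      _ = (‖B‖ + 1) * c * ‖D b‖ ^ 2 := by ring
  have h5 : |t * inner ℝ (B b) (D b)| ≤ ‖D b‖ ^ 2 / 2 := by
    rw [abs_mul]
    calc |t| * |(inner ℝ (B b) (D b) : ℝ)| ≤ (2 * (c * (‖B‖ + 1)))⁻¹ * ((‖B‖ + 1) * c * ‖D b‖ ^ 2) :=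
          mul_le_mul ht h4 (abs_nonneg _) (inv_pos.mpr hden).le
      _ = ‖D b‖ ^ 2 / 2 := by
        have h6 : ‖B‖ + 1 ≠ 0 := by positivity
        field_simp
  have h6 := le_abs_self (t * inner ℝ (B b) (D b))
  constructor
  · have h7 : 0 ≤ ‖D b‖ ^ 2 := by positivity
    linarith
  · intro h0
    have h8 : ‖D b‖ ^ 2 ≤ ‖D b‖ ^ 2 / 2 := by linarith
    have h9 : ‖D b‖ ^ 2 ≤ 0 := by linarith
    have h10 : ‖D b‖ = 0 := by
      have h11 : ‖D b‖ ^ 2 = 0 := le_antisymm h9 (by positivity)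
      exact pow_eq_zero_iff (two_ne_zero) |>.mp h11
    exact norm_eq_zero.mp h10

theorem exists_patch {m : ℕ} {U : Set (E m)} {x ξ : E m → E (m + 1)} (h : Leg U x ξ)
    (h0 : (0 : E m) ∈ U) (τ0 : ℝ) {v0 : E m} (hv0 : v0 ≠ 0)
    (hk : fderiv ℝ x 0 v0 + τ0 • fderiv ℝ ξ 0 v0 = 0) {s : ℝ} (hs : s = 1 ∨ s = -1) :
    ∃ σ : ℝ, 0 < σ ∧ ∃ V : Set (E m), V ⊆ U ∧ (0 : E m) ∈ V ∧
      Patch V (fun u => x u + (τ0 - s * σ) • ξ u) (fun u => s • ξ u) ∧
      Kap (fun u => x u + (τ0 - s * σ) • ξ u) (fun u => s • ξ u) 0 = σ⁻¹ := by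
  have hm : 0 < m := by
    rcases Nat.eq_zero_or_pos m with rfl | hm
    · exact absurd (Subsingleton.elim v0 0) hv0
    · exact hm
  have hss : s * s = 1 := by rcases hs with rfl | rfl <;> norm_num
  have hsabs : |s| = 1 := by rcases hs with rfl | rfl <;> norm_num
  have hs0 : s ≠ 0 := by rcases hs with rfl | rfl <;> norm_num
  have dx : ∀ u ∈ U, DifferentiableAt ℝ x u := fun u hu =>
    (h.cx.contDiffAt (h.op.mem_nhds hu)).differentiableAt (by simp)
  have dξ : ∀ u ∈ U, DifferentiableAt ℝ ξ u := fun u hu =>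
    (h.cξ.contDiffAt (h.op.mem_nhds hu)).differentiableAt (by simp)
  have fX : ∀ a : ℝ, ∀ u ∈ U, fderiv ℝ (fun u => x u + a • ξ u) u = fderiv ℝ x u + a • fderiv ℝ ξ u := by
    intro a u hu
    exact ((dx u hu).hasFDerivAt.add ((dξ u hu).hasFDerivAt.const_smul a)).fderiv
  have fξ : ∀ u ∈ U, fderiv ℝ (fun u => s • ξ u) u = s • fderiv ℝ ξ u := by
    intro u hu
    exact ((dξ u hu).hasFDerivAt.const_smul s).fderiv
  let D : E m →L[ℝ] E (m + 1) := fderiv ℝ x 0 + τ0 • fderiv ℝ ξ 0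
  let B : E m →L[ℝ] E (m + 1) := fderiv ℝ ξ 0
  have hD : ∀ v, D v = fderiv ℝ x 0 v + τ0 • fderiv ℝ ξ 0 v := fun v => rfl
  have hsymm : ∀ v w, inner ℝ (B v) (D w) = (inner ℝ (B w) (D v) : ℝ) := by
    intro v w
    have h1 := leg_symm h h0 v w
    have h2 := leg_symm h h0 w v
    rw [hD, hD, inner_add_right, inner_add_right, inner_smul_right, inner_smul_right]
    have h3 : (inner ℝ (B v) (fderiv ℝ x 0 w) : ℝ) = inner ℝ (B w) (fderiv ℝ x 0 v) := by
      rw [real_inner_comm, real_inner_comm (fderiv ℝ x 0 v) (B w)]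
      exact h2
    have h4 : (inner ℝ (B v) (fderiv ℝ ξ 0 w) : ℝ) = inner ℝ (B w) (fderiv ℝ ξ 0 v) := real_inner_comm _ _
    rw [h3, h4]
  obtain ⟨σ, hσ, hpos⟩ := D2_pos D B hsymm
  have hpos' : ∀ v, 0 ≤ ‖D v‖ ^ 2 - (s * σ) * inner ℝ (B v) (D v) ∧
      (‖D v‖ ^ 2 - (s * σ) * inner ℝ (B v) (D v) = 0 → D v = 0) := by
    refine hpos (s * σ) ?_
    rw [abs_mul, hsabs, one_mul, abs_of_pos hσ]
  -- the derivative of `X` at 0
  have hX0 : ∀ v, fderiv ℝ (fun u => x u + (τ0 - s * σ) • ξ u) 0 v = D v - (s * σ) • B v := by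
    intro v
    rw [fX _ 0 h0, hD]
    simp only [ContinuousLinearMap.add_apply, ContinuousLinearMap.smul_apply, sub_smul]
    abel
  have hβ : ∀ v, (inner ℝ (D v - (s * σ) • B v) (D v) : ℝ) = ‖D v‖ ^ 2 - (s * σ) * inner ℝ (B v) (D v) := by
    intro v
    rw [inner_sub_left, inner_smul_left, real_inner_self_eq_norm_sq]
    rfl
  have hinj : Function.Injective (fderiv ℝ (fun u => x u + (τ0 - s * σ) • ξ u) 0) := by
    rw [injective_iff_map_eq_zero]
    intro v hv
    rw [hX0] at hv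
    have h1 : D v = 0 := by
      apply (hpos' v).2
      rw [← hβ v, hv, inner_zero_left]
    have h2 : B v = 0 := by
      rw [h1, zero_sub, neg_eq_zero, smul_eq_zero] at hv
      rcases hv with hv | hv
      · exact absurd hv (mul_ne_zero hs0 hσ.ne')
      · exact hv
    have h3 : fderiv ℝ x 0 v = 0 := by
      have h4 := hD v
      rw [h1] at h4
      have h5 : fderiv ℝ ξ 0 v = 0 := h2
      rw [h5, smul_zero, add_zero] at h4
      exact h4.symm
    exact h.inj 0 h0 v h3 h2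
  let V : Set (E m) := {u | u ∈ U ∧ Function.Injective (fderiv ℝ (fun u => x u + (τ0 - s * σ) • ξ u) u)}
  have hcX : ContDiffOn ℝ ∞ (fun u => x u + (τ0 - s * σ) • ξ u) U := h.cx.add (h.cξ.const_smul _)
  have hVopen : IsOpen V := by
    have h1 : ContinuousOn (fderiv ℝ (fun u => x u + (τ0 - s * σ) • ξ u)) U :=
      hcX.continuousOn_fderiv_of_isOpen h.op (by simp)
    have h2 := h1.isOpen_inter_preimage h.op (ContinuousLinearMap.isOpen_injective (𝕜 := ℝ) (E := E m) (F := E (m + 1)))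
    exact h2
  have hVU : V ⊆ U := fun u hu => hu.1
  have h0V : (0 : E m) ∈ V := ⟨h0, hinj⟩
  have hP : Patch V (fun u => x u + (τ0 - s * σ) • ξ u) (fun u => s • ξ u) := by
    refine ⟨hVopen, hcX.mono hVU, (h.cξ.const_smul s).mono hVU, ?_, ?_, ?_⟩
    · intro u hu
      rw [norm_smul, h.unit u (hVU hu), Real.norm_eq_abs, hsabs, one_mul]
    · intro u hu v
      rw [fX _ u (hVU hu)]
      simp only [ContinuousLinearMap.add_apply, ContinuousLinearMap.smul_apply]
      rw [inner_smul_right, inner_add_left, inner_smul_left, h.perp u (hVU hu) v, leg_unit h (hVU hu) v]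
      simp
    · intro u hu
      exact hu.2
  refine ⟨σ, hσ, V, hVU, h0V, hP, ?_⟩
  apply le_antisymm
  · obtain ⟨⟨e, he, heq⟩, _⟩ := Kap_spec hm hP h0V
    have he0 : e ≠ 0 := by
      rintro rfl
      rw [norm_zero] at he
      exact zero_ne_one he
    have hG : 0 < GG (fun u => x u + (τ0 - s * σ) • ξ u) 0 e e := by
      unfold GG
      rw [real_inner_self_eq_norm_sq]
      have h1 : fderiv ℝ (fun u => x u + (τ0 - s * σ) • ξ u) 0 e ≠ 0 := by
        intro h2
        exact he0 (hinj (by rw [h2, map_zero]))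
      have h3 := norm_pos_iff.mpr h1
      positivity
    have h1 := heq e
    have h2 : σ * II (fun u => x u + (τ0 - s * σ) • ξ u) (fun u => s • ξ u) 0 e e ≤
        GG (fun u => x u + (τ0 - s * σ) • ξ u) 0 e e := by
      have h3 := (hpos' e).1
      rw [← hβ e] at h3
      unfold II GG
      rw [fξ 0 h0, hX0 e]
      simp only [ContinuousLinearMap.smul_apply]
      have h4 : D e = (D e - (s * σ) • B e) + (s * σ) • B e := by abel
      have h5 : (inner ℝ (D e - (s * σ) • B e) (D e) : ℝ) =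
          inner ℝ (D e - (s * σ) • B e) (D e - (s * σ) • B e) +
            (s * σ) * inner ℝ (D e - (s * σ) • B e) (B e) := by
        conv_lhs => rw [show (inner ℝ (D e - (s * σ) • B e) (D e) : ℝ) =
          inner ℝ (D e - (s * σ) • B e) ((D e - (s * σ) • B e) + (s * σ) • B e) by rw [← h4]]
        rw [inner_add_right, inner_smul_right]
      rw [h5] at h3
      have h6 : (inner ℝ (D e - (s * σ) • B e) (s • fderiv ℝ ξ 0 e) : ℝ) =
          s * inner ℝ (D e - (s * σ) • B e) (B e) := inner_smul_right _ _ _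
      rw [h6]
      nlinarith
    rw [h1] at h2
    have h3 : σ * Kap (fun u => x u + (τ0 - s * σ) • ξ u) (fun u => s • ξ u) 0 ≤ 1 := by
      by_contra hcon
      push Not at hcon
      have h4 := mul_lt_mul_of_pos_right hcon hG
      rw [one_mul] at h4
      nlinarith
    rw [← one_div, le_div_iff₀ hσ]
    linarith [mul_comm σ (Kap (fun u => x u + (τ0 - s * σ) • ξ u) (fun u => s • ξ u) 0)]
  · refine Kap_ge hm hP h0V hv0 ?_
    have hDv0 : D v0 = 0 := hk
    rw [fξ 0 h0, hX0 v0, hDv0, zero_sub, smul_neg, smul_smul]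
    have h1 : σ⁻¹ * (s * σ) = s := by
      field_simp
    rw [h1]
    simp only [ContinuousLinearMap.smul_apply]
    exact add_neg_cancel _

end MPf7aa
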