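import Pool.Agent.Lib.MP_f7aa1b_gt.D2
import Pool.Agent.Lib.MP_f7aa1b_gt.B5

/-!
Row D3. DHyp from DStar on a smaller neighbourhood. Let a = tau0 - s sigma, X = x + a xi, xi_s = s xi, ks = Kap u.
dxi_s e + ks dX e = (s + ks a) dxi e + ks dx e. At u = 0: s + a/sigma = tau0/sigma != 0, so by Kap_cont
s + Kap u a != 0 on an open V' containing 0. For u in V' and e as in DHyp put k0 = ks/(s + ks a): dxi e + k0 dx e = 0,
and the same equivalence for all v. DStar gives gam, k with k 0 = k0, k' 0 = 0. 1 - a k0 = s/(s + ks a) != 0.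
Define kk t = s k t/(1 - a k t): kk 0 = ks (s^2 = 1), derivative 0 at 0; for t near 0 gam t in V' (so fderiv X =
dx + a dxi there) and 1 - a k t != 0 and dxi_s v + kk dX v = (s/(1 - a k))(dxi v + k dx v) = 0.
(m > 0 because V' with a kernel vector e != 0; if m = 0 DHyp is trivial.)
-/

open Set Filter Topology Metric MeasureTheory
open scoped ContDiff

namespace MPf7aa

theorem D3_fX {m : ℕ} {U : Set (E m)} {x ξ : E m → E (m + 1)} (h : Leg U x ξ) {u : E m}
    (hu : u ∈ U) (a : ℝ) (v : E m) :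
    fderiv ℝ (fun u => x u + a • ξ u) u v = fderiv ℝ x u v + a • fderiv ℝ ξ u v := by
  have d1 : DifferentiableAt ℝ x u :=
    (h.cx.contDiffAt (h.op.mem_nhds hu)).differentiableAt (by simp)
  have d2 : DifferentiableAt ℝ ξ u :=
    (h.cξ.contDiffAt (h.op.mem_nhds hu)).differentiableAt (by simp)
  have h3 : HasFDerivAt (fun u => x u + a • ξ u) (fderiv ℝ x u + a • fderiv ℝ ξ u) u :=
    d1.hasFDerivAt.add (d2.hasFDerivAt.const_smul a)
  rw [h3.fderiv]
  rfl

theorem D3_fxi {m : ℕ} {U : Set (E m)} {x ξ : E m → E (m + 1)} (h : Leg U x ξ) {u : E m}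
    (hu : u ∈ U) (s : ℝ) (v : E m) :
    fderiv ℝ (fun u => s • ξ u) u v = s • fderiv ℝ ξ u v := by
  have d2 : DifferentiableAt ℝ ξ u :=
    (h.cξ.contDiffAt (h.op.mem_nhds hu)).differentiableAt (by simp)
  have h3 : HasFDerivAt (fun u => s • ξ u) (s • fderiv ℝ ξ u) u := d2.hasFDerivAt.const_smul s
  rw [h3.fderiv]
  rfl

theorem dhyp_of_dstar {m : ℕ} {U V : Set (E m)} {x ξ : E m → E (m + 1)} (h : Leg U x ξ)
    (hD : DStar U x ξ) {τ0 : ℝ} (hτ : τ0 ≠ 0) {s σ : ℝ} (hs : s = 1 ∨ s = -1) (hσ : 0 < σ)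
    (hV : V ⊆ U) (h0 : (0 : E m) ∈ V)
    (hP : Patch V (fun u => x u + (τ0 - s * σ) • ξ u) (fun u => s • ξ u))
    (hK : Kap (fun u => x u + (τ0 - s * σ) • ξ u) (fun u => s • ξ u) 0 = σ⁻¹) :
    ∃ V' : Set (E m), V' ⊆ V ∧ (0 : E m) ∈ V' ∧
      Patch V' (fun u => x u + (τ0 - s * σ) • ξ u) (fun u => s • ξ u) ∧
      DHyp V' (fun u => x u + (τ0 - s * σ) • ξ u) (fun u => s • ξ u) := by
  rcases Nat.eq_zero_or_pos m with hm | hm
  · subst hm
    exact ⟨V, Subset.rfl, h0, hP, fun u _ e he => absurd (Subsingleton.elim e 0) he⟩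
  set a : ℝ := τ0 - s * σ with ha
  set X : E m → E (m + 1) := fun u => x u + a • ξ u with hX
  set Ξ : E m → E (m + 1) := fun u => s • ξ u with hΞ
  have hs0 : s ≠ 0 := by rcases hs with h1 | h1 <;> rw [h1] <;> norm_num
  have hcont : ContinuousOn (fun u => s + Kap X Ξ u * a) V := by
    intro u hu
    exact ((continuousAt_const.add ((Kap_cont hm hP hu).mul continuousAt_const))).continuousWithinAt
  have hV'o : IsOpen (V ∩ (fun u => s + Kap X Ξ u * a) ⁻¹' {y | y ≠ 0}) :=
    hcont.isOpen_inter_preimage hP.op isOpen_ne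
  refine ⟨V ∩ (fun u => s + Kap X Ξ u * a) ⁻¹' {y | y ≠ 0}, inter_subset_left, ⟨h0, ?_⟩, ?_, ?_⟩
  · change s + Kap X Ξ 0 * a ≠ 0
    rw [hK, ha]
    have : s + σ⁻¹ * (τ0 - s * σ) = τ0 / σ := by field_simp; ring
    rw [this]
    exact div_ne_zero hτ hσ.ne'
  · exact ⟨hV'o, hP.cX.mono inter_subset_left, hP.cξ.mono inter_subset_left,
      fun u hu => hP.unit u hu.1, fun u hu => hP.perp u hu.1, fun u hu => hP.imm u hu.1⟩
  · intro u hu e he hk huniq
    have huU : u ∈ U := hV hu.1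
    set ks : ℝ := Kap X Ξ u with hks
    have hden : s + ks * a ≠ 0 := hu.2
    set den : ℝ := s + ks * a with hdendef
    -- the equivalence at u
    have heq : ∀ v, fderiv ℝ Ξ u v + ks • fderiv ℝ X u v =
        den • (fderiv ℝ ξ u v + (ks / den) • fderiv ℝ x u v) := by
      intro v
      rw [hX, hΞ, D3_fX h huU, D3_fxi h huU, smul_add den, smul_smul den, mul_div_cancel₀ _ hden,
        hdendef]
      module
    have hz : ∀ v, fderiv ℝ Ξ u v + ks • fderiv ℝ X u v = 0 ↔
        fderiv ℝ ξ u v + (ks / den) • fderiv ℝ x u v = 0 := by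
      intro v
      rw [heq v, smul_eq_zero, or_iff_right hden]
    obtain ⟨γ, k, hγ0, hγ, hk0, hkd, hev⟩ := hD u huU (ks / den) e he ((hz e).1 hk)
      (fun v hv => huniq v ((hz v).2 hv))
    have h1ak : 1 - a * (ks / den) = s / den := by
      rw [eq_div_iff hden, sub_mul, one_mul, mul_assoc, div_mul_cancel₀ _ hden, hdendef]
      ring
    have hne : 1 - a * k 0 ≠ 0 := by
      rw [hk0, h1ak]
      exact div_ne_zero hs0 hden
    refine ⟨γ, fun t => s * k t / (1 - a * k t), hγ0, hγ, ?_, ?_, ?_⟩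
    · change s * k 0 / (1 - a * k 0) = ks
      rw [hk0, h1ak]
      field_simp
    · have d1 : HasDerivAt (fun t => s * k t) (s * 0) 0 := hkd.const_mul s
      have d2 : HasDerivAt (fun t => 1 - a * k t) (-(a * 0)) 0 := by
        have := (hkd.const_mul a).const_sub 1
        exact this
      have d3 := d1.div d2 hne
      have e3 : (s * 0 * (1 - a * k 0) - s * k 0 * -(a * 0)) / (1 - a * k 0) ^ 2 = 0 := by
        simp
      rw [e3] at d3
      exact d3
    · have c1 : ∀ᶠ t in 𝓝 (0 : ℝ), γ t ∈ U := by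
        have : ContinuousAt γ 0 := hγ.continuousAt
        have hn : U ∈ 𝓝 (γ 0) := by rw [hγ0]; exact h.op.mem_nhds huU
        exact this hn
      have c2 : ∀ᶠ t in 𝓝 (0 : ℝ), 1 - a * k t ≠ 0 := by
        have : ContinuousAt (fun t => 1 - a * k t) 0 :=
          continuousAt_const.sub (continuousAt_const.mul hkd.continuousAt)
        exact this.eventually_ne hne
      filter_upwards [c1, c2, hev] with t ht1 ht2 ⟨v, hv0, hv⟩
      refine ⟨v, hv0, ?_⟩
      rw [hX, hΞ, D3_fX h ht1, D3_fxi h ht1]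
      have e1 : s • fderiv ℝ ξ (γ t) v + (s * k t / (1 - a * k t)) •
          (fderiv ℝ x (γ t) v + a • fderiv ℝ ξ (γ t) v) =
          (s / (1 - a * k t)) • (fderiv ℝ ξ (γ t) v + k t • fderiv ℝ x (γ t) v) := by
        have e2 : s + s * k t / (1 - a * k t) * a = s / (1 - a * k t) := by
          rw [eq_div_iff ht2]
          have h9 := div_mul_cancel₀ (s * k t) ht2
          linear_combination a * h9
        have e4 : s * k t / (1 - a * k t) = s / (1 - a * k t) * k t := by ring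
        rw [smul_add (s / (1 - a * k t)), smul_smul, ← e4, ← e2]
        module
      rw [e1, hv, smul_zero]

end MPf7aa
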