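import Pool.Agent.Lib.MP_f7aa1b_gt.D3
import Pool.Agent.Lib.MP_f7aa1b_gt.B10

/-!
Row D4. The inequality |<z, xi>| <= C |z|^2 near a degenerate point.
Proof. For s = 1 and s = -1: exists_patch, dhyp_of_dstar, ff_patch (m > 0 because v0 != 0):
near 0: <X u - X 0, s xi 0> <= (1/sigma) |X u - X 0|^2/2, i.e. |X u - X 0 - sigma s xi 0|^2 >= sigma^2. Here
X 0 + sigma s xi 0 = x 0 + tau0 xi 0 =: p0 and X u - p0 = z u - s sigma xi u. So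
|z|^2 - 2 s sigma <z, xi u> + sigma^2 >= sigma^2: s <z, xi> <= |z|^2/(2 sigma). Take C = max of the two 1/(2 sigma).
-/

open Set Filter Topology Metric MeasureTheory
open scoped ContDiff

namespace MPf7aa

theorem D4_side {m : ℕ} {U : Set (E m)} {x ξ : E m → E (m + 1)} (h : Leg U x ξ)
    (hD : DStar U x ξ) (h0 : (0 : E m) ∈ U) {τ0 : ℝ} (hτ : τ0 ≠ 0) {v0 : E m} (hv0 : v0 ≠ 0)
    (hk : fderiv ℝ x 0 v0 + τ0 • fderiv ℝ ξ 0 v0 = 0) {s : ℝ} (hs : s = 1 ∨ s = -1) :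
    ∃ C : ℝ, 0 < C ∧ ∀ᶠ u in 𝓝 (0 : E m),
      s * (inner ℝ (x u + τ0 • ξ u - (x 0 + τ0 • ξ 0)) (ξ u) : ℝ) ≤
        C * ‖x u + τ0 • ξ u - (x 0 + τ0 • ξ 0)‖ ^ 2 := by
  have hm : 0 < m := by
    rcases Nat.eq_zero_or_pos m with rfl | hm
    · exact absurd (Subsingleton.elim v0 0) hv0
    · exact hm
  have hss : s * s = 1 := by rcases hs with rfl | rfl <;> norm_num
  obtain ⟨σ, hσ, V, hVU, h0V, hP, hK⟩ := exists_patch h h0 τ0 hv0 hk hs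
  obtain ⟨V', hV'V, h0V', hP', hD'⟩ := dhyp_of_dstar h hD hτ hs hσ hVU h0V hP hK
  have h1 := ff_patch hm hP' hD' h0V' (by rw [hK]; exact inv_pos.mpr hσ)
  refine ⟨(2 * σ)⁻¹, by positivity, ?_⟩
  filter_upwards [h1, h.op.mem_nhds h0] with u h2 hu
  rw [hK] at h2
  set z : E (m + 1) := x u + τ0 • ξ u - (x 0 + τ0 • ξ 0) with hz
  have hX : x u + (τ0 - s * σ) • ξ u - (x 0 + (τ0 - s * σ) • ξ 0) = z - (s * σ) • ξ u + (s * σ) • ξ 0 := by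
    rw [hz]
    simp only [sub_smul]
    abel
  rw [hX] at h2
  have hn0 : ‖ξ 0‖ = 1 := h.unit 0 h0
  have hnu : ‖ξ u‖ = 1 := h.unit u hu
  set y : E (m + 1) := z - (s * σ) • ξ u with hy
  have e1 : ‖y + (s * σ) • ξ 0‖ ^ 2 = ‖y‖ ^ 2 + 2 * ((s * σ) * inner ℝ y (ξ 0)) + (s * σ) ^ 2 := by
    rw [norm_add_sq_real, real_inner_smul_right, norm_smul, hn0, mul_one, Real.norm_eq_abs, sq_abs]
  have e2 : (inner ℝ (y + (s * σ) • ξ 0) (s • ξ 0) : ℝ) = s * inner ℝ y (ξ 0) + s * (s * σ) := by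
    rw [real_inner_smul_right, inner_add_left, real_inner_smul_left, real_inner_self_eq_norm_sq, hn0]
    ring
  have e3 : ‖y‖ ^ 2 = ‖z‖ ^ 2 - 2 * ((s * σ) * inner ℝ z (ξ u)) + (s * σ) ^ 2 := by
    rw [hy, norm_sub_sq_real, real_inner_smul_right, norm_smul, hnu, mul_one, Real.norm_eq_abs, sq_abs]
  rw [e1, e2, e3] at h2
  have hσ2 : (s * σ) ^ 2 = σ ^ 2 := by
    rw [mul_pow, pow_two s, hss, one_mul]
  rw [hσ2] at h2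
  have h3 : σ * (s * inner ℝ y (ξ 0) + s * (s * σ)) ≤
      σ * (σ⁻¹ * (1 / 2 * (‖z‖ ^ 2 - 2 * (s * σ * inner ℝ z (ξ u)) + σ ^ 2 + 2 * (s * σ * inner ℝ y (ξ 0)) + σ ^ 2))) :=
    mul_le_mul_of_nonneg_left h2 hσ.le
  rw [← mul_assoc σ σ⁻¹, mul_inv_cancel₀ hσ.ne', one_mul] at h3
  have h4 : s * (s * σ) = σ := by rw [← mul_assoc, hss, one_mul]
  rw [h4] at h3
  have h5 : 2 * σ * (s * inner ℝ z (ξ u)) ≤ ‖z‖ ^ 2 := by nlinarith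
  rw [inv_mul_eq_div, le_div_iff₀ (by positivity)]
  linarith

theorem legineq_deg {m : ℕ} {U : Set (E m)} {x ξ : E m → E (m + 1)} (h : Leg U x ξ)
    (hD : DStar U x ξ) (h0 : (0 : E m) ∈ U) {τ0 : ℝ} (hτ : τ0 ≠ 0) {v0 : E m} (hv0 : v0 ≠ 0)
    (hk : fderiv ℝ x 0 v0 + τ0 • fderiv ℝ ξ 0 v0 = 0) :
    ∃ C : ℝ, 0 < C ∧ ∀ᶠ u in 𝓝 (0 : E m),
      |(inner ℝ (x u + τ0 • ξ u - (x 0 + τ0 • ξ 0)) (ξ u) : ℝ)| ≤
        C * ‖x u + τ0 • ξ u - (x 0 + τ0 • ξ 0)‖ ^ 2 := by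
  obtain ⟨C1, hC1, h1⟩ := D4_side h hD h0 hτ hv0 hk (s := 1) (Or.inl rfl)
  obtain ⟨C2, hC2, h2⟩ := D4_side h hD h0 hτ hv0 hk (s := -1) (Or.inr rfl)
  refine ⟨C1 + C2, by positivity, ?_⟩
  filter_upwards [h1, h2] with u h3 h4
  have h5 : 0 ≤ ‖x u + τ0 • ξ u - (x 0 + τ0 • ξ 0)‖ ^ 2 := by positivity
  rw [one_mul] at h3
  rw [abs_le]
  constructor
  · nlinarith [mul_nonneg hC1.le h5]
  · nlinarith [mul_nonneg hC2.le h5]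

end MPf7aa
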