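import Pool.Agent.Lib.MP_f7aa1b_gt.D4

/-!
Row D5. The same inequality for every tau0 != 0. If ker (dx 0 + tau0 dxi 0) != 0 this is D4. Otherwise dz(0) is
injective, z is C^1, so |z u| >= c |u| near 0 (strict differentiability, antilipschitz, z 0 = 0); and
phi = <z, xi> has phi 0 = 0, derivative <dz v, xi> + <z, dxi v> = <z, dxi v> (perp, leg_unit), of size C|u||v|
near 0, so |phi u| <= C |u|^2 (mean value inequality on a ball) <= (C/c^2)|z u|^2.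
-/

open Set Filter Topology Metric MeasureTheory
open scoped ContDiff

namespace MPf7aa

theorem legineq {m : ℕ} {U : Set (E m)} {x ξ : E m → E (m + 1)} (h : Leg U x ξ)
    (hD : DStar U x ξ) (h0 : (0 : E m) ∈ U) {τ0 : ℝ} (hτ : τ0 ≠ 0) :
    ∃ C : ℝ, 0 < C ∧ ∀ᶠ u in 𝓝 (0 : E m),
      |(inner ℝ (x u + τ0 • ξ u - (x 0 + τ0 • ξ 0)) (ξ u) : ℝ)| ≤
        C * ‖x u + τ0 • ξ u - (x 0 + τ0 • ξ 0)‖ ^ 2 := by
  by_cases hdeg : ∃ v0 : E m, v0 ≠ 0 ∧ fderiv ℝ x 0 v0 + τ0 • fderiv ℝ ξ 0 v0 = 0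
  · obtain ⟨v0, hv0, hk⟩ := hdeg
    exact legineq_deg h hD h0 hτ hv0 hk
  push Not at hdeg
  have dx : ∀ u ∈ U, DifferentiableAt ℝ x u := fun u hu =>
    (h.cx.contDiffAt (h.op.mem_nhds hu)).differentiableAt (by simp)
  have dξ : ∀ u ∈ U, DifferentiableAt ℝ ξ u := fun u hu =>
    (h.cξ.contDiffAt (h.op.mem_nhds hu)).differentiableAt (by simp)
  let D : E m →L[ℝ] E (m + 1) := fderiv ℝ x 0 + τ0 • fderiv ℝ ξ 0
  let z : E m → E (m + 1) := fun u => x u + τ0 • ξ u - (x 0 + τ0 • ξ 0)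
  have hz0 : z 0 = 0 := sub_self _
  have hzd : ∀ u ∈ U, HasFDerivAt z (fderiv ℝ x u + τ0 • fderiv ℝ ξ u) u := by
    intro u hu
    exact ((dx u hu).hasFDerivAt.add ((dξ u hu).hasFDerivAt.const_smul τ0)).sub_const _
  have hker : LinearMap.ker (D : E m →ₗ[ℝ] E (m + 1)) = ⊥ := by
    rw [LinearMap.ker_eq_bot']
    intro v hv
    by_contra hne
    exact hdeg v hne hv
  obtain ⟨c, hc, hanti⟩ := LinearMap.exists_antilipschitzWith (D : E m →ₗ[ℝ] E (m + 1)) hker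
  have hc' : (0 : ℝ) < (c : ℝ) := by exact_mod_cast hc
  have hlow : ∀ v, ‖v‖ ≤ c * ‖D v‖ := by
    intro v
    have h1 := hanti.le_mul_dist v 0
    rw [dist_zero_right, map_zero, dist_zero_right] at h1
    exact h1
  -- `z` is bounded below and above near 0
  have hD0 : HasFDerivAt z D 0 := hzd 0 h0
  have hlo : ∀ᶠ u in 𝓝 (0 : E m), ‖z u - z 0 - D (u - 0)‖ ≤ (2 * (c : ℝ))⁻¹ * ‖u - 0‖ :=
    hD0.isLittleO.def (by positivity)
  have hlo2 : ∀ᶠ u in 𝓝 (0 : E m), ‖z u - z 0 - D (u - 0)‖ ≤ 1 * ‖u - 0‖ :=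
    hD0.isLittleO.def (by norm_num)
  have hdξc : ∀ᶠ u in 𝓝 (0 : E m), ‖fderiv ℝ ξ u‖ < ‖fderiv ℝ ξ 0‖ + 1 := by
    have h1 : ContinuousOn (fderiv ℝ ξ) U := h.cξ.continuousOn_fderiv_of_isOpen h.op (by simp)
    have h2 : ContinuousAt (fun u => ‖fderiv ℝ ξ u‖) 0 := (h1.continuousAt (h.op.mem_nhds h0)).norm
    exact h2.eventually (gt_mem_nhds (lt_add_one _))
  obtain ⟨r, hr, hball⟩ := Metric.eventually_nhds_iff_ball.mp
    (hlo.and (hlo2.and (hdξc.and (h.op.mem_nhds h0 : ∀ᶠ u in 𝓝 (0 : E m), u ∈ U))))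
  let B : ℝ := (‖fderiv ℝ ξ 0‖ + 1) * (‖D‖ + 1)
  have hB : 0 < B := by positivity
  refine ⟨B * (2 * c) ^ 2, by positivity, ?_⟩
  filter_upwards [Metric.ball_mem_nhds (0 : E m) hr] with u hu
  -- lower bound
  have hzlow : ‖u‖ ≤ 2 * c * ‖z u‖ := by
    have h1 := (hball u hu).1
    rw [hz0, sub_zero, sub_zero] at h1
    have h2 := hlow u
    have h3 : ‖D u‖ ≤ ‖z u‖ + ‖z u - D u‖ := by
      have h4 : D u = z u - (z u - D u) := by abel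
      calc ‖D u‖ = ‖z u - (z u - D u)‖ := by rw [← h4]
        _ ≤ ‖z u‖ + ‖z u - D u‖ := norm_sub_le _ _
    have h5 : ‖D u‖ ≤ ‖z u‖ + (2 * (c : ℝ))⁻¹ * ‖u‖ := by linarith
    have h6 : ‖u‖ ≤ c * (‖z u‖ + (2 * (c : ℝ))⁻¹ * ‖u‖) := h2.trans (mul_le_mul_of_nonneg_left h5 hc'.le)
    have h7 : c * (‖z u‖ + (2 * (c : ℝ))⁻¹ * ‖u‖) = c * ‖z u‖ + ‖u‖ / 2 := by
      field_simp
    rw [h7] at h6
    linarith
  -- upper bound of the derivative on the ball of radius |u|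
  let φ : E m → ℝ := fun w => inner ℝ (z w) (ξ w)
  have hball' : ∀ w ∈ closedBall (0 : E m) ‖u‖, w ∈ ball (0 : E m) r := by
    intro w hw
    rw [mem_closedBall_zero_iff] at hw
    rw [mem_ball_zero_iff] at hu ⊢
    exact lt_of_le_of_lt hw hu
  have hφd : ∀ w ∈ closedBall (0 : E m) ‖u‖, HasFDerivAt φ
      ((fderivInnerCLM ℝ (z w, ξ w)).comp ((fderiv ℝ x w + τ0 • fderiv ℝ ξ w).prod (fderiv ℝ ξ w))) w := by
    intro w hw
    have hwU : w ∈ U := (hball w (hball' w hw)).2.2.2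
    exact (hzd w hwU).inner ℝ (dξ w hwU).hasFDerivAt
  have hbound : ∀ w ∈ closedBall (0 : E m) ‖u‖, ‖fderiv ℝ φ w‖ ≤ B * ‖u‖ := by
    intro w hw
    have hb := hball w (hball' w hw)
    have hwU : w ∈ U := hb.2.2.2
    rw [(hφd w hw).fderiv]
    refine ContinuousLinearMap.opNorm_le_bound _ (by positivity) ?_
    intro v
    have h1 : ((fderivInnerCLM ℝ (z w, ξ w)).comp
        ((fderiv ℝ x w + τ0 • fderiv ℝ ξ w).prod (fderiv ℝ ξ w))) v =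
        inner ℝ (z w) (fderiv ℝ ξ w v) + inner ℝ (fderiv ℝ x w v + τ0 • fderiv ℝ ξ w v) (ξ w) := rfl
    have h2 : (inner ℝ (fderiv ℝ x w v + τ0 • fderiv ℝ ξ w v) (ξ w) : ℝ) = 0 := by
      rw [inner_add_left, real_inner_smul_left, h.perp w hwU v, leg_unit h hwU v, mul_zero, add_zero]
    rw [h1, h2, add_zero]
    have h3 : ‖z w‖ ≤ (‖D‖ + 1) * ‖w‖ := by
      have h4 := hb.2.1
      rw [hz0, sub_zero, sub_zero, one_mul] at h4
      calc ‖z w‖ = ‖D w + (z w - D w)‖ := by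
            congr 1
            abel
        _ ≤ ‖D w‖ + ‖z w - D w‖ := norm_add_le _ _
        _ ≤ ‖D‖ * ‖w‖ + ‖w‖ := add_le_add (D.le_opNorm w) h4
        _ = (‖D‖ + 1) * ‖w‖ := by ring
    have hw' : ‖w‖ ≤ ‖u‖ := mem_closedBall_zero_iff.mp hw
    calc ‖(inner ℝ (z w) (fderiv ℝ ξ w v) : ℝ)‖ ≤ ‖z w‖ * ‖fderiv ℝ ξ w v‖ := norm_inner_le_norm _ _
      _ ≤ ((‖D‖ + 1) * ‖u‖) * ((‖fderiv ℝ ξ 0‖ + 1) * ‖v‖) := by
        refine mul_le_mul (h3.trans (mul_le_mul_of_nonneg_left hw' (by positivity))) ?_ (norm_nonneg _) (by positivity)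
        exact ((fderiv ℝ ξ w).le_opNorm v).trans
          (mul_le_mul_of_nonneg_right hb.2.2.1.le (norm_nonneg _))
      _ = B * ‖u‖ * ‖v‖ := by
        show _ = ((‖fderiv ℝ ξ 0‖ + 1) * (‖D‖ + 1)) * ‖u‖ * ‖v‖
        ring
  have hmv := Convex.norm_image_sub_le_of_norm_fderiv_le (𝕜 := ℝ) (f := φ) (s := closedBall (0 : E m) ‖u‖)
    (x := 0) (y := u) (C := B * ‖u‖) (fun w hw => (hφd w hw).differentiableAt) hbound
    (convex_closedBall _ _) (by simp) (by simp)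
  have hφ0 : φ 0 = 0 := by
    show (inner ℝ (z 0) (ξ 0) : ℝ) = 0
    rw [hz0, inner_zero_left]
  rw [hφ0, sub_zero, sub_zero, Real.norm_eq_abs] at hmv
  show |φ u| ≤ B * (2 * c) ^ 2 * ‖z u‖ ^ 2
  calc |φ u| ≤ B * ‖u‖ * ‖u‖ := hmv
    _ = B * (‖u‖ * ‖u‖) := by ring
    _ ≤ B * ((2 * c * ‖z u‖) * (2 * c * ‖z u‖)) :=
      mul_le_mul_of_nonneg_left (mul_le_mul hzlow hzlow (norm_nonneg _) (by positivity)) hB.le
    _ = B * (2 * c) ^ 2 * ‖z u‖ ^ 2 := by ring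

end MPf7aa
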