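import Mathlib

/-!
Definitions for MP_f7aa1b_gt (Dupin submanifolds).
-/

open Set Filter Topology Metric
open scoped ContDiff

namespace MPf7aa

/-- Euclidean space of dimension n -/
abbrev E (n : ℕ) := EuclideanSpace ℝ (Fin n)

/-- The set of velocity vectors at p of curves in S (curves defined near time 0, differentiable
at time 0). For an embedded submanifold S this is the tangent space of S at p. -/
def TanSet {F : Type*} [NormedAddCommGroup F] [NormedSpace ℝ F] (S : Set F) (p : F) : Set F :=
  {v | ∃ γ : ℝ → F, γ 0 = p ∧ HasDerivAt γ v 0 ∧ ∀ᶠ t in 𝓝 (0 : ℝ), γ t ∈ S}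

/-- A smooth local parametrisation φ of S around p, defined on an open neighbourhood U of 0 in
Euclidean d-space with φ(0) = p: an injective immersion of class C^infinity which is a
homeomorphism onto a relatively open subset of S. -/
structure IsChart {F : Type*} [NormedAddCommGroup F] [NormedSpace ℝ F] (d : ℕ) (S : Set F) (p : F)
    (U : Set (E d)) (φ : E d → F) : Prop where
  op : IsOpen U
  zero : (0 : E d) ∈ U
  base : φ 0 = p
  smooth : ContDiffOn ℝ ∞ φ U
  imm : ∀ u ∈ U, Function.Injective (fderiv ℝ φ u)
  inj : InjOn φ U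
  homeo : ∀ V : Set (E d), V ⊆ U → IsOpen V → ∃ W : Set F, IsOpen W ∧ φ '' V = S ∩ W

/-- A smooth embedded submanifold of dimension d without boundary (not necessarily closed or
connected). -/
def IsSubmfd {F : Type*} [NormedAddCommGroup F] [NormedSpace ℝ F] (d : ℕ) (S : Set F) : Prop :=
  ∀ p ∈ S, ∃ (U : Set (E d)) (φ : E d → F), IsChart d S p U φ

/-- The unit normal bundle B of M, as a subset of the product of two copies of Euclidean space -/
def UNB {n : ℕ} (M : Set (E n)) : Set (E n × E n) :=
  {b | b.1 ∈ M ∧ ‖b.2‖ = 1 ∧ ∀ v ∈ TanSet M b.1, inner ℝ v b.2 = 0}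

/-- The space of tangent vectors w of B at b with (second component) = - κ (first component) -/
def PrincSpace {n : ℕ} (M : Set (E n)) (κ : ℝ) (b : E n × E n) : Set (E n × E n) :=
  {w | w ∈ TanSet (UNB M) b ∧ w.2 = -(κ • w.1)}

/-- κ is a principal curvature of M at b = (x, ξ) -/
def IsPrinc {n : ℕ} (M : Set (E n)) (κ : ℝ) (b : E n × E n) : Prop :=
  ∃ w ∈ PrincSpace M κ b, w ≠ 0

/-- A curvature surface of M: a connected submanifold S of B with a function κ on S such that
at every point b of S the number κ b is a principal curvature and the tangent space of S is the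
principal space. -/
structure IsCurvSurface {n : ℕ} (M : Set (E n)) (S : Set (E n × E n)) (κ : E n × E n → ℝ) :
    Prop where
  sub : S ⊆ UNB M
  conn : IsConnected S
  mfd : ∃ k : ℕ, IsSubmfd k S
  princ : ∀ b ∈ S, IsPrinc M (κ b) b
  tan : ∀ b ∈ S, TanSet S b = PrincSpace M (κ b) b

/-- M is Dupin: the curvature function of every curvature surface is constant. -/
def IsDupin {n : ℕ} (M : Set (E n)) : Prop :=
  ∀ (S : Set (E n × E n)) (κ : E n × E n → ℝ), IsCurvSurface M S κ → ∃ c : ℝ, ∀ b ∈ S, κ b = c

/-- The critical set of the distance function L_p(x) = |p - x|^2 on M: the points x of M with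
p - x normal to M -/
def CritSet {n : ℕ} (M : Set (E n)) (p : E n) : Set (E n) :=
  {x | x ∈ M ∧ ∀ v ∈ TanSet M x, inner ℝ v (p - x) = 0}

/-- The null space of the second derivative at 0 of L_p in the local parametrisation φ -/
def HessNull {n d : ℕ} (p : E n) (φ : E d → E n) : Set (E d) :=
  {a | ∀ b : E d, fderiv ℝ (fderiv ℝ (fun u => ‖p - φ u‖ ^ 2)) 0 a b = 0}

/-- The distance function L_p on the d-dimensional submanifold M is Morse-Bott: near each critical
point the critical set is a submanifold, whose tangent space at each point is the null space of the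
Hessian of L_p. -/
def MorseBott {n : ℕ} (d : ℕ) (M : Set (E n)) (p : E n) : Prop :=
  ∀ x0 ∈ CritSet M p, ∃ (k : ℕ) (W : Set (E n)), IsOpen W ∧ x0 ∈ W ∧
    IsSubmfd k (CritSet M p ∩ W) ∧
    ∀ x ∈ CritSet M p ∩ W, ∀ (U : Set (E d)) (φ : E d → E n), IsChart d M x U φ →
      TanSet (CritSet M p ∩ W) x = fderiv ℝ φ 0 '' HessNull p φ

end MPf7aa
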