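import Pool.Agent.Lib.MP_f7aa1b_gt.Core

/-!
Row F1. An immersion is locally a chart of its image. Proof. phi is C^1 at 0 with injective derivative:
HasStrictFDerivAt, so there are c, rho0 > 0 with ball 0 rho0 in W and |phi a - phi b| >= c |a - b| on ball 0 rho0
(E k finite dimensional: an injective linear map is bounded below: LinearMap.injective_iff_antilipschitz or
compactness), and fderiv phi is injective on ball 0 rho0 (continuity; injective maps form an open set). For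
V open in ball 0 rho: O = union over a in V, r with ball a r in V, of ball (phi a) (c r): if phi b in O,
b in ball 0 rho, then |b - a| < r, b in V.
-/

open Set Filter Topology Metric MeasureTheory
open scoped ContDiff

namespace MPf7aa

theorem isChart_of_imm {F : Type*} [NormedAddCommGroup F] [NormedSpace ℝ F] {k : ℕ}
    {φ : E k → F} {W : Set (E k)} (hW : IsOpen W) (h0 : (0 : E k) ∈ W)
    (hφ : ContDiffOn ℝ ∞ φ W) (hi : Function.Injective (fderiv ℝ φ 0)) :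
    ∃ ρ0 : ℝ, 0 < ρ0 ∧ ∀ ρ : ℝ, 0 < ρ → ρ ≤ ρ0 → ball (0 : E k) ρ ⊆ W ∧
      IsChart k (φ '' ball (0 : E k) ρ) (φ 0) (ball (0 : E k) ρ) φ := by
  have hat : ContDiffAt ℝ ∞ φ 0 := hφ.contDiffAt (hW.mem_nhds h0)
  have hd : HasStrictFDerivAt φ (fderiv ℝ φ 0) 0 := hat.hasStrictFDerivAt (by simp)
  have hc : ContinuousAt (fderiv ℝ φ) 0 :=
    (hat.fderiv_right (m := 1) (by norm_cast)).continuousAt
  obtain ⟨K, hK, hanti⟩ :=
    (LinearMap.injective_iff_antilipschitz (fderiv ℝ φ 0 : E k →ₗ[ℝ] F)).1 hi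
  have hK' : (0 : ℝ) < K := hK
  have hlow : ∀ u : E k, ‖u‖ ≤ K * ‖fderiv ℝ φ 0 u‖ := by
    intro u
    have := hanti.le_mul_dist u 0
    simpa using this
  set c : ℝ := (2 * K : ℝ)⁻¹ with hcdef
  have hcpos : (0 : ℝ) < c := by positivity
  have hlow' : ∀ u : E k, 2 * c * ‖u‖ ≤ ‖fderiv ℝ φ 0 u‖ := by
    intro u
    calc 2 * c * ‖u‖ ≤ 2 * c * (K * ‖fderiv ℝ φ 0 u‖) := by
          gcongr
          exact hlow u
      _ = ‖fderiv ℝ φ 0 u‖ := by rw [hcdef]; field_simp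
  obtain ⟨r1, hr1, hb1⟩ := Metric.eventually_nhds_iff_ball.1 (hd.isLittleO.def hcpos)
  have h2 : ∀ᶠ u in 𝓝 (0 : E k), ‖fderiv ℝ φ u - fderiv ℝ φ 0‖ < c := by
    have := Metric.tendsto_nhds.1 hc _ hcpos
    filter_upwards [this] with u hu
    rwa [dist_eq_norm] at hu
  obtain ⟨r2, hr2, hb2⟩ := Metric.eventually_nhds_iff_ball.1
    (h2.and (hW.mem_nhds h0 : ∀ᶠ u in 𝓝 (0 : E k), u ∈ W))
  refine ⟨min r1 r2, lt_min hr1 hr2, fun ρ hρ hρle => ?_⟩
  have hsub1 : ball (0 : E k) ρ ⊆ ball 0 r1 := ball_subset_ball (hρle.trans (min_le_left _ _))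
  have hsub2 : ball (0 : E k) ρ ⊆ ball 0 r2 := ball_subset_ball (hρle.trans (min_le_right _ _))
  have hsubW : ball (0 : E k) ρ ⊆ W := fun u hu => (hb2 u (hsub2 hu)).2
  have hbd : ∀ a ∈ ball (0 : E k) ρ, ∀ b ∈ ball (0 : E k) ρ, c * ‖a - b‖ ≤ ‖φ a - φ b‖ := by
    intro a ha b hb
    have hm : (a, b) ∈ ball ((0 : E k), (0 : E k)) r1 := by
      rw [← ball_prod_same]
      exact ⟨hsub1 ha, hsub1 hb⟩
    have h3 := hb1 (a, b) hm
    simp only at h3
    have h4 := hlow' (a - b)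
    have h5 := norm_sub_norm_le (fderiv ℝ φ 0 (a - b)) (φ a - φ b)
    rw [norm_sub_rev (fderiv ℝ φ 0 (a - b)) (φ a - φ b)] at h5
    linarith
  refine ⟨hsubW, isOpen_ball, mem_ball_self hρ, rfl, hφ.mono hsubW, ?_, ?_, ?_⟩
  · intro u hu a b hab
    have h3 : fderiv ℝ φ u (a - b) = 0 := by rw [map_sub, hab, sub_self]
    have h4 := hlow' (a - b)
    have h5 : ‖(fderiv ℝ φ u - fderiv ℝ φ 0) (a - b)‖ ≤ c * ‖a - b‖ :=
      (ContinuousLinearMap.le_opNorm _ _).trans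
        (mul_le_mul_of_nonneg_right (hb2 u (hsub2 hu)).1.le (norm_nonneg _))
    have h6 : (fderiv ℝ φ u - fderiv ℝ φ 0) (a - b) = - fderiv ℝ φ 0 (a - b) := by
      have : (fderiv ℝ φ u - fderiv ℝ φ 0) (a - b) =
        fderiv ℝ φ u (a - b) - fderiv ℝ φ 0 (a - b) := rfl
      rw [this, h3, zero_sub]
    rw [h6, norm_neg] at h5
    have h7 : c * ‖a - b‖ ≤ 0 := by linarith
    have h8 : ‖a - b‖ ≤ 0 := by
      by_contra hcon
      push Not at hcon
      have := mul_pos hcpos hcon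
      linarith
    exact sub_eq_zero.1 (norm_le_zero_iff.1 h8)
  · intro a ha b hb hab
    have h3 := hbd a ha b hb
    rw [hab, sub_self, norm_zero] at h3
    have h8 : ‖a - b‖ ≤ 0 := by
      by_contra hcon
      push Not at hcon
      have := mul_pos hcpos hcon
      linarith
    exact sub_eq_zero.1 (norm_le_zero_iff.1 h8)
  · intro V hV hVo
    refine ⟨⋃ a ∈ V, ⋃ (r : ℝ) (_ : ball a r ⊆ V), ball (φ a) (c * r), ?_, ?_⟩
    · exact isOpen_biUnion fun a _ => isOpen_iUnion fun r => isOpen_iUnion fun _ => isOpen_ball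
    · ext y
      simp only [mem_image, mem_inter_iff, mem_iUnion, exists_prop]
      constructor
      · rintro ⟨a, ha, rfl⟩
        refine ⟨⟨a, hV ha, rfl⟩, a, ha, ?_⟩
        obtain ⟨r, hr, hrV⟩ := Metric.isOpen_iff.1 hVo a ha
        exact ⟨r, hrV, mem_ball_self (mul_pos hcpos hr)⟩
      · rintro ⟨⟨b, hb, rfl⟩, a, ha, r, hrV, hy⟩
        refine ⟨b, hrV ?_, rfl⟩
        rw [mem_ball, dist_eq_norm] at hy ⊢
        have h3 := hbd b hb a (hV ha)
        exact lt_of_mul_lt_mul_left (h3.trans_lt hy) hcpos.le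

end MPf7aa
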