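import Pool.Agent.Lib.MP_f7aa1b_gt.Core

/-!
Row F1b. Elementary facts on charts.
tanSet_chart: (range in TanSet) the curve t -> phi (u + t v) is in S for t near 0 (U open; phi '' U = S inter W).
(TanSet in range) gam a curve in S, gam 0 = phi u. For V = ball u r in U: phi '' V = S inter W_r, so
gam t in phi '' V for t near 0; put c t = phi^{-1} (gam t) in U: c t -> u. phi is strictly differentiable at u with
injective derivative: |phi a - phi b| >= k |a - b| near u. So |c t - u| <= |gam t - gam 0|/k = O(t), and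
gam t - gam 0 = fderiv phi u (c t - u) + o(t); the vectors fderiv phi u ((c t - u)/t) converge to v and the range of
fderiv phi u is closed (finite dimensional): v in the range.
tanSet_open: TanSet (S inter W) p = TanSet S p for W open, p in W.
chart_shift: translate. chart_shrink: smaller open domain V containing 0.
submfd_of_chart: for p = phi a: chart_shift and S = phi '' U.
curve_lift: the curve c above with derivative: if fderiv phi u y = v then HasDerivAt c y 0 (the vectors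
fderiv phi u ((c t - u)/t - y) tend to 0 and fderiv phi u is bounded below).
-/

open Set Filter Topology Metric MeasureTheory
open scoped ContDiff

namespace MPf7aa

theorem F1b_hasFDerivAt {F : Type*} [NormedAddCommGroup F] [NormedSpace ℝ F] {d : ℕ} {S : Set F}
    {p : F} {U : Set (E d)} {φ : E d → F} (h : IsChart d S p U φ) {u : E d} (hu : u ∈ U) :
    HasFDerivAt φ (fderiv ℝ φ u) u :=
  ((h.smooth.contDiffAt (h.op.mem_nhds hu)).differentiableAt (by simp)).hasFDerivAt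

theorem F1b_mem {F : Type*} [NormedAddCommGroup F] [NormedSpace ℝ F] {d : ℕ} {S : Set F}
    {p : F} {U : Set (E d)} {φ : E d → F} (h : IsChart d S p U φ) {u : E d} (hu : u ∈ U) :
    φ u ∈ S := by
  obtain ⟨W, -, hW⟩ := h.homeo U Subset.rfl h.op
  have : φ u ∈ S ∩ W := hW ▸ mem_image_of_mem φ hu
  exact this.1

/-- the derivative of a chart is bounded below -/
theorem F1b_below {F : Type*} [NormedAddCommGroup F] [NormedSpace ℝ F] {d : ℕ} {S : Set F}
    {p : F} {U : Set (E d)} {φ : E d → F} (h : IsChart d S p U φ) {u : E d} (hu : u ∈ U) :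
    ∃ K : ℝ, 0 < K ∧ ∀ v, ‖v‖ ≤ K * ‖fderiv ℝ φ u v‖ := by
  have hinj : LinearMap.ker (fderiv ℝ φ u : E d →ₗ[ℝ] F) = ⊥ :=
    LinearMap.ker_eq_bot.2 (h.imm u hu)
  obtain ⟨K, hK, hanti⟩ := LinearMap.exists_antilipschitzWith _ hinj
  refine ⟨K, hK, fun v => ?_⟩
  have := hanti.le_mul_dist v 0
  simpa [dist_eq_norm] using this

/-- the curve in the chart -/
theorem F1b_lift {F : Type*} [NormedAddCommGroup F] [NormedSpace ℝ F] {d : ℕ} {S : Set F}
    {p : F} {U : Set (E d)} {φ : E d → F} (h : IsChart d S p U φ) {u : E d} (hu : u ∈ U)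
    {γ : ℝ → F} (hγ0 : γ 0 = φ u) (hγ : ContinuousAt γ 0) (hS : ∀ᶠ t in 𝓝 (0 : ℝ), γ t ∈ S) :
    ∃ c : ℝ → E d, c 0 = u ∧ Tendsto c (𝓝 0) (𝓝 u) ∧ ∀ᶠ t in 𝓝 (0 : ℝ), c t ∈ U ∧ φ (c t) = γ t := by
  classical
  have hev : ∀ V : Set (E d), V ⊆ U → IsOpen V → u ∈ V → ∀ᶠ t in 𝓝 (0 : ℝ), ∃ a ∈ V, φ a = γ t := by
    intro V hVU hV huV
    obtain ⟨W, hWo, hW⟩ := h.homeo V hVU hV
    have hmem : γ 0 ∈ W := by
      have : φ u ∈ S ∩ W := hW ▸ mem_image_of_mem φ huV
      rw [hγ0]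
      exact this.2
    filter_upwards [hγ.eventually_mem (hWo.mem_nhds hmem), hS] with t h1 h2
    have : γ t ∈ φ '' V := by
      rw [hW]
      exact ⟨h2, h1⟩
    exact this
  let c : ℝ → E d := fun t => if hc : ∃ a ∈ U, φ a = γ t then hc.choose else u
  have hc : ∀ t, (∃ a ∈ U, φ a = γ t) → c t ∈ U ∧ φ (c t) = γ t := by
    intro t ht
    have : c t = ht.choose := dif_pos ht
    rw [this]
    exact ht.choose_spec
  refine ⟨c, ?_, ?_, ?_⟩
  · have := hc 0 ⟨u, hu, hγ0.symm⟩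
    exact h.inj this.1 hu (this.2.trans hγ0)
  · rw [_root_.tendsto_nhds]
    intro V hV huV
    filter_upwards [hev (V ∩ U) inter_subset_right (hV.inter h.op) ⟨huV, hu⟩] with t ht
    obtain ⟨a, ha, hat⟩ := ht
    have h1 := hc t ⟨a, ha.2, hat⟩
    have h2 : c t = a := h.inj h1.1 ha.2 (h1.2.trans hat.symm)
    show c t ∈ V
    rw [h2]
    exact ha.1
  · filter_upwards [hev U Subset.rfl h.op hu] with t ht
    exact hc t ht

/-- asymptotics of the curve in the chart -/
theorem F1b_asymp {F : Type*} [NormedAddCommGroup F] [NormedSpace ℝ F] {d : ℕ} {S : Set F}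
    {p : F} {U : Set (E d)} {φ : E d → F} (h : IsChart d S p U φ) {u : E d} (hu : u ∈ U)
    {γ : ℝ → F} {v : F} (hγ0 : γ 0 = φ u) (hγ : HasDerivAt γ v 0) {c : ℝ → E d}
    (hc1 : Tendsto c (𝓝 0) (𝓝 u)) (hc2 : ∀ᶠ t in 𝓝 (0 : ℝ), c t ∈ U ∧ φ (c t) = γ t) :
    (fun t => fderiv ℝ φ u (c t - u) - t • v) =o[𝓝 0] (fun t : ℝ => t) := by
  obtain ⟨K, hK, hbelow⟩ := F1b_below h hu
  have hφ := F1b_hasFDerivAt h hu
  have ho : (fun t => φ (c t) - φ u - fderiv ℝ φ u (c t - u)) =o[𝓝 0] (fun t => c t - u) :=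
    (hφ.isLittleO).comp_tendsto hc1
  have hg : (fun t => γ t - γ 0 - t • v) =o[𝓝 0] (fun t : ℝ => t) := by
    have := hγ.isLittleO
    simpa using this
  have hgO : (fun t => γ t - γ 0) =O[𝓝 0] (fun t : ℝ => t) := by
    have h1 : (fun t : ℝ => t • v) =O[𝓝 0] (fun t : ℝ => t) := by
      apply Asymptotics.IsBigO.of_bound ‖v‖
      filter_upwards with t
      rw [norm_smul, mul_comm]
    have h2 := hg.isBigO.add h1
    simpa using h2
  -- the lift is O(t)
  have hcO : (fun t => c t - u) =O[𝓝 0] (fun t : ℝ => t) := by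
    have h1 : (fun t => c t - u) =O[𝓝 0] (fun t => γ t - γ 0) := by
      have h2 := ho.def (c := 1 / (2 * K)) (by positivity)
      apply Asymptotics.IsBigO.of_bound (2 * K)
      filter_upwards [h2, hc2] with t ht htc
      have h3 := hbelow (c t - u)
      have h4 : ‖fderiv ℝ φ u (c t - u)‖ ≤ ‖γ t - γ 0‖ + 1 / (2 * K) * ‖c t - u‖ := by
        have e : fderiv ℝ φ u (c t - u) =
            (γ t - γ 0) - (φ (c t) - φ u - fderiv ℝ φ u (c t - u)) := by
          rw [htc.2, hγ0]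
          abel
        calc ‖fderiv ℝ φ u (c t - u)‖
            = ‖(γ t - γ 0) - (φ (c t) - φ u - fderiv ℝ φ u (c t - u))‖ := by rw [← e]
          _ ≤ ‖γ t - γ 0‖ + ‖φ (c t) - φ u - fderiv ℝ φ u (c t - u)‖ := norm_sub_le _ _
          _ ≤ _ := by linarith
      have h5 : K * ‖fderiv ℝ φ u (c t - u)‖ ≤
          K * (‖γ t - γ 0‖ + 1 / (2 * K) * ‖c t - u‖) := mul_le_mul_of_nonneg_left h4 hK.le
      have h6 : K * (‖γ t - γ 0‖ + 1 / (2 * K) * ‖c t - u‖) =
          K * ‖γ t - γ 0‖ + 1 / 2 * ‖c t - u‖ := by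
        field_simp
      linarith
    exact h1.trans hgO
  have ho' := ho.trans_isBigO hcO
  have hfin := hg.sub ho'
  apply hfin.congr' _ (Eventually.of_forall fun _ => rfl)
  filter_upwards [hc2] with t ht
  rw [ht.2, hγ0]
  abel

theorem tanSet_chart {F : Type*} [NormedAddCommGroup F] [NormedSpace ℝ F] {d : ℕ} {S : Set F}
    {p : F} {U : Set (E d)} {φ : E d → F} (h : IsChart d S p U φ) {u : E d} (hu : u ∈ U) :
    TanSet S (φ u) = range (fderiv ℝ φ u) := by
  apply Subset.antisymm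
  · rintro v ⟨γ, hγ0, hγ, hS⟩
    obtain ⟨c, -, hc1, hc2⟩ := F1b_lift h hu hγ0 hγ.continuousAt hS
    have has := F1b_asymp h hu hγ0 hγ hc1 hc2
    have hcl : IsClosed ((LinearMap.range (fderiv ℝ φ u : E d →ₗ[ℝ] F) : Submodule ℝ F) : Set F) :=
      Submodule.closed_of_finiteDimensional _
    have hlim : Tendsto (fun t : ℝ => t⁻¹ • fderiv ℝ φ u (c t - u)) (𝓝[≠] 0) (𝓝 v) := by
      have h1 : Tendsto (fun t : ℝ => t⁻¹ • (fderiv ℝ φ u (c t - u) - t • v)) (𝓝[≠] 0) (𝓝 0) :=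
        has.tendsto_inv_smul_nhds_zero.mono_left nhdsWithin_le_nhds
      have h2 := h1.add_const v
      rw [zero_add] at h2
      apply h2.congr'
      filter_upwards [self_mem_nhdsWithin] with t ht
      rw [smul_sub, smul_smul, inv_mul_cancel₀ ht, one_smul, sub_add_cancel]
    have hmem := hcl.mem_of_tendsto hlim (Eventually.of_forall fun t =>
      (LinearMap.range (fderiv ℝ φ u : E d →ₗ[ℝ] F)).smul_mem _ ⟨c t - u, rfl⟩)
    obtain ⟨y, hy⟩ := hmem
    exact ⟨y, hy⟩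
  · rintro v ⟨y, rfl⟩
    refine ⟨fun t => φ (u + t • y), by simp, ?_, ?_⟩
    · have h1 : HasDerivAt (fun t : ℝ => u + t • y) y 0 := by
        simpa using ((hasDerivAt_id (0 : ℝ)).smul_const y).const_add u
      have h2 : HasFDerivAt φ (fderiv ℝ φ u) (u + (0 : ℝ) • y) := by
        simpa using F1b_hasFDerivAt h hu
      exact h2.comp_hasDerivAt (0 : ℝ) h1
    · have hcont : ContinuousAt (fun t : ℝ => u + t • y) 0 := by fun_prop
      have hmem : u + (0 : ℝ) • y ∈ U := by simpa using hu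
      filter_upwards [hcont.eventually_mem (h.op.mem_nhds hmem)] with t ht
      exact F1b_mem h ht

theorem tanSet_open {F : Type*} [NormedAddCommGroup F] [NormedSpace ℝ F] {S W : Set F} {p : F}
    (hW : IsOpen W) (hp : p ∈ W) : TanSet (S ∩ W) p = TanSet S p := by
  apply Subset.antisymm
  · rintro v ⟨γ, hγ0, hγ, hS⟩
    exact ⟨γ, hγ0, hγ, hS.mono fun t ht => ht.1⟩
  · rintro v ⟨γ, hγ0, hγ, hS⟩
    refine ⟨γ, hγ0, hγ, ?_⟩
    have hmem : γ 0 ∈ W := by rw [hγ0]; exact hp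
    filter_upwards [hS, hγ.continuousAt.eventually_mem (hW.mem_nhds hmem)] with t h1 h2
    exact ⟨h1, h2⟩

theorem chart_shift {F : Type*} [NormedAddCommGroup F] [NormedSpace ℝ F] {d : ℕ} {S : Set F}
    {p : F} {U : Set (E d)} {φ : E d → F} (h : IsChart d S p U φ) {u : E d} (hu : u ∈ U) :
    IsChart d S (φ u) {a | a + u ∈ U} (fun a => φ (a + u)) where
  op := h.op.preimage (continuous_add_const u)
  zero := by
    show (0 : E d) + u ∈ U
    rw [zero_add]
    exact hu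
  base := by
    show φ (0 + u) = φ u
    rw [zero_add]
  smooth := h.smooth.comp (contDiff_id.add contDiff_const).contDiffOn (fun a ha => ha)
  imm := by
    intro a ha
    rw [fderiv_comp_add_right]
    exact h.imm _ ha
  inj := by
    intro a ha b hb hab
    exact add_right_cancel (h.inj ha hb hab)
  homeo := by
    intro V hV hVo
    obtain ⟨W, hW, hW'⟩ := h.homeo ((fun a => a + u) '' V)
      (by rintro _ ⟨a, ha, rfl⟩; exact hV ha) ((Homeomorph.addRight u).isOpenMap V hVo)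
    refine ⟨W, hW, ?_⟩
    rw [← hW', image_image]

theorem chart_shrink {F : Type*} [NormedAddCommGroup F] [NormedSpace ℝ F] {d : ℕ} {S : Set F}
    {p : F} {U V : Set (E d)} {φ : E d → F} (h : IsChart d S p U φ) (hV : IsOpen V) (hVU : V ⊆ U)
    (h0 : (0 : E d) ∈ V) : IsChart d S p V φ where
  op := hV
  zero := h0
  base := h.base
  smooth := h.smooth.mono hVU
  imm := fun u hu => h.imm u (hVU hu)
  inj := h.inj.mono hVU
  homeo := fun V' hV' ho => h.homeo V' (hV'.trans hVU) ho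

theorem submfd_of_chart {F : Type*} [NormedAddCommGroup F] [NormedSpace ℝ F] {d : ℕ}
    {p : F} {U : Set (E d)} {φ : E d → F} (h : IsChart d (φ '' U) p U φ) :
    IsSubmfd d (φ '' U) := by
  rintro _ ⟨a, ha, rfl⟩
  exact ⟨_, _, chart_shift h ha⟩

theorem curve_lift {F : Type*} [NormedAddCommGroup F] [NormedSpace ℝ F] {d : ℕ} {S : Set F}
    {p : F} {U : Set (E d)} {φ : E d → F} (h : IsChart d S p U φ) {u : E d} (hu : u ∈ U)
    {γ : ℝ → F} {y : E d} (hγ0 : γ 0 = φ u) (hγ : HasDerivAt γ (fderiv ℝ φ u y) 0)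
    (hS : ∀ᶠ t in 𝓝 (0 : ℝ), γ t ∈ S) :
    ∃ c : ℝ → E d, c 0 = u ∧ HasDerivAt c y 0 ∧ ∀ᶠ t in 𝓝 (0 : ℝ), c t ∈ U ∧ φ (c t) = γ t := by
  obtain ⟨c, hc0, hc1, hc2⟩ := F1b_lift h hu hγ0 hγ.continuousAt hS
  refine ⟨c, hc0, ?_, hc2⟩
  have has := F1b_asymp h hu hγ0 hγ hc1 hc2
  obtain ⟨K, hK, hbelow⟩ := F1b_below h hu
  have h1 : (fun t : ℝ => c t - u - t • y) =O[𝓝 0]
      (fun t => fderiv ℝ φ u (c t - u) - t • fderiv ℝ φ u y) := by
    apply Asymptotics.IsBigO.of_bound K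
    filter_upwards with t
    have := hbelow (c t - u - t • y)
    rwa [map_sub, map_smul] at this
  have h2 := h1.trans_isLittleO has
  rw [hasDerivAt_iff_isLittleO]
  simpa [hc0] using h2

end MPf7aa
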