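import Pool.Agent.Lib.MP_f7aa1b_gt.Core

/-!
Row F2a. A smooth frame of normal spaces. Let N0 = {a | <dphi(0) v, a> = 0 for all v}, P the orthogonal projection
onto N0, D* y = adjoint of dphi(y) : E n -> E d. A y := dphi(0) o D*(y) + P, a smooth map U -> (E n ->L E n).
A 0 is injective: if dphi(0)(D*(0) v) + P v = 0 then both terms vanish (orthogonal), D*(0) v = 0 (dphi(0)
injective) means v in N0, so v = P v = 0. So A 0 is invertible; A y is invertible near 0 and y -> (A y)^-1 is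
C^infinity (contDiffAt_ringInverse / ContinuousLinearMap.inverse, ContinuousLinearEquiv.ofBijective).
nu y := (A y)^-1. For a in N0, v := nu y a: dphi(0)(D*(y) v) + P v = a; the first term is in the range of dphi(0),
orthogonal to N0; so D*(y) v = 0 (dphi(0) injective), i.e. <dphi(y) w, v> = 0 for all w, and P v = a.
(3): A y xi = P xi = a, so xi = nu y a.
-/

open Set Filter Topology Metric MeasureTheory
open scoped ContDiff

namespace MPf7aa

/-- the normal space of the range of a linear map -/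
private noncomputable def nrm {n d : ℕ} (D : E d →L[ℝ] E n) : Submodule ℝ (E n) :=
  (LinearMap.range (D : E d →ₗ[ℝ] E n))ᗮ

private theorem mem_nrm {n d : ℕ} (D : E d →L[ℝ] E n) (a : E n) :
    a ∈ nrm D ↔ ∀ v, inner ℝ (D v) a = 0 := by
  unfold nrm
  rw [Submodule.mem_orthogonal]
  constructor
  · intro h v
    exact h _ ⟨v, rfl⟩
  · rintro h _ ⟨v, rfl⟩
    exact h v

private theorem nrm_proj {n d : ℕ} (D : E d →L[ℝ] E n) (v c : E n) (hc : c ∈ nrm D) :
    inner ℝ ((nrm D).starProjection v) c = inner ℝ v c := by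
  have h := Submodule.starProjection_inner_eq_zero (K := nrm D) v c hc
  rw [inner_sub_left] at h
  linarith

/-- the endomorphism of the docstring -/
private noncomputable def opA {n d : ℕ} (D T : E d →L[ℝ] E n) : E n →L[ℝ] E n :=
  D.comp (ContinuousLinearMap.adjoint T) + (nrm D).starProjection

private theorem opA_apply {n d : ℕ} (D T : E d →L[ℝ] E n) (v : E n) :
    opA D T v = D (ContinuousLinearMap.adjoint T v) + (nrm D).starProjection v := rfl

private theorem opA_split {n d : ℕ} {D T : E d →L[ℝ] E n} (hD : Function.Injective D)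
    {v a : E n} (ha : a ∈ nrm D) (h : opA D T v = a) :
    (∀ u, inner ℝ (T u) v = 0) ∧ (nrm D).starProjection v = a := by
  rw [opA_apply] at h
  have hP : (nrm D).starProjection v ∈ nrm D := Submodule.starProjection_apply_mem _ _
  have hw : D (ContinuousLinearMap.adjoint T v) = a - (nrm D).starProjection v := by
    rw [← h, add_sub_cancel_right]
  have hw' : D (ContinuousLinearMap.adjoint T v) ∈ nrm D := by
    rw [hw]
    exact Submodule.sub_mem _ ha hP
  have h0 : D (ContinuousLinearMap.adjoint T v) = 0 := by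
    have := (mem_nrm D _).1 hw' (ContinuousLinearMap.adjoint T v)
    exact inner_self_eq_zero.1 this
  have h1 : ContinuousLinearMap.adjoint T v = 0 := by
    apply hD
    rw [h0, map_zero]
  constructor
  · intro u
    rw [← ContinuousLinearMap.adjoint_inner_right, h1, inner_zero_right]
  · rw [h0, zero_add] at h
    exact h

private theorem opA_injective {n d : ℕ} {D : E d →L[ℝ] E n} (hD : Function.Injective D) :
    Function.Injective (opA D D) := by
  rw [injective_iff_map_eq_zero]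
  intro v hv
  obtain ⟨h1, h2⟩ := opA_split hD (Submodule.zero_mem _) hv
  have hm : v ∈ nrm D := (mem_nrm D v).2 h1
  rw [Submodule.starProjection_eq_self_iff.2 hm] at h2
  exact h2

private theorem opA_contDiffOn {n d : ℕ} {U : Set (E d)} (D : E d →L[ℝ] E n)
    {T : E d → (E d →L[ℝ] E n)} (hT : ContDiffOn ℝ ∞ T U) :
    ContDiffOn ℝ ∞ (fun y => opA D (T y)) U := by
  rw [contDiffOn_clm_apply]
  intro v
  have h1 : ContDiffOn ℝ ∞ (fun y => ContinuousLinearMap.adjoint (T y) v) U := by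
    rw [contDiffOn_euclidean]
    intro i
    have h2 : ∀ y, (ContinuousLinearMap.adjoint (T y) v) i =
        inner ℝ (T y (EuclideanSpace.single i 1)) v := by
      intro y
      rw [← ContinuousLinearMap.adjoint_inner_right, EuclideanSpace.inner_single_left]
      simp
    simp only [h2]
    have h3 : ContDiffOn ℝ ∞ (fun y => T y (EuclideanSpace.single i 1)) U :=
      hT.clm_apply contDiffOn_const
    exact h3.inner ℝ contDiffOn_const
  have h4 : ContDiffOn ℝ ∞ (fun y => D (ContinuousLinearMap.adjoint (T y) v)) U :=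
    D.contDiff.comp_contDiffOn h1
  exact h4.add contDiffOn_const

theorem normal_frame {n d : ℕ} {U : Set (E d)} {φ : E d → E n} (hU : IsOpen U)
    (h0 : (0 : E d) ∈ U) (hφ : ContDiffOn ℝ ∞ φ U) (hi : Function.Injective (fderiv ℝ φ 0)) :
    ∃ (U' : Set (E d)) (ν : E d → (E n →L[ℝ] E n)), IsOpen U' ∧ (0 : E d) ∈ U' ∧ U' ⊆ U ∧
      ContDiffOn ℝ ∞ ν U' ∧
      (∀ y ∈ U', ∀ a : E n, (∀ v, inner ℝ (fderiv ℝ φ 0 v) a = 0) →
        (∀ v, inner ℝ (fderiv ℝ φ y v) (ν y a) = 0) ∧
        ∀ c : E n, (∀ v, inner ℝ (fderiv ℝ φ 0 v) c = 0) → inner ℝ (ν y a) c = inner ℝ a c) ∧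
      (∀ y ∈ U', ∀ a ξ : E n, (∀ v, inner ℝ (fderiv ℝ φ 0 v) a = 0) →
        (∀ v, inner ℝ (fderiv ℝ φ y v) ξ = 0) →
        (∀ c : E n, (∀ v, inner ℝ (fderiv ℝ φ 0 v) c = 0) → inner ℝ ξ c = inner ℝ a c) →
        ν y a = ξ) := by
  have hT : ContDiffOn ℝ ∞ (fun y => fderiv ℝ φ y) U := hφ.fderiv_of_isOpen hU (by simp)
  have hA : ContDiffOn ℝ ∞ (fun y => opA (fderiv ℝ φ 0) (fderiv ℝ φ y)) U := opA_contDiffOn _ hT
  let R : Set (E n →L[ℝ] E n) := range ((↑) : (E n ≃L[ℝ] E n) → E n →L[ℝ] E n)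
  have hR : IsOpen R := ContinuousLinearEquiv.isOpen
  have hR0 : opA (fderiv ℝ φ 0) (fderiv ℝ φ 0) ∈ R := by
    refine ⟨(LinearEquiv.ofInjectiveEndo
      (opA (fderiv ℝ φ 0) (fderiv ℝ φ 0) : E n →ₗ[ℝ] E n)
      (opA_injective hi)).toContinuousLinearEquiv, ?_⟩
    ext v
    rfl
  refine ⟨U ∩ (fun y => opA (fderiv ℝ φ 0) (fderiv ℝ φ y)) ⁻¹' R,
    fun y => ContinuousLinearMap.inverse (opA (fderiv ℝ φ 0) (fderiv ℝ φ y)),
    hA.continuousOn.isOpen_inter_preimage hU hR, ⟨h0, hR0⟩, inter_subset_left, ?_, ?_, ?_⟩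
  · intro y hy
    obtain ⟨e, he⟩ := hy.2
    have h1 : ContDiffAt ℝ ∞ ContinuousLinearMap.inverse
        (opA (fderiv ℝ φ 0) (fderiv ℝ φ y)) := by
      have h2 := contDiffAt_map_inverse (𝕜 := ℝ) (n := ∞) e
      rw [he] at h2
      exact h2
    have h3 : ContDiffAt ℝ ∞ (fun y => opA (fderiv ℝ φ 0) (fderiv ℝ φ y)) y :=
      hA.contDiffAt (hU.mem_nhds hy.1)
    exact (ContDiffAt.comp y h1 h3).contDiffWithinAt
  · intro y hy a ha
    obtain ⟨e, he⟩ := hy.2
    have ha' : a ∈ nrm (fderiv ℝ φ 0) := (mem_nrm _ a).2 ha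
    have he' : (e : E n →L[ℝ] E n) = opA (fderiv ℝ φ 0) (fderiv ℝ φ y) := he
    have h1 : opA (fderiv ℝ φ 0) (fderiv ℝ φ y)
        (ContinuousLinearMap.inverse (opA (fderiv ℝ φ 0) (fderiv ℝ φ y)) a) = a := by
      rw [← he', ContinuousLinearMap.inverse_equiv]
      exact e.apply_symm_apply a
    obtain ⟨h2, h3⟩ := opA_split hi ha' h1
    refine ⟨h2, fun c hc => ?_⟩
    have hc' : c ∈ nrm (fderiv ℝ φ 0) := (mem_nrm _ c).2 hc
    rw [← nrm_proj (fderiv ℝ φ 0) _ c hc', h3]
  · intro y hy a ξ ha hξ hc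
    obtain ⟨e, he⟩ := hy.2
    have ha' : a ∈ nrm (fderiv ℝ φ 0) := (mem_nrm _ a).2 ha
    have he' : (e : E n →L[ℝ] E n) = opA (fderiv ℝ φ 0) (fderiv ℝ φ y) := he
    have h1 : ContinuousLinearMap.adjoint (fderiv ℝ φ y) ξ = 0 := by
      apply ext_inner_left ℝ
      intro v
      rw [ContinuousLinearMap.adjoint_inner_right, hξ v, inner_zero_right]
    have h2 : (nrm (fderiv ℝ φ 0)).starProjection ξ = a := by
      have hm : (nrm (fderiv ℝ φ 0)).starProjection ξ - a ∈ nrm (fderiv ℝ φ 0) :=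
        Submodule.sub_mem _ (Submodule.starProjection_apply_mem _ _) ha'
      have h3 : inner ℝ ((nrm (fderiv ℝ φ 0)).starProjection ξ - a)
          ((nrm (fderiv ℝ φ 0)).starProjection ξ - a) = 0 := by
        rw [inner_sub_left, nrm_proj _ _ _ hm, hc _ ((mem_nrm _ _).1 hm), sub_self]
      exact sub_eq_zero.1 (inner_self_eq_zero.1 h3)
    have h3 : opA (fderiv ℝ φ 0) (fderiv ℝ φ y) ξ = a := by
      rw [opA_apply, h1, map_zero, zero_add, h2]
    change ContinuousLinearMap.inverse (opA (fderiv ℝ φ 0) (fderiv ℝ φ y)) a = ξ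
    rw [← he'] at h3 ⊢
    rw [ContinuousLinearMap.inverse_equiv, ← h3]
    exact e.symm_apply_apply ξ

end MPf7aa
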