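import Pool.Agent.Lib.MP_f7aa1b_gt.F1b
import Pool.Agent.Lib.MP_f7aa1b_gt.F2a

/-!
Row F2b. Product parametrisation of the unit normal bundle near (x0, xi0), x0 = phi 0.
N0 = {a | <dphi(0) v, a> = 0 for all v} contains xi0 (UNB, tanSet_chart), N1 = {c in N0 | <c, xi0> = 0} has dimension
n - d - 1 = m - d =: j (n = m+1, dphi(0) injective), so d + j = m. Choose J : E j -> E n linear isometric (or only
injective) with range N1, and put for y in U', c in E j
 b (y, c) = (phi y, |nu y (xi0 + J c)|^-1 nu y (xi0 + J c)). nu y (xi0 + J c) != 0 since its inner product with xi0 is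
<xi0 + J c, xi0> = 1. Properties (y in U'): b (y,c) in UNB M (tanSet_chart, F2a (2)). <b.2, xi0> > 0.
Left inverse: with r = b.2, the vector r/<r, xi0> has the same inner products with N0 as xi0 + J c. Right inverse:
if (x, xi) in UNB M, x = phi y, y in U', <xi, xi0> > 0: a := P xi/<xi, xi0> (P projection on N0), <a, xi0> = 1, so
a - xi0 in N1, = J c; by F2a (3) nu y a = xi/<xi,xi0>, so (x, xi) = b (y, c).
Output: a map J and a continuous linear map Q : E n -> E j with Q (J c) = c, Q xi0 = 0,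
Q v depends only on the inner products with N0 (Q v = 0 if v is orthogonal to N0), so c = Q (xi/<xi,xi0>).
-/

open Set Filter Topology Metric MeasureTheory
open scoped ContDiff

namespace MPf7aa

theorem F2b_aux {m d : ℕ} (T : E d →ₗ[ℝ] E (m + 1)) (hT : Function.Injective T) (x : E (m + 1))
    (hx : ‖x‖ = 1) (hTx : ∀ v, inner ℝ (T v) x = (0 : ℝ)) :
    ∃ (j : ℕ) (J : E j →L[ℝ] E (m + 1)) (Q : E (m + 1) →L[ℝ] E j), d + j = m ∧
      (∀ v c, inner ℝ (Q v) c = (inner ℝ v (J c) : ℝ)) ∧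
      (∀ c c', inner ℝ (J c) (J c') = (inner ℝ c c' : ℝ)) ∧
      (∀ c, inner ℝ (J c) x = (0 : ℝ)) ∧ (∀ v c, inner ℝ (T v) (J c) = (0 : ℝ)) ∧
      (∀ a, (∀ v, inner ℝ (T v) a = (0 : ℝ)) → ∃ c, a = (inner ℝ a x : ℝ) • x + J c) := by
  set R : Submodule ℝ (E (m + 1)) := LinearMap.range T with hR
  set X : Submodule ℝ (E (m + 1)) := Submodule.span ℝ {x} with hX
  have hx0 : x ≠ 0 := by
    rintro rfl
    simp at hx
  have hxx : (inner ℝ x x : ℝ) = 1 := by
    rw [real_inner_self_eq_norm_sq, hx]; norm_num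
  have hdis : Disjoint R X := by
    rw [Submodule.disjoint_def]
    rintro y ⟨v, rfl⟩ hy
    obtain ⟨r, hr⟩ := Submodule.mem_span_singleton.1 hy
    have h1 := hTx v
    rw [← hr, inner_smul_left, hxx] at h1
    have h2 : r = 0 := by simpa using h1
    rw [← hr, h2, zero_smul]
  have hfr : Module.finrank ℝ R = d := by
    rw [LinearMap.finrank_range_of_inj hT, finrank_euclideanSpace, Fintype.card_fin]
  have hfX : Module.finrank ℝ X = 1 := finrank_span_singleton hx0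
  have hsup : Module.finrank ℝ ↥(R ⊔ X) = d + 1 := by
    have := Submodule.finrank_sup_add_finrank_inf_eq R X
    rw [hdis.eq_bot, finrank_bot, hfr, hfX] at this
    exact this
  set N : Submodule ℝ (E (m + 1)) := (R ⊔ X)ᗮ with hN
  have hfN : Module.finrank ℝ ↥(R ⊔ X) + Module.finrank ℝ N = m + 1 := by
    rw [hN, Submodule.finrank_add_finrank_orthogonal, finrank_euclideanSpace, Fintype.card_fin]
  have hmemN : ∀ a, a ∈ N ↔ (∀ v, inner ℝ (T v) a = (0 : ℝ)) ∧ inner ℝ x a = (0 : ℝ) := by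
    intro a
    rw [hN, Submodule.mem_orthogonal]
    constructor
    · intro h
      exact ⟨fun v => h _ (Submodule.mem_sup_left ⟨v, rfl⟩),
        h _ (Submodule.mem_sup_right (Submodule.mem_span_singleton_self x))⟩
    · rintro ⟨h1, h2⟩ u hu
      obtain ⟨y, ⟨v, rfl⟩, z, hz, rfl⟩ := Submodule.mem_sup.1 hu
      obtain ⟨r, rfl⟩ := Submodule.mem_span_singleton.1 hz
      rw [inner_add_left, h1, inner_smul_left, h2]
      simp
  let B := stdOrthonormalBasis ℝ N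
  let J : E (Module.finrank ℝ N) →L[ℝ] E (m + 1) :=
    N.subtypeL ∘L (B.repr.symm.toContinuousLinearEquiv : _ →L[ℝ] N)
  have hJ : ∀ c, J c = ((B.repr.symm c : N) : E (m + 1)) := fun c => rfl
  have hJN : ∀ c, J c ∈ N := fun c => (B.repr.symm c).2
  refine ⟨Module.finrank ℝ N, J, ContinuousLinearMap.adjoint J, by omega, ?_, ?_, ?_, ?_, ?_⟩
  · intro v c
    exact ContinuousLinearMap.adjoint_inner_left J c v
  · intro c c'
    rw [hJ, hJ, ← Submodule.coe_inner, LinearIsometryEquiv.inner_map_map]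
  · intro c
    rw [real_inner_comm]
    exact ((hmemN _).1 (hJN c)).2
  · intro v c
    exact ((hmemN _).1 (hJN c)).1 v
  · intro a ha
    have h1 : a - (inner ℝ a x : ℝ) • x ∈ N := by
      rw [hmemN]
      constructor
      · intro v
        rw [inner_sub_right, ha v, inner_smul_right, hTx v]
        simp
      · rw [inner_sub_right, inner_smul_right, hxx, real_inner_comm]
        simp
    refine ⟨B.repr ⟨_, h1⟩, ?_⟩
    rw [hJ, LinearIsometryEquiv.symm_apply_apply]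
    simp

theorem unb_param {m d : ℕ} {M : Set (E (m + 1))} {b0 : E (m + 1) × E (m + 1)}
    (hb : b0 ∈ UNB M) {U : Set (E d)} {φ : E d → E (m + 1)} (hφ : IsChart d M b0.1 U φ) :
    ∃ (j : ℕ) (U' : Set (E d)) (J : E j →L[ℝ] E (m + 1)) (Q : E (m + 1) →L[ℝ] E j)
      (ν : E d → (E (m + 1) →L[ℝ] E (m + 1))),
      d + j = m ∧ IsOpen U' ∧ (0 : E d) ∈ U' ∧ U' ⊆ U ∧ ContDiffOn ℝ ∞ ν U' ∧
      ν 0 b0.2 = b0.2 ∧ (∀ c, Q (J c) = c) ∧ Q b0.2 = 0 ∧
      (∀ y ∈ U', ∀ c : E j, inner ℝ (ν y (b0.2 + J c)) b0.2 = (1 : ℝ) ∧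
        Q (ν y (b0.2 + J c)) = c ∧
        (φ y, ‖ν y (b0.2 + J c)‖⁻¹ • ν y (b0.2 + J c)) ∈ UNB M) ∧
      (∀ y ∈ U', ∀ ξ : E (m + 1), (φ y, ξ) ∈ UNB M → 0 < (inner ℝ ξ b0.2 : ℝ) →
        ξ = ‖ν y (b0.2 + J (Q ((inner ℝ ξ b0.2 : ℝ)⁻¹ • ξ)))‖⁻¹ •
          ν y (b0.2 + J (Q ((inner ℝ ξ b0.2 : ℝ)⁻¹ • ξ)))) := by
  obtain ⟨hb1, hb2, hb3⟩ := hb
  have hT0 : ∀ v, inner ℝ (fderiv ℝ φ 0 v) b0.2 = (0 : ℝ) := by
    intro v
    apply hb3
    rw [← hφ.base, tanSet_chart hφ hφ.zero]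
    exact ⟨v, rfl⟩
  have hxx : (inner ℝ b0.2 b0.2 : ℝ) = 1 := by
    rw [real_inner_self_eq_norm_sq, hb2]; norm_num
  obtain ⟨U', ν, hU', h0', hsub, hν, hν1, hν2⟩ :=
    normal_frame hφ.op hφ.zero hφ.smooth (hφ.imm 0 hφ.zero)
  obtain ⟨j, J, Q, hdj, hQ, hJJ, hJx, hJT, hdec⟩ :=
    F2b_aux (fderiv ℝ φ 0 : E d →ₗ[ℝ] E (m + 1)) (hφ.imm 0 hφ.zero) b0.2 hb2 hT0
  have ha : ∀ c : E j, ∀ v, inner ℝ (fderiv ℝ φ 0 v) (b0.2 + J c) = (0 : ℝ) := by
    intro c v
    rw [inner_add_right, hT0 v, zero_add]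
    exact hJT v c
  have hM : ∀ y ∈ U, φ y ∈ M := by
    intro y hy
    obtain ⟨W, -, hW⟩ := hφ.homeo U Subset.rfl hφ.op
    have : φ y ∈ φ '' U := ⟨y, hy, rfl⟩
    rw [hW] at this
    exact this.1
  have hin1 : ∀ y ∈ U', ∀ c : E j, inner ℝ (ν y (b0.2 + J c)) b0.2 = (1 : ℝ) := by
    intro y hy c
    rw [(hν1 y hy _ (ha c)).2 b0.2 hT0, inner_add_left, hxx, hJx, add_zero]
  refine ⟨j, U', J, Q, ν, hdj, hU', h0', hsub, hν, ?_, ?_, ?_, ?_, ?_⟩
  · exact hν2 0 h0' b0.2 b0.2 hT0 hT0 fun c _ => rfl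
  · intro c
    refine ext_inner_right ℝ fun c' => ?_
    rw [hQ, hJJ]
  · refine ext_inner_right ℝ fun c' => ?_
    rw [hQ, real_inner_comm, hJx, inner_zero_left]
  · intro y hy c
    have h1 := hin1 y hy c
    have hne : ‖ν y (b0.2 + J c)‖ ≠ 0 := by
      intro h
      rw [norm_eq_zero.1 h, inner_zero_left] at h1
      exact one_ne_zero h1.symm
    refine ⟨h1, ?_, ?_, ?_, ?_⟩
    · refine ext_inner_right ℝ fun c' => ?_
      rw [hQ, (hν1 y hy _ (ha c)).2 (J c') (fun v => hJT v c'), inner_add_left, hJJ,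
        real_inner_comm, hJx, zero_add]
    · exact hM y (hsub hy)
    · rw [norm_smul, norm_inv, norm_norm, inv_mul_cancel₀ hne]
    · intro v hv
      rw [show ((φ y, ‖ν y (b0.2 + J c)‖⁻¹ • ν y (b0.2 + J c)) : E (m + 1) × E (m + 1)).1 = φ y
        from rfl, tanSet_chart hφ (hsub hy)] at hv
      obtain ⟨w, rfl⟩ := hv
      rw [inner_smul_right, (hν1 y hy _ (ha c)).1 w, mul_zero]
  · intro y hy ξ hξ hpos
    obtain ⟨-, hξ1, hξ2⟩ := hξ
    simp only at hξ1 hξ2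
    set s : ℝ := inner ℝ ξ b0.2 with hs
    have hperp : ∀ v, inner ℝ (fderiv ℝ φ y v) ξ = (0 : ℝ) := by
      intro v
      apply hξ2
      rw [tanSet_chart hφ (hsub hy)]
      exact ⟨v, rfl⟩
    have key : ν y (b0.2 + J (Q (s⁻¹ • ξ))) = s⁻¹ • ξ := by
      refine hν2 y hy _ _ (ha _) ?_ ?_
      · intro v
        rw [inner_smul_right, hperp v, mul_zero]
      · intro c hc
        obtain ⟨c', hc'⟩ := hdec c hc
        have e1 : (inner ℝ (s⁻¹ • ξ) b0.2 : ℝ) = 1 := by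
          rw [inner_smul_left, ← hs]
          simp [hpos.ne']
        have e2 : (inner ℝ (b0.2 + J (Q (s⁻¹ • ξ))) b0.2 : ℝ) = 1 := by
          rw [inner_add_left, hxx, hJx, add_zero]
        have e3 : (inner ℝ (s⁻¹ • ξ) (J c') : ℝ) =
            inner ℝ (b0.2 + J (Q (s⁻¹ • ξ))) (J c') := by
          rw [inner_add_left, hJJ, hQ, real_inner_comm (J c') b0.2, hJx, zero_add]
        rw [hc', inner_add_right, inner_add_right, inner_smul_right, inner_smul_right, e1, e2, e3]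
    rw [key, norm_smul, hξ1, smul_smul, norm_inv, Real.norm_of_nonneg hpos.le, mul_one, inv_inv,
      mul_inv_cancel₀ hpos.ne', one_smul]

end MPf7aa
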