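import Pool.Agent.Lib.MP_f7aa1b_gt.F2b

/-!
Row F2c. The unit normal bundle of a submanifold M of R^{m+1} is a submanifold of dimension m.
Proof. b0 in UNB M, chart phi of M at b0.1, unb_param. L : E m -> E d x E j a continuous linear equivalence
(dimensions; ContinuousLinearEquiv.ofFinrankEq), domain V0 = {u | (L u).1 in U'} (open, contains 0), chart
b u = (phi y, |n|^-1 n), n = nu y (xi0 + J c), (y,c) = L u. Smooth (n != 0 as <n, xi0> = 1; norm smooth off 0).
b 0 = b0. Injective: y from phi injective; c = Q (b.2/<b.2,xi0>) since b.2/<b.2,xi0> = n (<n,xi0> = 1).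
Immersion: if db(u) v = 0: dphi(y) v_y = 0, v_y = 0; the smooth map b.2 -> Q (b.2/<b.2,xi0>) composed with b is
u -> c, so v_c = 0 by the chain rule. homeo: V open in V0. For u1 in V pick open V1 containing y1, V2 containing c1,
with L^-1 (V1 x V2) in V; phi '' V1 = M inter W1; O_1 = {(x, xi) | x in W1, <xi, xi0> > 0,
Q (xi/<xi,xi0>) in V2} is open (continuity where <xi,xi0> != 0), contains b u1, and UNB M inter O_1 is contained in
b '' V by the last property of unb_param. O = union of the O_1.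
-/

open Set Filter Topology Metric MeasureTheory
open scoped ContDiff

namespace MPf7aa

theorem unb_submfd {m d : ℕ} {M : Set (E (m + 1))} (hM : IsSubmfd d M) : IsSubmfd m (UNB M) := by
  intro b0 hb0
  obtain ⟨U, φ, hφ⟩ := hM b0.1 hb0.1
  obtain ⟨j, U', J, Q, ν, hdj, hU'op, h0U', hU'U, hν, hν0, hQJ, hQ0, H1, H2⟩ := unb_param hb0 hφ
  have hfin : Module.finrank ℝ (E m) = Module.finrank ℝ (E d × E j) := by
    rw [Module.finrank_prod, finrank_euclideanSpace_fin, finrank_euclideanSpace_fin,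
      finrank_euclideanSpace_fin, hdj]
  let L : E m ≃L[ℝ] (E d × E j) := ContinuousLinearEquiv.ofFinrankEq hfin
  let V0 : Set (E m) := {u | (L u).1 ∈ U'}
  let n : E m → E (m + 1) := fun u => ν (L u).1 (b0.2 + J (L u).2)
  let b : E m → E (m + 1) × E (m + 1) := fun u => (φ (L u).1, ‖n u‖⁻¹ • n u)
  let g : E (m + 1) → E j := fun ξ => Q ((inner ℝ ξ b0.2 : ℝ)⁻¹ • ξ)
  have hn1 : ∀ u ∈ V0, (inner ℝ (n u) b0.2 : ℝ) = 1 := fun u hu => (H1 _ hu _).1
  have hQn : ∀ u ∈ V0, Q (n u) = (L u).2 := fun u hu => (H1 _ hu _).2.1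
  have hbU : ∀ u ∈ V0, b u ∈ UNB M := fun u hu => (H1 _ hu _).2.2
  have hn0 : ∀ u ∈ V0, n u ≠ 0 := by
    intro u hu h1
    have h2 := hn1 u hu
    rw [h1, inner_zero_left] at h2
    exact zero_ne_one h2
  have hnn : ∀ u ∈ V0, ‖n u‖ ≠ 0 := fun u hu => norm_ne_zero_iff.mpr (hn0 u hu)
  have hin : ∀ u ∈ V0, (inner ℝ (b u).2 b0.2 : ℝ) = ‖n u‖⁻¹ := by
    intro u hu
    show (inner ℝ (‖n u‖⁻¹ • n u) b0.2 : ℝ) = _
    rw [real_inner_smul_left, hn1 u hu, mul_one]
  have hinpos : ∀ u ∈ V0, 0 < (inner ℝ (b u).2 b0.2 : ℝ) := by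
    intro u hu
    rw [hin u hu]
    exact inv_pos.mpr (norm_pos_iff.mpr (hn0 u hu))
  have hgb : ∀ u ∈ V0, g (b u).2 = (L u).2 := by
    intro u hu
    show Q ((inner ℝ (b u).2 b0.2 : ℝ)⁻¹ • (b u).2) = _
    rw [hin u hu, inv_inv]
    show Q (‖n u‖ • (‖n u‖⁻¹ • n u)) = _
    rw [smul_smul, mul_inv_cancel₀ (hnn u hu), one_smul, hQn u hu]
  have hV0op : IsOpen V0 := hU'op.preimage (continuous_fst.comp L.continuous)
  have h0V0 : (0 : E m) ∈ V0 := by
    show (L 0).1 ∈ U'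
    rw [map_zero]
    exact h0U'
  have hfst : ContDiff ℝ ∞ (fun u : E m => (L u).1) := contDiff_fst.comp L.contDiff
  have hsnd : ContDiff ℝ ∞ (fun u : E m => (L u).2) := contDiff_snd.comp L.contDiff
  have hφc : ContDiffOn ℝ ∞ (fun u : E m => φ (L u).1) V0 :=
    (hφ.smooth.mono hU'U).comp hfst.contDiffOn (fun u hu => hu)
  have hnc : ContDiffOn ℝ ∞ n V0 := by
    have h1 : ContDiffOn ℝ ∞ (fun u : E m => ν (L u).1) V0 := hν.comp hfst.contDiffOn (fun u hu => hu)
    have h2 : ContDiff ℝ ∞ (fun u : E m => b0.2 + J (L u).2) :=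
      contDiff_const.add (J.contDiff.comp hsnd)
    exact h1.clm_apply h2.contDiffOn
  have hbc : ContDiffOn ℝ ∞ b V0 := by
    have h1 : ContDiffOn ℝ ∞ (fun u => ‖n u‖) V0 := hnc.norm ℝ hn0
    have h2 : ContDiffOn ℝ ∞ (fun u => ‖n u‖⁻¹) V0 := h1.inv hnn
    exact hφc.prodMk (h2.smul hnc)
  have hbd : ∀ u ∈ V0, DifferentiableAt ℝ b u := fun u hu =>
    (hbc.contDiffAt (hV0op.mem_nhds hu)).differentiableAt (by simp)
  have hgd : ∀ ξ : E (m + 1), (inner ℝ ξ b0.2 : ℝ) ≠ 0 → DifferentiableAt ℝ g ξ := by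
    intro ξ hξ
    have h1 : DifferentiableAt ℝ (fun ξ : E (m + 1) => (inner ℝ ξ b0.2 : ℝ)) ξ :=
      differentiableAt_id.inner ℝ (differentiableAt_const _)
    have h2 : DifferentiableAt ℝ (fun ξ : E (m + 1) => (inner ℝ ξ b0.2 : ℝ)⁻¹) ξ := h1.inv hξ
    exact Q.differentiableAt.comp ξ (h2.smul differentiableAt_id)
  refine ⟨V0, b, ?_⟩
  refine ⟨hV0op, h0V0, ?_, hbc, ?_, ?_, ?_⟩
  · -- base
    have h1 : n 0 = b0.2 := by
      show ν (L 0).1 (b0.2 + J (L 0).2) = b0.2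
      rw [map_zero]
      show ν 0 (b0.2 + J 0) = b0.2
      rw [map_zero, add_zero, hν0]
    have h2 : b 0 = (φ (L 0).1, ‖n 0‖⁻¹ • n 0) := rfl
    rw [h2, h1, hb0.2.1, inv_one, one_smul, map_zero]
    show (φ 0, b0.2) = b0
    rw [hφ.base]
  · -- immersion
    intro u hu
    rw [injective_iff_map_eq_zero]
    intro v hv
    have h1 : (L v).1 = 0 := by
      have h2 : HasFDerivAt (fun u => (b u).1) ((ContinuousLinearMap.fst ℝ _ _).comp (fderiv ℝ b u)) u :=
        (hbd u hu).hasFDerivAt.fst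
      have h3 : HasFDerivAt (fun u => φ (L u).1)
          ((fderiv ℝ φ (L u).1).comp ((ContinuousLinearMap.fst ℝ (E d) (E j)).comp (L : E m →L[ℝ] E d × E j))) u := by
        have h4 : DifferentiableAt ℝ φ (L u).1 :=
          (hφ.smooth.contDiffAt (hφ.op.mem_nhds (hU'U hu))).differentiableAt (by simp)
        have h5 : HasFDerivAt (fun u : E m => (L u).1)
            ((ContinuousLinearMap.fst ℝ (E d) (E j)).comp (L : E m →L[ℝ] E d × E j)) u :=
          L.hasFDerivAt.fst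
        exact HasFDerivAt.comp (g := φ) u h4.hasFDerivAt h5
      have h6 := h2.unique h3
      have h7 : fderiv ℝ φ (L u).1 (L v).1 = (fderiv ℝ b u v).1 := by
        have h8 := congrArg (fun A : E m →L[ℝ] E (m + 1) => A v) h6
        exact h8.symm
      rw [hv] at h7
      apply hφ.imm (L u).1 (hU'U hu)
      rw [h7, map_zero]
      rfl
    have h2 : (L v).2 = 0 := by
      have h3 : HasFDerivAt (fun u => g (b u).2)
          ((fderiv ℝ g (b u).2).comp ((ContinuousLinearMap.snd ℝ _ _).comp (fderiv ℝ b u))) u := by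
        have h4 : HasFDerivAt (fun u => (b u).2) ((ContinuousLinearMap.snd ℝ _ _).comp (fderiv ℝ b u)) u :=
          (hbd u hu).hasFDerivAt.snd
        exact HasFDerivAt.comp (g := g) u (hgd _ (hinpos u hu).ne').hasFDerivAt h4
      have h5 : HasFDerivAt (fun u : E m => (L u).2)
          ((ContinuousLinearMap.snd ℝ (E d) (E j)).comp (L : E m →L[ℝ] E d × E j)) u :=
        L.hasFDerivAt.snd
      have h6 : (fun u => g (b u).2) =ᶠ[𝓝 u] (fun u : E m => (L u).2) := by
        filter_upwards [hV0op.mem_nhds hu] with w hw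
        exact hgb w hw
      have h7 := h3.unique (h5.congr_of_eventuallyEq h6)
      have h8 := congrArg (fun A : E m →L[ℝ] E j => A v) h7
      have h9 : (L v).2 = fderiv ℝ g (b u).2 (fderiv ℝ b u v).2 := h8.symm
      rw [h9, hv]
      exact map_zero _
    have h3 : L v = 0 := Prod.ext h1 h2
    exact (map_eq_zero_iff L L.injective).mp h3
  · -- injective
    intro u hu v hv huv
    have h1 : (L u).1 = (L v).1 := by
      apply hφ.inj (hU'U hu) (hU'U hv)
      exact congrArg Prod.fst huv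
    have h2 : (L u).2 = (L v).2 := by
      rw [← hgb u hu, ← hgb v hv, huv]
    exact L.injective (Prod.ext h1 h2)
  · -- homeomorphism onto a relatively open subset
    intro V hVV0 hVop
    have key : ∀ u ∈ V, ∃ O : Set (E (m + 1) × E (m + 1)), IsOpen O ∧ b u ∈ O ∧ UNB M ∩ O ⊆ b '' V := by
      intro u hu
      have hLV : IsOpen (L.symm ⁻¹' V) := hVop.preimage L.symm.continuous
      have hmem : ((L u).1, (L u).2) ∈ L.symm ⁻¹' V := by
        show L.symm (L u) ∈ V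
        rw [L.symm_apply_apply]
        exact hu
      obtain ⟨V1, V2, hV1, hV2, hu1, hu2, hsub⟩ := isOpen_prod_iff.mp hLV _ _ hmem
      have hV1' : IsOpen (V1 ∩ U') := hV1.inter hU'op
      obtain ⟨W1, hW1, hW1eq⟩ := hφ.homeo (V1 ∩ U') (fun y hy => hU'U hy.2) hV1'
      refine ⟨{p | p.1 ∈ W1} ∩ ({p | 0 < (inner ℝ p.2 b0.2 : ℝ)} ∩ (fun p => g p.2) ⁻¹' V2), ?_, ?_, ?_⟩
      · refine (hW1.preimage continuous_fst).inter ?_
        have h1 : IsOpen {p : E (m + 1) × E (m + 1) | 0 < (inner ℝ p.2 b0.2 : ℝ)} :=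
          isOpen_lt continuous_const (continuous_snd.inner continuous_const)
        have h2 : ContinuousOn (fun p : E (m + 1) × E (m + 1) => g p.2)
            {p : E (m + 1) × E (m + 1) | 0 < (inner ℝ p.2 b0.2 : ℝ)} := by
          intro p hp
          have h3 : ContinuousAt g p.2 := (hgd p.2 (ne_of_gt hp)).continuousAt
          have h4 : ContinuousAt (fun p : E (m + 1) × E (m + 1) => g p.2) p :=
            ContinuousAt.comp (g := g) h3 continuousAt_snd
          exact h4.continuousWithinAt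
        exact h2.isOpen_inter_preimage h1 hV2
      · refine ⟨?_, hinpos u (hVV0 hu), ?_⟩
        · have h1 : φ (L u).1 ∈ φ '' (V1 ∩ U') := ⟨_, ⟨hu1, hVV0 hu⟩, rfl⟩
          rw [hW1eq] at h1
          exact h1.2
        · show g (b u).2 ∈ V2
          rw [hgb u (hVV0 hu)]
          exact hu2
      · rintro ⟨x, ξ⟩ ⟨hxU, hxW, hξ, hgV⟩
        have h1 : x ∈ φ '' (V1 ∩ U') := by
          rw [hW1eq]
          exact ⟨hxU.1, hxW⟩
        obtain ⟨y, ⟨hy1, hyU'⟩, rfl⟩ := h1
        have h2 := H2 y hyU' ξ hxU hξ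
        refine ⟨L.symm (y, g ξ), hsub ⟨hy1, hgV⟩, ?_⟩
        have h3 : L (L.symm (y, g ξ)) = (y, g ξ) := L.apply_symm_apply _
        have h4 : b (L.symm (y, g ξ)) =
            (φ (L (L.symm (y, g ξ))).1, ‖ν (L (L.symm (y, g ξ))).1 (b0.2 + J (L (L.symm (y, g ξ))).2)‖⁻¹ •
              ν (L (L.symm (y, g ξ))).1 (b0.2 + J (L (L.symm (y, g ξ))).2)) := rfl
        rw [h4, h3]
        exact Prod.ext rfl h2.symm
    refine ⟨⋃₀ {O | IsOpen O ∧ UNB M ∩ O ⊆ b '' V}, isOpen_sUnion (fun O hO => hO.1), ?_⟩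
    apply Subset.antisymm
    · rintro _ ⟨u, hu, rfl⟩
      obtain ⟨O, hO1, hO2, hO3⟩ := key u hu
      exact ⟨hbU u (hVV0 hu), O, ⟨hO1, hO3⟩, hO2⟩
    · rintro p ⟨hp, O, ⟨hO1, hO3⟩, hpO⟩
      exact hO3 ⟨hp, hpO⟩

end MPf7aa
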