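import Pool.Agent.Lib.MP_f7aa1b_gt.F1b
import Pool.Agent.Lib.MP_f7aa1b_gt.D1

/-!
Row F3. The chart of UNB M as a Legendrian pair.
leg_of_chart: unit from UNB; perp: the curve t -> (b (u + t v)).1 is in M with velocity (dx) v, so dx v in
TanSet M (x u) and <dx v, xi u> = 0; inj: fderiv b u v = (dx v, dxi v), injective by imm.
princ_iff: tanSet_chart for UNB M: TanSet (UNB M) (b u) = range (fderiv b u) and fderiv b u v = (dx v, dxi v).
-/

open Set Filter Topology Metric MeasureTheory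
open scoped ContDiff

namespace MPf7aa

theorem F3_mem {F : Type*} [NormedAddCommGroup F] [NormedSpace ℝ F] {d : ℕ} {S : Set F}
    {p : F} {U : Set (E d)} {φ : E d → F} (h : IsChart d S p U φ) {u : E d} (hu : u ∈ U) :
    φ u ∈ S := by
  obtain ⟨W, -, hW⟩ := h.homeo U Subset.rfl h.op
  have : φ u ∈ S ∩ W := hW ▸ mem_image_of_mem φ hu
  exact this.1

theorem F3_hasFDerivAt {F : Type*} [NormedAddCommGroup F] [NormedSpace ℝ F] {d : ℕ} {S : Set F}
    {p : F} {U : Set (E d)} {φ : E d → F} (h : IsChart d S p U φ) {u : E d} (hu : u ∈ U) :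
    HasFDerivAt φ (fderiv ℝ φ u) u :=
  ((h.smooth.contDiffAt (h.op.mem_nhds hu)).differentiableAt (by simp)).hasFDerivAt

theorem F3_pair {m : ℕ} {M : Set (E (m + 1))} {b0 : E (m + 1) × E (m + 1)}
    {U : Set (E m)} {b : E m → E (m + 1) × E (m + 1)} (h : IsChart m (UNB M) b0 U b)
    {u : E m} (hu : u ∈ U) (v : E m) :
    fderiv ℝ b u v = (fderiv ℝ (fun u => (b u).1) u v, fderiv ℝ (fun u => (b u).2) u v) := by
  have hb := F3_hasFDerivAt h hu
  rw [hb.fst.fderiv, hb.snd.fderiv]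
  rfl

theorem leg_of_chart {m : ℕ} {M : Set (E (m + 1))} {b0 : E (m + 1) × E (m + 1)}
    {U : Set (E m)} {b : E m → E (m + 1) × E (m + 1)} (h : IsChart m (UNB M) b0 U b) :
    Leg U (fun u => (b u).1) (fun u => (b u).2) := by
  refine ⟨h.op, h.smooth.fst, h.smooth.snd, ?_, ?_, ?_⟩
  · intro u hu
    exact (F3_mem h hu).2.1
  · intro u hu v
    apply (F3_mem h hu).2.2
    have hb := F3_hasFDerivAt h hu
    refine ⟨fun t => (b (u + t • v)).1, by simp, ?_, ?_⟩
    · have h1 : HasDerivAt (fun t : ℝ => u + t • v) v 0 := by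
        simpa using ((hasDerivAt_id (0 : ℝ)).smul_const v).const_add u
      have h2 : HasFDerivAt (fun u => (b u).1) (fderiv ℝ (fun u => (b u).1) u) (u + (0 : ℝ) • v) := by
        rw [zero_smul, add_zero, hb.fst.fderiv]
        exact hb.fst
      exact h2.comp_hasDerivAt (0 : ℝ) h1
    · have hcont : ContinuousAt (fun t : ℝ => u + t • v) 0 := by fun_prop
      have hmem : u + (0 : ℝ) • v ∈ U := by simpa using hu
      filter_upwards [hcont.eventually_mem (h.op.mem_nhds hmem)] with t ht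
      exact (F3_mem h ht).1
  · intro u hu v h1 h2
    apply h.imm u hu
    rw [map_zero, F3_pair h hu v, h1, h2]
    rfl

theorem fderiv_pair {m : ℕ} {M : Set (E (m + 1))} {b0 : E (m + 1) × E (m + 1)}
    {U : Set (E m)} {b : E m → E (m + 1) × E (m + 1)} (h : IsChart m (UNB M) b0 U b)
    {u : E m} (hu : u ∈ U) (v : E m) :
    fderiv ℝ b u v = (fderiv ℝ (fun u => (b u).1) u v, fderiv ℝ (fun u => (b u).2) u v) := by
  exact F3_pair h hu v

theorem princ_iff {m : ℕ} {M : Set (E (m + 1))} {b0 : E (m + 1) × E (m + 1)}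
    {U : Set (E m)} {b : E m → E (m + 1) × E (m + 1)} (h : IsChart m (UNB M) b0 U b)
    {u : E m} (hu : u ∈ U) (κ : ℝ) (w : E (m + 1) × E (m + 1)) :
    w ∈ PrincSpace M κ (b u) ↔ ∃ v : E m, w = fderiv ℝ b u v ∧
      fderiv ℝ (fun u => (b u).2) u v + κ • fderiv ℝ (fun u => (b u).1) u v = 0 := by
  have hT : w ∈ PrincSpace M κ (b u) ↔ w ∈ range (fderiv ℝ b u) ∧ w.2 = -(κ • w.1) := by
    rw [← tanSet_chart h hu]
    exact Iff.rfl
  rw [hT]
  constructor
  · rintro ⟨⟨v, rfl⟩, h2⟩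
    refine ⟨v, rfl, ?_⟩
    rw [F3_pair h hu v] at h2
    have h3 : fderiv ℝ (fun u => (b u).2) u v = -(κ • fderiv ℝ (fun u => (b u).1) u v) := h2
    rw [h3]
    exact neg_add_cancel _
  · rintro ⟨v, rfl, h2⟩
    refine ⟨⟨v, rfl⟩, ?_⟩
    rw [F3_pair h hu v]
    exact eq_neg_of_add_eq_zero_left h2

end MPf7aa
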