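import Pool.Agent.Lib.MP_f7aa1b_gt.D1

/-!
Row F4a. A simple principal curvature extends smoothly with its principal direction.
Proof. F (u', k, v) = dxi(u') v + k dx(u') v + (<v,e> - <e,e>) xi u' in E (m+1), smooth on U x R x E m,
F (u, kap, e) = 0. Partial derivative in (k, v) at (kap, e): (k', v') -> k' dx e + (dxi + kap dx) v' + <v', e> xi,
from R x E m to E (m+1) (equal dimensions). Injective: the xi component gives <v', e> = 0; the rest
k' dx e + (dxi + kap dx) v' = 0, take the inner product with dx e: <(dxi + kap dx) v', dx e> =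
<(dxi + kap dx) e, dx v'> = 0 (leg_symm), so k' |dx e|^2 = 0; dx e != 0 (otherwise dxi e = 0 and e = 0); k' = 0,
then v' = c e, c <e,e> = 0. So bijective. Inverse function theorem for (u',k,v) -> (u', F) (C^infinity near the
point, ContDiffAt.toOpenPartialHomeomorph, inverse C^infinity): smooth K, V near u with F (u', K u', V u') = 0. The
xi component: <V,e> = <e,e> (so V != 0), (dxi + K dx) V = 0. Simple at u': bijectivity of the partial derivative is
an open condition; if (dxi + K dx)(u') v = 0 subtract c V with <v - c V, e> = 0: (0, v - c V) is in the kernel of the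
partial derivative of F at (u', K u', V u'), so v = c V.
-/

open Set Filter Topology Metric MeasureTheory
open scoped ContDiff

namespace MPf7aa

/-- the map of the inverse function theorem -/
noncomputable def F4a_G {m : ℕ} (x ξ : E m → E (m + 1)) (e : E m) (p : E m × (ℝ × E m)) :
    E m × E (m + 1) :=
  (p.1, fderiv ℝ ξ p.1 p.2.2 + p.2.1 • fderiv ℝ x p.1 p.2.2 +
    ((inner ℝ p.2.2 e : ℝ) - inner ℝ e e) • ξ p.1)

theorem F4a_smooth {m : ℕ} {U : Set (E m)} {x ξ : E m → E (m + 1)} (h : Leg U x ξ) (e : E m) :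
    ContDiffOn ℝ ∞ (F4a_G x ξ e) (U ×ˢ (univ : Set (ℝ × E m))) := by
  have hmaps : MapsTo (fun p : E m × (ℝ × E m) => p.1) (U ×ˢ (univ : Set (ℝ × E m))) U :=
    fun p hp => hp.1
  have h1 : ContDiffOn ℝ ∞ (fun p : E m × (ℝ × E m) => p.1) (U ×ˢ (univ : Set (ℝ × E m))) :=
    contDiff_fst.contDiffOn
  have hk : ContDiffOn ℝ ∞ (fun p : E m × (ℝ × E m) => p.2.1) (U ×ˢ (univ : Set (ℝ × E m))) :=
    (contDiff_fst.comp contDiff_snd).contDiffOn
  have hv : ContDiffOn ℝ ∞ (fun p : E m × (ℝ × E m) => p.2.2) (U ×ˢ (univ : Set (ℝ × E m))) :=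
    (contDiff_snd.comp contDiff_snd).contDiffOn
  have hξ : ContDiffOn ℝ ∞ (fun p : E m × (ℝ × E m) => ξ p.1) (U ×ˢ (univ : Set (ℝ × E m))) :=
    h.cξ.comp h1 hmaps
  have hdξ : ContDiffOn ℝ ∞ (fun p : E m × (ℝ × E m) => fderiv ℝ ξ p.1)
      (U ×ˢ (univ : Set (ℝ × E m))) :=
    (h.cξ.fderiv_of_isOpen h.op (m := ∞) (by simp)).comp h1 hmaps
  have hdx : ContDiffOn ℝ ∞ (fun p : E m × (ℝ × E m) => fderiv ℝ x p.1)
      (U ×ˢ (univ : Set (ℝ × E m))) :=
    (h.cx.fderiv_of_isOpen h.op (m := ∞) (by simp)).comp h1 hmaps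
  exact h1.prodMk (((hdξ.clm_apply hv).add (hk.smul (hdx.clm_apply hv))).add
    (((hv.inner ℝ contDiffOn_const).sub contDiffOn_const).smul hξ))

theorem F4a_diff {m : ℕ} {U : Set (E m)} {x ξ : E m → E (m + 1)} (h : Leg U x ξ) (e : E m)
    {p : E m × (ℝ × E m)} (hp : p.1 ∈ U) : ContDiffAt ℝ ∞ (F4a_G x ξ e) p :=
  (F4a_smooth h e).contDiffAt ((h.op.prod isOpen_univ).mem_nhds ⟨hp, mem_univ _⟩)

theorem F4a_fst {m : ℕ} {U : Set (E m)} {x ξ : E m → E (m + 1)} (h : Leg U x ξ) (e : E m)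
    {p : E m × (ℝ × E m)} (hp : p.1 ∈ U) (q : E m × (ℝ × E m)) :
    (fderiv ℝ (F4a_G x ξ e) p q).1 = q.1 := by
  have hd : HasFDerivAt (F4a_G x ξ e) (fderiv ℝ (F4a_G x ξ e) p) p :=
    ((F4a_diff h e hp).differentiableAt (by simp)).hasFDerivAt
  have h1 : HasFDerivAt (fun r => (F4a_G x ξ e r).1)
      ((ContinuousLinearMap.fst ℝ (E m) (E (m + 1))).comp (fderiv ℝ (F4a_G x ξ e) p)) p :=
    (ContinuousLinearMap.fst ℝ (E m) (E (m + 1))).hasFDerivAt.comp p hd
  have h2 : HasFDerivAt (fun r : E m × (ℝ × E m) => (F4a_G x ξ e r).1)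
      (ContinuousLinearMap.fst ℝ (E m) (ℝ × E m)) p :=
    (ContinuousLinearMap.fst ℝ (E m) (ℝ × E m)).hasFDerivAt
  have h3 := h1.unique h2
  have h4 := congrArg (fun L : (E m × (ℝ × E m)) →L[ℝ] E m => L q) h3
  simpa using h4

theorem F4a_snd {m : ℕ} {U : Set (E m)} {x ξ : E m → E (m + 1)} (h : Leg U x ξ) (e : E m)
    {u : E m} (hu : u ∈ U) (k : ℝ) (v : E m) (b : ℝ) (c : E m) :
    fderiv ℝ (F4a_G x ξ e) (u, (k, v)) (0, (b, c)) =
      (0, fderiv ℝ ξ u c + k • fderiv ℝ x u c + b • fderiv ℝ x u v + (inner ℝ c e : ℝ) • ξ u) := by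
  have hd : HasFDerivAt (F4a_G x ξ e) (fderiv ℝ (F4a_G x ξ e) (u, (k, v))) (u, (k, v)) :=
    ((F4a_diff h e (p := (u, (k, v))) hu).differentiableAt (by simp)).hasFDerivAt
  have hl : HasDerivAt (fun t : ℝ => ((u, (k, v)) : E m × (ℝ × E m)) + t • (0, (b, c)))
      (0, (b, c)) 0 := by
    have := ((hasDerivAt_id (0 : ℝ)).smul_const ((0, (b, c)) : E m × (ℝ × E m))).const_add
      ((u, (k, v)) : E m × (ℝ × E m))
    simpa using this
  have hd' : HasFDerivAt (F4a_G x ξ e) (fderiv ℝ (F4a_G x ξ e) (u, (k, v)))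
      (((u, (k, v)) : E m × (ℝ × E m)) + (0 : ℝ) • (0, (b, c))) := by
    simpa using hd
  have h1 := hd'.comp_hasDerivAt (0 : ℝ) hl
  have h2 : HasDerivAt (fun t : ℝ => ((u, (fderiv ℝ ξ u v + k • fderiv ℝ x u v +
      ((inner ℝ v e : ℝ) - inner ℝ e e) • ξ u) +
      t • (fderiv ℝ ξ u c + k • fderiv ℝ x u c + b • fderiv ℝ x u v + (inner ℝ c e : ℝ) • ξ u) +
      (t * t) • (b • fderiv ℝ x u c)) : E m × E (m + 1)))
      (0, fderiv ℝ ξ u c + k • fderiv ℝ x u c + b • fderiv ℝ x u v + (inner ℝ c e : ℝ) • ξ u) 0 := by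
    have h3 := ((hasDerivAt_id (0 : ℝ)).smul_const (fderiv ℝ ξ u c + k • fderiv ℝ x u c +
      b • fderiv ℝ x u v + (inner ℝ c e : ℝ) • ξ u)).const_add (fderiv ℝ ξ u v +
      k • fderiv ℝ x u v + ((inner ℝ v e : ℝ) - inner ℝ e e) • ξ u)
    have h4 := (((hasDerivAt_id (0 : ℝ)).mul (hasDerivAt_id (0 : ℝ))).smul_const
      (b • fderiv ℝ x u c))
    have h5 := (hasDerivAt_const (0 : ℝ) u).prodMk (h3.add h4)
    simpa using h5
  have h3 : (F4a_G x ξ e ∘ fun t : ℝ => ((u, (k, v)) : E m × (ℝ × E m)) + t • (0, (b, c))) =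
      (fun t : ℝ => ((u, (fderiv ℝ ξ u v + k • fderiv ℝ x u v +
      ((inner ℝ v e : ℝ) - inner ℝ e e) • ξ u) +
      t • (fderiv ℝ ξ u c + k • fderiv ℝ x u c + b • fderiv ℝ x u v + (inner ℝ c e : ℝ) • ξ u) +
      (t * t) • (b • fderiv ℝ x u c)) : E m × E (m + 1))) := by
    funext t
    simp only [Function.comp, F4a_G, Prod.smul_mk, Prod.mk_add_mk, smul_zero, add_zero, map_add,
      map_smul, smul_eq_mul, inner_add_left, real_inner_smul_left, Prod.mk.injEq, true_and]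
    module
  rw [h3] at h1
  exact h1.unique h2

theorem F4a_inj {m : ℕ} {U : Set (E m)} {x ξ : E m → E (m + 1)} (h : Leg U x ξ) {u : E m}
    (hu : u ∈ U) {κ : ℝ} {e : E m} (he : e ≠ 0) (hk : fderiv ℝ ξ u e + κ • fderiv ℝ x u e = 0)
    (hs : ∀ v, fderiv ℝ ξ u v + κ • fderiv ℝ x u v = 0 → ∃ c : ℝ, v = c • e) :
    Function.Injective (fderiv ℝ (F4a_G x ξ e) (u, (κ, e))) := by
  rw [injective_iff_map_eq_zero]
  rintro ⟨a, b, c⟩ h0
  have ha : a = 0 := by
    have := F4a_fst h e (p := (u, (κ, e))) hu (a, (b, c))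
    rw [h0] at this
    exact this.symm
  subst ha
  rw [F4a_snd h e hu] at h0
  have h1 : fderiv ℝ ξ u c + κ • fderiv ℝ x u c + b • fderiv ℝ x u e + (inner ℝ c e : ℝ) • ξ u = 0 :=
    (Prod.mk.inj h0).2
  have hξξ : (inner ℝ (ξ u) (ξ u) : ℝ) = 1 := by
    rw [real_inner_self_eq_norm_sq, h.unit u hu]; norm_num
  have hce : (inner ℝ c e : ℝ) = 0 := by
    have h2 := congrArg (fun y => (inner ℝ y (ξ u) : ℝ)) h1
    simp only [inner_add_left, real_inner_smul_left, leg_unit h hu, h.perp u hu, hξξ,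
      inner_zero_left] at h2
    linarith
  rw [hce, zero_smul, add_zero] at h1
  have hdx : fderiv ℝ x u e ≠ 0 := by
    intro hx
    rw [hx, smul_zero, add_zero] at hk
    exact he (h.inj u hu e hx hk)
  have hb : b = 0 := by
    have h2 := congrArg (fun y => (inner ℝ y (fderiv ℝ x u e) : ℝ)) h1
    have h3 := congrArg (fun y => (inner ℝ (fderiv ℝ x u c) y : ℝ)) hk
    simp only [inner_add_left, real_inner_smul_left, inner_zero_left] at h2
    simp only [inner_add_right, real_inner_smul_right, inner_zero_right] at h3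
    have h4 := leg_symm h hu e c
    rw [real_inner_comm (fderiv ℝ ξ u c)] at h4
    rw [← h4] at h3
    have h5 : b * inner ℝ (fderiv ℝ x u e) (fderiv ℝ x u e) = 0 := by linarith
    rcases mul_eq_zero.mp h5 with h6 | h6
    · exact h6
    · exact absurd (inner_self_eq_zero.mp h6) hdx
  subst hb
  rw [zero_smul, add_zero] at h1
  obtain ⟨c', rfl⟩ := hs c h1
  rw [real_inner_smul_left] at hce
  rcases mul_eq_zero.mp hce with h6 | h6
  · rw [h6, zero_smul]; rfl
  · exact absurd (inner_self_eq_zero.mp h6) he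

theorem simple_ext {m : ℕ} {U : Set (E m)} {x ξ : E m → E (m + 1)} (h : Leg U x ξ) {u : E m}
    (hu : u ∈ U) {κ : ℝ} {e : E m} (he : e ≠ 0) (hk : fderiv ℝ ξ u e + κ • fderiv ℝ x u e = 0)
    (hs : ∀ v, fderiv ℝ ξ u v + κ • fderiv ℝ x u v = 0 → ∃ c : ℝ, v = c • e) :
    ∃ (U' : Set (E m)) (K : E m → ℝ) (V : E m → E m), IsOpen U' ∧ u ∈ U' ∧ U' ⊆ U ∧
      ContDiffOn ℝ ∞ K U' ∧ ContDiffOn ℝ ∞ V U' ∧ K u = κ ∧ V u = e ∧
      ∀ w ∈ U', V w ≠ 0 ∧ ∀ v, fderiv ℝ ξ w v + K w • fderiv ℝ x w v = 0 ↔ ∃ c : ℝ, v = c • V w := by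
  set G := F4a_G x ξ e with hG
  set p0 : E m × (ℝ × E m) := (u, (κ, e)) with hp0
  have hinj : Function.Injective (fderiv ℝ G p0) := F4a_inj h hu he hk hs
  have hfin : Module.finrank ℝ (E m × (ℝ × E m)) = Module.finrank ℝ (E m × E (m + 1)) := by
    simp [Module.finrank_prod]
    ring
  obtain ⟨L0, hL0⟩ : ∃ L : (E m × (ℝ × E m)) ≃L[ℝ] (E m × E (m + 1)),
      (L : (E m × (ℝ × E m)) →L[ℝ] (E m × E (m + 1))) = fderiv ℝ G p0 := by
    refine ⟨(LinearMap.linearEquivOfInjective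
      ((fderiv ℝ G p0 : (E m × (ℝ × E m)) →L[ℝ] (E m × E (m + 1))) :
        (E m × (ℝ × E m)) →ₗ[ℝ] (E m × E (m + 1))) hinj hfin).toContinuousLinearEquiv, ?_⟩
    exact ContinuousLinearMap.ext fun q => rfl
  have hGp0 : ContDiffAt ℝ ∞ G p0 := F4a_diff h e hu
  have hd0 : HasFDerivAt G (L0 : (E m × (ℝ × E m)) →L[ℝ] (E m × E (m + 1))) p0 := by
    rw [hL0]
    exact (hGp0.differentiableAt (by simp)).hasFDerivAt
  set f := hGp0.toOpenPartialHomeomorph G hd0 (by simp) with hf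
  have hfc : ∀ p, f p = G p := fun p => rfl
  have hGval : G p0 = (u, 0) := by
    rw [hG, hp0]
    unfold F4a_G
    simp only [hk, sub_self, zero_smul, add_zero]
  -- the open set of good points
  set D : Set (E m × (ℝ × E m)) := U ×ˢ univ with hD
  have hDo : IsOpen D := h.op.prod isOpen_univ
  have hcont : ContinuousOn (fderiv ℝ G) D :=
    (F4a_smooth h e).continuousOn_fderiv_of_isOpen hDo (by simp)
  set Ω : Set (E m × (ℝ × E m)) := D ∩ (fderiv ℝ G) ⁻¹' (range
    ((↑) : ((E m × (ℝ × E m)) ≃L[ℝ] (E m × E (m + 1))) → ((E m × (ℝ × E m)) →L[ℝ] (E m × E (m + 1)))))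
    with hΩ
  have hΩo : IsOpen Ω := hcont.isOpen_inter_preimage hDo ContinuousLinearEquiv.isOpen
  have hp0Ω : p0 ∈ Ω := ⟨⟨hu, mem_univ _⟩, ⟨L0, hL0⟩⟩
  set U' : Set (E m) := (fun w : E m => ((w, 0) : E m × E (m + 1))) ⁻¹' (f.target ∩ f.symm ⁻¹' Ω)
    with hU'
  have hU'o : IsOpen U' := (f.isOpen_inter_preimage_symm hΩo).preimage (by fun_prop)
  have hp0s : p0 ∈ f.source := hGp0.mem_toOpenPartialHomeomorph_source hd0 (by simp)
  have hsym0 : f.symm (u, 0) = p0 := by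
    rw [← hGval, ← hfc]
    exact f.left_inv hp0s
  have huU' : u ∈ U' := by
    refine ⟨?_, ?_⟩
    · show ((u, 0) : E m × E (m + 1)) ∈ f.target
      rw [← hGval, ← hfc]
      exact f.map_source hp0s
    · show f.symm (u, 0) ∈ Ω
      rw [hsym0]; exact hp0Ω
  have hsmooth : ContDiffOn ℝ ∞ (fun w : E m => f.symm (w, 0)) U' := by
    intro w hw
    obtain ⟨ht, hsy⟩ := hw
    obtain ⟨hDw, L, hL⟩ := hsy
    have h1 : HasFDerivAt f (L : (E m × (ℝ × E m)) →L[ℝ] (E m × E (m + 1))) (f.symm (w, 0)) := by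
      rw [hL]
      exact ((F4a_diff h e hDw.1).differentiableAt (by simp)).hasFDerivAt
    have h2 : ContDiffAt ℝ ∞ f.symm (w, 0) :=
      f.contDiffAt_symm ht h1 (F4a_diff h e hDw.1)
    have h3 : ContDiffAt ℝ ∞ (fun w : E m => ((w, 0) : E m × E (m + 1))) w :=
      contDiffAt_id.prodMk contDiffAt_const
    exact (h2.comp w h3).contDiffWithinAt
  -- properties of the inverse
  have hprop : ∀ w ∈ U', (f.symm (w, 0)).1 = w ∧ w ∈ U ∧
      fderiv ℝ ξ w (f.symm (w, 0)).2.2 + (f.symm (w, 0)).2.1 • fderiv ℝ x w (f.symm (w, 0)).2.2 +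
        ((inner ℝ (f.symm (w, 0)).2.2 e : ℝ) - inner ℝ e e) • ξ w = 0 := by
    intro w hw
    obtain ⟨ht, hsy⟩ := hw
    have h1 : G (f.symm (w, 0)) = (w, 0) := by
      rw [← hfc]; exact f.right_inv ht
    have h2 : (f.symm (w, 0)).1 = w := congrArg Prod.fst h1
    refine ⟨h2, ?_, ?_⟩
    · rw [← h2]; exact hsy.1.1
    · have h3 := congrArg Prod.snd h1
      rw [hG] at h3
      unfold F4a_G at h3
      simp only at h3
      rw [h2] at h3
      exact h3
  have hee : (0 : ℝ) < inner ℝ e e := by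
    rw [real_inner_self_eq_norm_sq]
    have := norm_pos_iff.mpr he
    positivity
  refine ⟨U', fun w => (f.symm (w, 0)).2.1, fun w => (f.symm (w, 0)).2.2, hU'o, huU', ?_, ?_, ?_,
    ?_, ?_, ?_⟩
  · intro w hw; exact (hprop w hw).2.1
  · exact (contDiff_fst.comp contDiff_snd).comp_contDiffOn hsmooth
  · exact (contDiff_snd.comp contDiff_snd).comp_contDiffOn hsmooth
  · simp only; rw [hsym0]
  · simp only; rw [hsym0]
  · intro w hw
    obtain ⟨h1, hwU, h2⟩ := hprop w hw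
    simp only
    set K := (f.symm (w, 0)).2.1 with hK
    set V := (f.symm (w, 0)).2.2 with hV
    have hξξ : (inner ℝ (ξ w) (ξ w) : ℝ) = 1 := by
      rw [real_inner_self_eq_norm_sq, h.unit w hwU]; norm_num
    have hVe : (inner ℝ V e : ℝ) = inner ℝ e e := by
      have h3 := congrArg (fun y => (inner ℝ y (ξ w) : ℝ)) h2
      simp only [inner_add_left, real_inner_smul_left, leg_unit h hwU, h.perp w hwU, hξξ,
        inner_zero_left] at h3
      linarith
    have hV0 : V ≠ 0 := by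
      intro h0
      rw [h0, inner_zero_left] at hVe
      linarith
    have hker : fderiv ℝ ξ w V + K • fderiv ℝ x w V = 0 := by
      rw [hVe, sub_self, zero_smul, add_zero] at h2
      exact h2
    refine ⟨hV0, fun v => ⟨fun hv => ?_, ?_⟩⟩
    · refine ⟨inner ℝ v e / inner ℝ e e, ?_⟩
      set c : ℝ := inner ℝ v e / inner ℝ e e with hc
      obtain ⟨_, hDw, L, hL⟩ := hw
      have hpeq : f.symm (w, 0) = (w, (K, V)) := by
        rw [hK, hV]
        exact Prod.ext h1 rfl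
      rw [hpeq] at hL
      have h5 : fderiv ℝ G (w, (K, V)) (0, (0, v - c • V)) = 0 := by
        rw [hG, F4a_snd h e hwU]
        have h6 : fderiv ℝ ξ w (v - c • V) + K • fderiv ℝ x w (v - c • V) = 0 := by
          have : fderiv ℝ ξ w (v - c • V) + K • fderiv ℝ x w (v - c • V) =
              (fderiv ℝ ξ w v + K • fderiv ℝ x w v) -
              c • (fderiv ℝ ξ w V + K • fderiv ℝ x w V) := by
            simp only [map_sub, map_smul]
            module
          rw [this, hv, hker, smul_zero, sub_zero]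
        have h7 : (inner ℝ (v - c • V) e : ℝ) = 0 := by
          rw [inner_sub_left, real_inner_smul_left, hVe, hc]
          field_simp
          ring
        rw [h6, h7]
        simp
      rw [← hL] at h5
      have h8 : ((0, (0, v - c • V)) : E m × (ℝ × E m)) = 0 := by
        apply L.injective
        rw [map_zero]
        exact h5
      have h9 : v - c • V = 0 := congrArg (fun p : E m × (ℝ × E m) => p.2.2) h8
      exact sub_eq_zero.mp h9
    · rintro ⟨c, rfl⟩
      have : fderiv ℝ ξ w (c • V) + K • fderiv ℝ x w (c • V) =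
          c • (fderiv ℝ ξ w V + K • fderiv ℝ x w V) := by
        simp only [map_smul]
        module
      rw [this, hker, smul_zero]

end MPf7aa
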