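import Pool.Agent.Lib.MP_f7aa1b_gt.Core

/-!
Row F4b. Smooth integral curves. Proof. Mathlib: exists_forall_hasDerivAt_Ioo_eq_of_contDiffAt (Picard-Lindelof) for
the C^1 vector field V at u gives gam with gam 0 = u and HasDerivAt gam (V (gam t)) t on an interval; shrink it so
that gam t in U' (gam is continuous). Smoothness: by induction on n, gam is ContDiffOn n on Ioo: deriv gam = V o gam,
contDiffOn_succ_iff_deriv_of_isOpen; then contDiffOn_infty.
-/

open Set Filter Topology Metric MeasureTheory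
open scoped ContDiff

namespace MPf7aa

theorem smooth_flow {m : ℕ} {U' : Set (E m)} {V : E m → E m} (hU : IsOpen U')
    (hV : ContDiffOn ℝ ∞ V U') {u : E m} (hu : u ∈ U') :
    ∃ (δ : ℝ) (γ : ℝ → E m), 0 < δ ∧ γ 0 = u ∧ ContDiffOn ℝ ∞ γ (Ioo (-δ) δ) ∧
      ∀ t ∈ Ioo (-δ) δ, γ t ∈ U' ∧ HasDerivAt γ (V (γ t)) t := by
  have hV1 : ContDiffAt ℝ 1 V u := (hV.contDiffAt (hU.mem_nhds hu)).of_le (by simp)
  obtain ⟨γ, hγ0, ε, hε, hγ⟩ :=
    hV1.exists_forall_mem_closedBall_exists_eq_forall_mem_Ioo_hasDerivAt₀ 0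
  rw [zero_sub, zero_add] at hγ
  have hc : ContinuousAt γ 0 := (hγ 0 ⟨by linarith, hε⟩).continuousAt
  have hev : ∀ᶠ t in 𝓝 (0 : ℝ), γ t ∈ U' := hc.eventually_mem (hU.mem_nhds (by rw [hγ0]; exact hu))
  obtain ⟨δ1, hδ1, hball⟩ := Metric.eventually_nhds_iff_ball.1 hev
  have hmem : ∀ t ∈ Ioo (-(min ε δ1)) (min ε δ1), γ t ∈ U' ∧ HasDerivAt γ (V (γ t)) t := by
    intro t ht
    have h1 : |t| < min ε δ1 := abs_lt.2 ht
    refine ⟨hball t ?_, hγ t (abs_lt.1 (h1.trans_le (min_le_left _ _)))⟩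
    rw [mem_ball_zero_iff, Real.norm_eq_abs]
    exact h1.trans_le (min_le_right _ _)
  refine ⟨min ε δ1, γ, lt_min hε hδ1, hγ0, ?_, hmem⟩
  have hdiff : DifferentiableOn ℝ γ (Ioo (-(min ε δ1)) (min ε δ1)) := fun t ht =>
    (hmem t ht).2.differentiableAt.differentiableWithinAt
  rw [contDiffOn_infty]
  intro n
  induction n with
  | zero =>
    rw [Nat.cast_zero, contDiffOn_zero]
    exact hdiff.continuousOn
  | succ n ih =>
    rw [Nat.cast_succ, contDiffOn_succ_iff_deriv_of_isOpen isOpen_Ioo]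
    refine ⟨hdiff, fun h => ?_, ?_⟩
    · exact absurd h (by simp)
    · have h1 : ContDiffOn ℝ n (V ∘ γ) (Ioo (-(min ε δ1)) (min ε δ1)) :=
        (hV.of_le (by exact_mod_cast le_top)).comp ih (fun t ht => (hmem t ht).1)
      apply h1.congr
      intro t ht
      exact (hmem t ht).2.deriv

end MPf7aa
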