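import Pool.Agent.Lib.MP_f7aa1b_gt.F1
import Pool.Agent.Lib.MP_f7aa1b_gt.F3

/-!
Row F4c. A parametrised piece whose tangent spaces are the principal spaces is a curvature surface.
Proof. chi := b o psi, smooth on ball 0 rho, fderiv chi 0 = fderiv b (psi 0) o fderiv psi 0 injective. isChart_of_imm
(F1) with W = ball 0 rho gives rho1 <= rho: IsChart k (chi '' ball 0 rho1) (chi 0) (ball 0 rho1) chi.
S := chi '' ball 0 rho1. sub: b maps U into UNB M (homeo for V = U). conn: image of a ball (convex, nonempty) under a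
continuous map. mfd: submfd_of_chart. tan: tanSet_chart: TanSet S (chi w) = range (fderiv chi w)
= fderiv b (psi w) '' range (fderiv psi w) = {fderiv b (psi w) v | dxi v + kf dx v = 0} = PrincSpace
(princ_iff). princ: k > 0, take y != 0 in E k, w = fderiv b (fderiv psi y) != 0.
-/

open Set Filter Topology Metric MeasureTheory
open scoped ContDiff

namespace MPf7aa

theorem surface_of_param {m : ℕ} {M : Set (E (m + 1))} {b0 : E (m + 1) × E (m + 1)}
    {U : Set (E m)} {b : E m → E (m + 1) × E (m + 1)} (h : IsChart m (UNB M) b0 U b)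
    {k : ℕ} (hk : 0 < k) {ρ : ℝ} (hρ : 0 < ρ) {ψ : E k → E m}
    (hψ : ContDiffOn ℝ ∞ ψ (ball (0 : E k) ρ)) (hψU : ∀ w ∈ ball (0 : E k) ρ, ψ w ∈ U)
    (hψi : ∀ w ∈ ball (0 : E k) ρ, Function.Injective (fderiv ℝ ψ w))
    (κf : E (m + 1) × E (m + 1) → ℝ)
    (hker : ∀ w ∈ ball (0 : E k) ρ, ∀ v : E m,
      fderiv ℝ (fun u => (b u).2) (ψ w) v + κf (b (ψ w)) • fderiv ℝ (fun u => (b u).1) (ψ w) v = 0 ↔
        ∃ y : E k, fderiv ℝ ψ w y = v) :
    ∃ ρ1 : ℝ, 0 < ρ1 ∧ ρ1 ≤ ρ ∧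
      IsCurvSurface M ((fun w => b (ψ w)) '' ball (0 : E k) ρ1) κf := by
  have hd : ∀ w ∈ ball (0 : E k) ρ, HasFDerivAt (fun w => b (ψ w))
      ((fderiv ℝ b (ψ w)).comp (fderiv ℝ ψ w)) w := by
    intro w hw
    have h1 : DifferentiableAt ℝ ψ w :=
      (hψ.contDiffAt (isOpen_ball.mem_nhds hw)).differentiableAt (by simp)
    have h2 : DifferentiableAt ℝ b (ψ w) :=
      (h.smooth.contDiffAt (h.op.mem_nhds (hψU w hw))).differentiableAt (by simp)
    exact h2.hasFDerivAt.comp w h1.hasFDerivAt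
  have hsm : ContDiffOn ℝ ∞ (fun w => b (ψ w)) (ball (0 : E k) ρ) :=
    h.smooth.comp hψ hψU
  have hfd : ∀ w ∈ ball (0 : E k) ρ, ∀ y : E k,
      fderiv ℝ (fun w => b (ψ w)) w y = fderiv ℝ b (ψ w) (fderiv ℝ ψ w y) := by
    intro w hw y
    rw [(hd w hw).fderiv]
    rfl
  have h0 : (0 : E k) ∈ ball (0 : E k) ρ := mem_ball_self hρ
  have hinj0 : Function.Injective (fderiv ℝ (fun w => b (ψ w)) 0) := by
    intro y y' hyy
    rw [hfd 0 h0, hfd 0 h0] at hyy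
    exact hψi 0 h0 (h.imm _ (hψU 0 h0) hyy)
  obtain ⟨ρ0, hρ0, hc⟩ := isChart_of_imm (φ := fun w => b (ψ w)) isOpen_ball h0 hsm hinj0
  have hρ1 : 0 < min ρ ρ0 := lt_min hρ hρ0
  obtain ⟨hsub, hch⟩ := hc (min ρ ρ0) hρ1 (min_le_right _ _)
  have htan : ∀ w ∈ ball (0 : E k) (min ρ ρ0),
      TanSet ((fun w => b (ψ w)) '' ball (0 : E k) (min ρ ρ0)) (b (ψ w)) =
        PrincSpace M (κf (b (ψ w))) (b (ψ w)) := by
    intro w hw
    have h1 := tanSet_chart hch hw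
    rw [h1]
    ext v
    rw [princ_iff h (hψU w (hsub hw))]
    constructor
    · rintro ⟨y, hy⟩
      refine ⟨fderiv ℝ ψ w y, ?_, ?_⟩
      · rw [← hfd w (hsub hw)]
        exact hy.symm
      · exact (hker w (hsub hw) _).2 ⟨y, rfl⟩
    · rintro ⟨u, hu1, hu2⟩
      obtain ⟨y, hy⟩ := (hker w (hsub hw) u).1 hu2
      refine ⟨y, ?_⟩
      rw [hfd w (hsub hw), hy]
      exact hu1.symm
  refine ⟨min ρ ρ0, hρ1, min_le_left _ _, ?_, ?_, ⟨k, submfd_of_chart hch⟩, ?_, ?_⟩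
  · rintro _ ⟨w, hw, rfl⟩
    obtain ⟨W, -, hW⟩ := h.homeo U subset_rfl h.op
    have h1 : b (ψ w) ∈ b '' U := ⟨ψ w, hψU w (hsub hw), rfl⟩
    rw [hW] at h1
    exact h1.1
  · exact (((convex_ball (0 : E k) (min ρ ρ0)).isPathConnected
      ⟨0, mem_ball_self hρ1⟩).isConnected).image _ (hsm.continuousOn.mono hsub)
  · rintro _ ⟨w, hw, rfl⟩
    have h1 : fderiv ℝ (fun w => b (ψ w)) w (EuclideanSpace.single ⟨0, hk⟩ (1 : ℝ)) ∈
        TanSet ((fun w => b (ψ w)) '' ball (0 : E k) (min ρ ρ0)) (b (ψ w)) := by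
      have h2 := tanSet_chart hch hw
      rw [h2]
      exact ⟨_, rfl⟩
    rw [htan w hw] at h1
    refine ⟨_, h1, ?_⟩
    intro h3
    rw [hfd w (hsub hw)] at h3
    have h4 : fderiv ℝ ψ w (EuclideanSpace.single ⟨0, hk⟩ (1 : ℝ)) = 0 :=
      h.imm _ (hψU w (hsub hw)) (by rw [h3, map_zero])
    have h5 : (EuclideanSpace.single ⟨0, hk⟩ (1 : ℝ) : E k) = 0 :=
      hψi w (hsub hw) (by rw [h4, map_zero])
    have h6 := congrArg (fun z : E k => z ⟨0, hk⟩) h5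
    simp at h6
  · rintro _ ⟨w, hw, rfl⟩
    exact htan w hw

end MPf7aa
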