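import Pool.Agent.Lib.MP_f7aa1b_gt.F4a
import Pool.Agent.Lib.MP_f7aa1b_gt.F4b
import Pool.Agent.Lib.MP_f7aa1b_gt.F4c

/-!
Row F4d. Dupin implies DStar. Let u in U, kap, e as in DStar. leg_of_chart (F3), simple_ext: U', K, V;
smooth_flow: gam on Ioo (-del) del. psi : E 1 -> E m, psi w = gam (w 0), on ball 0 del (|w 0| = |w| for w in E 1):
smooth, fderiv psi w y = (y 0) V (gam (w 0)), injective since V != 0. Chart of UNB M at b u: h itself can be used
(surface_of_param only needs psi w in U). kf := K o (inverse of b on U) (Function.invFunOn b U; InjOn), so kf (b (psi w))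
= K (psi w). hker from the last clause of simple_ext. surface_of_param: the curve t -> b (gam t), |t| < rho1, is a
curvature surface with function kf; IsDupin: kf is constant on it: K (gam t) = K (gam 0) = kap for |t| < rho1.
DStar: gam, k := constant kap, HasDerivAt gam e 0 (V u = e), and v = V (gam t).
-/

open Set Filter Topology Metric MeasureTheory
open scoped ContDiff

namespace MPf7aa

/-- the one-dimensional parametrisation of a curve -/
theorem F4d_fderiv {m : ℕ} {γ : ℝ → E m} {w : E 1} {v : E m} (hγ : HasDerivAt γ v (w 0)) (y : E 1) :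
    fderiv ℝ (fun w : E 1 => γ (w 0)) w y = y 0 • v := by
  have h1 : HasFDerivAt (fun w : E 1 => w 0) (EuclideanSpace.proj (𝕜 := ℝ) (0 : Fin 1)) w :=
    (EuclideanSpace.proj (𝕜 := ℝ) (0 : Fin 1)).hasFDerivAt
  have h2 := HasFDerivAt.comp (f := fun w : E 1 => w 0) w hγ.hasFDerivAt h1
  have h3 : fderiv ℝ (fun w : E 1 => γ (w 0)) w = _ := h2.fderiv
  rw [h3]
  simp

theorem F4d_norm (w : E 1) : ‖w‖ = |w 0| := by
  rw [EuclideanSpace.norm_eq, Fin.sum_univ_one, Real.norm_eq_abs, Real.sqrt_sq (abs_nonneg _)]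

theorem dstar_of_dupin {m : ℕ} {M : Set (E (m + 1))} (hD : IsDupin M)
    {b0 : E (m + 1) × E (m + 1)} {U : Set (E m)} {b : E m → E (m + 1) × E (m + 1)}
    (h : IsChart m (UNB M) b0 U b) : DStar U (fun u => (b u).1) (fun u => (b u).2) := by
  intro u hu κ e he hk hs
  have hleg := leg_of_chart h
  obtain ⟨U', K, V, hU', huU', hsub, hK, hV, hKu, hVu, hext⟩ := simple_ext hleg hu he hk hs
  obtain ⟨δ, γ, hδ, hγ0, hγs, hγ⟩ := smooth_flow hU' hV huU'
  have hball : ∀ w ∈ ball (0 : E 1) δ, w 0 ∈ Ioo (-δ) δ := by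
    intro w hw
    rw [mem_ball_zero_iff, F4d_norm, abs_lt] at hw
    exact hw
  have hproj : ContDiff ℝ ∞ (fun w : E 1 => w 0) :=
    (EuclideanSpace.proj (𝕜 := ℝ) (0 : Fin 1)).contDiff
  have hψ : ContDiffOn ℝ ∞ (fun w : E 1 => γ (w 0)) (ball (0 : E 1) δ) :=
    hγs.comp hproj.contDiffOn (fun w hw => hball w hw)
  have hinv : ∀ w ∈ ball (0 : E 1) δ,
      K (Function.invFunOn b U (b (γ (w 0)))) = K (γ (w 0)) := by
    intro w hw
    have h1 := hsub (hγ _ (hball w hw)).1
    have h2 : Function.invFunOn b U (b (γ (w 0))) = γ (w 0) := h.inj.leftInvOn_invFunOn h1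
    rw [h2]
  obtain ⟨ρ1, hρ1, hρδ, hsurf⟩ := surface_of_param h (k := 1) one_pos hδ hψ
    (fun w hw => hsub (hγ _ (hball w hw)).1)
    (fun w hw => by
      intro y y' hyy'
      rw [F4d_fderiv (hγ _ (hball w hw)).2, F4d_fderiv (hγ _ (hball w hw)).2, ← sub_eq_zero,
        ← sub_smul] at hyy'
      have hVne := (hext _ (hγ _ (hball w hw)).1).1
      have h0 : y 0 - y' 0 = 0 := (smul_eq_zero.1 hyy').resolve_right hVne
      ext i
      rw [Subsingleton.elim i 0]
      exact sub_eq_zero.1 h0)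
    (fun b' => K (Function.invFunOn b U b'))
    (fun w hw v => by
      rw [hinv w hw, (hext _ (hγ _ (hball w hw)).1).2 v]
      constructor
      · rintro ⟨c, rfl⟩
        refine ⟨EuclideanSpace.single 0 c, ?_⟩
        rw [F4d_fderiv (hγ _ (hball w hw)).2]
        simp
      · rintro ⟨y, rfl⟩
        exact ⟨y 0, F4d_fderiv (hγ _ (hball w hw)).2 y⟩)
  obtain ⟨c, hc⟩ := hD _ _ hsurf
  have hval : ∀ t : ℝ, |t| < ρ1 → K (γ t) = c := by
    intro t ht
    have hw : (EuclideanSpace.single 0 t : E 1) ∈ ball (0 : E 1) ρ1 := by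
      rw [mem_ball_zero_iff, F4d_norm]
      simpa using ht
    have hwδ : (EuclideanSpace.single 0 t : E 1) ∈ ball (0 : E 1) δ := ball_subset_ball hρδ hw
    have h1 := hc _ ⟨_, hw, rfl⟩
    have h2 := hinv _ hwδ
    have h3 : (EuclideanSpace.single 0 t : E 1) 0 = t := by simp
    rw [h3] at h2
    simp only [h3] at h1
    rw [← h1, h2]
  have hc0 : c = κ := by
    have := hval 0 (by simpa using hρ1)
    rw [hγ0, hKu] at this
    exact this.symm
  refine ⟨γ, fun _ => κ, hγ0, ?_, rfl, hasDerivAt_const _ _, ?_⟩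
  · have h0 := (hγ 0 ⟨by linarith, hδ⟩).2
    rw [hγ0, hVu] at h0
    exact h0
  · have hev : ∀ᶠ t in 𝓝 (0 : ℝ), |t| < ρ1 := by
      have : ContinuousAt (fun t : ℝ => |t|) 0 := continuous_abs.continuousAt
      exact this.eventually_lt continuousAt_const (by simpa using hρ1)
    filter_upwards [hev] with t ht
    have htδ : t ∈ Ioo (-δ) δ := abs_lt.1 (ht.trans_le hρδ)
    refine ⟨V (γ t), (hext _ (hγ t htδ).1).1, ?_⟩
    have h1 := ((hext _ (hγ t htδ).1).2 (V (γ t))).2 ⟨1, (one_smul _ _).symm⟩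
    rw [hval t ht, hc0] at h1
    exact h1

end MPf7aa
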