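import Pool.Agent.Lib.MP_f7aa1b_gt.Core

/-!
Row K2. Implicit function theorem in the form needed.
Proof. R = range dg(0), K = ker dg(0), k = finrank K, T : E m -> R x K, T u = (g u, pi_K u), pi_K the orthogonal
projection. dT(0) is bijective (v in K-perp and dg(0) v = 0 imply v = 0; dim). T is C^infinity near 0. Inverse function
theorem (ContDiffAt.toOpenPartialHomeomorph / HasStrictFDerivAt.toOpenPartialHomeomorph, smoothness of the inverse
ContDiffAt.to_localInverse, or OpenPartialHomeomorph.contDiffAt_symm at every point of a small neighbourhood, where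
dT is still bijective). L : E k -> K linear isometry, psi y = T^{-1} (0, L y), rho small such that (0, L y) is in the
target. g (psi y) = 0. ker: if dg(psi w) v = 0 then dT(psi w) v = (0, pi_K v), apply d(T^-1): v = dpsi(w)(L^-1 pi_K v).
imm: T o psi = (0, L y). homeo: for V open in ball 0 rho, O = {u in source | pi_K u in L V} (L V open in K,
preimage under continuous pi_K) intersected with U; if u in O, g u = 0 then T u = (0, L y), y in V, u = psi y.
-/

open Set Filter Topology Metric MeasureTheory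
open scoped ContDiff

namespace MPf7aa

/-- local parametrisation ψ of the zero set of z near 0, with tangent space the kernel of dz -/
structure ZChart {m j : ℕ} (U : Set (E m)) (z : E m → E j) (k : ℕ) (ρ : ℝ) (ψ : E k → E m) :
    Prop where
  hρ : 0 < ρ
  ψ0 : ψ 0 = 0
  cψ : ContDiffOn ℝ ∞ ψ (ball (0 : E k) ρ)
  imm : ∀ w ∈ ball (0 : E k) ρ, Function.Injective (fderiv ℝ ψ w)
  inj : InjOn ψ (ball (0 : E k) ρ)
  maps : ∀ w ∈ ball (0 : E k) ρ, ψ w ∈ U ∧ z (ψ w) = 0
  ker : ∀ w ∈ ball (0 : E k) ρ, ∀ v : E m, fderiv ℝ z (ψ w) v = 0 → ∃ y : E k, fderiv ℝ ψ w y = v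
  homeo : ∀ V : Set (E k), V ⊆ ball (0 : E k) ρ → IsOpen V →
    ∃ O : Set (E m), IsOpen O ∧ O ⊆ U ∧ ψ '' V = {u | u ∈ O ∧ z u = 0}

theorem K2_lin {m j : ℕ} (A : E m →L[ℝ] E j) :
    ∃ (k : ℕ) (S : E j →L[ℝ] E m) (L : E k →L[ℝ] E m) (π : E m →L[ℝ] E k),
      (∀ y, π (L y) = y) ∧ (∀ v, S (A v) + L (π v) = v) ∧ (∀ y, A (L y) = 0) ∧
      ∀ z, π (S z) = 0 := by
  classical
  let K : Submodule ℝ (E m) := A.toLinearMap.ker
  let b := stdOrthonormalBasis ℝ K
  let B : Kᗮ →ₗ[ℝ] E j := A.toLinearMap.domRestrict Kᗮ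
  have hB : B.ker = ⊥ := by
    rw [LinearMap.ker_eq_bot']
    intro x hx
    have h1 : (x : E m) ∈ K := by
      show A (x : E m) = 0
      exact hx
    have h2 : (x : E m) ∈ K ⊓ Kᗮ := ⟨h1, x.2⟩
    rw [Submodule.inf_orthogonal_eq_bot] at h2
    exact Subtype.ext h2
  obtain ⟨S0, hS0⟩ := LinearMap.exists_leftInverse_of_injective B hB
  have hL : ∀ y : E (Module.finrank ℝ K), A ((b.repr.symm y : K) : E m) = 0 := fun y =>
    (b.repr.symm y).2
  refine ⟨Module.finrank ℝ K, (Kᗮ.subtype ∘ₗ S0).toContinuousLinearMap,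
    K.subtypeL.comp (b.repr.symm.toContinuousLinearEquiv : E (Module.finrank ℝ K) →L[ℝ] K),
    (b.repr.toContinuousLinearEquiv : K →L[ℝ] E (Module.finrank ℝ K)).comp
      K.orthogonalProjectionOnto, ?_, ?_, ?_, ?_⟩
  · intro y
    show b.repr (K.orthogonalProjectionOnto ((b.repr.symm y : K) : E m)) = y
    rw [Submodule.orthogonalProjectionOnto_mem_subspace_eq_self]
    simp
  · intro v
    show ((S0 (A v) : Kᗮ) : E m) +
      ((b.repr.symm (b.repr (K.orthogonalProjectionOnto v)) : K) : E m) = v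
    rw [LinearIsometryEquiv.symm_apply_apply]
    have h1 : v - (K.orthogonalProjectionOnto v : E m) ∈ Kᗮ :=
      Submodule.sub_starProjection_mem_orthogonal v
    have h2 : A v = B ⟨v - (K.orthogonalProjectionOnto v : E m), h1⟩ := by
      show A v = A (v - (K.orthogonalProjectionOnto v : E m))
      rw [map_sub]
      have : A (K.orthogonalProjectionOnto v : E m) = 0 := (K.orthogonalProjectionOnto v).2
      rw [this, sub_zero]
    have h3 : S0 (A v) = ⟨v - (K.orthogonalProjectionOnto v : E m), h1⟩ := by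
      rw [h2]
      exact LinearMap.congr_fun hS0 _
    rw [h3]
    simp
  · intro y
    exact hL y
  · intro z
    show b.repr (K.orthogonalProjectionOnto ((S0 z : Kᗮ) : E m)) = 0
    have : K.orthogonalProjectionOnto ((S0 z : Kᗮ) : E m) = 0 :=
      Submodule.orthogonalProjectionOnto_apply_of_mem_orthogonal (S0 z).2
    rw [this, map_zero]
theorem implicit_chart {m j : ℕ} {U : Set (E m)} {g : E m → E j} (hU : IsOpen U)
    (h0 : (0 : E m) ∈ U) (hg : ContDiffOn ℝ ∞ g U) (hg0 : g 0 = 0)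
    (hr : ∀ u ∈ U, ∃ v : E m, fderiv ℝ g 0 v = g u) :
    ∃ (k : ℕ) (ρ : ℝ) (ψ : E k → E m), ZChart U g k ρ ψ := by
  obtain ⟨k, S, L, π, h1, h2, h3, h4⟩ := K2_lin (fderiv ℝ g 0)
  set T : E m → E m := fun u => S (g u) + L (π u) with hT
  have hTs : ContDiffOn ℝ ∞ T U :=
    (S.contDiff.comp_contDiffOn hg).add (L.contDiff.comp π.contDiff).contDiffOn
  have hgd : ∀ u ∈ U, HasFDerivAt g (fderiv ℝ g u) u := fun u hu =>
    ((hg.contDiffAt (hU.mem_nhds hu)).differentiableAt (by simp)).hasFDerivAt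
  have hTd : ∀ u ∈ U, HasFDerivAt T (S.comp (fderiv ℝ g u) + L.comp π) u := fun u hu =>
    (S.hasFDerivAt.comp u (hgd u hu)).add (L.hasFDerivAt.comp u π.hasFDerivAt)
  have hT0 : T 0 = 0 := by simp [hT, hg0]
  have hid : S.comp (fderiv ℝ g 0) + L.comp π =
      ((ContinuousLinearEquiv.refl ℝ (E m) : E m ≃L[ℝ] E m) : E m →L[ℝ] E m) := by
    ext1 v
    exact h2 v
  have hTd0 : HasFDerivAt T ((ContinuousLinearEquiv.refl ℝ (E m) : E m ≃L[ℝ] E m) :
      E m →L[ℝ] E m) 0 := by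
    rw [← hid]
    exact hTd 0 h0
  have hTc0 : ContDiffAt ℝ ∞ T 0 := hTs.contDiffAt (hU.mem_nhds h0)
  let U' : Set (E m) := U ∩ fderiv ℝ T ⁻¹' (range ContinuousLinearEquiv.toContinuousLinearMap)
  have hU' : IsOpen U' :=
    (hTs.continuousOn_fderiv_of_isOpen hU (by simp)).isOpen_inter_preimage hU
      ContinuousLinearEquiv.isOpen
  have h0U' : (0 : E m) ∈ U' := by
    refine ⟨h0, ?_⟩
    refine ⟨ContinuousLinearEquiv.refl ℝ (E m), ?_⟩
    exact hTd0.fderiv.symm
  obtain ⟨e, heT, he0, heU⟩ : ∃ e : OpenPartialHomeomorph (E m) (E m), (∀ u, e u = T u) ∧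
      (0 : E m) ∈ e.source ∧ e.source ⊆ U' := by
    refine ⟨(hTc0.toOpenPartialHomeomorph T hTd0 (by simp)).restrOpen U' hU', fun u => rfl,
      ⟨hTc0.mem_toOpenPartialHomeomorph_source hTd0 (by simp), h0U'⟩, fun u hu => hu.2⟩
  have hsrc : e.source ⊆ U := fun u hu => (heU hu).1
  have he0t : (0 : E m) ∈ e.target := by
    have := e.map_source he0
    rwa [heT, hT0] at this
  have hdinv : ∀ y ∈ e.target, ∃ f : E m ≃L[ℝ] E m,
      HasFDerivAt T (f : E m →L[ℝ] E m) (e.symm y) := by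
    intro y hy
    have h5 := heU (e.map_target hy)
    obtain ⟨f, hf⟩ := h5.2
    refine ⟨f, ?_⟩
    rw [hf]
    exact (hTd _ h5.1).differentiableAt.hasFDerivAt
  have hesm : ∀ y ∈ e.target, ContDiffAt ℝ ∞ e.symm y := by
    intro y hy
    obtain ⟨f, hf⟩ := hdinv y hy
    have h6 : (e : E m → E m) = T := funext heT
    refine e.contDiffAt_symm hy (f₀' := f) ?_ ?_
    · rw [h6]; exact hf
    · rw [h6]; exact hTs.contDiffAt (hU.mem_nhds (hsrc (e.map_target hy)))
  obtain ⟨ρ, hρ, hball⟩ : ∃ ρ : ℝ, 0 < ρ ∧ ∀ y ∈ ball (0 : E k) ρ, L y ∈ e.target := by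
    have h7 : L ⁻¹' e.target ∈ 𝓝 (0 : E k) := by
      refine L.continuous.continuousAt.preimage_mem_nhds ?_
      rw [map_zero]
      exact e.open_target.mem_nhds he0t
    obtain ⟨ρ, hρ, h8⟩ := Metric.mem_nhds_iff.1 h7
    exact ⟨ρ, hρ, fun y hy => h8 hy⟩
  set ψ : E k → E m := fun y => e.symm (L y) with hψ
  have hTψ : ∀ y ∈ ball (0 : E k) ρ, T (ψ y) = L y := by
    intro y hy
    rw [← heT]
    exact e.right_inv (hball y hy)
  have hψs : ∀ y ∈ ball (0 : E k) ρ, ψ y ∈ e.source := fun y hy => e.map_target (hball y hy)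
  have hψc : ∀ y ∈ ball (0 : E k) ρ, ContDiffAt ℝ ∞ ψ y := fun y hy =>
    (hesm _ (hball y hy)).comp y L.contDiff.contDiffAt
  have hπT : ∀ u, π (T u) = π u := by
    intro u
    show π (S (g u) + L (π u)) = π u
    rw [map_add, h4, h1, zero_add]
  have hgψ : ∀ y ∈ ball (0 : E k) ρ, g (ψ y) = 0 := by
    intro y hy
    have h5 : π (ψ y) = y := by rw [← hπT, hTψ y hy, h1]
    have h6 : S (g (ψ y)) + L (π (ψ y)) = L y := hTψ y hy
    rw [h5] at h6
    have h7 : S (g (ψ y)) = 0 := by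
      have := congrArg (fun z => z - L y) h6
      simpa using this
    obtain ⟨v, hv⟩ := hr _ (hsrc (hψs y hy))
    rw [← hv] at h7 ⊢
    have h8 := h2 v
    rw [h7, zero_add] at h8
    rw [← h8]
    exact h3 _
  have hderiv : ∀ y ∈ ball (0 : E k) ρ, ∃ f : E m ≃L[ℝ] E m,
      HasFDerivAt T (f : E m →L[ℝ] E m) (ψ y) ∧ ∀ v, f (fderiv ℝ ψ y v) = L v := by
    intro y hy
    obtain ⟨f, hf⟩ := hdinv (L y) (hball y hy)
    refine ⟨f, hf, ?_⟩
    have h5 : HasFDerivAt ψ (fderiv ℝ ψ y) y :=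
      ((hψc y hy).differentiableAt (by simp)).hasFDerivAt
    have h6 : HasFDerivAt (T ∘ ψ) ((f : E m →L[ℝ] E m).comp (fderiv ℝ ψ y)) y :=
      HasFDerivAt.comp y (g := T) (f := ψ) hf h5
    have h7 : (T ∘ ψ) =ᶠ[𝓝 y] L := by
      filter_upwards [isOpen_ball.mem_nhds hy] with z hz
      exact hTψ z hz
    have h8 : HasFDerivAt (T ∘ ψ) L y := L.hasFDerivAt.congr_of_eventuallyEq h7
    have h9 := h6.unique h8
    intro v
    exact congrArg (fun A : E k →L[ℝ] E m => A v) h9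
  refine ⟨k, ρ, ψ, hρ, ?_, ?_, ?_, ?_, ?_, ?_, ?_⟩
  · show e.symm (L 0) = 0
    have h5 := e.left_inv he0
    rw [heT, hT0] at h5
    rw [map_zero, h5]
  · exact fun y hy => (hψc y hy).contDiffWithinAt
  · intro y hy v w hvw
    obtain ⟨f, -, hf⟩ := hderiv y hy
    have h5 : L v = L w := by rw [← hf, ← hf, hvw]
    rw [← h1 v, ← h1 w, h5]
  · intro v hv w hw hvw
    have h5 : L v = L w := by rw [← hTψ v hv, ← hTψ w hw, hvw]
    rw [← h1 v, ← h1 w, h5]
  · exact fun w hw => ⟨hsrc (hψs w hw), hgψ w hw⟩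
  · intro w hw v hv
    obtain ⟨f, hf0, hf⟩ := hderiv w hw
    refine ⟨π v, ?_⟩
    apply f.injective
    rw [hf]
    have h5 := (hTd _ (hsrc (hψs w hw))).unique hf0
    have h6 : S (fderiv ℝ g (ψ w) v) + L (π v) = f v :=
      congrArg (fun A : E m →L[ℝ] E m => A v) h5
    rw [← h6, hv, map_zero, zero_add]
  · intro V hV hVo
    refine ⟨e.source ∩ π ⁻¹' V, e.open_source.inter (hVo.preimage π.continuous),
      fun u hu => hsrc hu.1, ?_⟩
    ext u
    constructor
    · rintro ⟨y, hy, rfl⟩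
      refine ⟨⟨hψs y (hV hy), ?_⟩, hgψ y (hV hy)⟩
      show π (ψ y) ∈ V
      rw [← hπT, hTψ y (hV hy), h1]
      exact hy
    · rintro ⟨⟨hu1, hu2⟩, hu3⟩
      refine ⟨π u, hu2, ?_⟩
      show e.symm (L (π u)) = u
      have h5 : L (π u) = e u := by
        rw [heT]
        show L (π u) = S (g u) + L (π u)
        rw [hu3, map_zero, zero_add]
      rw [h5]
      exact e.left_inv hu1


theorem ZChart.shrink {m j : ℕ} {U : Set (E m)} {z : E m → E j} {k : ℕ} {ρ : ℝ} {ψ : E k → E m}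
    (h : ZChart U z k ρ ψ) {ρ' : ℝ} (h0 : 0 < ρ') (h1 : ρ' ≤ ρ) : ZChart U z k ρ' ψ := by
  have hsub : ball (0 : E k) ρ' ⊆ ball (0 : E k) ρ := ball_subset_ball h1
  exact
    { hρ := h0
      ψ0 := h.ψ0
      cψ := h.cψ.mono hsub
      imm := fun w hw => h.imm w (hsub hw)
      inj := h.inj.mono hsub
      maps := fun w hw => h.maps w (hsub hw)
      ker := fun w hw => h.ker w (hsub hw)
      homeo := fun V hV hVo => h.homeo V (hV.trans hsub) hVo }


end MPf7aa
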