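import Pool.Agent.Lib.MP_f7aa1b_gt.D1
import Pool.Agent.Lib.MP_f7aa1b_gt.K2

/-!
Row K3. Linear algebra at 0 for z = x + tau0 xi - const, dz = dx + tau0 dxi, R = range dz(0), K = ker dz(0).
perp_all: if y is orthogonal to R, to xi 0 and to dxi(0)(K) then y = 0. Proof: the pair (- tau0 y, y) is
orthogonal (in the sense of leg_lagrangian) to all (dx v, dxi v), so there is v with dx v = - tau0 y, dxi v = y;
v is in K, so <y, dxi v> = <y, y> = 0.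
lower: psi a C^1 map near 0 with psi 0 = 0 and K contained in range dpsi(0). The function
(w, y) -> |<y, dxi(psi w) dpsi(w) .>| (operator norm on E k) + |<y, xi (psi w)>| is continuous, homogeneous in y and
positive for w = 0 and y != 0 orthogonal to R (perp_all).
-/

open Set Filter Topology Metric MeasureTheory
open scoped ContDiff

namespace MPf7aa

theorem perp_all {m : ℕ} {U : Set (E m)} {x ξ : E m → E (m + 1)} (h : Leg U x ξ)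
    (h0 : (0 : E m) ∈ U) (τ0 : ℝ) {y : E (m + 1)}
    (hR : ∀ v, inner ℝ (fderiv ℝ x 0 v + τ0 • fderiv ℝ ξ 0 v) y = 0)
    (hξ : inner ℝ y (ξ 0) = 0)
    (hK : ∀ v, fderiv ℝ x 0 v + τ0 • fderiv ℝ ξ 0 v = 0 → inner ℝ y (fderiv ℝ ξ 0 v) = 0) :
    y = 0 := by
  have h1 : inner ℝ ((-τ0) • y) (ξ 0) = 0 := by
    rw [real_inner_smul_left, hξ, mul_zero]
  have h2 : ∀ v, inner ℝ ((-τ0) • y) (fderiv ℝ ξ 0 v) = inner ℝ y (fderiv ℝ x 0 v) := by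
    intro v
    have h3 := hR v
    rw [inner_add_left, real_inner_smul_left] at h3
    have h4 := real_inner_comm y (fderiv ℝ ξ 0 v)
    have h5 := real_inner_comm y (fderiv ℝ x 0 v)
    rw [real_inner_smul_left, ← h4, ← h5]
    linarith
  obtain ⟨v, hv1, hv2⟩ := leg_lagrangian h h0 h1 hξ h2
  have h4 : fderiv ℝ x 0 v + τ0 • fderiv ℝ ξ 0 v = 0 := by
    rw [hv1, hv2, neg_smul, neg_add_cancel]
  have h5 := hK v h4
  rw [hv2] at h5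
  exact inner_self_eq_zero.mp h5

theorem lower_near {m k : ℕ} {U : Set (E m)} {x ξ : E m → E (m + 1)} (h : Leg U x ξ)
    (h0 : (0 : E m) ∈ U) (τ0 : ℝ) {ρ : ℝ} (hρ : 0 < ρ) {ψ : E k → E m} (hψ0 : ψ 0 = 0)
    (hψ : ContDiffOn ℝ ∞ ψ (ball (0 : E k) ρ))
    (hK : ∀ v, fderiv ℝ x 0 v + τ0 • fderiv ℝ ξ 0 v = 0 → ∃ y : E k, fderiv ℝ ψ 0 y = v) :
    ∃ c : ℝ, 0 < c ∧ ∀ᶠ w in 𝓝 (0 : E k), ∀ y : E (m + 1),
      (∀ v, inner ℝ (fderiv ℝ x 0 v + τ0 • fderiv ℝ ξ 0 v) y = 0) →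
      c * ‖y‖ ≤ ‖(innerSL ℝ y).comp ((fderiv ℝ ξ (ψ w)).comp (fderiv ℝ ψ w))‖ +
        |(inner ℝ y (ξ (ψ w)) : ℝ)| := by
  -- continuity at 0
  have hbm : ball (0 : E k) ρ ∈ 𝓝 (0 : E k) := isOpen_ball.mem_nhds (mem_ball_self hρ)
  have hψc : ContinuousAt ψ 0 := hψ.continuousOn.continuousAt hbm
  have hUm : U ∈ 𝓝 (ψ 0) := by rw [hψ0]; exact h.op.mem_nhds h0
  have hξc : ContinuousAt (fun w => ξ (ψ w)) 0 :=
    ContinuousAt.comp (g := ξ) (f := ψ) (h.cξ.continuousOn.continuousAt hUm) hψc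
  have hdξ : ContinuousAt (fun w => fderiv ℝ ξ (ψ w)) 0 :=
    ContinuousAt.comp (g := fderiv ℝ ξ) (f := ψ)
      ((h.cξ.continuousOn_fderiv_of_isOpen h.op (by simp)).continuousAt hUm) hψc
  have hdψ : ContinuousAt (fderiv ℝ ψ) 0 :=
    (hψ.continuousOn_fderiv_of_isOpen isOpen_ball (by simp)).continuousAt hbm
  have hT : ContinuousAt (fun w => (fderiv ℝ ξ (ψ w)).comp (fderiv ℝ ψ w)) 0 :=
    hdξ.clm_comp hdψ
  -- bound at 0
  let S : Submodule ℝ (E (m + 1)) :=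
    { carrier := {y | ∀ v, inner ℝ (fderiv ℝ x 0 v + τ0 • fderiv ℝ ξ 0 v) y = 0}
      add_mem' := by
        intro a b ha hb v
        rw [inner_add_right, ha v, hb v, add_zero]
      zero_mem' := fun v => inner_zero_right _
      smul_mem' := by
        intro c a ha v
        rw [real_inner_smul_right, ha v, mul_zero] }
  let L : S →ₗ[ℝ] ((E k →L[ℝ] ℝ) × ℝ) :=
    { toFun := fun y => ((innerSL ℝ (y : E (m + 1))).comp
        ((fderiv ℝ ξ (ψ 0)).comp (fderiv ℝ ψ 0)), (inner ℝ (y : E (m + 1)) (ξ (ψ 0)) : ℝ))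
      map_add' := by
        intro a b
        refine Prod.ext ?_ ?_
        · ext v
          simp
        · simp [inner_add_left]
      map_smul' := by
        intro c a
        refine Prod.ext ?_ ?_
        · ext v
          simp
        · simp [real_inner_smul_left] }
  have hker : LinearMap.ker L = ⊥ := by
    rw [LinearMap.ker_eq_bot']
    rintro ⟨y, hy⟩ hL
    have hL1 : (innerSL ℝ y).comp ((fderiv ℝ ξ (ψ 0)).comp (fderiv ℝ ψ 0)) = 0 :=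
      congrArg Prod.fst hL
    have hL2 : (inner ℝ y (ξ (ψ 0)) : ℝ) = 0 := congrArg Prod.snd hL
    rw [hψ0] at hL1 hL2
    have hy0 : y = 0 := by
      refine perp_all h h0 τ0 hy hL2 ?_
      intro v hv
      obtain ⟨z, rfl⟩ := hK v hv
      have h3 := congrArg (fun f : E k →L[ℝ] ℝ => f z) hL1
      simpa using h3
    exact Subtype.ext hy0
  obtain ⟨K, hKpos, hanti⟩ := L.exists_antilipschitzWith hker
  have hKp : (0 : ℝ) < (K : ℝ) := by exact_mod_cast hKpos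
  have hb0 : ∀ y : E (m + 1),
      (∀ v, inner ℝ (fderiv ℝ x 0 v + τ0 • fderiv ℝ ξ 0 v) y = 0) →
      (K : ℝ)⁻¹ * ‖y‖ ≤ ‖(innerSL ℝ y).comp ((fderiv ℝ ξ (ψ 0)).comp (fderiv ℝ ψ 0))‖ +
        |(inner ℝ y (ξ (ψ 0)) : ℝ)| := by
    intro y hy
    have h1 := hanti.le_mul_dist (⟨y, hy⟩ : S) 0
    rw [map_zero, dist_zero_right, dist_zero_right] at h1
    have h2 : ‖(⟨y, hy⟩ : S)‖ = ‖y‖ := rfl
    rw [h2] at h1
    have h3 : ‖L ⟨y, hy⟩‖ ≤ ‖(innerSL ℝ y).comp ((fderiv ℝ ξ (ψ 0)).comp (fderiv ℝ ψ 0))‖ +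
        |(inner ℝ y (ξ (ψ 0)) : ℝ)| := by
      rw [Prod.norm_def]
      refine max_le ?_ ?_
      · exact le_add_of_nonneg_right (abs_nonneg _)
      · exact le_add_of_nonneg_left (norm_nonneg _)
    rw [inv_mul_le_iff₀ hKp]
    exact h1.trans (mul_le_mul_of_nonneg_left h3 hKp.le)
  refine ⟨(K : ℝ)⁻¹ / 2, by positivity, ?_⟩
  have hlim : Tendsto (fun w : E k => ‖(fderiv ℝ ξ (ψ w)).comp (fderiv ℝ ψ w) -
      (fderiv ℝ ξ (ψ 0)).comp (fderiv ℝ ψ 0)‖ + ‖ξ (ψ w) - ξ (ψ 0)‖) (𝓝 0) (𝓝 0) := by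
    have e1 : ContinuousAt (fun w : E k => ‖(fderiv ℝ ξ (ψ w)).comp (fderiv ℝ ψ w) -
        (fderiv ℝ ξ (ψ 0)).comp (fderiv ℝ ψ 0)‖) 0 := (hT.sub continuousAt_const).norm
    have e2 : ContinuousAt (fun w : E k => ‖ξ (ψ w) - ξ (ψ 0)‖) 0 :=
      (hξc.sub continuousAt_const).norm
    have e3 := e1.tendsto.add e2.tendsto
    simpa only [sub_self, norm_zero, add_zero] using e3
  have hKi : (0 : ℝ) < (K : ℝ)⁻¹ / 2 := by positivity
  filter_upwards [hlim.eventually (gt_mem_nhds hKi)] with w hw y hy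
  have h1 := hb0 y hy
  have h2 : ‖(innerSL ℝ y).comp ((fderiv ℝ ξ (ψ 0)).comp (fderiv ℝ ψ 0))‖ ≤
      ‖(innerSL ℝ y).comp ((fderiv ℝ ξ (ψ w)).comp (fderiv ℝ ψ w))‖ +
      ‖y‖ * ‖(fderiv ℝ ξ (ψ w)).comp (fderiv ℝ ψ w) -
      (fderiv ℝ ξ (ψ 0)).comp (fderiv ℝ ψ 0)‖ := by
    have e1 : (innerSL ℝ y).comp ((fderiv ℝ ξ (ψ 0)).comp (fderiv ℝ ψ 0)) =
        (innerSL ℝ y).comp ((fderiv ℝ ξ (ψ w)).comp (fderiv ℝ ψ w)) -
        (innerSL ℝ y).comp ((fderiv ℝ ξ (ψ w)).comp (fderiv ℝ ψ w) -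
          (fderiv ℝ ξ (ψ 0)).comp (fderiv ℝ ψ 0)) := by
      rw [ContinuousLinearMap.comp_sub]
      abel
    rw [e1]
    refine (norm_sub_le _ _).trans (add_le_add le_rfl ?_)
    refine (ContinuousLinearMap.opNorm_comp_le _ _).trans ?_
    rw [innerSL_apply_norm]
  have h3 : |(inner ℝ y (ξ (ψ 0)) : ℝ)| ≤ |(inner ℝ y (ξ (ψ w)) : ℝ)| +
      ‖y‖ * ‖ξ (ψ w) - ξ (ψ 0)‖ := by
    have e1 : (inner ℝ y (ξ (ψ 0)) : ℝ) = inner ℝ y (ξ (ψ w)) - inner ℝ y (ξ (ψ w) - ξ (ψ 0)) := by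
      rw [inner_sub_right]
      ring
    rw [e1]
    refine (abs_sub _ _).trans (add_le_add le_rfl ?_)
    exact abs_real_inner_le_norm _ _
  have h4 : ‖y‖ * (‖(fderiv ℝ ξ (ψ w)).comp (fderiv ℝ ψ w) -
      (fderiv ℝ ξ (ψ 0)).comp (fderiv ℝ ψ 0)‖ + ‖ξ (ψ w) - ξ (ψ 0)‖) ≤
      ‖y‖ * ((K : ℝ)⁻¹ / 2) := mul_le_mul_of_nonneg_left hw.le (norm_nonneg y)
  have h5 : (K : ℝ)⁻¹ / 2 * ‖y‖ = (K : ℝ)⁻¹ * ‖y‖ - ‖y‖ * ((K : ℝ)⁻¹ / 2) := by ring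
  rw [h5]
  rw [mul_add] at h4
  linarith

end MPf7aa
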