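import Pool.Agent.Lib.MP_f7aa1b_gt.K1
import Pool.Agent.Lib.MP_f7aa1b_gt.K3

/-!
Row K4. Lemma 5 of the paper. Let z u = x u + tau0 xi u - (x 0 + tau0 xi 0), smooth on U, z 0 = 0,
fderiv z u = dx + tau0 dxi on U. pi := orthogonal projection of E (m+1) onto R = range dz(0) (a continuous linear
map), g := pi o z. fderiv g 0 = pi o dz(0) = dz(0), so g u in R = range dg(0): implicit_chart gives k, rho, psi.
y := z (psi w) is orthogonal to R (pi y = 0), for w in ball 0 rho. phi w := <z (psi w), xi (psi w)>.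
fderiv phi w v = <dz dpsi v, xi> + <z, dxi dpsi v> = <z (psi w), dxi(psi w) dpsi(w) v> (perp, leg_unit), i.e.
fderiv phi w = (innerSL y).comp (dxi.comp dpsi). lower_near (K = ker dz(0) = ker dg(0), field ker at w = 0):
c |y| <= |dphi w| + |phi w|. From the inequality |phi| <= C |y|^2 (near 0), so
|phi| <= (2C/c^2)(|dphi|^2 + phi^2), and |phi| small gives |phi| <= (4C/c^2)|dphi|^2.
Also |y| = |z (psi w)| <= C'|w|^2 near 0: z o psi is C^2, vanishes at 0 and its derivative dz(0) dpsi(0) vanishes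
(g o psi = 0 gives dg(0) dpsi(0) = 0 and dg(0) = dz(0)); so |phi| <= C C'^2 |w|^4 <= C''|w|^3 for |w| <= 1.
calc_zero: phi = 0 on ball 0 rho'. Then dphi = 0 there and c|y| <= 0: z (psi w) = 0 on the smaller ball.
ZChart for z on the smaller ball (shrink): maps; ker: dz v = 0 implies dg v = 0; homeo: for V the O from g works:
z u = 0 implies g u = 0, and g u = 0, u in O implies u in psi '' V so z u = 0.
-/

open Set Filter Topology Metric MeasureTheory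
open scoped ContDiff

namespace MPf7aa

/-- a `C^2` map that vanishes at `0` to second order is `O(|w|^2)` -/
theorem K4_quad {F G : Type*} [NormedAddCommGroup F] [NormedSpace ℝ F] [NormedAddCommGroup G]
    [NormedSpace ℝ G] {f : F → G} (hf : ContDiffAt ℝ 2 f 0) (h0 : f 0 = 0)
    (h1 : fderiv ℝ f 0 = 0) : ∃ C : ℝ, 0 < C ∧ ∀ᶠ w in 𝓝 (0 : F), ‖f w‖ ≤ C * ‖w‖ ^ 2 := by
  have hd : DifferentiableAt ℝ (fderiv ℝ f) 0 :=
    (hf.fderiv_right (m := 1) (by norm_num)).differentiableAt (by norm_num)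
  obtain ⟨C, hC, hb⟩ := hd.hasFDerivAt.isBigO_sub.exists_pos
  rw [Asymptotics.isBigOWith_iff] at hb
  have hdiff : ∀ᶠ w in 𝓝 (0 : F), DifferentiableAt ℝ f w := by
    have h2 := hf.eventually (by simp)
    filter_upwards [h2] with w hw
    exact hw.differentiableAt (by norm_num)
  obtain ⟨r, hr, hball⟩ := Metric.eventually_nhds_iff_ball.1 (hb.and hdiff)
  refine ⟨C, hC, ?_⟩
  filter_upwards [Metric.ball_mem_nhds (0 : F) hr] with w hw
  have hw' : ‖w‖ < r := by simpa using hw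
  have hseg : ∀ u ∈ Metric.closedBall (0 : F) ‖w‖, ‖fderiv ℝ f u‖ ≤ C * ‖w‖ := by
    intro u hu
    have hu' : ‖u‖ ≤ ‖w‖ := by simpa using hu
    have h3 := (hball u (by simpa using lt_of_le_of_lt hu' hw')).1
    rw [h1, sub_zero, sub_zero] at h3
    exact h3.trans (by gcongr)
  have hdf : ∀ u ∈ Metric.closedBall (0 : F) ‖w‖, DifferentiableAt ℝ f u := by
    intro u hu
    have hu' : ‖u‖ ≤ ‖w‖ := by simpa using hu
    exact (hball u (by simpa using lt_of_le_of_lt hu' hw')).2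
  have h4 := (convex_closedBall (0 : F) ‖w‖).norm_image_sub_le_of_norm_fderiv_le hdf hseg
    (by simp : (0 : F) ∈ Metric.closedBall (0 : F) ‖w‖)
    (by simp : w ∈ Metric.closedBall (0 : F) ‖w‖)
  rw [h0, sub_zero, sub_zero] at h4
  calc ‖f w‖ ≤ C * ‖w‖ * ‖w‖ := h4
    _ = C * ‖w‖ ^ 2 := by ring

/-- elementary inequality -/
theorem K4_alg {c C a d y : ℝ} (hc : 0 < c) (hC : 0 < C) (ha : 0 ≤ a) (hy : 0 ≤ y)
    (h1 : a ≤ C * y ^ 2) (h2 : c * y ≤ d + a) (h3 : 4 * C * a ≤ c ^ 2) :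
    a ≤ 4 * C / c ^ 2 * d ^ 2 := by
  have h4 : (c * y) ^ 2 ≤ (d + a) ^ 2 := by
    apply pow_le_pow_left₀ (by positivity) h2
  have h5 : (d + a) ^ 2 ≤ 2 * d ^ 2 + 2 * a ^ 2 := by nlinarith [sq_nonneg (d - a)]
  have h6 : c ^ 2 * a ≤ C * (2 * d ^ 2 + 2 * a ^ 2) := by
    calc c ^ 2 * a ≤ c ^ 2 * (C * y ^ 2) := by gcongr
      _ = C * (c * y) ^ 2 := by ring
      _ ≤ C * (2 * d ^ 2 + 2 * a ^ 2) := by gcongr; exact h4.trans h5
  have h7 : 2 * (C * (2 * a ^ 2)) ≤ c ^ 2 * a := by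
    calc 2 * (C * (2 * a ^ 2)) = (4 * C * a) * a := by ring
      _ ≤ c ^ 2 * a := by gcongr
  have hc2 : 0 < c ^ 2 := by positivity
  rw [div_mul_eq_mul_div, le_div_iff₀ hc2]
  nlinarith

theorem zchart_of_ineq {m : ℕ} {U : Set (E m)} {x ξ : E m → E (m + 1)} (h : Leg U x ξ)
    (h0 : (0 : E m) ∈ U) (τ0 : ℝ) {C : ℝ} (hC : 0 < C)
    (hineq : ∀ᶠ u in 𝓝 (0 : E m),
      |(inner ℝ (x u + τ0 • ξ u - (x 0 + τ0 • ξ 0)) (ξ u) : ℝ)| ≤
        C * ‖x u + τ0 • ξ u - (x 0 + τ0 • ξ 0)‖ ^ 2) :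
    ∃ (k : ℕ) (ρ : ℝ) (ψ : E k → E m),
      ZChart U (fun u => x u + τ0 • ξ u - (x 0 + τ0 • ξ 0)) k ρ ψ := by
  -- differentiability of x, ξ, z on U
  have hxd : ∀ u ∈ U, DifferentiableAt ℝ x u := fun u hu =>
    ((h.cx.contDiffAt (h.op.mem_nhds hu)).differentiableAt (by simp))
  have hξd : ∀ u ∈ U, DifferentiableAt ℝ ξ u := fun u hu =>
    ((h.cξ.contDiffAt (h.op.mem_nhds hu)).differentiableAt (by simp))
  set z : E m → E (m + 1) := fun u => x u + τ0 • ξ u - (x 0 + τ0 • ξ 0) with hz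
  have hzs : ContDiffOn ℝ ∞ z U := (h.cx.add (h.cξ.const_smul τ0)).sub contDiffOn_const
  have hz0 : z 0 = 0 := by simp [hz]
  have hzd : ∀ u ∈ U, DifferentiableAt ℝ z u := fun u hu =>
    ((hzs.contDiffAt (h.op.mem_nhds hu)).differentiableAt (by simp))
  have hzf : ∀ u ∈ U, ∀ v, fderiv ℝ z u v = fderiv ℝ x u v + τ0 • fderiv ℝ ξ u v := by
    intro u hu v
    have h1 : HasFDerivAt z (fderiv ℝ x u + τ0 • fderiv ℝ ξ u) u :=
      ((hxd u hu).hasFDerivAt.add ((hξd u hu).hasFDerivAt.const_smul τ0)).sub_const _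
    rw [h1.fderiv]
    simp
  -- the projection
  set R : Submodule ℝ (E (m + 1)) := LinearMap.range (fderiv ℝ z 0).toLinearMap with hR
  set π : E (m + 1) →L[ℝ] E (m + 1) := R.starProjection with hπ
  set g : E m → E (m + 1) := fun u => π (z u) with hg
  have hgs : ContDiffOn ℝ ∞ g U := π.contDiff.comp_contDiffOn hzs
  have hg0 : g 0 = 0 := by simp [hg, hz0]
  have hgf : ∀ u ∈ U, ∀ v, fderiv ℝ g u v = π (fderiv ℝ z u v) := by
    intro u hu v
    have h1 : HasFDerivAt g (π.comp (fderiv ℝ z u)) u :=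
      π.hasFDerivAt.comp u (hzd u hu).hasFDerivAt
    rw [h1.fderiv]
    rfl
  have hgf0 : ∀ v, fderiv ℝ g 0 v = fderiv ℝ z 0 v := by
    intro v
    rw [hgf 0 h0 v]
    exact Submodule.starProjection_eq_self_iff.2 ⟨v, rfl⟩
  have hgr : ∀ u ∈ U, ∃ v : E m, fderiv ℝ g 0 v = g u := by
    intro u _
    have h1 : g u ∈ R := Submodule.starProjection_apply_mem R (z u)
    obtain ⟨v, hv⟩ := h1
    exact ⟨v, by rw [hgf0 v]; exact hv⟩
  obtain ⟨k, ρ, ψ, hZ⟩ := implicit_chart h.op h0 hgs hg0 hgr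
  have hψd : ∀ w ∈ ball (0 : E k) ρ, DifferentiableAt ℝ ψ w := fun w hw =>
    ((hZ.cψ.contDiffAt (isOpen_ball.mem_nhds hw)).differentiableAt (by simp))
  have hmem0 : (0 : E k) ∈ ball (0 : E k) ρ := mem_ball_self hZ.hρ
  have horth : ∀ w ∈ ball (0 : E k) ρ, ∀ v, inner ℝ (fderiv ℝ z 0 v) (z (ψ w)) = 0 := by
    intro w hw v
    have h1 : π (z (ψ w)) = 0 := (hZ.maps w hw).2
    have h2 : z (ψ w) ∈ Rᗮ := (Submodule.starProjection_apply_eq_zero_iff R).1 h1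
    exact (Submodule.mem_orthogonal _ _).1 h2 _ ⟨v, rfl⟩
  -- the function φ
  set φ : E k → ℝ := fun w => inner ℝ (z (ψ w)) (ξ (ψ w)) with hφ
  have hzψ : ∀ w ∈ ball (0 : E k) ρ,
      HasFDerivAt (fun w => z (ψ w)) ((fderiv ℝ z (ψ w)).comp (fderiv ℝ ψ w)) w := fun w hw =>
    (hzd _ (hZ.maps w hw).1).hasFDerivAt.comp w (hψd w hw).hasFDerivAt
  have hξψ : ∀ w ∈ ball (0 : E k) ρ,
      HasFDerivAt (fun w => ξ (ψ w)) ((fderiv ℝ ξ (ψ w)).comp (fderiv ℝ ψ w)) w := fun w hw =>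
    (hξd _ (hZ.maps w hw).1).hasFDerivAt.comp w (hψd w hw).hasFDerivAt
  have hφd : ∀ w ∈ ball (0 : E k) ρ, HasFDerivAt φ
      ((innerSL ℝ (z (ψ w))).comp ((fderiv ℝ ξ (ψ w)).comp (fderiv ℝ ψ w))) w := by
    intro w hw
    have h1 := (hzψ w hw).inner ℝ (hξψ w hw)
    refine h1.congr_fderiv ?_
    ext v
    have hwU := (hZ.maps w hw).1
    have h2 : inner ℝ (fderiv ℝ z (ψ w) (fderiv ℝ ψ w v)) (ξ (ψ w)) = 0 := by
      rw [hzf _ hwU, inner_add_left, inner_smul_left, h.perp _ hwU, leg_unit h hwU]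
      simp
    simp [fderivInnerCLM_apply, h2]
  -- the lower bound
  have hKc : ∀ v, fderiv ℝ x 0 v + τ0 • fderiv ℝ ξ 0 v = 0 → ∃ y : E k, fderiv ℝ ψ 0 y = v := by
    intro v hv
    apply hZ.ker 0 hmem0 v
    rw [hZ.ψ0, hgf0, hzf 0 h0, hv]
  obtain ⟨c, hc, hlow⟩ := lower_near h h0 τ0 hZ.hρ hZ.ψ0 hZ.cψ hKc
  have hψc : Tendsto ψ (𝓝 0) (𝓝 0) := by
    have := (hψd 0 hmem0).continuousAt.tendsto
    rwa [hZ.ψ0] at this
  have hineq' := hψc.eventually hineq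
  -- φ is small near 0
  have hφ0 : φ 0 = 0 := by simp [hφ, hZ.ψ0, hz0]
  have hφc : ∀ᶠ w in 𝓝 (0 : E k), 4 * C * |φ w| ≤ c ^ 2 := by
    have h1 : Tendsto (fun w => 4 * C * |φ w|) (𝓝 0) (𝓝 (4 * C * |φ 0|)) :=
      ((hφd 0 hmem0).continuousAt.tendsto.abs).const_mul _
    rw [hφ0, abs_zero, mul_zero] at h1
    exact (h1.eventually (gt_mem_nhds (show (0 : ℝ) < c ^ 2 by positivity))).mono
      (fun _ h => h.le)
  -- quadratic bound of z ∘ ψ
  have hzψ2 : ContDiffAt ℝ 2 (fun w => z (ψ w)) 0 := by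
    have h1 : ContDiffAt ℝ ∞ ψ 0 := hZ.cψ.contDiffAt (isOpen_ball.mem_nhds hmem0)
    have h2 : ContDiffAt ℝ ∞ z (ψ 0) := by
      rw [hZ.ψ0]
      exact hzs.contDiffAt (h.op.mem_nhds h0)
    have h3 : ContDiffAt ℝ ∞ (fun w => z (ψ w)) 0 := h2.comp 0 h1
    exact h3.of_le (WithTop.coe_le_coe.2 (le_top : (2 : ℕ∞) ≤ ⊤))
  have hder0 : fderiv ℝ (fun w => z (ψ w)) 0 = 0 := by
    rw [(hzψ 0 hmem0).fderiv]
    ext1 v
    have h1 : HasFDerivAt (fun w => g (ψ w)) ((fderiv ℝ g (ψ 0)).comp (fderiv ℝ ψ 0)) 0 := by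
      have : DifferentiableAt ℝ g (ψ 0) := by
        rw [hZ.ψ0]
        exact (hgs.contDiffAt (h.op.mem_nhds h0)).differentiableAt (by simp)
      exact this.hasFDerivAt.comp 0 (hψd 0 hmem0).hasFDerivAt
    have h2 : HasFDerivAt (fun w => g (ψ w)) (0 : E k →L[ℝ] E (m + 1)) 0 := by
      refine (hasFDerivAt_const (0 : E (m + 1)) (0 : E k)).congr_of_eventuallyEq ?_
      filter_upwards [isOpen_ball.mem_nhds hmem0] with w hw
      exact (hZ.maps w hw).2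
    have h3 := congrArg (fun L => L v) (h1.unique h2)
    simp only [ContinuousLinearMap.comp_apply, _root_.zero_apply] at h3 ⊢
    rw [hZ.ψ0] at h3 ⊢
    rw [← hgf0]
    exact h3
  obtain ⟨C', hC', hquad⟩ := K4_quad hzψ2 (by simp [hZ.ψ0, hz0]) hder0
  -- all the eventual statements on one ball
  obtain ⟨r, hr, hball⟩ := Metric.eventually_nhds_iff_ball.1
    ((hlow.and hineq').and (hφc.and hquad))
  set ρ1 := min (min r 1) ρ with hρ1
  have hρ1p : 0 < ρ1 := lt_min (lt_min hr one_pos) hZ.hρ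
  have hin : ∀ w ∈ ball (0 : E k) ρ1, w ∈ ball (0 : E k) r := fun w hw =>
    ball_subset_ball ((min_le_left _ _).trans (min_le_left _ _)) hw
  have hlt1 : ∀ w ∈ ball (0 : E k) ρ1, ‖w‖ ≤ 1 := by
    intro w hw
    have : ‖w‖ < ρ1 := by simpa using hw
    exact (this.trans_le ((min_le_left _ _).trans (min_le_right _ _))).le
  have hρin : ∀ w ∈ ball (0 : E k) ρ1, w ∈ ball (0 : E k) ρ := fun w hw =>
    ball_subset_ball (min_le_right _ _) hw
  have hlow' : ∀ w ∈ ball (0 : E k) ρ1, c * ‖z (ψ w)‖ ≤ ‖fderiv ℝ φ w‖ + |φ w| := by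
    intro w hw
    rw [(hφd w (hρin w hw)).fderiv]
    refine (hball w (hin w hw)).1.1 (z (ψ w)) ?_
    intro v
    rw [← hzf 0 h0]
    exact horth w (hρin w hw) v
  set C1 := 4 * C / c ^ 2 + C * C' ^ 2 with hC1
  have hA : (0 : ℝ) < 4 * C / c ^ 2 := by positivity
  have hB : (0 : ℝ) < C * C' ^ 2 := by positivity
  have hC1p : 0 < C1 := add_pos hA hB
  have hcz := calc_zero (φ := φ) hρ1p hC1p
    (fun w hw => (hφd w (hρin w hw)).differentiableAt) ?_ ?_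
  · obtain ⟨ρ', hρ', hzero⟩ := hcz
    set ρ2 := min ρ' ρ1 with hρ2
    have hρ2p : 0 < ρ2 := lt_min hρ' hρ1p
    have hin2 : ∀ w ∈ ball (0 : E k) ρ2, w ∈ ball (0 : E k) ρ1 := fun w hw =>
      ball_subset_ball (min_le_right _ _) hw
    have hφz : ∀ w ∈ ball (0 : E k) ρ2, φ w = 0 := fun w hw =>
      hzero w (ball_subset_ball (min_le_left _ _) hw)
    have hzz : ∀ w ∈ ball (0 : E k) ρ2, z (ψ w) = 0 := by
      intro w hw
      have h1 : fderiv ℝ φ w = 0 := by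
        have h2 : φ =ᶠ[𝓝 w] fun _ => (0 : ℝ) := by
          filter_upwards [isOpen_ball.mem_nhds hw] with v hv
          exact hφz v hv
        rw [h2.fderiv_eq]
        simp
      have h3 := hlow' w (hin2 w hw)
      rw [h1, hφz w hw, norm_zero, abs_zero, add_zero] at h3
      have h4 : ‖z (ψ w)‖ ≤ 0 := by
        by_contra h5
        push Not at h5
        have : 0 < c * ‖z (ψ w)‖ := mul_pos hc h5
        linarith
      exact norm_le_zero_iff.1 h4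
    have hρ2ρ : ρ2 ≤ ρ := (min_le_right _ _).trans (min_le_right _ _)
    have hS := hZ.shrink hρ2p hρ2ρ
    refine ⟨k, ρ2, ψ, hS.hρ, hS.ψ0, hS.cψ, hS.imm, hS.inj, ?_, ?_, ?_⟩
    · intro w hw
      exact ⟨(hS.maps w hw).1, hzz w hw⟩
    · intro w hw v hv
      apply hS.ker w hw v
      rw [hgf _ (hS.maps w hw).1]
      have h1 : fderiv ℝ z (ψ w) v = 0 := hv
      rw [h1, map_zero]
    · intro V hV hVo
      obtain ⟨O, hO, hOU, heq⟩ := hS.homeo V hV hVo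
      refine ⟨O, hO, hOU, ?_⟩
      apply Subset.antisymm
      · rintro u ⟨w, hw, rfl⟩
        have h1 : ψ w ∈ {u | u ∈ O ∧ g u = 0} := by
          rw [← heq]
          exact ⟨w, hw, rfl⟩
        exact ⟨h1.1, hzz w (hV hw)⟩
      · rintro u ⟨hu, hzu⟩
        rw [heq]
        refine ⟨hu, ?_⟩
        have h1 : z u = 0 := hzu
        simp only [hg, h1, map_zero]
  · intro w hw
    have hb := hball w (hin w hw)
    have h1 : |φ w| ≤ 4 * C / c ^ 2 * ‖fderiv ℝ φ w‖ ^ 2 :=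
      K4_alg hc hC (abs_nonneg _) (norm_nonneg (z (ψ w))) hb.1.2 (hlow' w hw) hb.2.1
    refine h1.trans ?_
    gcongr
    rw [hC1]
    linarith
  · intro w hw
    have hb := hball w (hin w hw)
    have h1 : |φ w| ≤ C * ‖z (ψ w)‖ ^ 2 := hb.1.2
    have h2 : ‖z (ψ w)‖ ≤ C' * ‖w‖ ^ 2 := hb.2.2
    have h3 : ‖w‖ ^ 4 ≤ ‖w‖ ^ 3 := pow_le_pow_of_le_one (norm_nonneg w) (hlt1 w hw) (by norm_num)
    calc |φ w| ≤ C * ‖z (ψ w)‖ ^ 2 := h1
      _ ≤ C * (C' * ‖w‖ ^ 2) ^ 2 := by gcongr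
      _ = C * C' ^ 2 * ‖w‖ ^ 4 := by ring
      _ ≤ C * C' ^ 2 * ‖w‖ ^ 3 := by gcongr
      _ ≤ C1 * ‖w‖ ^ 3 := by
        gcongr
        rw [hC1]
        linarith

end MPf7aa
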