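import Pool.Agent.Lib.MP_f7aa1b_gt.F4d
import Pool.Agent.Lib.MP_f7aa1b_gt.K4
import Pool.Agent.Lib.MP_f7aa1b_gt.D5

/-!
Row F5. Curvature surface through b0 for a nonzero principal curvature (M Dupin, chart b of UNB M at b0).
Proof. x = (b .).1, xi = (b .).2, tau0 = 1/kap0 != 0. leg_of_chart, dstar_of_dupin, legineq (D5), zchart_of_ineq (K4):
k, rho, psi. IsPrinc and princ_iff: v0 with dxi v0 + kap0 dx v0 = 0, fderiv b 0 v0 != 0, so v0 != 0 and
dx v0 + tau0 dxi v0 = 0. Field ker at w = 0: v0 in range (fderiv psi 0), so k > 0. hker for kf := constant kap0: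
dxi v + kap0 dx v = 0 iff dz(psi w) v = 0; (->) field ker; (<-) z o psi = 0 on the ball, differentiate.
surface_of_param; b0 = b (psi 0).
-/

open Set Filter Topology Metric MeasureTheory
open scoped ContDiff

namespace MPf7aa

theorem surface_nonzero {m : ℕ} {M : Set (E (m + 1))} (hD : IsDupin M)
    {b0 : E (m + 1) × E (m + 1)} {U : Set (E m)} {b : E m → E (m + 1) × E (m + 1)}
    (h : IsChart m (UNB M) b0 U b) {κ0 : ℝ} (hκ : κ0 ≠ 0) (hp : IsPrinc M κ0 b0) :
    ∃ (S : Set (E (m + 1) × E (m + 1))) (κ : E (m + 1) × E (m + 1) → ℝ),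
      IsCurvSurface M S κ ∧ b0 ∈ S ∧ κ b0 = κ0 := by
  have hleg := leg_of_chart h
  have h0 : (0 : E m) ∈ U := h.zero
  have hDS := dstar_of_dupin hD h
  have hτ : κ0⁻¹ ≠ 0 := inv_ne_zero hκ
  obtain ⟨C, hC, hineq⟩ := legineq hleg hDS h0 hτ
  obtain ⟨k, ρ, ψ, hz⟩ := zchart_of_ineq hleg h0 κ0⁻¹ hC hineq
  -- equivalence of the two forms of the equation
  have heq : ∀ (u v : E m), (fderiv ℝ (fun u => (b u).1) u v + κ0⁻¹ • fderiv ℝ (fun u => (b u).2) u v = 0) ↔
      fderiv ℝ (fun u => (b u).2) u v + κ0 • fderiv ℝ (fun u => (b u).1) u v = 0 := by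
    intro u v
    have e : fderiv ℝ (fun u => (b u).2) u v + κ0 • fderiv ℝ (fun u => (b u).1) u v =
        κ0 • (fderiv ℝ (fun u => (b u).1) u v + κ0⁻¹ • fderiv ℝ (fun u => (b u).2) u v) := by
      rw [smul_add, smul_smul, mul_inv_cancel₀ hκ, one_smul]
      exact add_comm _ _
    rw [e, smul_eq_zero]
    simp [hκ]
  have hder : ∀ u ∈ U, HasFDerivAt
      (fun u => (b u).1 + κ0⁻¹ • (b u).2 - ((b 0).1 + κ0⁻¹ • (b 0).2))
      (fderiv ℝ (fun u => (b u).1) u + κ0⁻¹ • fderiv ℝ (fun u => (b u).2) u) u := by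
    intro u hu
    have h1 : HasFDerivAt (fun u => (b u).1) (fderiv ℝ (fun u => (b u).1) u) u :=
      ((hleg.cx.contDiffAt (h.op.mem_nhds hu)).differentiableAt (by simp)).hasFDerivAt
    have h2 : HasFDerivAt (fun u => (b u).2) (fderiv ℝ (fun u => (b u).2) u) u :=
      ((hleg.cξ.contDiffAt (h.op.mem_nhds hu)).differentiableAt (by simp)).hasFDerivAt
    exact (h1.add (h2.const_smul κ0⁻¹)).sub_const _
  -- positive dimension
  obtain ⟨w0, hw0, hw0ne⟩ := hp
  have hb0 : b 0 = b0 := h.base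
  rw [← hb0] at hw0
  obtain ⟨v0, hv0, hv0'⟩ := (princ_iff h h0 κ0 w0).1 hw0
  have hv0ne : v0 ≠ 0 := by
    rintro rfl
    rw [map_zero] at hv0
    exact hw0ne hv0
  have hker0 : fderiv ℝ (fun u => (b u).1 + κ0⁻¹ • (b u).2 - ((b 0).1 + κ0⁻¹ • (b 0).2)) (ψ 0) v0 = 0 := by
    rw [hz.ψ0, (hder 0 h0).fderiv]
    exact (heq 0 v0).2 hv0'
  obtain ⟨y0, hy0⟩ := hz.ker 0 (mem_ball_self hz.hρ) v0 hker0
  have hk : 0 < k := by
    rcases Nat.eq_zero_or_pos k with hk | hk
    · exfalso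
      subst hk
      apply hv0ne
      rw [← hy0, Subsingleton.elim y0 0, map_zero]
    · exact hk
  obtain ⟨ρ1, hρ1, hρρ, hsurf⟩ := surface_of_param h hk hz.hρ hz.cψ (fun w hw => (hz.maps w hw).1)
    hz.imm (fun _ => κ0) (fun w hw v => by
      rw [← heq]
      constructor
      · intro hv
        apply hz.ker w hw v
        rw [(hder _ (hz.maps w hw).1).fderiv]
        exact hv
      · rintro ⟨y, rfl⟩
        have hψd : HasFDerivAt ψ (fderiv ℝ ψ w) w :=
          ((hz.cψ.contDiffAt (isOpen_ball.mem_nhds hw)).differentiableAt (by simp)).hasFDerivAt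
        have hcomp := (hder _ (hz.maps w hw).1).comp w hψd
        have hzero : HasFDerivAt
            ((fun u => (b u).1 + κ0⁻¹ • (b u).2 - ((b 0).1 + κ0⁻¹ • (b 0).2)) ∘ ψ)
            (0 : E k →L[ℝ] E (m + 1)) w := by
          apply (hasFDerivAt_const (0 : E (m + 1)) w).congr_of_eventuallyEq
          filter_upwards [isOpen_ball.mem_nhds hw] with w' hw'
          exact (hz.maps w' hw').2
        have huniq := hcomp.unique hzero
        exact DFunLike.congr_fun huniq y)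
  refine ⟨_, _, hsurf, ⟨0, mem_ball_self hρ1, ?_⟩, rfl⟩
  show b (ψ 0) = b0
  rw [hz.ψ0, hb0]

end MPf7aa
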