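import Pool.Agent.Lib.MP_f7aa1b_gt.D1

/-!
Row F6a. Inversion of a Legendrian pair. c0 = x 0 - xi 0, y u = x u - c0 (y 0 = xi 0 != 0),
x' = |y|^-2 y, xi' = xi - 2 <xi, y> |y|^-2 y. With R v = v - 2 <v, y> |y|^-2 y (a linear isometry, R y = -y):
dx' v = |y|^-2 R (dx v); dxi' v = R (dxi v - 2 <xi,y> |y|^-2 dx v) (uses <dx v, xi> = 0). So on
U' = {u in U | y u != 0}: Leg, and dxi' v + k' dx' v = R (dxi v + ((k' - 2<xi,y>)/|y|^2) dx v).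
|xi'| = 1 (xi' = R xi); <dx' v, xi'> = |y|^-2 <R dx v, R xi> = 0; injective.
-/

open Set Filter Topology Metric MeasureTheory
open scoped ContDiff

namespace MPf7aa

/-- inversion at x 0 - ξ 0 : first component -/
noncomputable def ix {m : ℕ} (x ξ : E m → E (m + 1)) (u : E m) : E (m + 1) :=
  (‖x u - (x 0 - ξ 0)‖ ^ 2)⁻¹ • (x u - (x 0 - ξ 0))

/-- inversion at x 0 - ξ 0 : second component -/
noncomputable def iξ {m : ℕ} (x ξ : E m → E (m + 1)) (u : E m) : E (m + 1) :=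
  ξ u - (2 * inner ℝ (ξ u) (x u - (x 0 - ξ 0)) * (‖x u - (x 0 - ξ 0)‖ ^ 2)⁻¹) •
    (x u - (x 0 - ξ 0))

/-- reflection in the direction y -/
noncomputable def F6aR {n : ℕ} (y w : E n) : E n := w - (2 * inner ℝ w y * (‖y‖ ^ 2)⁻¹) • y

theorem F6aR_add {n : ℕ} (y w w' : E n) : F6aR y (w + w') = F6aR y w + F6aR y w' := by
  unfold F6aR
  rw [inner_add_left, mul_add, add_mul, add_smul]
  abel

theorem F6aR_smul {n : ℕ} (y w : E n) (c : ℝ) : F6aR y (c • w) = c • F6aR y w := by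
  unfold F6aR
  rw [inner_smul_left, smul_sub, smul_smul]
  simp only [conj_trivial]
  congr 2
  ring

theorem F6aR_inner {n : ℕ} {y : E n} (hy : y ≠ 0) (w w' : E n) :
    (inner ℝ (F6aR y w) (F6aR y w') : ℝ) = inner ℝ w w' := by
  have ha : ‖y‖ ^ 2 ≠ 0 := pow_ne_zero 2 (norm_ne_zero_iff.2 hy)
  unfold F6aR
  simp only [inner_sub_left, inner_sub_right, inner_smul_left, inner_smul_right,
    real_inner_self_eq_norm_sq, conj_trivial, real_inner_comm y]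
  field_simp
  ring

theorem F6aR_norm {n : ℕ} {y : E n} (hy : y ≠ 0) (w : E n) : ‖F6aR y w‖ = ‖w‖ := by
  have h := F6aR_inner hy w w
  rw [real_inner_self_eq_norm_sq, real_inner_self_eq_norm_sq] at h
  exact (sq_eq_sq₀ (norm_nonneg _) (norm_nonneg _)).1 h

theorem F6aR_zero {n : ℕ} {y : E n} (hy : y ≠ 0) {w : E n} (h : F6aR y w = 0) : w = 0 := by
  have h1 := F6aR_norm hy w
  rw [h, norm_zero] at h1
  exact norm_eq_zero.1 h1.symm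

theorem F6a_deriv {m : ℕ} {U : Set (E m)} {x ξ : E m → E (m + 1)} (h : Leg U x ξ)
    {u : E m} (hu : u ∈ U) (hy : x u - (x 0 - ξ 0) ≠ 0) (v : E m) :
    fderiv ℝ (ix x ξ) u v = (‖x u - (x 0 - ξ 0)‖ ^ 2)⁻¹ • F6aR (x u - (x 0 - ξ 0)) (fderiv ℝ x u v) ∧
    fderiv ℝ (iξ x ξ) u v = F6aR (x u - (x 0 - ξ 0)) (fderiv ℝ ξ u v -
      (2 * inner ℝ (ξ u) (x u - (x 0 - ξ 0)) * (‖x u - (x 0 - ξ 0)‖ ^ 2)⁻¹) • fderiv ℝ x u v) := by
  have ha : ‖x u - (x 0 - ξ 0)‖ ^ 2 ≠ 0 := pow_ne_zero 2 (norm_ne_zero_iff.2 hy)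
  have hU : U ∈ 𝓝 u := h.op.mem_nhds hu
  have hdx : HasFDerivAt x (fderiv ℝ x u) u :=
    ((h.cx.contDiffAt hU).differentiableAt (by simp)).hasFDerivAt
  have hdξ : HasFDerivAt ξ (fderiv ℝ ξ u) u :=
    ((h.cξ.contDiffAt hU).differentiableAt (by simp)).hasFDerivAt
  have hdy : HasFDerivAt (fun u => x u - (x 0 - ξ 0)) (fderiv ℝ x u) u := hdx.sub_const _
  have hda := hdy.norm_sq
  have hdi : HasFDerivAt (fun u => (‖x u - (x 0 - ξ 0)‖ ^ 2)⁻¹) _ u :=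
    (hasDerivAt_inv ha).comp_hasFDerivAt u hda
  have hdix : HasFDerivAt (ix x ξ) _ u := hdi.smul hdy
  have hds := hdξ.inner ℝ hdy
  have hdc := (hds.const_mul 2).mul hdi
  have hdiξ : HasFDerivAt (iξ x ξ) _ u := hdξ.sub (hdc.smul hdy)
  have hp : (inner ℝ (ξ u) (fderiv ℝ x u v) : ℝ) = 0 := by
    rw [real_inner_comm]; exact h.perp u hu v
  have e1 : fderiv ℝ (ix x ξ) u v = (‖x u - (x 0 - ξ 0)‖ ^ 2)⁻¹ • fderiv ℝ x u v +
      (-((‖x u - (x 0 - ξ 0)‖ ^ 2) ^ 2)⁻¹ * (2 * inner ℝ (x u - (x 0 - ξ 0)) (fderiv ℝ x u v))) •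
        (x u - (x 0 - ξ 0)) := by
    rw [hdix.fderiv]
    simp only [_root_.add_apply, _root_.smul_apply, ContinuousLinearMap.smulRight_apply,
      ContinuousLinearMap.comp_apply, innerSL_apply_apply, smul_eq_mul, nsmul_eq_mul,
      Nat.cast_ofNat]
  have e2 : fderiv ℝ (iξ x ξ) u v = fderiv ℝ ξ u v -
      ((2 * inner ℝ (ξ u) (x u - (x 0 - ξ 0)) * (‖x u - (x 0 - ξ 0)‖ ^ 2)⁻¹) • fderiv ℝ x u v +
        ((2 * inner ℝ (ξ u) (x u - (x 0 - ξ 0))) *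
          (-((‖x u - (x 0 - ξ 0)‖ ^ 2) ^ 2)⁻¹ * (2 * inner ℝ (x u - (x 0 - ξ 0)) (fderiv ℝ x u v))) +
          (‖x u - (x 0 - ξ 0)‖ ^ 2)⁻¹ * (2 * (inner ℝ (ξ u) (fderiv ℝ x u v) +
            inner ℝ (fderiv ℝ ξ u v) (x u - (x 0 - ξ 0))))) • (x u - (x 0 - ξ 0))) := by
    rw [hdiξ.fderiv]
    simp only [_root_.sub_apply, _root_.add_apply, _root_.smul_apply,
      ContinuousLinearMap.smulRight_apply,
      ContinuousLinearMap.comp_apply, innerSL_apply_apply, smul_eq_mul, nsmul_eq_mul,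
      Nat.cast_ofNat, fderivInnerCLM_apply, ContinuousLinearMap.prod_apply, Pi.mul_apply]
  rw [e1, e2, hp]
  generalize x u - (x 0 - ξ 0) = y at *
  constructor
  · unfold F6aR
    rw [real_inner_comm y]
    module
  · unfold F6aR
    rw [inner_sub_left, inner_smul_left, real_inner_comm y (fderiv ℝ x u v)]
    simp only [conj_trivial]
    module

theorem leg_inversion {m : ℕ} {U : Set (E m)} {x ξ : E m → E (m + 1)} (h : Leg U x ξ)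
    (h0 : (0 : E m) ∈ U) :
    ∃ U' : Set (E m), U' ⊆ U ∧ (0 : E m) ∈ U' ∧ (∀ u ∈ U', x u - (x 0 - ξ 0) ≠ 0) ∧
      Leg U' (ix x ξ) (iξ x ξ) ∧
      ∀ u ∈ U', ∀ (k : ℝ) (v : E m),
        (fderiv ℝ (iξ x ξ) u v + k • fderiv ℝ (ix x ξ) u v = 0 ↔
          fderiv ℝ ξ u v + ((k - 2 * inner ℝ (ξ u) (x u - (x 0 - ξ 0))) *
            (‖x u - (x 0 - ξ 0)‖ ^ 2)⁻¹) • fderiv ℝ x u v = 0) := by
  have hcy : ContDiffOn ℝ ∞ (fun u => x u - (x 0 - ξ 0)) U := h.cx.sub contDiffOn_const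
  have hop : IsOpen (U ∩ (fun u => x u - (x 0 - ξ 0)) ⁻¹' {0}ᶜ) :=
    hcy.continuousOn.isOpen_inter_preimage h.op isOpen_compl_singleton
  have hsub : U ∩ (fun u => x u - (x 0 - ξ 0)) ⁻¹' {0}ᶜ ⊆ U := inter_subset_left
  have hy : ∀ u ∈ U ∩ (fun u => x u - (x 0 - ξ 0)) ⁻¹' {0}ᶜ, x u - (x 0 - ξ 0) ≠ 0 :=
    fun u hu => hu.2
  have hD : ∀ u ∈ U ∩ (fun u => x u - (x 0 - ξ 0)) ⁻¹' {0}ᶜ, ∀ v,
      fderiv ℝ (ix x ξ) u v =
        (‖x u - (x 0 - ξ 0)‖ ^ 2)⁻¹ • F6aR (x u - (x 0 - ξ 0)) (fderiv ℝ x u v) ∧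
      fderiv ℝ (iξ x ξ) u v = F6aR (x u - (x 0 - ξ 0)) (fderiv ℝ ξ u v -
        (2 * inner ℝ (ξ u) (x u - (x 0 - ξ 0)) * (‖x u - (x 0 - ξ 0)‖ ^ 2)⁻¹) •
          fderiv ℝ x u v) := fun u hu v => F6a_deriv h hu.1 (hy u hu) v
  have hya : ∀ u ∈ U ∩ (fun u => x u - (x 0 - ξ 0)) ⁻¹' {0}ᶜ, ‖x u - (x 0 - ξ 0)‖ ^ 2 ≠ 0 :=
    fun u hu => pow_ne_zero 2 (norm_ne_zero_iff.2 (hy u hu))
  have hiξ : ∀ u, iξ x ξ u = F6aR (x u - (x 0 - ξ 0)) (ξ u) := fun u => rfl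
  have hinv : ContDiffOn ℝ ∞ (fun u => (‖x u - (x 0 - ξ 0)‖ ^ 2)⁻¹)
      (U ∩ (fun u => x u - (x 0 - ξ 0)) ⁻¹' {0}ᶜ) :=
    ((hcy.mono hsub).norm_sq ℝ).inv hya
  refine ⟨U ∩ (fun u => x u - (x 0 - ξ 0)) ⁻¹' {0}ᶜ, hsub, ⟨h0, ?_⟩, hy, ?_, ?_⟩
  · simp only [mem_preimage, mem_compl_iff, mem_singleton_iff, sub_sub_cancel]
    intro h1
    have h2 := h.unit 0 h0
    rw [h1, norm_zero] at h2
    exact zero_ne_one h2
  · refine ⟨hop, hinv.smul (hcy.mono hsub), ?_, ?_, ?_, ?_⟩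
    · exact (h.cξ.mono hsub).sub (((contDiffOn_const.mul ((h.cξ.mono hsub).inner ℝ
        (hcy.mono hsub))).mul hinv).smul (hcy.mono hsub))
    · intro u hu
      rw [hiξ, F6aR_norm (hy u hu)]
      exact h.unit u hu.1
    · intro u hu v
      rw [(hD u hu v).1, hiξ, inner_smul_left, F6aR_inner (hy u hu), h.perp u hu.1 v, mul_zero]
    · intro u hu v h1 h2
      rw [(hD u hu v).1, smul_eq_zero] at h1
      have h3 := F6aR_zero (hy u hu) (h1.resolve_left (inv_ne_zero (hya u hu)))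
      rw [(hD u hu v).2] at h2
      have h4 := F6aR_zero (hy u hu) h2
      rw [h3, smul_zero, sub_zero] at h4
      exact h.inj u hu.1 v h3 h4
  · intro u hu k v
    have e : fderiv ℝ (iξ x ξ) u v + k • fderiv ℝ (ix x ξ) u v =
        F6aR (x u - (x 0 - ξ 0)) (fderiv ℝ ξ u v +
          ((k - 2 * inner ℝ (ξ u) (x u - (x 0 - ξ 0))) *
            (‖x u - (x 0 - ξ 0)‖ ^ 2)⁻¹) • fderiv ℝ x u v) := by
      rw [(hD u hu v).1, (hD u hu v).2, smul_smul, ← F6aR_smul, ← F6aR_add]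
      congr 1
      module
    rw [e]
    constructor
    · exact fun h1 => F6aR_zero (hy u hu) h1
    · intro h1
      rw [h1]
      unfold F6aR
      simp

end MPf7aa
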