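import Pool.Agent.Lib.MP_f7aa1b_gt.F6a

/-!
Row F6b. DStar for the inverted pair. Let u in U', k1 and e as in DStar for (x', xi'); kap := (k1 - 2<xi u,y u>)/|y u|^2;
DStar for (x, xi) at (u, kap, e) gives gam, k with k 0 = kap, k' 0 = 0. Put kk t := k t |y (gam t)|^2 +
2 <xi (gam t), y (gam t)>: kk 0 = k1; derivative at 0: kap 2 <y, dx e> + 2 <dxi e, y> + 2 <xi, dx e> =
2 <kap dx e + dxi e, y> = 0 (perp). For t near 0 gam t in U' and (kk t - 2<xi,y>)/|y|^2 = k t, so the kernel vector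
of (x, xi) for k t is one of (x', xi') for kk t (F6a).
-/

open Set Filter Topology Metric MeasureTheory
open scoped ContDiff

namespace MPf7aa

theorem dstar_inversion {m : ℕ} {U U' : Set (E m)} {x ξ : E m → E (m + 1)} (h : Leg U x ξ)
    (hD : DStar U x ξ) (hU' : U' ⊆ U) (hL : Leg U' (ix x ξ) (iξ x ξ))
    (hy : ∀ u ∈ U', x u - (x 0 - ξ 0) ≠ 0)
    (hk : ∀ u ∈ U', ∀ (k : ℝ) (v : E m),
        (fderiv ℝ (iξ x ξ) u v + k • fderiv ℝ (ix x ξ) u v = 0 ↔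
          fderiv ℝ ξ u v + ((k - 2 * inner ℝ (ξ u) (x u - (x 0 - ξ 0))) *
            (‖x u - (x 0 - ξ 0)‖ ^ 2)⁻¹) • fderiv ℝ x u v = 0)) :
    DStar U' (ix x ξ) (iξ x ξ) := by
  intro u hu κ1 e he hke hs
  have h1 := (hk u hu κ1 e).1 hke
  have h2 : ∀ v, fderiv ℝ ξ u v + ((κ1 - 2 * inner ℝ (ξ u) (x u - (x 0 - ξ 0))) *
      (‖x u - (x 0 - ξ 0)‖ ^ 2)⁻¹) • fderiv ℝ x u v = 0 → ∃ c : ℝ, v = c • e :=
    fun v hv => hs v ((hk u hu κ1 v).2 hv)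
  obtain ⟨γ, k, hγ0, hγ, hk0, hk1, hev⟩ := hD u (hU' hu) _ e he h1 h2
  have hya : ∀ w ∈ U', ‖x w - (x 0 - ξ 0)‖ ^ 2 ≠ 0 :=
    fun w hw => pow_ne_zero 2 (norm_ne_zero_iff.2 (hy w hw))
  have hU : U ∈ 𝓝 u := h.op.mem_nhds (hU' hu)
  have hdx : HasFDerivAt x (fderiv ℝ x u) (γ 0) := by
    rw [hγ0]; exact ((h.cx.contDiffAt hU).differentiableAt (by simp)).hasFDerivAt
  have hdξ : HasFDerivAt ξ (fderiv ℝ ξ u) (γ 0) := by
    rw [hγ0]; exact ((h.cξ.contDiffAt hU).differentiableAt (by simp)).hasFDerivAt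
  have hxt : HasDerivAt (fun t => x (γ t) - (x 0 - ξ 0)) (fderiv ℝ x u e) 0 :=
    (hdx.comp_hasDerivAt (0 : ℝ) hγ).sub_const _
  have hξt : HasDerivAt (fun t => ξ (γ t)) (fderiv ℝ ξ u e) 0 :=
    hdξ.comp_hasDerivAt (0 : ℝ) hγ
  refine ⟨γ, fun t => k t * ‖x (γ t) - (x 0 - ξ 0)‖ ^ 2 +
    2 * inner ℝ (ξ (γ t)) (x (γ t) - (x 0 - ξ 0)), hγ0, hγ, ?_, ?_, ?_⟩
  · simp only [hk0, hγ0]
    rw [mul_assoc, inv_mul_cancel₀ (hya u hu), mul_one, sub_add_cancel]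
  · have h3 := (hk1.mul hxt.norm_sq).add ((hξt.inner ℝ hxt).const_mul 2)
    have h4 : (inner ℝ (ξ u) (fderiv ℝ x u e) : ℝ) = 0 := by
      rw [real_inner_comm]; exact h.perp u (hU' hu) e
    refine h3.congr_deriv ?_
    rw [hγ0, hk0, h4]
    have h5 : (inner ℝ (fderiv ℝ ξ u e + ((κ1 - 2 * inner ℝ (ξ u) (x u - (x 0 - ξ 0))) *
      (‖x u - (x 0 - ξ 0)‖ ^ 2)⁻¹) • fderiv ℝ x u e) (x u - (x 0 - ξ 0)) : ℝ) = 0 := by
      rw [h1, inner_zero_left]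
    rw [inner_add_left, inner_smul_left] at h5
    simp only [conj_trivial] at h5
    rw [real_inner_comm (fderiv ℝ x u e)]
    linear_combination 2 * h5
  · have h6 : ∀ᶠ t in 𝓝 (0 : ℝ), γ t ∈ U' := by
      have h7 : U' ∈ 𝓝 (γ 0) := by rw [hγ0]; exact hL.op.mem_nhds hu
      exact hγ.continuousAt.eventually_mem h7
    filter_upwards [h6, hev] with t ht hv
    obtain ⟨v, hv0, hv1⟩ := hv
    refine ⟨v, hv0, (hk (γ t) ht _ v).2 ?_⟩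
    have h8 : (k t * ‖x (γ t) - (x 0 - ξ 0)‖ ^ 2 + 2 * inner ℝ (ξ (γ t)) (x (γ t) - (x 0 - ξ 0)) -
        2 * inner ℝ (ξ (γ t)) (x (γ t) - (x 0 - ξ 0))) * (‖x (γ t) - (x 0 - ξ 0)‖ ^ 2)⁻¹ = k t := by
      rw [add_sub_cancel_right, mul_assoc, mul_inv_cancel₀ (hya _ ht), mul_one]
    rw [h8]
    exact hv1

end MPf7aa
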