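import Pool.Agent.Lib.MP_f7aa1b_gt.F6b
import Pool.Agent.Lib.MP_f7aa1b_gt.F5

/-!
Row F6c. Curvature surface for kap0 = 0. Chart b, x = (b .).1, xi = (b .).2, c0 = x 0 - xi 0. leg_inversion,
dstar_inversion. k0' := 2 (kap0 = 0 at u = 0: y 0 = xi 0, 2<xi 0, y 0> = 2, so (2 - 2)/1 = 0), tau0' = 1/2.
legineq and zchart_of_ineq for (ix, ixi) on U': psi. From IsPrinc M 0 b0: v0 != 0 with dxi v0 = 0, so
dxi' v0 + 2 dx' v0 = 0, hence k > 0 as in F5. kf b := (2 - 2 <b.2, b.1 - c0>) |b.1 - c0|^-2; kf b0 = 0. hker: by the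
equivalence of leg_inversion with k = 2 and dz' = dx' + (1/2) dxi'. surface_of_param.
-/

open Set Filter Topology Metric MeasureTheory
open scoped ContDiff

namespace MPf7aa

theorem surface_zero {m : ℕ} {M : Set (E (m + 1))} (hD : IsDupin M)
    {b0 : E (m + 1) × E (m + 1)} {U : Set (E m)} {b : E m → E (m + 1) × E (m + 1)}
    (h : IsChart m (UNB M) b0 U b) (hp : IsPrinc M 0 b0) :
    ∃ (S : Set (E (m + 1) × E (m + 1))) (κ : E (m + 1) × E (m + 1) → ℝ),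
      IsCurvSurface M S κ ∧ b0 ∈ S ∧ κ b0 = 0 := by
  have hleg := leg_of_chart h
  have h0 : (0 : E m) ∈ U := h.zero
  have hDS := dstar_of_dupin hD h
  obtain ⟨U', hsub, h0', hy, hL', hk'⟩ := leg_inversion hleg h0
  have hDS' := dstar_inversion hleg hDS hsub hL' hy hk'
  obtain ⟨C, hC, hineq⟩ := legineq hL' hDS' h0' (τ0 := 1 / 2) (by norm_num)
  obtain ⟨k, ρ, ψ, hz⟩ := zchart_of_ineq hL' h0' (1 / 2) hC hineq
  -- notation
  set x : E m → E (m + 1) := fun u => (b u).1 with hx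
  set ξ : E m → E (m + 1) := fun u => (b u).2 with hξ
  -- the curvature function
  let κf : E (m + 1) × E (m + 1) → ℝ := fun c =>
    (2 - 2 * inner ℝ c.2 (c.1 - (x 0 - ξ 0))) * (‖c.1 - (x 0 - ξ 0)‖ ^ 2)⁻¹
  have hκ0 : κf (b 0) = 0 := by
    have h1 : (b 0).1 - (x 0 - ξ 0) = ξ 0 := sub_sub_cancel _ _
    have h2 : ‖ξ 0‖ = 1 := hleg.unit 0 h0
    have h3 : inner ℝ (b 0).2 ((b 0).1 - (x 0 - ξ 0)) = 1 := by
      rw [h1]
      show inner ℝ (ξ 0) (ξ 0) = 1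
      rw [real_inner_self_eq_norm_sq, h2]
      norm_num
    show (2 - 2 * inner ℝ (b 0).2 ((b 0).1 - (x 0 - ξ 0))) * _ = 0
    rw [h3]
    norm_num
  -- equivalence of the forms of the equation
  have heq : ∀ u ∈ U', ∀ v : E m,
      (fderiv ℝ (ix x ξ) u v + (1 / 2 : ℝ) • fderiv ℝ (iξ x ξ) u v = 0) ↔
      fderiv ℝ ξ u v + κf (b u) • fderiv ℝ x u v = 0 := by
    intro u hu v
    have e1 : fderiv ℝ (iξ x ξ) u v + (2 : ℝ) • fderiv ℝ (ix x ξ) u v =
        (2 : ℝ) • (fderiv ℝ (ix x ξ) u v + (1 / 2 : ℝ) • fderiv ℝ (iξ x ξ) u v) := by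
      rw [smul_add, smul_smul]
      norm_num
      exact add_comm _ _
    have e2 := hk' u hu 2 v
    rw [e1, smul_eq_zero] at e2
    have e3 : ((2 : ℝ) = 0 ∨ fderiv ℝ (ix x ξ) u v + (1 / 2 : ℝ) • fderiv ℝ (iξ x ξ) u v = 0) ↔
        fderiv ℝ (ix x ξ) u v + (1 / 2 : ℝ) • fderiv ℝ (iξ x ξ) u v = 0 := by norm_num
    rw [e3] at e2
    exact e2
  have hder : ∀ u ∈ U', HasFDerivAt
      (fun u => ix x ξ u + (1 / 2 : ℝ) • iξ x ξ u - (ix x ξ 0 + (1 / 2 : ℝ) • iξ x ξ 0))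
      (fderiv ℝ (ix x ξ) u + (1 / 2 : ℝ) • fderiv ℝ (iξ x ξ) u) u := by
    intro u hu
    have h1 : HasFDerivAt (ix x ξ) (fderiv ℝ (ix x ξ) u) u :=
      ((hL'.cx.contDiffAt (hL'.op.mem_nhds hu)).differentiableAt (by simp)).hasFDerivAt
    have h2 : HasFDerivAt (iξ x ξ) (fderiv ℝ (iξ x ξ) u) u :=
      ((hL'.cξ.contDiffAt (hL'.op.mem_nhds hu)).differentiableAt (by simp)).hasFDerivAt
    exact (h1.add (h2.const_smul (1 / 2 : ℝ))).sub_const _
  -- positive dimension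
  obtain ⟨w0, hw0, hw0ne⟩ := hp
  have hb0 : b 0 = b0 := h.base
  rw [← hb0] at hw0
  obtain ⟨v0, hv0, hv0'⟩ := (princ_iff h h0 0 w0).1 hw0
  have hv0ne : v0 ≠ 0 := by
    rintro rfl
    rw [map_zero] at hv0
    exact hw0ne hv0
  have hker0 : fderiv ℝ (fun u => ix x ξ u + (1 / 2 : ℝ) • iξ x ξ u -
      (ix x ξ 0 + (1 / 2 : ℝ) • iξ x ξ 0)) (ψ 0) v0 = 0 := by
    rw [hz.ψ0, (hder 0 h0').fderiv]
    apply (heq 0 h0' v0).2
    rw [hκ0]
    exact hv0'
  obtain ⟨y0, hy0⟩ := hz.ker 0 (mem_ball_self hz.hρ) v0 hker0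
  have hk : 0 < k := by
    rcases Nat.eq_zero_or_pos k with hk | hk
    · exfalso
      subst hk
      apply hv0ne
      rw [← hy0, Subsingleton.elim y0 0, map_zero]
    · exact hk
  obtain ⟨ρ1, hρ1, hρρ, hsurf⟩ := surface_of_param h hk hz.hρ hz.cψ
    (fun w hw => hsub (hz.maps w hw).1) hz.imm κf (fun w hw v => by
      rw [← heq _ (hz.maps w hw).1]
      constructor
      · intro hv
        apply hz.ker w hw v
        rw [(hder _ (hz.maps w hw).1).fderiv]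
        exact hv
      · rintro ⟨y, rfl⟩
        have hψd : HasFDerivAt ψ (fderiv ℝ ψ w) w :=
          ((hz.cψ.contDiffAt (isOpen_ball.mem_nhds hw)).differentiableAt (by simp)).hasFDerivAt
        have hcomp := (hder _ (hz.maps w hw).1).comp w hψd
        have hzero : HasFDerivAt
            ((fun u => ix x ξ u + (1 / 2 : ℝ) • iξ x ξ u -
              (ix x ξ 0 + (1 / 2 : ℝ) • iξ x ξ 0)) ∘ ψ)
            (0 : E k →L[ℝ] E (m + 1)) w := by
          apply (hasFDerivAt_const (0 : E (m + 1)) w).congr_of_eventuallyEq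
          filter_upwards [isOpen_ball.mem_nhds hw] with w' hw'
          exact (hz.maps w' hw').2
        have huniq := hcomp.unique hzero
        exact DFunLike.congr_fun huniq y)
  refine ⟨_, _, hsurf, ⟨0, mem_ball_self hρ1, ?_⟩, ?_⟩
  · show b (ψ 0) = b0
    rw [hz.ψ0, hb0]
  · rw [← hb0]
    exact hκ0

end MPf7aa
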