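import Pool.Agent.Lib.MP_f7aa1b_gt.F1b
import Pool.Agent.Lib.MP_f7aa1b_gt.T2

/-!
Row F7a. Critical point p = x0 of L_p: it is isolated and nondegenerate.
Proof. phi : U -> M chart at x0 (phi 0 = x0 = p), TanSet M (phi u) = range (fderiv phi u). If x = phi u is critical
then <dphi(u) u, p - phi u> = 0; phi u - p = dphi(u) u + O(|u|^2) near 0, so |dphi(u) u|^2 <= C |u|^2 |dphi(u) u|,
|dphi(u) u| <= C|u|^2, but |dphi(u) u| >= c |u|: u = 0 if |u| < c/C. Let V = small ball, phi '' V = M inter W.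
Then CritSet M p inter W = {x0}. IsSubmfd 0 {x0}: U = univ in E 0 (a point), constant map. TanSet {x0} x0 = {0}
(the curve is eventually constant). For every chart (U1, phi1) at x0: D^2 (|p - phi1|^2)(0)(a)(b) = 2 <dphi1 a, dphi1 b>
(p = phi1 0), so a in HessNull implies dphi1 a = 0, a = 0 (injective): image = {0}.
-/

open Set Filter Topology Metric MeasureTheory
open scoped ContDiff

namespace MPf7aa

theorem F7a_hess {n d : ℕ} {U : Set (E d)} {φ : E d → E n} (hU : IsOpen U)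
    (h0 : (0 : E d) ∈ U) (hφ : ContDiffOn ℝ ∞ φ U) (a b : E d) :
    fderiv ℝ (fderiv ℝ (fun u => ‖φ 0 - φ u‖ ^ 2)) 0 a b =
      2 * inner ℝ (fderiv ℝ φ 0 a) (fderiv ℝ φ 0 b) := by
  have hat : ∀ u ∈ U, ContDiffAt ℝ ∞ φ u := fun u hu => hφ.contDiffAt (hU.mem_nhds hu)
  have hd : ∀ u ∈ U, HasFDerivAt φ (fderiv ℝ φ u) u := fun u hu =>
    ((hat u hu).differentiableAt (by simp)).hasFDerivAt
  have hg : ContDiffAt ℝ ∞ (fun u => ‖φ 0 - φ u‖ ^ 2) 0 :=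
    (contDiffAt_const.sub (hat 0 h0)).norm_sq ℝ
  have hg' : DifferentiableAt ℝ (fderiv ℝ (fun u => ‖φ 0 - φ u‖ ^ 2)) 0 :=
    (hg.fderiv_right (m := 1) (by norm_cast)).differentiableAt (by simp)
  have hφ' : DifferentiableAt ℝ (fderiv ℝ φ) 0 :=
    ((hat 0 h0).fderiv_right (m := 1) (by norm_cast)).differentiableAt (by simp)
  have e1 : fderiv ℝ (fun u => fderiv ℝ (fun u => ‖φ 0 - φ u‖ ^ 2) u b) 0 a =
      fderiv ℝ (fderiv ℝ (fun u => ‖φ 0 - φ u‖ ^ 2)) 0 a b := by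
    have := (hg'.hasFDerivAt.clm_apply (hasFDerivAt_const b (0 : E d))).fderiv
    rw [this]
    simp
  have e2 : (fun u => fderiv ℝ (fun u => ‖φ 0 - φ u‖ ^ 2) u b) =ᶠ[𝓝 (0 : E d)]
      fun u => 2 * inner ℝ (φ u - φ 0) (fderiv ℝ φ u b) := by
    filter_upwards [hU.mem_nhds h0] with u hu
    have h1 := ((hd u hu).const_sub (φ 0)).norm_sq.fderiv
    rw [h1]
    simp only [FunLike.coe_smul, Pi.smul_apply, ContinuousLinearMap.comp_apply,
      FunLike.coe_neg, Pi.neg_apply, innerSL_apply_apply, nsmul_eq_mul, Nat.cast_ofNat]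
    rw [inner_neg_right, ← inner_neg_left, neg_sub]
  rw [← e1, e2.fderiv_eq]
  have h3 : HasFDerivAt (fun u => fderiv ℝ φ u b)
      ((ContinuousLinearMap.apply ℝ (E n) b).comp (fderiv ℝ (fderiv ℝ φ) 0)) 0 :=
    (ContinuousLinearMap.apply ℝ (E n) b).hasFDerivAt.comp 0 hφ'.hasFDerivAt
  have h4 := (((hd 0 h0).sub_const (φ 0)).inner ℝ h3).const_mul 2
  rw [h4.fderiv]
  simp

theorem F7a_isolated {n d : ℕ} {U : Set (E d)} {φ : E d → E n} (hU : IsOpen U)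
    (h0 : (0 : E d) ∈ U) (hφ : ContDiffOn ℝ ∞ φ U)
    (hi : Function.Injective (fderiv ℝ φ 0)) :
    ∃ r : ℝ, 0 < r ∧ ball (0 : E d) r ⊆ U ∧ ∀ u ∈ ball (0 : E d) r,
      inner ℝ (fderiv ℝ φ u u) (φ 0 - φ u) = (0 : ℝ) → u = 0 := by
  have hat : ContDiffAt ℝ ∞ φ 0 := hφ.contDiffAt (hU.mem_nhds h0)
  have hd : HasFDerivAt φ (fderiv ℝ φ 0) 0 := (hat.differentiableAt (by simp)).hasFDerivAt
  have hc : ContinuousAt (fderiv ℝ φ) 0 :=
    (hat.fderiv_right (m := 1) (by norm_cast)).continuousAt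
  obtain ⟨K, hK, hanti⟩ :=
    (LinearMap.injective_iff_antilipschitz (fderiv ℝ φ 0 : E d →ₗ[ℝ] E n)).1 hi
  have hK' : (0 : ℝ) < K := hK
  have hlow : ∀ u : E d, ‖u‖ ≤ K * ‖fderiv ℝ φ 0 u‖ := by
    intro u
    have := hanti.le_mul_dist u 0
    simpa using this
  have hε : (0 : ℝ) < (4 * K)⁻¹ := by positivity
  have h1 := hd.isLittleO.def hε
  have h2 : ∀ᶠ u in 𝓝 (0 : E d), ‖fderiv ℝ φ u - fderiv ℝ φ 0‖ < (4 * K : ℝ)⁻¹ := by
    have := Metric.tendsto_nhds.1 hc _ hε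
    filter_upwards [this] with u hu
    rwa [dist_eq_norm] at hu
  obtain ⟨r, hr, hball⟩ := Metric.eventually_nhds_iff_ball.1
    (h1.and (h2.and (hU.mem_nhds h0 : ∀ᶠ u in 𝓝 (0 : E d), u ∈ U)))
  refine ⟨r, hr, fun u hu => (hball u hu).2.2, fun u hu hcr => ?_⟩
  obtain ⟨b1, b2, -⟩ := hball u hu
  rw [sub_zero] at b1
  set w := fderiv ℝ φ 0 u with hw
  have c1 : ‖φ u - φ 0 - w‖ ≤ ‖w‖ / 4 := by
    refine b1.trans ?_
    have := hlow u
    calc (4 * K : ℝ)⁻¹ * ‖u‖ ≤ (4 * K : ℝ)⁻¹ * (K * ‖w‖) := by gcongr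
      _ = ‖w‖ / 4 := by field_simp
  have c2 : ‖fderiv ℝ φ u u - w‖ ≤ ‖w‖ / 4 := by
    have h5 : fderiv ℝ φ u u - w = (fderiv ℝ φ u - fderiv ℝ φ 0) u := by simp [hw]
    rw [h5]
    refine (ContinuousLinearMap.le_opNorm _ _).trans ?_
    calc ‖fderiv ℝ φ u - fderiv ℝ φ 0‖ * ‖u‖ ≤ (4 * K : ℝ)⁻¹ * (K * ‖w‖) := by
          gcongr
          exact hlow u
      _ = ‖w‖ / 4 := by field_simp
  have e1 : (inner ℝ (fderiv ℝ φ u u) (φ 0 - φ u) : ℝ) =
      -(‖w‖ ^ 2 + inner ℝ w (φ u - φ 0 - w) + inner ℝ (fderiv ℝ φ u u - w) w +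
        inner ℝ (fderiv ℝ φ u u - w) (φ u - φ 0 - w)) := by
    rw [← real_inner_self_eq_norm_sq]
    simp only [inner_sub_right, inner_sub_left]
    ring
  rw [e1] at hcr
  have d1 := abs_le.1 (abs_real_inner_le_norm w (φ u - φ 0 - w))
  have d2 := abs_le.1 (abs_real_inner_le_norm (fderiv ℝ φ u u - w) w)
  have d3 := abs_le.1 (abs_real_inner_le_norm (fderiv ℝ φ u u - w) (φ u - φ 0 - w))
  have n0 := norm_nonneg w
  have n1 := norm_nonneg (φ u - φ 0 - w)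
  have n2 := norm_nonneg (fderiv ℝ φ u u - w)
  have m1 : ‖w‖ * ‖φ u - φ 0 - w‖ ≤ ‖w‖ * (‖w‖ / 4) := by gcongr
  have m2 : ‖fderiv ℝ φ u u - w‖ * ‖w‖ ≤ (‖w‖ / 4) * ‖w‖ := by gcongr
  have m3 : ‖fderiv ℝ φ u u - w‖ * ‖φ u - φ 0 - w‖ ≤ (‖w‖ / 4) * (‖w‖ / 4) := by gcongr
  have hw2 : ‖w‖ ^ 2 ≤ 0 := by nlinarith [d1.1, d2.1, d3.1]
  have hw0 : ‖w‖ = 0 := by nlinarith
  have := hlow u
  rw [← hw, hw0, mul_zero] at this
  exact norm_le_zero_iff.1 this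

theorem F7a_point {n : ℕ} (p : E n) : IsSubmfd 0 ({p} : Set (E n)) := by
  intro q hq
  obtain rfl : q = p := hq
  refine ⟨univ, fun _ => q, isOpen_univ, mem_univ _, rfl, contDiffOn_const, ?_, ?_, ?_⟩
  · intro u _ a b _
    exact Subsingleton.elim a b
  · intro a _ b _ _
    exact Subsingleton.elim a b
  · intro V _ _
    rcases V.eq_empty_or_nonempty with hV | hV
    · exact ⟨∅, isOpen_empty, by simp [hV]⟩
    · exact ⟨univ, isOpen_univ, by rw [hV.image_const]; simp⟩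

theorem F7a_tan {n : ℕ} (p : E n) : TanSet ({p} : Set (E n)) p = {0} := by
  ext v
  constructor
  · rintro ⟨γ, h0, hd, hS⟩
    have h1 : γ =ᶠ[𝓝 0] fun _ => p := by
      filter_upwards [hS] with t ht using ht
    have h2 : HasDerivAt γ 0 0 := (hasDerivAt_const (0 : ℝ) p).congr_of_eventuallyEq h1
    exact hd.unique h2
  · rintro rfl
    exact ⟨fun _ => p, rfl, hasDerivAt_const _ _, Eventually.of_forall fun _ => rfl⟩

theorem crit_at_point {n d : ℕ} {M : Set (E n)} {p : E n} {U : Set (E d)} {φ : E d → E n}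
    (h : IsChart d M p U φ) :
    ∃ (k : ℕ) (W : Set (E n)), IsOpen W ∧ p ∈ W ∧ IsSubmfd k (CritSet M p ∩ W) ∧
      ∀ x ∈ CritSet M p ∩ W, ∀ (U : Set (E d)) (φ : E d → E n), IsChart d M x U φ →
        TanSet (CritSet M p ∩ W) x = fderiv ℝ φ 0 '' HessNull p φ := by
  obtain ⟨r, hr, hrU, hiso⟩ := F7a_isolated h.op h.zero h.smooth (h.imm 0 h.zero)
  obtain ⟨W, hW, hVW⟩ := h.homeo (ball 0 r) hrU isOpen_ball
  have hpW : p ∈ M ∩ W := by
    rw [← hVW, ← h.base]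
    exact ⟨0, mem_ball_self hr, rfl⟩
  have hset : CritSet M p ∩ W = {p} := by
    ext x
    constructor
    · rintro ⟨⟨hxM, hx⟩, hxW⟩
      have : x ∈ φ '' ball 0 r := by
        rw [hVW]
        exact ⟨hxM, hxW⟩
      obtain ⟨u, hu, rfl⟩ := this
      have h1 : (inner ℝ (fderiv ℝ φ u u) (φ 0 - φ u) : ℝ) = 0 := by
        rw [h.base]
        apply hx
        rw [tanSet_chart h (hrU hu)]
        exact ⟨u, rfl⟩
      rw [hiso u hu h1]
      exact h.base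
    · rintro rfl
      refine ⟨⟨hpW.1, fun v _ => ?_⟩, hpW.2⟩
      rw [sub_self, inner_zero_right]
  refine ⟨0, W, hW, hpW.2, ?_, ?_⟩
  · rw [hset]
    exact F7a_point p
  · rw [hset]
    intro x hx U₁ φ₁ h₁
    obtain rfl : x = p := hx
    rw [F7a_tan]
    ext v
    constructor
    · rintro rfl
      refine ⟨0, fun b => ?_, map_zero _⟩
      rw [map_zero]
      rfl
    · rintro ⟨a, ha, rfl⟩
      have h2 := ha a
      have h3 := F7a_hess h₁.op h₁.zero h₁.smooth a a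
      rw [h₁.base] at h3
      rw [h3, real_inner_self_eq_norm_sq] at h2
      have h4 : ‖fderiv ℝ φ₁ 0 a‖ = 0 := by
        have : ‖fderiv ℝ φ₁ 0 a‖ ^ 2 = 0 := by linarith
        exact pow_eq_zero_iff (two_ne_zero) |>.1 this
      exact norm_eq_zero.1 h4

end MPf7aa
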