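import Pool.Agent.Lib.MP_f7aa1b_gt.F3
import Pool.Agent.Lib.MP_f7aa1b_gt.K2

/-!
Row F7b. Local description of the critical set near x0 != p. b chart of UNB M at b0 = (x0, xi0), tau0 > 0,
p = x0 + tau0 xi0; the inequality holds on all of U; ZChart for z. homeo with V = ball 0 rho': O open in U,
psi '' ball 0 rho' = {u in O | z u = 0}; b '' O = UNB M inter O' (homeo of b). W := {x | x != p,
(x, |p-x|^-1 (p-x)) in O', | |p-x| - tau0 | < 1/C} open, contains x0.
(subset) x in CritSet M p inter W: xi = (p-x)/|p-x|: (x, xi) in UNB M inter O' = b '' O, = b u;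
z u = x + tau0 xi - p = (tau0 - t) xi, t = |p - x|; the inequality reads |tau0 - t| <= C |tau0 - t|^2, so
t = tau0 and z u = 0: u = psi w.
(superset) w in ball 0 rho': u = psi w, z u = 0: p = x u + tau0 xi u, so p - x u is normal: x u in CritSet;
|p - x u| = tau0 and (x u, (p - x u)/tau0) = b u in O'.
-/

open Set Filter Topology Metric MeasureTheory
open scoped ContDiff

namespace MPf7aa

theorem crit_local {m : ℕ} {M : Set (E (m + 1))} {b0 : E (m + 1) × E (m + 1)}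
    {U : Set (E m)} {b : E m → E (m + 1) × E (m + 1)} (h : IsChart m (UNB M) b0 U b)
    {τ0 : ℝ} (hτ : 0 < τ0) {C : ℝ} (hC : 0 < C)
    (hineq : ∀ u ∈ U, |(inner ℝ ((b u).1 + τ0 • (b u).2 - (b0.1 + τ0 • b0.2)) (b u).2 : ℝ)| ≤
        C * ‖(b u).1 + τ0 • (b u).2 - (b0.1 + τ0 • b0.2)‖ ^ 2)
    {k : ℕ} {ρ : ℝ} {ψ : E k → E m}
    (hz : ZChart U (fun u => (b u).1 + τ0 • (b u).2 - (b0.1 + τ0 • b0.2)) k ρ ψ)
    {ρ' : ℝ} (h0 : 0 < ρ') (h1 : ρ' ≤ ρ) :
    ∃ W : Set (E (m + 1)), IsOpen W ∧ b0.1 ∈ W ∧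
      CritSet M (b0.1 + τ0 • b0.2) ∩ W = (fun w => (b (ψ w)).1) '' ball (0 : E k) ρ' := by
  set p : E (m + 1) := b0.1 + τ0 • b0.2 with hp
  obtain ⟨O, hO, hOU, hψ⟩ := hz.homeo (ball 0 ρ') (ball_subset_ball h1) isOpen_ball
  obtain ⟨W', hW', hbO⟩ := h.homeo O hOU hO
  have hB : ∀ u ∈ O, b u ∈ UNB M ∧ b u ∈ W' := by
    intro u hu
    have : b u ∈ UNB M ∩ W' := by rw [← hbO]; exact ⟨u, hu, rfl⟩
    exact this
  have h0O : (0 : E m) ∈ O := by
    have : (0 : E m) ∈ {u | u ∈ O ∧ (fun u => (b u).1 + τ0 • (b u).2 - p) u = 0} := by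
      rw [← hψ]
      exact ⟨0, mem_ball_self h0, hz.ψ0⟩
    exact this.1
  -- for points on the level set
  have hkey : ∀ u ∈ O, (b u).1 + τ0 • (b u).2 - p = 0 →
      ‖p - (b u).1‖ = τ0 ∧ ‖p - (b u).1‖⁻¹ • (p - (b u).1) = (b u).2 := by
    intro u hu hzu
    have e1 : p - (b u).1 = τ0 • (b u).2 := by
      have := sub_eq_zero.1 hzu
      rw [← this]
      abel
    have e2 : ‖(b u).2‖ = 1 := (hB u hu).1.2.1
    have e3 : ‖p - (b u).1‖ = τ0 := by
      rw [e1, norm_smul, e2, mul_one, Real.norm_eq_abs, abs_of_pos hτ]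
    refine ⟨e3, ?_⟩
    rw [e3, e1, smul_smul, inv_mul_cancel₀ hτ.ne', one_smul]
  have hgc : ContinuousOn (fun x : E (m + 1) => (x, ‖p - x‖⁻¹ • (p - x))) {x | x ≠ p} := by
    have c1 : ContinuousOn (fun x : E (m + 1) => p - x) {x | x ≠ p} :=
      (continuous_const.sub continuous_id).continuousOn
    have c2 : ContinuousOn (fun x : E (m + 1) => ‖p - x‖⁻¹) {x | x ≠ p} :=
      c1.norm.inv₀ fun x hx => norm_ne_zero_iff.2 (sub_ne_zero.2 (Ne.symm hx))
    exact continuousOn_id.prodMk (c2.smul c1)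
  refine ⟨({x | x ≠ p} ∩ (fun x : E (m + 1) => (x, ‖p - x‖⁻¹ • (p - x))) ⁻¹' W') ∩
    {x | |‖p - x‖ - τ0| < 1 / C}, ?_, ?_, ?_⟩
  · refine (hgc.isOpen_inter_preimage isOpen_ne hW').inter ?_
    exact isOpen_lt (((continuous_const.sub continuous_id).norm.sub continuous_const).abs)
      continuous_const
  · have hz0 : (b 0).1 + τ0 • (b 0).2 - p = 0 := by rw [h.base, hp, sub_self]
    obtain ⟨e1, e2⟩ := hkey 0 h0O hz0
    rw [h.base] at e1 e2
    refine ⟨⟨?_, ?_⟩, ?_⟩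
    · intro he
      rw [he, sub_self, norm_zero] at e1
      exact hτ.ne e1
    · change (b0.1, ‖p - b0.1‖⁻¹ • (p - b0.1)) ∈ W'
      rw [e2]
      have := (hB 0 h0O).2
      rw [h.base] at this
      exact this
    · change |‖p - b0.1‖ - τ0| < 1 / C
      rw [e1, sub_self, abs_zero]
      positivity
  · ext x
    constructor
    · rintro ⟨hx, ⟨hxp, hxW⟩, hxt⟩
      change |‖p - x‖ - τ0| < 1 / C at hxt
      have ht : 0 < ‖p - x‖ := norm_pos_iff.2 (sub_ne_zero.2 (Ne.symm hxp))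
      have hmem : (x, ‖p - x‖⁻¹ • (p - x)) ∈ b '' O := by
        rw [hbO]
        refine ⟨⟨hx.1, ?_, ?_⟩, hxW⟩
        · change ‖‖p - x‖⁻¹ • (p - x)‖ = 1
          rw [norm_smul, norm_inv, norm_norm, inv_mul_cancel₀ ht.ne']
        · intro v hv
          change inner ℝ v (‖p - x‖⁻¹ • (p - x)) = 0
          rw [real_inner_smul_right, hx.2 v hv, mul_zero]
      obtain ⟨u, hu, hbu⟩ := hmem
      have hx1 : (b u).1 = x := by rw [hbu]
      have hx2 : (b u).2 = ‖p - x‖⁻¹ • (p - x) := by rw [hbu]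
      have hn : ‖(b u).2‖ = 1 := (hB u hu).1.2.1
      have hpx : p - x = ‖p - x‖ • (b u).2 := by
        rw [hx2, smul_smul, mul_inv_cancel₀ ht.ne', one_smul]
      have hzu : (b u).1 + τ0 • (b u).2 - p = (τ0 - ‖p - x‖) • (b u).2 := by
        rw [sub_smul, ← hpx, hx1]
        abel
      have hi := hineq u (hOU hu)
      rw [hzu, real_inner_smul_left, real_inner_self_eq_norm_sq, hn, norm_smul, hn,
        Real.norm_eq_abs] at hi
      simp only [one_pow, mul_one] at hi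
      have hz0 : (b u).1 + τ0 • (b u).2 - p = 0 := by
        rw [hzu]
        by_cases hne : τ0 - ‖p - x‖ = 0
        · rw [hne, zero_smul]
        · exfalso
          have ha : 0 < |τ0 - ‖p - x‖| := abs_pos.2 hne
          rw [abs_sub_comm, lt_div_iff₀ hC] at hxt
          have : |τ0 - ‖p - x‖| * (|τ0 - ‖p - x‖| * C) < |τ0 - ‖p - x‖| * 1 :=
            mul_lt_mul_of_pos_left hxt ha
          nlinarith
      have : u ∈ ψ '' ball 0 ρ' := by
        rw [hψ]
        exact ⟨hu, hz0⟩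
      obtain ⟨w, hw, hwu⟩ := this
      exact ⟨w, hw, by change (b (ψ w)).1 = x; rw [hwu, hx1]⟩
    · rintro ⟨w, hw, rfl⟩
      have hu : ψ w ∈ {u | u ∈ O ∧ (fun u => (b u).1 + τ0 • (b u).2 - p) u = 0} := by
        rw [← hψ]
        exact ⟨w, hw, rfl⟩
      obtain ⟨e1, e2⟩ := hkey (ψ w) hu.1 hu.2
      have hUN := (hB _ hu.1).1
      have e3 : p - (b (ψ w)).1 = τ0 • (b (ψ w)).2 := by
        have h3 : (b (ψ w)).1 + τ0 • (b (ψ w)).2 - p = 0 := hu.2
        have := sub_eq_zero.1 h3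
        rw [← this]
        abel
      refine ⟨⟨hUN.1, ?_⟩, ⟨?_, ?_⟩, ?_⟩
      · intro v hv
        change inner ℝ v (p - (b (ψ w)).1) = 0
        rw [e3, real_inner_smul_right, hUN.2.2 v hv, mul_zero]
      · intro he
        change (b (ψ w)).1 = p at he
        rw [he, sub_self, norm_zero] at e1
        exact hτ.ne e1
      · change ((b (ψ w)).1, ‖p - (b (ψ w)).1‖⁻¹ • (p - (b (ψ w)).1)) ∈ W'
        rw [e2]
        exact (hB _ hu.1).2
      · change |‖p - (b (ψ w)).1‖ - τ0| < 1 / C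
        rw [e1, sub_self, abs_zero]
        positivity

end MPf7aa
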