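import Pool.Agent.Lib.MP_f7aa1b_gt.Core

/-!
Row T1. Derivatives of L_p(u) = |X u - p|^2/2 (LL), first and second order along lines.
Proof: X is C^infinity on the open set U, so X and fderiv X are differentiable at every point of U;
chain rule and the product rule for the inner product (HasFDerivAt.inner, HasDerivAt.inner). For
hasDerivAt_line2: s -> fderiv X (u+s v) w has derivative (fderiv (fderiv X) (u+t v) v) w.
-/

open Set Filter Topology Metric MeasureTheory
open scoped ContDiff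

namespace MPf7aa

theorem T1_hasFDerivAt {m k : ℕ} {U : Set (E m)} {X : E m → E k} (hU : IsOpen U)
    (hX : ContDiffOn ℝ ∞ X U) {u : E m} (hu : u ∈ U) : HasFDerivAt X (fderiv ℝ X u) u :=
  ((hX.contDiffAt (hU.mem_nhds hu)).differentiableAt (by simp)).hasFDerivAt

theorem T1_contDiffOn_fderiv {m k : ℕ} {U : Set (E m)} {X : E m → E k} (hU : IsOpen U)
    (hX : ContDiffOn ℝ ∞ X U) : ContDiffOn ℝ ∞ (fderiv ℝ X) U :=
  hX.fderiv_of_isOpen hU (by simp)

theorem T1_contDiffOn_fderiv' {m k : ℕ} {U : Set (E m)} {X : E m → E k} (hU : IsOpen U)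
    (hX : ContDiffOn ℝ ∞ X U) : ContinuousOn (fderiv ℝ (fderiv ℝ X)) U :=
  (T1_contDiffOn_fderiv hU hX).continuousOn_fderiv_of_isOpen hU (by simp)

theorem T1_hasFDerivAt_LL {m k : ℕ} {U : Set (E m)} {X : E m → E k} (hU : IsOpen U)
    (hX : ContDiffOn ℝ ∞ X U) (p : E k) {u : E m} (hu : u ∈ U) :
    HasFDerivAt (LL X p) ((innerSL ℝ (X u - p)).comp (fderiv ℝ X u)) u := by
  have h2 : HasFDerivAt (fun u => X u - p) (fderiv ℝ X u) u :=
    (T1_hasFDerivAt hU hX hu).sub_const p
  have h3 := (h2.norm_sq).const_mul (1 / 2)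
  refine h3.congr_fderiv ?_
  ext v
  simp

theorem fderiv_LL_apply {m k : ℕ} {U : Set (E m)} {X : E m → E k} (hU : IsOpen U)
    (hX : ContDiffOn ℝ ∞ X U) (p : E k) {u : E m} (hu : u ∈ U) :
    DifferentiableAt ℝ (LL X p) u ∧
      ∀ v, fderiv ℝ (LL X p) u v = inner ℝ (fderiv ℝ X u v) (X u - p) := by
  have h4 := T1_hasFDerivAt_LL hU hX p hu
  refine ⟨h4.differentiableAt, fun v => ?_⟩
  rw [h4.fderiv]
  change inner ℝ (X u - p) (fderiv ℝ X u v) = _
  exact real_inner_comm _ _

theorem hasDerivAt_line {m k : ℕ} {U : Set (E m)} {X : E m → E k} (hU : IsOpen U)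
    (hX : ContDiffOn ℝ ∞ X U) (p : E k) (u v : E m) {t : ℝ} (hu : u + t • v ∈ U) :
    HasDerivAt (fun s : ℝ => LL X p (u + s • v))
      (inner ℝ (fderiv ℝ X (u + t • v) v) (X (u + t • v) - p)) t := by
  have h1 : HasDerivAt (fun s : ℝ => u + s • v) v t := by
    have := ((hasDerivAt_id t).smul_const v).const_add u
    rwa [one_smul] at this
  have h2 := (T1_hasFDerivAt_LL hU hX p hu).comp_hasDerivAt t h1
  refine h2.congr_deriv ?_
  change inner ℝ (X (u + t • v) - p) (fderiv ℝ X (u + t • v) v) = _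
  exact real_inner_comm _ _

theorem hasDerivAt_line2 {m k : ℕ} {U : Set (E m)} {X : E m → E k} (hU : IsOpen U)
    (hX : ContDiffOn ℝ ∞ X U) (p : E k) (u v w : E m) {t : ℝ} (hu : u + t • v ∈ U) :
    HasDerivAt (fun s : ℝ => inner ℝ (fderiv ℝ X (u + s • v) w) (X (u + s • v) - p))
      (HH X p (u + t • v) v w) t := by
  have h1 : HasDerivAt (fun s : ℝ => u + s • v) v t := by
    have := ((hasDerivAt_id t).smul_const v).const_add u
    rwa [one_smul] at this
  have h2 : HasDerivAt (fun s : ℝ => X (u + s • v) - p) (fderiv ℝ X (u + t • v) v) t :=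
    ((T1_hasFDerivAt hU hX hu).comp_hasDerivAt t h1).sub_const p
  have h3 : HasDerivAt (fun s : ℝ => fderiv ℝ X (u + s • v))
      (fderiv ℝ (fderiv ℝ X) (u + t • v) v) t :=
    (((T1_contDiffOn_fderiv hU hX).contDiffAt (hU.mem_nhds hu)).differentiableAt
      (by simp)).hasFDerivAt.comp_hasDerivAt t h1
  have h4 : HasDerivAt (fun s : ℝ => fderiv ℝ X (u + s • v) w)
      (fderiv ℝ (fderiv ℝ X) (u + t • v) v w) t := by
    have := h3.clm_apply (hasDerivAt_const t w)
    simpa using this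
  have h5 := h4.inner ℝ h2
  refine h5.congr_deriv ?_
  unfold HH
  rw [real_inner_comm]

/-- joint continuity of the quantities in (centre, point, vectors) -/
theorem continuousOn_HH {m k : ℕ} {U : Set (E m)} {X : E m → E k} (hU : IsOpen U)
    (hX : ContDiffOn ℝ ∞ X U) :
    ContinuousOn (fun q : E k × E m × E m × E m => HH X q.1 q.2.1 q.2.2.1 q.2.2.2)
      {q | q.2.1 ∈ U} := by
  have hX1 := T1_contDiffOn_fderiv hU hX
  have hX2 := T1_contDiffOn_fderiv' hU hX
  have hm : MapsTo (fun q : E k × E m × E m × E m => q.2.1) {q | q.2.1 ∈ U} U := fun q hq => hq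
  have c0 : ContinuousOn (fun q : E k × E m × E m × E m => X q.2.1) {q | q.2.1 ∈ U} :=
    hX.continuousOn.comp (by fun_prop) hm
  have c1 : ContinuousOn (fun q : E k × E m × E m × E m => fderiv ℝ X q.2.1) {q | q.2.1 ∈ U} :=
    hX1.continuousOn.comp (by fun_prop) hm
  have c2 : ContinuousOn (fun q : E k × E m × E m × E m => fderiv ℝ (fderiv ℝ X) q.2.1)
      {q | q.2.1 ∈ U} := hX2.comp (by fun_prop) hm
  unfold HH
  have cv : ContinuousOn (fun q : E k × E m × E m × E m => q.2.2.1) {q | q.2.1 ∈ U} := by fun_prop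
  have cw : ContinuousOn (fun q : E k × E m × E m × E m => q.2.2.2) {q | q.2.1 ∈ U} := by fun_prop
  have cp : ContinuousOn (fun q : E k × E m × E m × E m => q.1) {q | q.2.1 ∈ U} := by fun_prop
  exact ((c1.clm_apply cv).inner (c1.clm_apply cw)).add
    (((c2.clm_apply cv).clm_apply cw).inner (c0.sub cp))

theorem continuousOn_grad {m k : ℕ} {U : Set (E m)} {X : E m → E k} (hU : IsOpen U)
    (hX : ContDiffOn ℝ ∞ X U) :
    ContinuousOn (fun q : E k × E m × E m => inner ℝ (fderiv ℝ X q.2.1 q.2.2) (X q.2.1 - q.1))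
      {q | q.2.1 ∈ U} := by
  have hX1 := T1_contDiffOn_fderiv hU hX
  have hm : MapsTo (fun q : E k × E m × E m => q.2.1) {q | q.2.1 ∈ U} U := fun q hq => hq
  have c0 : ContinuousOn (fun q : E k × E m × E m => X q.2.1) {q | q.2.1 ∈ U} :=
    hX.continuousOn.comp (by fun_prop) hm
  have c1 : ContinuousOn (fun q : E k × E m × E m => fderiv ℝ X q.2.1) {q | q.2.1 ∈ U} :=
    hX1.continuousOn.comp (by fun_prop) hm
  have cv : ContinuousOn (fun q : E k × E m × E m => q.2.2) {q | q.2.1 ∈ U} := by fun_prop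
  have cp : ContinuousOn (fun q : E k × E m × E m => q.1) {q | q.2.1 ∈ U} := by fun_prop
  exact (c1.clm_apply cv).inner (c0.sub cp)

theorem continuousOn_LL {m k : ℕ} {U : Set (E m)} {X : E m → E k}
    (hX : ContDiffOn ℝ ∞ X U) :
    ContinuousOn (fun q : E k × E m => LL X q.1 q.2) {q | q.2 ∈ U} := by
  have hm : MapsTo (fun q : E k × E m => q.2) {q | q.2 ∈ U} U := fun q hq => hq
  have c0 : ContinuousOn (fun q : E k × E m => X q.2) {q | q.2 ∈ U} :=
    hX.continuousOn.comp (by fun_prop) hm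
  have cp : ContinuousOn (fun q : E k × E m => q.1) {q | q.2 ∈ U} := by fun_prop
  unfold LL
  exact continuousOn_const.mul ((c0.sub cp).norm.pow 2)

end MPf7aa
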