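import Pool.Agent.Lib.MP_f7aa1b_gt.F3
import Pool.Agent.Lib.MP_f7aa1b_gt.T2
import Pool.Agent.Lib.MP_f7aa1b_gt.T1

/-!
Row F7c. Hessian of L_p in a chart phi of M at x and the kernel of dx + tau dxi. (u in U, b u = (x, xi).)
phi_lift: v in E m. The curve t -> x (u + t v) is in M; its velocity dx v is in TanSet M x = range (fderiv phi 0)
(tanSet_chart): dx v = fderiv phi 0 y; curve_lift (F1b): c t with c 0 = 0, c' 0 = y, phi (c t) = x (u + t v) near 0.
For every b': <dphi (c t) b', xi (u + t v)> = 0 near t = 0 (range (fderiv phi (c t)) = TanSet M (phi (c t)), UNB).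
Differentiate at 0: <D2phi(0) y b', xi> + <dphi(0) b', dxi v> = 0.
hessNull_iff: p = x + tau xi. D^2 (|p - phi|^2)(0) a b' = 2 HH phi p 0 a b' = 2 (<dphi a, dphi b'> -
tau <D2phi a b', xi>) (T1/T2 style). (<-) v with dx v = dphi a, dx v + tau dxi v = 0: phi_lift (y = a by
injectivity): tau <D2phi a b', xi> = - tau <dphi b', dxi v> = <dphi b', dphi a>. So HH = 0.
(->) HH a . = 0. Apply leg_lagrangian (D1) to al = dphi a, be = - tau^-1 dphi a: need, for every v,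
<dphi a, dxi v> = - tau^-1 <dphi a, dx v>. phi_lift for v: y_v with dx v = dphi y_v and (b' = a)
<dphi a, dxi v> = - <D2phi y_v a, xi>, and 0 = HH y_v a (symmetry) gives tau <D2phi y_v a, xi> = <dphi y_v, dphi a>.
<dphi a, xi> = 0 as dphi a in TanSet M x.
-/

open Set Filter Topology Metric MeasureTheory
open scoped ContDiff

namespace MPf7aa

theorem F7c_maps {F : Type*} [NormedAddCommGroup F] [NormedSpace ℝ F] {d : ℕ} {S : Set F}
    {p : F} {U : Set (E d)} {φ : E d → F} (h : IsChart d S p U φ) {u : E d} (hu : u ∈ U) :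
    φ u ∈ S := by
  obtain ⟨W, _, hW⟩ := h.homeo U subset_rfl h.op
  have : φ u ∈ φ '' U := mem_image_of_mem φ hu
  rw [hW] at this
  exact this.1

theorem F7c_line {m : ℕ} (u v : E m) : HasDerivAt (fun t : ℝ => u + t • v) v 0 := by
  have := ((hasDerivAt_id (0 : ℝ)).smul_const v).const_add u
  simpa using this

theorem F7c_comp_line {m : ℕ} {F : Type*} [NormedAddCommGroup F] [NormedSpace ℝ F]
    {f : E m → F} {u : E m} (hf : DifferentiableAt ℝ f u) (v : E m) :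
    HasDerivAt (fun t : ℝ => f (u + t • v)) (fderiv ℝ f u v) 0 := by
  have h1 : HasFDerivAt f (fderiv ℝ f u) (u + (0 : ℝ) • v) := by simpa using hf.hasFDerivAt
  exact h1.comp_hasDerivAt (0 : ℝ) (F7c_line u v)

theorem F7c_eventually {m : ℕ} {U : Set (E m)} (hU : IsOpen U) {u : E m} (hu : u ∈ U) (v : E m) :
    ∀ᶠ t in 𝓝 (0 : ℝ), u + t • v ∈ U := by
  have hc : ContinuousAt (fun t : ℝ => u + t • v) 0 := (F7c_line u v).continuousAt
  have : U ∈ 𝓝 (u + (0 : ℝ) • v) := by simpa using hU.mem_nhds hu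
  exact hc this

theorem phi_lift {m d : ℕ} {M : Set (E (m + 1))} {b0 : E (m + 1) × E (m + 1)}
    {U : Set (E m)} {b : E m → E (m + 1) × E (m + 1)} (h : IsChart m (UNB M) b0 U b)
    {u : E m} (hu : u ∈ U) {U1 : Set (E d)} {φ : E d → E (m + 1)}
    (hφ : IsChart d M (b u).1 U1 φ) (v : E m) :
    ∃ y : E d, fderiv ℝ φ 0 y = fderiv ℝ (fun u => (b u).1) u v ∧
      ∀ b' : E d, (inner ℝ (fderiv ℝ (fderiv ℝ φ) 0 y b') (b u).2 : ℝ) +
        inner ℝ (fderiv ℝ φ 0 b') (fderiv ℝ (fun u => (b u).2) u v) = 0 := by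
  have hL := leg_of_chart h
  have hdx : DifferentiableAt ℝ (fun u => (b u).1) u :=
    (hL.cx.contDiffAt (hL.op.mem_nhds hu)).differentiableAt (by simp)
  have hdξ : DifferentiableAt ℝ (fun u => (b u).2) u :=
    (hL.cξ.contDiffAt (hL.op.mem_nhds hu)).differentiableAt (by simp)
  have hγ := F7c_comp_line hdx v
  have hev := F7c_eventually hL.op hu v
  have hS : ∀ᶠ t in 𝓝 (0 : ℝ), (b (u + t • v)).1 ∈ M := by
    filter_upwards [hev] with t ht
    exact (F7c_maps h ht).1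
  have hbase : φ 0 = (b u).1 := hφ.base
  have hγ0 : (fun t : ℝ => (b (u + t • v)).1) 0 = φ 0 := by
    simp [hbase]
  have hT : fderiv ℝ (fun u => (b u).1) u v ∈ TanSet M (φ 0) :=
    ⟨_, hγ0, hγ, hS⟩
  rw [tanSet_chart hφ hφ.zero] at hT
  obtain ⟨y, hy⟩ := hT
  refine ⟨y, hy, ?_⟩
  rw [← hy] at hγ
  obtain ⟨c, hc0, hc, hcU⟩ := curve_lift hφ hφ.zero hγ0 hγ hS
  intro b'
  have hdφ : DifferentiableAt ℝ (fderiv ℝ φ) (c 0) := by
    rw [hc0]
    exact ((hφ.smooth.fderiv_of_isOpen hφ.op (m := ∞) (by simp)).contDiffAt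
      (hφ.op.mem_nhds hφ.zero)).differentiableAt (by simp)
  have h1 : HasDerivAt (fun t : ℝ => fderiv ℝ φ (c t)) (fderiv ℝ (fderiv ℝ φ) (c 0) y) 0 :=
    hdφ.hasFDerivAt.comp_hasDerivAt (0 : ℝ) hc
  have h2 : HasDerivAt (fun t : ℝ => fderiv ℝ φ (c t) b') (fderiv ℝ (fderiv ℝ φ) (c 0) y b') 0 := by
    have := h1.clm_apply (hasDerivAt_const (0 : ℝ) b')
    simpa using this
  have h3 := F7c_comp_line hdξ v
  have h4 := h2.inner ℝ h3
  have h5 : (fun t : ℝ => (inner ℝ (fderiv ℝ φ (c t) b') ((b (u + t • v)).2) : ℝ)) =ᶠ[𝓝 0]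
      fun _ => (0 : ℝ) := by
    filter_upwards [hcU, hev] with t ht htU
    obtain ⟨htU1, hct⟩ := ht
    have h6 := F7c_maps h htU
    apply h6.2.2
    rw [← hct, tanSet_chart hφ htU1]
    exact mem_range_self b'
  have h7 : HasDerivAt (fun t : ℝ => (inner ℝ (fderiv ℝ φ (c t) b') ((b (u + t • v)).2) : ℝ)) 0 0 :=
    (hasDerivAt_const (0 : ℝ) (0 : ℝ)).congr_of_eventuallyEq h5
  have h8 := h4.unique h7
  simp only [hc0, zero_smul, add_zero] at h8
  linarith

theorem F7c_hess {m d : ℕ} {U1 : Set (E d)} {φ : E d → E (m + 1)} (hU : IsOpen U1)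
    (h0 : (0 : E d) ∈ U1) (hφ : ContDiffOn ℝ ∞ φ U1) (p : E (m + 1)) (a b' : E d) :
    fderiv ℝ (fderiv ℝ (fun u => ‖p - φ u‖ ^ 2)) 0 a b' = 2 * HH φ p 0 a b' := by
  have hfun : (fun u => ‖p - φ u‖ ^ 2) = fun u => (2 : ℝ) * LL φ p u := by
    funext u
    unfold LL
    rw [norm_sub_rev]
    ring
  have hLLs : ContDiffOn ℝ ∞ (fun u => ‖p - φ u‖ ^ 2) U1 :=
    (contDiffOn_const.sub hφ).norm_sq ℝ
  have hd2 : DifferentiableAt ℝ (fderiv ℝ (fun u => ‖p - φ u‖ ^ 2)) 0 :=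
    ((hLLs.fderiv_of_isOpen hU (m := ∞) (by simp)).contDiffAt
      (hU.mem_nhds h0)).differentiableAt (by simp)
  have h1 := F7c_comp_line hd2 a
  have h2 : HasDerivAt (fun t : ℝ => fderiv ℝ (fun u => ‖p - φ u‖ ^ 2) ((0 : E d) + t • a) b')
      (fderiv ℝ (fderiv ℝ (fun u => ‖p - φ u‖ ^ 2)) 0 a b') 0 := by
    have := h1.clm_apply (hasDerivAt_const (0 : ℝ) b')
    simpa using this
  have h3 := hasDerivAt_line2 hU hφ p (0 : E d) a b' (t := 0) (by simpa using h0)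
  have h4 := h3.const_mul (2 : ℝ)
  have h5 : (fun t : ℝ => fderiv ℝ (fun u => ‖p - φ u‖ ^ 2) ((0 : E d) + t • a) b') =ᶠ[𝓝 0]
      fun s : ℝ => (2 : ℝ) * inner ℝ (fderiv ℝ φ ((0 : E d) + s • a) b') (φ ((0 : E d) + s • a) - p) := by
    filter_upwards [F7c_eventually hU h0 a] with t ht
    obtain ⟨h6, h7⟩ := fderiv_LL_apply hU hφ p ht
    rw [hfun, fderiv_const_mul h6, _root_.smul_apply, h7, smul_eq_mul]
  have h8 := (h4.congr_of_eventuallyEq h5).unique h2
  simpa using h8.symm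

theorem hessNull_iff {m d : ℕ} {M : Set (E (m + 1))} {b0 : E (m + 1) × E (m + 1)}
    {U : Set (E m)} {b : E m → E (m + 1) × E (m + 1)} (h : IsChart m (UNB M) b0 U b)
    {u : E m} (hu : u ∈ U) {U1 : Set (E d)} {φ : E d → E (m + 1)}
    (hφ : IsChart d M (b u).1 U1 φ) {τ : ℝ} (hτ : τ ≠ 0) (a : E d) :
    a ∈ HessNull ((b u).1 + τ • (b u).2) φ ↔
      ∃ v : E m, fderiv ℝ (fun u => (b u).1) u v = fderiv ℝ φ 0 a ∧
        fderiv ℝ (fun u => (b u).1) u v + τ • fderiv ℝ (fun u => (b u).2) u v = 0 := by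
  have hL := leg_of_chart h
  have hHH : ∀ a b' : E d, HH φ ((b u).1 + τ • (b u).2) 0 a b' =
      (inner ℝ (fderiv ℝ φ 0 a) (fderiv ℝ φ 0 b') : ℝ) -
        τ * inner ℝ (fderiv ℝ (fderiv ℝ φ) 0 a b') (b u).2 := by
    intro a b'
    unfold HH
    rw [hφ.base]
    have : (b u).1 - ((b u).1 + τ • (b u).2) = -(τ • (b u).2) := by abel
    rw [this, inner_neg_right, real_inner_smul_right]
    ring
  have hmem : a ∈ HessNull ((b u).1 + τ • (b u).2) φ ↔
      ∀ b' : E d, HH φ ((b u).1 + τ • (b u).2) 0 a b' = 0 := by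
    unfold HessNull
    simp only [mem_ofPred_eq, F7c_hess hφ.op hφ.zero hφ.smooth, mul_eq_zero, OfNat.ofNat_ne_zero,
      false_or]
  rw [hmem]
  constructor
  · intro hH
    have htan : (inner ℝ (fderiv ℝ φ 0 a) (b u).2 : ℝ) = 0 := by
      have hb := F7c_maps h hu
      apply hb.2.2
      rw [← hφ.base, tanSet_chart hφ hφ.zero]
      exact mem_range_self a
    obtain ⟨v, hv1, hv2⟩ := leg_lagrangian hL hu (α := fderiv ℝ φ 0 a)
      (β := -(τ⁻¹ • fderiv ℝ φ 0 a)) htan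
      (by rw [inner_neg_left, real_inner_smul_left, htan]; simp) (by
        intro v
        obtain ⟨y, hy, hyb⟩ := phi_lift h hu hφ v
        have h1 := hyb a
        have h2 := hH y
        rw [HH_symm hφ.op hφ.smooth _ hφ.zero, hHH, hy] at h2
        rw [inner_neg_left, real_inner_smul_left]
        have h3 : (inner ℝ (fderiv ℝ (fun u => (b u).1) u v) (fderiv ℝ φ 0 a) : ℝ) =
          inner ℝ (fderiv ℝ φ 0 a) (fderiv ℝ (fun u => (b u).1) u v) := real_inner_comm _ _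
        rw [h3] at h2
        have h4 : (inner ℝ (fderiv ℝ φ 0 a) (fderiv ℝ (fun u => (b u).1) u v) : ℝ) =
          τ * inner ℝ (fderiv ℝ (fderiv ℝ φ) 0 y a) (b u).2 := by linarith
        rw [h4]
        field_simp
        linarith)
    refine ⟨v, hv1, ?_⟩
    rw [hv1, hv2, smul_neg, smul_smul, mul_inv_cancel₀ hτ, one_smul, add_neg_cancel]
  · rintro ⟨v, hv1, hv2⟩ b'
    obtain ⟨y, hy, hyb⟩ := phi_lift h hu hφ v
    have hya : y = a := hφ.imm 0 hφ.zero (by rw [hy, hv1])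
    subst hya
    have h1 := hyb b'
    rw [hHH, ← hv1]
    have h2 := congrArg (fun z => (inner ℝ z (fderiv ℝ φ 0 b') : ℝ)) hv2
    simp only [inner_add_left, real_inner_smul_left, inner_zero_left] at h2
    rw [real_inner_comm (fderiv ℝ φ 0 b') (fderiv ℝ (fun u => (b u).2) u v)] at h2
    have h3 : (inner ℝ (fderiv ℝ φ 0 b') (fderiv ℝ (fun u => (b u).2) u v) : ℝ) =
      -inner ℝ (fderiv ℝ (fderiv ℝ φ) 0 y b') (b u).2 := by linarith
    rw [h3] at h2
    linarith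

end MPf7aa
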