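import Pool.Agent.Lib.MP_f7aa1b_gt.F7b
import Pool.Agent.Lib.MP_f7aa1b_gt.F7c
import Pool.Agent.Lib.MP_f7aa1b_gt.F5
import Pool.Agent.Lib.MP_f7aa1b_gt.F1

/-!
Row F7d. Morse-Bott near a critical point x0 != p. tau0 = |p - x0| > 0, xi0 = (p - x0)/tau0, b0 = (x0, xi0) in UNB M
(CritSet). Chart b of UNB M at b0 (hypothesis hB); leg_of_chart, dstar_of_dupin, legineq: the inequality holds on an
open ball V in U around 0: chart_shrink, so we may assume it on all of U. zchart_of_ineq: k, rho, psi.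
chi w := (b (psi w)).1 is an immersion at 0: fderiv chi 0 y = dx (dpsi y); if it is 0 then dz (dpsi y) = 0
(z o psi = 0) gives tau0 dxi (dpsi y) = 0, so dpsi y = 0 (inj), y = 0. isChart_of_imm: rho0; rho' = min rho0 rho
(smaller so that chi is smooth on the ball). crit_local: CritSet inter W = chi '' ball 0 rho'. IsSubmfd:
submfd_of_chart. Tangent space at x = chi w: tanSet_chart: range (fderiv chi w) = dx(psi w) '' range (dpsi w) =
dx '' ker dz(psi w) (field ker and z o psi = 0). hessNull_iff at u = psi w, tau = tau0 (p = x u + tau0 xi u as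
z u = 0): fderiv phi 0 '' HessNull = {dx v | dz v = 0, dx v in range (fderiv phi 0)}, and dx v is always in the range
(phi_lift).
-/

open Set Filter Topology Metric MeasureTheory
open scoped ContDiff

namespace MPf7aa

theorem F7d_aux {m k : ℕ} {U : Set (E m)} {x ξ : E m → E (m + 1)} (hl : Leg U x ξ) {τ0 : ℝ}
    {q : E (m + 1)} {ρ : ℝ} {ψ : E k → E m}
    (hz : ZChart U (fun u => x u + τ0 • ξ u - q) k ρ ψ) {w : E k} (hw : w ∈ ball (0 : E k) ρ) :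
    HasFDerivAt (fun w => x (ψ w)) ((fderiv ℝ x (ψ w)).comp (fderiv ℝ ψ w)) w ∧
    (∀ y, fderiv ℝ x (ψ w) (fderiv ℝ ψ w y) + τ0 • fderiv ℝ ξ (ψ w) (fderiv ℝ ψ w y) = 0) ∧
    (∀ v, fderiv ℝ x (ψ w) v + τ0 • fderiv ℝ ξ (ψ w) v = 0 → ∃ y, fderiv ℝ ψ w y = v) := by
  have hU : U ∈ 𝓝 (ψ w) := hl.op.mem_nhds (hz.maps w hw).1
  have hdx : DifferentiableAt ℝ x (ψ w) :=
    ((hl.cx.contDiffAt hU).differentiableAt (by simp))
  have hdξ : DifferentiableAt ℝ ξ (ψ w) :=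
    ((hl.cξ.contDiffAt hU).differentiableAt (by simp))
  have hdψ : DifferentiableAt ℝ ψ w :=
    ((hz.cψ.contDiffAt (isOpen_ball.mem_nhds hw)).differentiableAt (by simp))
  have hZ : HasFDerivAt (fun u => x u + τ0 • ξ u - q)
      (fderiv ℝ x (ψ w) + τ0 • fderiv ℝ ξ (ψ w)) (ψ w) :=
    (hdx.hasFDerivAt.add (hdξ.hasFDerivAt.const_smul τ0)).sub_const q
  refine ⟨hdx.hasFDerivAt.comp w hdψ.hasFDerivAt, ?_, ?_⟩
  · intro y
    have h1 : HasFDerivAt (fun w => x (ψ w) + τ0 • ξ (ψ w) - q)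
        ((fderiv ℝ x (ψ w) + τ0 • fderiv ℝ ξ (ψ w)).comp (fderiv ℝ ψ w)) w :=
      hZ.comp w hdψ.hasFDerivAt
    have h2 : (fun w => x (ψ w) + τ0 • ξ (ψ w) - q) =ᶠ[𝓝 w] fun _ => (0 : E (m + 1)) := by
      filter_upwards [isOpen_ball.mem_nhds hw] with w' hw'
      exact (hz.maps w' hw').2
    have h3 : HasFDerivAt (fun w => x (ψ w) + τ0 • ξ (ψ w) - q) (0 : E k →L[ℝ] E (m + 1)) w :=
      (hasFDerivAt_const (0 : E (m + 1)) w).congr_of_eventuallyEq h2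
    have h4 := congrArg (fun L : E k →L[ℝ] E (m + 1) => L y) (h1.unique h3)
    simpa using h4
  · intro v hv
    refine hz.ker w hw v ?_
    rw [hZ.fderiv]
    simpa using hv

theorem morseBott_ne {m d : ℕ} {M : Set (E (m + 1))} (hD : IsDupin M)
    (hB : IsSubmfd m (UNB M)) {p x0 : E (m + 1)} (hx0 : x0 ∈ CritSet M p) (hne : x0 ≠ p) :
    ∃ (k : ℕ) (W : Set (E (m + 1))), IsOpen W ∧ x0 ∈ W ∧ IsSubmfd k (CritSet M p ∩ W) ∧
      ∀ x ∈ CritSet M p ∩ W, ∀ (U : Set (E d)) (φ : E d → E (m + 1)), IsChart d M x U φ →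
        TanSet (CritSet M p ∩ W) x = fderiv ℝ φ 0 '' HessNull p φ := by
  have hτ0 : 0 < ‖p - x0‖ := norm_pos_iff.mpr (sub_ne_zero.mpr (Ne.symm hne))
  obtain ⟨τ0, hτ, hτdef⟩ : ∃ τ0 : ℝ, 0 < τ0 ∧ τ0 = ‖p - x0‖ := ⟨_, hτ0, rfl⟩
  obtain ⟨b0, hb0⟩ : ∃ b0 : E (m + 1) × E (m + 1), b0 = (x0, τ0⁻¹ • (p - x0)) := ⟨_, rfl⟩
  have hb01 : b0.1 = x0 := by rw [hb0]
  have hpb : b0.1 + τ0 • b0.2 = p := by
    rw [hb0]
    simp only
    rw [smul_smul, mul_inv_cancel₀ hτ.ne', one_smul]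
    abel
  have hmem : b0 ∈ UNB M := by
    rw [hb0]
    refine ⟨hx0.1, ?_, ?_⟩
    · simp only
      rw [norm_smul, norm_inv, Real.norm_eq_abs, abs_of_pos hτ, ← hτdef,
        inv_mul_cancel₀ hτ.ne']
    · intro v hv
      simp only
      rw [inner_smul_right, hx0.2 v hv, mul_zero]
  obtain ⟨U, b, hb⟩ := hB b0 hmem
  obtain ⟨C, hC, hin⟩ := legineq (leg_of_chart hb) (dstar_of_dupin hD hb) hb.zero hτ.ne'
  simp only [hb.base] at hin
  obtain ⟨r, hr, hball⟩ := Metric.eventually_nhds_iff_ball.1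
    (hin.and (hb.op.mem_nhds hb.zero))
  have hb' : IsChart m (UNB M) b0 (ball (0 : E m) r) b :=
    chart_shrink hb isOpen_ball (fun u hu => (hball u hu).2) (mem_ball_self hr)
  have hl := leg_of_chart hb'
  have hin' := hin
  obtain ⟨k, ρ, ψ, hz⟩ := zchart_of_ineq (x := fun u => (b u).1) (ξ := fun u => (b u).2) hl
    (mem_ball_self hr) τ0 hC (by simpa only [hb.base] using hin')
  simp only [hb.base] at hz
  -- the parametrisation of the critical set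
  have hχs : ContDiffOn ℝ ∞ (fun w => (b (ψ w)).1) (ball (0 : E k) ρ) :=
    (hb'.smooth.comp hz.cψ (fun w hw => (hz.maps w hw).1)).fst
  have hinj0 : Function.Injective (fderiv ℝ (fun w => (b (ψ w)).1) 0) := by
    have h0 : (0 : E k) ∈ ball (0 : E k) ρ := mem_ball_self hz.hρ
    obtain ⟨ha, hb1, -⟩ := F7d_aux hl hz h0
    rw [ha.fderiv]
    rw [injective_iff_map_eq_zero]
    intro y hy
    have h1 : fderiv ℝ (fun u => (b u).1) (ψ 0) (fderiv ℝ ψ 0 y) = 0 := by simpa using hy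
    have h2 := hb1 y
    rw [h1, zero_add, smul_eq_zero] at h2
    have h3 := h2.resolve_left hτ.ne'
    have h4 := hl.inj (ψ 0) (hz.maps 0 h0).1 _ h1 h3
    exact hz.imm 0 h0 (by rw [h4, map_zero])
  obtain ⟨ρ0, hρ0, hch⟩ := isChart_of_imm isOpen_ball (mem_ball_self hz.hρ) hχs hinj0
  have hρ' : 0 < min ρ0 ρ := lt_min hρ0 hz.hρ
  obtain ⟨-, hchart⟩ := hch (min ρ0 ρ) hρ' (min_le_left _ _)
  obtain ⟨W, hW, hWm, hWeq⟩ := crit_local hb' hτ hC (fun u hu => (hball u hu).1) hz hρ'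
    (min_le_right _ _)
  rw [hpb] at hWeq
  refine ⟨k, W, hW, hb01 ▸ hWm, ?_, ?_⟩
  · rw [hWeq]; exact submfd_of_chart hchart
  · intro x hx U1 φ hφ
    rw [hWeq] at hx ⊢
    obtain ⟨w, hw, rfl⟩ := hx
    have hwρ : w ∈ ball (0 : E k) ρ := ball_subset_ball (min_le_right _ _) hw
    obtain ⟨ha, hk1, hk2⟩ := F7d_aux hl hz hwρ
    have hu : ψ w ∈ ball (0 : E m) r := (hz.maps w hwρ).1
    have hpu : (b (ψ w)).1 + τ0 • (b (ψ w)).2 = p := by
      have := (hz.maps w hwρ).2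
      rw [hpb] at this
      exact sub_eq_zero.1 this
    rw [tanSet_chart hchart hw, ha.fderiv]
    have hH := fun a => hessNull_iff hb' hu hφ hτ.ne' a
    rw [hpu] at hH
    ext v'
    constructor
    · rintro ⟨y, rfl⟩
      obtain ⟨y', hy', -⟩ := phi_lift hb' hu hφ (fderiv ℝ ψ w y)
      refine ⟨y', (hH y').2 ⟨fderiv ℝ ψ w y, hy'.symm, hk1 y⟩, ?_⟩
      rw [hy']; rfl
    · rintro ⟨a, ha', rfl⟩
      obtain ⟨v, hv1, hv2⟩ := (hH a).1 ha'
      obtain ⟨y, hy⟩ := hk2 v hv2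
      refine ⟨y, ?_⟩
      rw [← hv1, ← hy]; rfl

end MPf7aa
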