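import Pool.Agent.Lib.MP_f7aa1b_gt.F5
import Pool.Agent.Lib.MP_f7aa1b_gt.F2c

/-!
F8. The fibres of the normal exponential map (x, ξ) -> x + s ξ on the unit normal bundle.
-/

open Set Filter Topology Metric MeasureTheory
open scoped ContDiff

namespace MPf7aa

theorem fibre_submfd_chart {m : ℕ} {M : Set (E (m + 1))} (hD : IsDupin M)
    {b0 : E (m + 1) × E (m + 1)} {U : Set (E m)} {b : E m → E (m + 1) × E (m + 1)}
    (h : IsChart m (UNB M) b0 U b) {s : ℝ} (hs : s ≠ 0) :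
    ∃ (k : ℕ) (W : Set (E (m + 1) × E (m + 1))), IsOpen W ∧ b0 ∈ W ∧
      IsSubmfd k ({y | y ∈ UNB M ∧ y.1 + s • y.2 = b0.1 + s • b0.2} ∩ W) ∧
      ∀ y ∈ ({y | y ∈ UNB M ∧ y.1 + s • y.2 = b0.1 + s • b0.2} ∩ W),
        TanSet ({y | y ∈ UNB M ∧ y.1 + s • y.2 = b0.1 + s • b0.2} ∩ W) y =
          PrincSpace M s⁻¹ y := by
  have hb0 : b 0 = b0 := h.base
  have hL := leg_of_chart h
  have hDS := dstar_of_dupin hD h
  obtain ⟨C, hC, hineq⟩ := legineq hL hDS h.zero hs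
  obtain ⟨k, ρ, ψ, hz⟩ := zchart_of_ineq hL h.zero s hC hineq
  -- smoothness of b ∘ ψ
  have hsm : ContDiffOn ℝ ∞ (fun w => b (ψ w)) (ball (0 : E k) ρ) :=
    h.smooth.comp hz.cψ (fun w hw => (hz.maps w hw).1)
  have hbd : ∀ u ∈ U, DifferentiableAt ℝ b u := fun u hu =>
    (h.smooth.contDiffAt (h.op.mem_nhds hu)).differentiableAt (by simp)
  have hψd : ∀ w ∈ ball (0 : E k) ρ, DifferentiableAt ℝ ψ w := fun w hw =>
    (hz.cψ.contDiffAt (isOpen_ball.mem_nhds hw)).differentiableAt (by simp)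
  have hfd : ∀ w ∈ ball (0 : E k) ρ, ∀ y, fderiv ℝ (fun w => b (ψ w)) w y =
      fderiv ℝ b (ψ w) (fderiv ℝ ψ w y) := by
    intro w hw y
    have h1 := (hbd (ψ w) (hz.maps w hw).1).hasFDerivAt
    have h2 := (hψd w hw).hasFDerivAt
    have h3 := (h1.comp w h2).fderiv
    have h4 : fderiv ℝ (fun w => b (ψ w)) w = (fderiv ℝ b (ψ w)).comp (fderiv ℝ ψ w) := h3
    rw [h4]; rfl
  have h00 : (0 : E k) ∈ ball (0 : E k) ρ := mem_ball_self hz.hρ
  have hinj : Function.Injective (fderiv ℝ (fun w => b (ψ w)) 0) := by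
    intro y1 y2 hy
    rw [hfd 0 h00, hfd 0 h00] at hy
    exact hz.imm 0 h00 (h.imm _ (hz.maps 0 h00).1 hy)
  obtain ⟨ρ0, hρ0, hch⟩ := isChart_of_imm isOpen_ball h00 hsm hinj
  set ρ1 := min ρ0 ρ with hρ1
  have hρ1pos : 0 < ρ1 := lt_min hρ0 hz.hρ
  obtain ⟨hsub, hchart⟩ := hch ρ1 hρ1pos (min_le_left _ _)
  obtain ⟨O, hO, hOU, hψO⟩ := hz.homeo (ball 0 ρ1) (ball_subset_ball (min_le_right _ _)) isOpen_ball
  obtain ⟨W, hW, hbW⟩ := h.homeo O hOU hO
  have hset : ({y | y ∈ UNB M ∧ y.1 + s • y.2 = b0.1 + s • b0.2} ∩ W) =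
      (fun w => b (ψ w)) '' ball (0 : E k) ρ1 := by
    ext y
    constructor
    · rintro ⟨⟨hy1, hy2⟩, hyW⟩
      have : y ∈ b '' O := by rw [hbW]; exact ⟨hy1, hyW⟩
      obtain ⟨u, huO, rfl⟩ := this
      have hu : u ∈ ψ '' ball 0 ρ1 := by
        rw [hψO]
        refine ⟨huO, ?_⟩
        show (b u).1 + s • (b u).2 - ((b 0).1 + s • (b 0).2) = 0
        rw [hb0, hy2, sub_self]
      obtain ⟨w, hw, rfl⟩ := hu
      exact ⟨w, hw, rfl⟩
    · rintro ⟨w, hw, rfl⟩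
      have hu : ψ w ∈ {u | u ∈ O ∧ (fun u => (b u).1 + s • (b u).2 - ((b 0).1 + s • (b 0).2)) u = 0} := by
        rw [← hψO]; exact ⟨w, hw, rfl⟩
      have h1 : b (ψ w) ∈ UNB M ∩ W := by rw [← hbW]; exact ⟨_, hu.1, rfl⟩
      refine ⟨⟨h1.1, ?_⟩, h1.2⟩
      have h2 : (b (ψ w)).1 + s • (b (ψ w)).2 - ((b 0).1 + s • (b 0).2) = 0 := hu.2
      rw [hb0] at h2
      exact sub_eq_zero.mp h2
  have hb0W : b0 ∈ W := by
    have : b0 ∈ (fun w => b (ψ w)) '' ball (0 : E k) ρ1 :=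
      ⟨0, mem_ball_self hρ1pos, by show b (ψ 0) = b0; rw [hz.ψ0, hb0]⟩
    rw [← hset] at this
    exact this.2
  refine ⟨k, W, hW, hb0W, ?_, ?_⟩
  · rw [hset]; exact submfd_of_chart hchart
  · rw [hset]
    rintro y ⟨w, hw, rfl⟩
    have hwρ : w ∈ ball (0 : E k) ρ := ball_subset_ball (min_le_right _ _) hw
    have hwU := (hz.maps w hwρ).1
    have ht := tanSet_chart hchart hw
    show TanSet _ ((fun w => b (ψ w)) w) = PrincSpace M s⁻¹ (b (ψ w))
    rw [ht]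
    ext v
    rw [princ_iff h hwU]
    -- kernel of dz
    have hzd : ∀ v, fderiv ℝ (fun u => (b u).1 + s • (b u).2 - ((b 0).1 + s • (b 0).2)) (ψ w) v =
        fderiv ℝ (fun u => (b u).1) (ψ w) v + s • fderiv ℝ (fun u => (b u).2) (ψ w) v := by
      intro v
      have hd1 : DifferentiableAt ℝ (fun u => (b u).1) (ψ w) := (hbd _ hwU).fst
      have hd2 : DifferentiableAt ℝ (fun u => (b u).2) (ψ w) := (hbd _ hwU).snd
      have h1 := ((hd1.hasFDerivAt.add (hd2.hasFDerivAt.const_smul s)).sub_const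
        ((b 0).1 + s • (b 0).2)).fderiv
      have h2 : fderiv ℝ (fun u => (b u).1 + s • (b u).2 - ((b 0).1 + s • (b 0).2)) (ψ w) =
        fderiv ℝ (fun u => (b u).1) (ψ w) + s • fderiv ℝ (fun u => (b u).2) (ψ w) := h1
      rw [h2]; rfl
    have hequiv : ∀ v, (fderiv ℝ (fun u => (b u).2) (ψ w) v +
        s⁻¹ • fderiv ℝ (fun u => (b u).1) (ψ w) v = 0 ↔
        fderiv ℝ (fun u => (b u).1) (ψ w) v + s • fderiv ℝ (fun u => (b u).2) (ψ w) v = 0) := by
      intro v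
      constructor
      · intro hv
        have := congrArg (fun x => s • x) hv
        simp only [smul_add, smul_smul, mul_inv_cancel₀ hs, one_smul, smul_zero] at this
        exact (add_comm _ _).trans this
      · intro hv
        have := congrArg (fun x => s⁻¹ • x) hv
        simp only [smul_add, smul_smul, inv_mul_cancel₀ hs, one_smul, smul_zero] at this
        exact (add_comm _ _).trans this
    constructor
    · rintro ⟨y, hy⟩
      have hy' : fderiv ℝ (fun w => b (ψ w)) w y = v := hy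
      rw [hfd w hwρ] at hy'
      refine ⟨fderiv ℝ ψ w y, by rw [hy'], (hequiv _).2 ?_⟩
      rw [← hzd (fderiv ℝ ψ w y)]
      have hconst : (fun w' => (fun u => (b u).1 + s • (b u).2 - ((b 0).1 + s • (b 0).2)) (ψ w')) =ᶠ[𝓝 w]
          fun _ => 0 := by
        filter_upwards [isOpen_ball.mem_nhds hwρ] with w' hw'
        exact (hz.maps w' hw').2
      have hd1 : DifferentiableAt ℝ (fun u => (b u).1) (ψ w) := (hbd _ hwU).fst
      have hd2 : DifferentiableAt ℝ (fun u => (b u).2) (ψ w) := (hbd _ hwU).snd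
      have hdz : DifferentiableAt ℝ (fun u => (b u).1 + s • (b u).2 - ((b 0).1 + s • (b 0).2)) (ψ w) :=
        (hd1.add (hd2.const_smul s)).sub_const _
      have h3 := (hdz.hasFDerivAt.comp w (hψd w hwρ).hasFDerivAt).fderiv
      have h4 := hconst.fderiv_eq (𝕜 := ℝ)
      have h5 : fderiv ℝ (fun w' => (fun u => (b u).1 + s • (b u).2 - ((b 0).1 + s • (b 0).2)) (ψ w')) w =
        (fderiv ℝ (fun u => (b u).1 + s • (b u).2 - ((b 0).1 + s • (b 0).2)) (ψ w)).comp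
          (fderiv ℝ ψ w) := h3
      rw [h5] at h4
      have h6 := congrArg (fun L => L y) h4
      simpa using h6
    · rintro ⟨v', rfl, hv'⟩
      have hv'' := (hequiv v').1 hv'
      rw [← hzd v'] at hv''
      obtain ⟨y, hy⟩ := hz.ker w hwρ v' hv''
      refine ⟨y, ?_⟩
      show fderiv ℝ (fun w => b (ψ w)) w y = _
      rw [hfd w hwρ, hy]

/-- every fibre of the normal exponential map at distance s != 0 is a submanifold of the unit
normal bundle, with tangent space the principal space -/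
theorem fibre_submfd {m d : ℕ} {M : Set (E (m + 1))} (hM : IsSubmfd d M) (hD : IsDupin M)
    {b0 : E (m + 1) × E (m + 1)} (hb0 : b0 ∈ UNB M) {s : ℝ} (hs : s ≠ 0) :
    ∃ (k : ℕ) (W : Set (E (m + 1) × E (m + 1))), IsOpen W ∧ b0 ∈ W ∧
      IsSubmfd k ({y | y ∈ UNB M ∧ y.1 + s • y.2 = b0.1 + s • b0.2} ∩ W) ∧
      ∀ y ∈ ({y | y ∈ UNB M ∧ y.1 + s • y.2 = b0.1 + s • b0.2} ∩ W),
        TanSet ({y | y ∈ UNB M ∧ y.1 + s • y.2 = b0.1 + s • b0.2} ∩ W) y =
          PrincSpace M s⁻¹ y := by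
  obtain ⟨U, b, hb⟩ := unb_submfd hM b0 hb0
  exact fibre_submfd_chart hD hb hs

end MPf7aa
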