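import Pool.Agent.Lib.MP_f7aa1b_gt.Defs

/-!
Definition of tautness for MP_f7aa1b_gt, with Mathlib's singular homology.
-/

open Set Filter Topology Metric CategoryTheory
open scoped ContDiff

namespace MPf7aa

/-- The distance function L_p is a Morse function on the d-dimensional submanifold M: at each
critical point the Hessian is nondegenerate. -/
def IsMorse {n : ℕ} (d : ℕ) (M : Set (E n)) (p : E n) : Prop :=
  ∀ x ∈ CritSet M p, ∀ (U : Set (E d)) (φ : E d → E n), IsChart d M x U φ → HessNull p φ = {0}

/-- Singular homology of the space M with coefficients in Z_2 -/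
noncomputable def HomZ2 {n : ℕ} (M : Set (E n)) (i : ℕ) : ModuleCat (ZMod 2) :=
  ((AlgebraicTopology.singularHomologyFunctor (ModuleCat (ZMod 2)) i).obj
    (ModuleCat.of (ZMod 2) (ZMod 2))).obj (TopCat.of M)

/-- M is taut: every L_p that is a Morse function has (finitely many and) exactly
dim H_0(M; Z_2) + dim H_1(M; Z_2) + ... critical points, as an equality of cardinal numbers. -/
def IsTaut {n : ℕ} (d : ℕ) (M : Set (E n)) : Prop :=
  ∀ p : E n, IsMorse d M p → (CritSet M p).Finite ∧
    Cardinal.mk (CritSet M p) = Cardinal.sum fun i : ℕ => Module.rank (ZMod 2) (HomZ2 M i)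

end MPf7aa
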