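import Pool.Agent.Lib.MP_f7aa1b_gt.T5

/-!
Row L1. First facts about Core (all short).
low_norm: strong_convex for p = 0, W = closedBall 0 R, u := 0, w := u gives
LL X 0 0 + <dX(0) u, X 0> + c/2 |u|^2 <= LL X 0 u; X 0 = 0, so c/2 |u|^2 <= r0^2/2 < c R^2/2.
isCompact_sub: closedBall is compact, LL X 0 is continuous on it (continuousOn_LL).
uniq0: unique_crit with p = 0, w = 0 (0 is critical because X 0 = 0). not_crit0: contrapositive.
GG_pos: field imm. HH_zero_pos: field conv.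
level_interior: {u in closedBall 0 R, LL X 0 u < r0^2/2} is a neighbourhood of each of its points
(by low_norm the point is in the open ball; continuity).
-/

open Set Filter Topology Metric MeasureTheory
open scoped ContDiff

namespace MPf7aa

theorem LL_zero {m : ℕ} {X : E m → E (m + 1)} {U : Set (E m)} {R r0 : ℝ} {η : E (m + 1)} {σ : ℝ}
    {P Bad : Set (E (m + 1))} (h : Core X U R r0 η σ P Bad) : LL X 0 0 = 0 := by
  unfold LL
  rw [h.X0]
  simp

theorem low_norm {m : ℕ} {X : E m → E (m + 1)} {U : Set (E m)} {R r0 : ℝ} {η : E (m + 1)} {σ : ℝ}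
    {P Bad : Set (E (m + 1))} (h : Core X U R r0 η σ P Bad) {u : E m}
    (hu : u ∈ closedBall (0 : E m) R) (hl : LL X 0 u ≤ r0 ^ 2 / 2) : ‖u‖ < R := by
  obtain ⟨c, hc, hr, hconv⟩ := h.conv
  have h0 : (0 : E m) ∈ closedBall (0 : E m) R := mem_closedBall_self h.hR.le
  have h1 := strong_convex h.op h.cX (p := 0) (convex_closedBall (0 : E m) R) h.ball
    (fun z hz v => hconv z hz v) h0 hu
  rw [LL_zero h, h.X0, sub_zero, sub_zero, inner_zero_right] at h1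
  by_contra hlt
  have h2 : R ≤ ‖u‖ := not_lt.1 hlt
  have h3 : R ^ 2 ≤ ‖u‖ ^ 2 := pow_le_pow_left₀ h.hR.le h2 2
  nlinarith

theorem X_norm_le {m : ℕ} {X : E m → E (m + 1)} {U : Set (E m)} {R r0 : ℝ} {η : E (m + 1)} {σ : ℝ}
    {P Bad : Set (E (m + 1))} (h : Core X U R r0 η σ P Bad) {u : E m}
    (hl : LL X 0 u ≤ r0 ^ 2 / 2) : ‖X u‖ ≤ r0 := by
  unfold LL at hl
  rw [sub_zero] at hl
  have h1 : ‖X u‖ ^ 2 ≤ r0 ^ 2 := by linarith
  exact (pow_le_pow_iff_left₀ (norm_nonneg _) h.hr0.le (by norm_num)).1 h1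

theorem isCompact_sub {m : ℕ} {X : E m → E (m + 1)} {U : Set (E m)} {R r0 : ℝ} {η : E (m + 1)}
    {σ : ℝ} {P Bad : Set (E (m + 1))} (h : Core X U R r0 η σ P Bad) (ρ : ℝ) :
    IsCompact {u : E m | u ∈ closedBall (0 : E m) R ∧ LL X 0 u ≤ ρ} := by
  have h1 : ContinuousOn (fun u : E m => LL X 0 u) (closedBall (0 : E m) R) := by
    have h2 := continuousOn_LL h.cX
    exact h2.comp (f := fun u : E m => ((0 : E (m + 1)), u)) (by fun_prop) (fun u hu => h.ball hu)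
  have h3 : IsClosed {u : E m | u ∈ closedBall (0 : E m) R ∧ LL X 0 u ≤ ρ} :=
    h1.preimage_isClosed_of_isClosed isClosed_closedBall isClosed_Iic
  exact (isCompact_closedBall (0 : E m) R).of_isClosed_subset h3 (fun u hu => hu.1)

theorem uniq0 {m : ℕ} {X : E m → E (m + 1)} {U : Set (E m)} {R r0 : ℝ} {η : E (m + 1)} {σ : ℝ}
    {P Bad : Set (E (m + 1))} (h : Core X U R r0 η σ P Bad) {u : E m}
    (hu : u ∈ closedBall (0 : E m) R) (hc : Crit X 0 u) : u = 0 := by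
  have hc' := hc
  obtain ⟨c, hc, hr, hconv⟩ := h.conv
  refine unique_crit h.op h.cX (p := 0) (convex_closedBall (0 : E m) R) h.ball hc
    (fun z hz v => hconv z hz v) hu (mem_closedBall_self h.hR.le) hc' ?_
  intro v
  rw [h.X0, sub_zero, inner_zero_right]

theorem not_crit0 {m : ℕ} {X : E m → E (m + 1)} {U : Set (E m)} {R r0 : ℝ} {η : E (m + 1)}
    {σ : ℝ} {P Bad : Set (E (m + 1))} (h : Core X U R r0 η σ P Bad) {u : E m}
    (hu : u ∈ closedBall (0 : E m) R) (h0 : u ≠ 0) :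
    ∃ n : E m, inner ℝ (fderiv ℝ X u n) (X u) ≠ 0 := by
  by_contra hcon
  push Not at hcon
  apply h0
  apply uniq0 h hu
  intro v
  rw [sub_zero]
  exact hcon v

theorem GG_pos {m : ℕ} {X : E m → E (m + 1)} {U : Set (E m)} {R r0 : ℝ} {η : E (m + 1)} {σ : ℝ}
    {P Bad : Set (E (m + 1))} (h : Core X U R r0 η σ P Bad) {u : E m}
    (hu : u ∈ closedBall (0 : E m) R) {v : E m} (hv : v ≠ 0) : 0 < GG X u v v := by
  obtain ⟨c, hc, himm⟩ := h.imm
  have h1 := himm u hu v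
  have h2 : 0 < ‖v‖ := norm_pos_iff.2 hv
  have h3 : 0 < ‖fderiv ℝ X u v‖ := lt_of_lt_of_le (mul_pos hc h2) h1
  unfold GG
  rw [real_inner_self_eq_norm_sq]
  exact pow_pos h3 2

theorem HH_zero_pos {m : ℕ} {X : E m → E (m + 1)} {U : Set (E m)} {R r0 : ℝ} {η : E (m + 1)}
    {σ : ℝ} {P Bad : Set (E (m + 1))} (h : Core X U R r0 η σ P Bad) {u : E m}
    (hu : u ∈ closedBall (0 : E m) R) {v : E m} (hv : v ≠ 0) : 0 < HH X 0 u v v := by
  obtain ⟨c, hc, hr, hconv⟩ := h.conv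
  have h1 := hconv u hu v
  have h2 : 0 < ‖v‖ := norm_pos_iff.2 hv
  exact lt_of_lt_of_le (mul_pos hc (pow_pos h2 2)) h1

theorem level_interior {m : ℕ} {X : E m → E (m + 1)} {U : Set (E m)} {R r0 : ℝ} {η : E (m + 1)}
    {σ : ℝ} {P Bad : Set (E (m + 1))} (h : Core X U R r0 η σ P Bad) {u : E m}
    (hu : u ∈ closedBall (0 : E m) R) {ρ : ℝ} (hρ : ρ ≤ r0 ^ 2 / 2) (hl : LL X 0 u < ρ) :
    ∃ δ : ℝ, 0 < δ ∧ ∀ w ∈ closedBall u δ, w ∈ closedBall (0 : E m) R ∧ LL X 0 w < ρ := by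
  have h1 : ‖u‖ < R := low_norm h hu (hl.le.trans hρ)
  have h2 : closedBall (0 : E m) R ∈ 𝓝 u :=
    Filter.mem_of_superset (isOpen_ball.mem_nhds (mem_ball_zero_iff.2 h1)) ball_subset_closedBall
  have h3 : ContinuousOn (fun u : E m => LL X 0 u) (closedBall (0 : E m) R) := by
    have h2 := continuousOn_LL h.cX
    exact h2.comp (f := fun u : E m => ((0 : E (m + 1)), u)) (by fun_prop) (fun u hu => h.ball hu)
  have h4 : ContinuousAt (fun u : E m => LL X 0 u) u := h3.continuousAt h2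
  have h5 : ∀ᶠ w in 𝓝 u, w ∈ closedBall (0 : E m) R ∧ LL X 0 w < ρ :=
    (eventually_of_mem h2 (fun _ h => h)).and (h4.eventually (gt_mem_nhds hl))
  obtain ⟨δ, hδ, hsub⟩ := Metric.nhds_basis_closedBall.eventually_iff.1 h5
  exact ⟨δ, hδ, fun w hw => hsub hw⟩

end MPf7aa
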