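import Pool.Agent.Lib.MP_f7aa1b_gt.T7

/-!
Row T8. Second order necessary condition for a minimum on a level set of Q = LL X 0, when the
unconstrained gradient vanishes.
Hypotheses: u in U, there is a vector n with dQ(u) n = <dX u n, X u> != 0; u is critical for L_p;
L_p(u) <= L_p(w) for all w near u with Q(w) = Q(u). Claim: HH X p u v v >= 0 for v in ker dQ(u).
Proof. Suppose h := HH X p u v v < 0. Work in a small closed ball around u contained in U (T7 with
a = u). For small tau > 0 and |a| <= K tau^2 let w(tau,a) = u + tau v + a n. Taylor (taylor with p := 0)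
gives |Q(w(tau,a)) - Q(u) - a dQ(u) n| <= C' tau^2 (C' independent of K as soon as tau is small
depending on K; here dQ(u) v = 0 is used). With K := 2C'/|dQ(u)n| the continuous function
a -> Q(w(tau,a)) - Q(u) has opposite signs at a = K tau^2 and a = -K tau^2, so it vanishes for some
|a| <= K tau^2. At this point L_p(w) - L_p(u) <= (1/2) HH(tau v + a n, tau v + a n) + C tau^3
<= (1/2) tau^2 h + C'' tau^3 < 0 for small tau, a contradiction.
-/

open Set Filter Topology Metric MeasureTheory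
open scoped ContDiff

namespace MPf7aa

theorem T8_ev (A B : ℝ) (hB : 0 < B) : ∀ᶠ τ in 𝓝[>] (0 : ℝ), τ * A < B := by
  have h1 : Tendsto (fun τ : ℝ => τ * A) (𝓝[>] (0 : ℝ)) (𝓝 0) := by
    have h2 : Tendsto (fun τ : ℝ => τ * A) (𝓝 (0 : ℝ)) (𝓝 (0 * A)) :=
      (continuous_id.mul continuous_const).tendsto 0
    rw [zero_mul] at h2
    exact h2.mono_left nhdsWithin_le_nhds
  exact h1.eventually (gt_mem_nhds hB)

theorem T8_HH {m k : ℕ} (X : E m → E k) (p : E k) (u v n : E m) (τ a : ℝ) :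
    HH X p u (τ • v + a • n) (τ • v + a • n) = τ ^ 2 * HH X p u v v +
      τ * a * (HH X p u v n + HH X p u n v) + a ^ 2 * HH X p u n n := by
  simp only [HH, map_add, map_smul, ContinuousLinearMap.add_apply, ContinuousLinearMap.smul_apply,
    inner_add_left, inner_add_right, real_inner_smul_left, real_inner_smul_right]
  ring

theorem second_order_constr {m k : ℕ} {U : Set (E m)} {X : E m → E k} (hU : IsOpen U)
    (hX : ContDiffOn ℝ ∞ X U) {p : E k} {u : E m} (hu : u ∈ U) (hcrit : Crit X p u)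
    {n : E m} (hn : inner ℝ (fderiv ℝ X u n) (X u) ≠ 0)
    (hmin : ∀ᶠ w in 𝓝 u, LL X 0 w = LL X 0 u → LL X p u ≤ LL X p w)
    {v : E m} (hv : inner ℝ (fderiv ℝ X u v) (X u) = 0) :
    0 ≤ HH X p u v v := by
  by_contra hneg
  have hneg : HH X p u v v < 0 := not_le.1 hneg
  set hh := HH X p u v v with hhh
  set d : ℝ := inner ℝ (fderiv ℝ X u n) (X u) with hd
  obtain ⟨R, hR0, hR⟩ := Metric.nhds_basis_closedBall.mem_iff.1 (hU.mem_nhds hu)
  obtain ⟨ε, hε0, hε⟩ := Metric.eventually_nhds_iff_ball.1 hmin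
  obtain ⟨C, hC, -, -, -, -, -, hLL, hHH⟩ := taylor hU hX hR
  have huR : u ∈ closedBall u R := mem_closedBall_self hR0.le
  set M : ℝ := C * (1 + ‖p‖) with hM
  have hM0 : 0 < M := mul_pos hC (by positivity)
  set B : ℝ := ‖v‖ + 1 with hB
  have hB0 : 0 < B := by positivity
  set C' : ℝ := (3 / 2) * C * B ^ 2 with hC'
  have hC'0 : 0 < C' := by positivity
  have hd0 : 0 < |d| := abs_pos.2 hn
  set K : ℝ := 2 * C' / |d| with hK
  have hK0 : 0 < K := by positivity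
  set D : ℝ := K * M * ‖v‖ * ‖n‖ + (1 / 2) * K ^ 2 * M * ‖n‖ ^ 2 + M * B ^ 3 with hD
  -- choice of τ
  have hev := ((((((T8_ev B R hR0).and (T8_ev B 1 one_pos)).and (T8_ev (K * ‖n‖) 1 one_pos)).and
    (T8_ev B ε hε0)).and (T8_ev D (-hh / 2) (by linarith))).and (T8_ev 1 1 one_pos)).and
    (self_mem_nhdsWithin : ∀ᶠ τ in 𝓝[>] (0 : ℝ), τ ∈ Ioi (0 : ℝ))
  obtain ⟨τ, ⟨⟨⟨⟨⟨hτR, hτ1⟩, hτn⟩, hτε⟩, hτD⟩, hτ2⟩, hτ0⟩ := hev.exists
  have hτ0 : 0 < τ := hτ0
  rw [mul_one] at hτ2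
  have hτsq : 0 < τ ^ 2 := by positivity
  -- size of the displacement
  have hnorm : ∀ a : ℝ, |a| ≤ K * τ ^ 2 → ‖τ • v + a • n‖ ≤ τ * B := by
    intro a ha
    have h1 : ‖τ • v + a • n‖ ≤ τ * ‖v‖ + |a| * ‖n‖ := by
      refine (norm_add_le _ _).trans ?_
      rw [norm_smul, norm_smul, Real.norm_eq_abs, Real.norm_eq_abs, abs_of_pos hτ0]
    have h2 : |a| * ‖n‖ ≤ τ * 1 := by
      calc |a| * ‖n‖ ≤ (K * τ ^ 2) * ‖n‖ := mul_le_mul_of_nonneg_right ha (norm_nonneg _)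
        _ = τ * (τ * (K * ‖n‖)) := by ring
        _ ≤ τ * 1 := mul_le_mul_of_nonneg_left hτn.le hτ0.le
    rw [hB]; linarith
  have hmem : ∀ a : ℝ, |a| ≤ K * τ ^ 2 → u + (τ • v + a • n) ∈ closedBall u R := by
    intro a ha
    rw [mem_closedBall, dist_eq_norm, add_sub_cancel_left]
    exact (hnorm a ha).trans hτR.le
  -- the constraint
  have hQ : ∀ a : ℝ, |a| ≤ K * τ ^ 2 →
      |LL X 0 (u + (τ • v + a • n)) - LL X 0 u - a * d| ≤ C' * τ ^ 2 := by
    intro a ha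
    have h1 := hLL 0 u huR _ (hmem a ha)
    rw [add_sub_cancel_left] at h1
    have h2 := hHH 0 u huR (τ • v + a • n) (τ • v + a • n)
    rw [norm_zero, add_zero, mul_one] at h1 h2
    have h3 : inner ℝ (fderiv ℝ X u (τ • v + a • n)) (X u - 0) = a * d := by
      rw [sub_zero, map_add, map_smul, map_smul, inner_add_left, real_inner_smul_left,
        real_inner_smul_left, hv, mul_zero, zero_add]
    rw [h3] at h1
    have h4 := hnorm a ha
    have h5 : (0 : ℝ) ≤ ‖τ • v + a • n‖ := norm_nonneg _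
    have h6 : ‖τ • v + a • n‖ ≤ 1 := h4.trans hτ1.le
    have h7 : ‖τ • v + a • n‖ ^ 2 ≤ τ ^ 2 * B ^ 2 := by
      rw [← mul_pow]; exact pow_le_pow_left₀ h5 h4 2
    have h8 : ‖τ • v + a • n‖ ^ 3 ≤ ‖τ • v + a • n‖ ^ 2 := pow_le_pow_of_le_one h5 h6 (by norm_num)
    have h9 : C * ‖τ • v + a • n‖ ^ 3 ≤ C * (τ ^ 2 * B ^ 2) :=
      mul_le_mul_of_nonneg_left (h8.trans h7) hC.le
    have h10 : C * ‖τ • v + a • n‖ * ‖τ • v + a • n‖ ≤ C * (τ ^ 2 * B ^ 2) := by
      have : C * ‖τ • v + a • n‖ * ‖τ • v + a • n‖ = C * ‖τ • v + a • n‖ ^ 2 := by ring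
      rw [this]; exact mul_le_mul_of_nonneg_left h7 hC.le
    rw [abs_le] at h1 h2 ⊢
    have h11 : C' * τ ^ 2 = (3 / 2) * (C * (τ ^ 2 * B ^ 2)) := by rw [hC']; ring
    rw [h11]
    constructor <;> linarith [h1.1, h1.2, h2.1, h2.2]
  -- intermediate value
  obtain ⟨a, ha, haQ⟩ : ∃ a : ℝ, |a| ≤ K * τ ^ 2 ∧ LL X 0 (u + (τ • v + a • n)) = LL X 0 u := by
    have hKτ : 0 ≤ K * τ ^ 2 := by positivity
    have hcont : ContinuousOn (fun a : ℝ => LL X 0 (u + (τ • v + a • n)))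
        (Icc (-(K * τ ^ 2)) (K * τ ^ 2)) := by
      have h1 : ContinuousOn (fun a : ℝ => X (u + (τ • v + a • n)))
          (Icc (-(K * τ ^ 2)) (K * τ ^ 2)) := by
        apply hX.continuousOn.comp (by fun_prop)
        intro a ha
        exact hR (hmem a (abs_le.2 ha))
      unfold LL
      exact ContinuousOn.mul continuousOn_const ((h1.sub continuousOn_const).norm.pow 2)
    have hKd : K * |d| = 2 * C' := by rw [hK]; field_simp
    have e1 := hQ (K * τ ^ 2) (by rw [abs_of_nonneg hKτ])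
    have e2 := hQ (-(K * τ ^ 2)) (by rw [abs_neg, abs_of_nonneg hKτ])
    rw [abs_le] at e1 e2
    have e3 : 0 < C' * τ ^ 2 := by positivity
    have hle : -(K * τ ^ 2) ≤ K * τ ^ 2 := by linarith
    rcases lt_or_gt_of_ne hn with hneg' | hpos'
    · have e4 : K * τ ^ 2 * d = -(2 * (C' * τ ^ 2)) := by
        have : |d| = -d := abs_of_neg hneg'
        rw [this] at hKd
        linear_combination (-τ ^ 2) * hKd
      obtain ⟨a, ha, hz⟩ := intermediate_value_Icc' hle hcont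
        (show LL X 0 u ∈ Icc _ _ from ⟨by linarith [e1.2], by linarith [e2.1]⟩)
      exact ⟨a, abs_le.2 ha, hz⟩
    · have e4 : K * τ ^ 2 * d = 2 * (C' * τ ^ 2) := by
        have : |d| = d := abs_of_pos hpos'
        rw [this] at hKd
        linear_combination (τ ^ 2) * hKd
      obtain ⟨a, ha, hz⟩ := intermediate_value_Icc hle hcont
        (show LL X 0 u ∈ Icc _ _ from ⟨by linarith [e2.2], by linarith [e1.1]⟩)
      exact ⟨a, abs_le.2 ha, hz⟩
  -- comparison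
  have hball : u + (τ • v + a • n) ∈ ball u ε := by
    rw [mem_ball, dist_eq_norm, add_sub_cancel_left]
    exact (hnorm a ha).trans_lt hτε
  have hge := hε _ hball haQ
  have h1 := hLL p u huR _ (hmem a ha)
  rw [add_sub_cancel_left, hcrit, sub_zero, T8_HH, ← hhh] at h1
  have h2 := hHH p u huR v n
  have h3 := hHH p u huR n v
  have h4 := hHH p u huR n n
  have h5 := hnorm a ha
  have h6 : M * ‖τ • v + a • n‖ ^ 3 ≤ M * (τ * B) ^ 3 :=
    mul_le_mul_of_nonneg_left (pow_le_pow_left₀ (norm_nonneg _) h5 3) hM0.le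
  have h7 : |τ * a * (HH X p u v n + HH X p u n v)| ≤ 2 * K * M * ‖v‖ * ‖n‖ * τ ^ 3 := by
    rw [abs_mul, abs_mul, abs_of_pos hτ0]
    have h8 : |HH X p u v n + HH X p u n v| ≤ 2 * (M * ‖v‖ * ‖n‖) := by
      refine (abs_add_le _ _).trans ?_
      have : M * ‖n‖ * ‖v‖ = M * ‖v‖ * ‖n‖ := by ring
      linarith
    calc τ * |a| * |HH X p u v n + HH X p u n v|
        ≤ τ * (K * τ ^ 2) * (2 * (M * ‖v‖ * ‖n‖)) := by
          apply mul_le_mul _ h8 (abs_nonneg _) (by positivity)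
          exact mul_le_mul_of_nonneg_left ha hτ0.le
      _ = 2 * K * M * ‖v‖ * ‖n‖ * τ ^ 3 := by ring
  have h9 : |a ^ 2 * HH X p u n n| ≤ K ^ 2 * M * ‖n‖ ^ 2 * τ ^ 3 := by
    rw [abs_mul, abs_pow]
    calc |a| ^ 2 * |HH X p u n n| ≤ (K * τ ^ 2) ^ 2 * (M * ‖n‖ * ‖n‖) := by
          apply mul_le_mul _ h4 (abs_nonneg _) (by positivity)
          exact pow_le_pow_left₀ (abs_nonneg _) ha 2
      _ = K ^ 2 * M * ‖n‖ ^ 2 * τ ^ 3 * τ := by ring
      _ ≤ K ^ 2 * M * ‖n‖ ^ 2 * τ ^ 3 * 1 := by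
          apply mul_le_mul_of_nonneg_left hτ2.le (by positivity)
      _ = _ := by ring
  have h10 : τ ^ 2 * (hh / 2 + τ * D) < 0 := mul_neg_of_pos_of_neg hτsq (by linarith)
  have h11 : τ ^ 2 * (τ * D) = (1 / 2) * (2 * K * M * ‖v‖ * ‖n‖ * τ ^ 3) +
      (1 / 2) * (K ^ 2 * M * ‖n‖ ^ 2 * τ ^ 3) + M * (τ * B) ^ 3 := by rw [hD]; ring
  rw [mul_add, h11] at h10
  rw [abs_le] at h1 h7 h9
  linarith [h1.2, h7.2, h9.2]

end MPf7aa
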