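import Pool.Agent.Lib.MP_f7aa1b_gt.I0
import Pool.Agent.Lib.MP_f7aa1b_gt.L1
import Pool.Agent.Lib.MP_f7aa1b_gt.T8

/-!
Row I1. Case I data. Proof. m > 0 because us != 0. GG X us and HH X (t eta) us are BForms
(T2: HH_symm etc.; us in U). pencil_min gives mu, e with H e v = mu G e v, mu G v v <= H v v, |e| = 1;
some v has H v v < 0, so mu < 0 (G v v > 0, GG_pos). s1 := 1/(1 - mu) in (0,1), (1 - s1) + s1 mu = 0, so
ker and nn hold. <dX us e, X us> != 0: otherwise second_order_constr (T8, n from not_crit0, minimum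
property: near us all points are in closedBall 0 R because |us| < R by low_norm) gives
0 <= H e e = mu G e e < 0. If it is positive replace e by - e (ker is linear in e).
-/

open Set Filter Topology Metric MeasureTheory
open scoped ContDiff

namespace MPf7aa

theorem bform_GG {m k : ℕ} (X : E m → E k) (u : E m) : BForm (GG X u) := by
  constructor
  · intro a b
    exact real_inner_comm _ _
  · intro a b c
    unfold GG
    rw [map_add, inner_add_left]
  · intro r a c
    unfold GG
    rw [map_smul, real_inner_smul_left]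
  · unfold GG
    exact (fderiv ℝ X u).continuous.inner (fderiv ℝ X u).continuous

theorem bform_HH {m k : ℕ} {U : Set (E m)} {X : E m → E k} (hU : IsOpen U)
    (hX : ContDiffOn ℝ ∞ X U) (p : E k) {u : E m} (hu : u ∈ U) : BForm (HH X p u) := by
  refine ⟨fun a b => HH_symm hU hX p hu a b, fun a b c => HH_add_left X p u a b c,
    fun r a c => HH_smul_left X p u a c r, ?_⟩
  unfold HH
  exact ((fderiv ℝ X u).continuous.inner (fderiv ℝ X u).continuous).add
    (((fderiv ℝ (fderiv ℝ X) u).continuous.clm_apply continuous_id).inner continuous_const)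

theorem caseI_exists {m : ℕ} {X : E m → E (m + 1)} {U : Set (E m)} {R r0 : ℝ} {η : E (m + 1)}
    {σ : ℝ} {P Bad : Set (E (m + 1))} (h : Core X U R r0 η σ P Bad) {us : E m}
    (hus : us ∈ closedBall (0 : E m) R) (h0 : us ≠ 0) (lev : LL X 0 us < r0 ^ 2 / 2)
    {t : ℝ} (t0 : 0 < t) (tσ : t < σ) (hc : Crit X (t • η) us)
    (hmin : ∀ u ∈ closedBall (0 : E m) R, LL X 0 u = LL X 0 us →
        LL X (t • η) us ≤ LL X (t • η) u)
    (hn : ¬ ∀ v, 0 ≤ HH X (t • η) us v v) :
    ∃ (s1 : ℝ) (e : E m), CaseI X U R r0 η σ P Bad us t s1 e := by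
  have husU : us ∈ U := h.ball hus
  have hm : 0 < m := by
    rcases Nat.eq_zero_or_pos m with hm | hm
    · exfalso
      subst hm
      exact h0 (Subsingleton.elim _ _)
    · exact hm
  have hG := bform_GG X us
  have hH := bform_HH h.op h.cX (t • η) husU
  obtain ⟨μ, e, he, hker, hμ⟩ := pencil_min hm hG hH (fun v hv => GG_pos h hus hv)
  push Not at hn
  obtain ⟨v, hv⟩ := hn
  have hv0 : v ≠ 0 := by
    rintro rfl
    have h1 := hH.smul 0 (0 : E m) 0
    rw [zero_smul, zero_mul] at h1
    rw [h1] at hv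
    exact lt_irrefl _ hv
  have hGv := GG_pos h hus hv0
  have hμ0 : μ < 0 := by
    by_contra hcon
    push Not at hcon
    have h1 := hμ v
    have h2 : 0 ≤ μ * GG X us v v := mul_nonneg hcon hGv.le
    linarith
  have hpos : 0 < 1 - μ := by linarith
  have hs : (1 - 1 / (1 - μ)) + 1 / (1 - μ) * μ = 0 := by
    have : (1 - 1 / (1 - μ)) + 1 / (1 - μ) * μ = 1 - 1 / (1 - μ) * (1 - μ) := by ring
    rw [this, one_div, inv_mul_cancel₀ hpos.ne', sub_self]
  have he0 : e ≠ 0 := by
    rintro rfl
    rw [norm_zero] at he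
    exact zero_ne_one he
  have hne : inner ℝ (fderiv ℝ X us e) (X us) ≠ 0 := by
    intro hzero
    obtain ⟨n, hn'⟩ := not_crit0 h hus h0
    have hR := low_norm h hus lev.le
    have hmin' : ∀ᶠ w in 𝓝 us, LL X 0 w = LL X 0 us → LL X (t • η) us ≤ LL X (t • η) w := by
      have : us ∈ ball (0 : E m) R := by rw [mem_ball_zero_iff]; exact hR
      filter_upwards [isOpen_ball.mem_nhds this] with w hw hl
      exact hmin w (ball_subset_closedBall hw) hl
    have h1 := second_order_constr h.op h.cX husU hc hn' hmin' hzero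
    rw [hker e] at h1
    have h2 := GG_pos h hus he0
    have h3 : μ * GG X us e e < 0 := mul_neg_of_neg_of_pos hμ0 h2
    linarith
  have main : ∀ c : ℝ, inner ℝ (fderiv ℝ X us (c • e)) (X us) < 0 →
      CaseI X U R r0 η σ P Bad us t (1 / (1 - μ)) (c • e) := by
    intro c hc'
    refine ⟨h, hus, lev, t0, tσ, hc, hmin, by positivity, ?_, hc', ?_, ?_⟩
    · rw [div_lt_one hpos]
      linarith
    · intro w
      rw [hG.smul, hH.smul, hker w]
      have : (1 - 1 / (1 - μ)) * (c * GG X us e w) + 1 / (1 - μ) * (c * (μ * GG X us e w)) =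
          ((1 - 1 / (1 - μ)) + 1 / (1 - μ) * μ) * (c * GG X us e w) := by ring
      rw [this, hs, zero_mul]
    · intro w
      have h1 := hμ w
      have h2 : 1 / (1 - μ) * (μ * GG X us w w) ≤ 1 / (1 - μ) * HH X (t • η) us w w :=
        mul_le_mul_of_nonneg_left h1 (by positivity)
      have h3 : (1 - 1 / (1 - μ)) * GG X us w w + 1 / (1 - μ) * (μ * GG X us w w) =
          ((1 - 1 / (1 - μ)) + 1 / (1 - μ) * μ) * GG X us w w := by ring
      rw [hs, zero_mul] at h3
      linarith
  rcases lt_or_gt_of_ne hne with hlt | hgt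
  · exact ⟨_, _, main 1 (by rw [one_smul]; exact hlt)⟩
  · refine ⟨_, _, main (-1) ?_⟩
    rw [map_smul, real_inner_smul_left]
    linarith

end MPf7aa
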