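import Pool.Agent.Lib.MP_f7aa1b_gt.T1
import Pool.Agent.Lib.MP_f7aa1b_gt.T2

/-!
Row T5. Strong convexity. W convex contained in the open set U, HH X p >= c |.|^2 on W (c real).
Proof of strong_convex: g(s) = LL X p (u + s (w - u)), s in [0,1] (the segment is in W by convexity),
g'(s) = <dX(w-u), X - p>, g''(s) = HH X p (u+s(w-u)) (w-u) (w-u) >= c |w-u|^2 (T1). Hence
g'(s) - c|w-u|^2 s is monotone and g(1) >= g(0) + g'(0) + (c/2)|w-u|^2.
unique_crit: add the two inequalities for (u,w) and (w,u): 0 >= c |w-u|^2.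
-/

open Set Filter Topology Metric MeasureTheory
open scoped ContDiff

namespace MPf7aa

/-- a real function whose derivative is nonnegative on [0,1] -/
private theorem T5_mono {g g' : ℝ → ℝ} (h : ∀ s ∈ Icc (0 : ℝ) 1, HasDerivAt g (g' s) s)
    (h0 : ∀ s ∈ Icc (0 : ℝ) 1, 0 ≤ g' s) : MonotoneOn g (Icc 0 1) := by
  refine monotoneOn_of_deriv_nonneg (convex_Icc 0 1)
    (fun s hs => (h s hs).continuousAt.continuousWithinAt) (fun s hs => ?_) fun s hs => ?_
  · rw [interior_Icc] at hs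
    exact (h s (Ioo_subset_Icc_self hs)).differentiableAt.differentiableWithinAt
  · rw [interior_Icc] at hs
    rw [(h s (Ioo_subset_Icc_self hs)).deriv]
    exact h0 s (Ioo_subset_Icc_self hs)

theorem strong_convex {m k : ℕ} {U : Set (E m)} {X : E m → E k} (hU : IsOpen U)
    (hX : ContDiffOn ℝ ∞ X U) {p : E k} {W : Set (E m)} (hW : Convex ℝ W) (hWU : W ⊆ U) {c : ℝ}
    (hc : ∀ w ∈ W, ∀ v : E m, c * ‖v‖ ^ 2 ≤ HH X p w v v) {u w : E m} (hu : u ∈ W) (hw : w ∈ W) :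
    LL X p u + inner ℝ (fderiv ℝ X u (w - u)) (X u - p) + c / 2 * ‖w - u‖ ^ 2 ≤ LL X p w := by
  obtain ⟨v, hv⟩ : ∃ v, v = w - u := ⟨_, rfl⟩
  rw [← hv]
  have hmem : ∀ s ∈ Icc (0 : ℝ) 1, u + s • v ∈ W := fun s hs => by
    rw [hv]; exact hW.add_smul_sub_mem hu hw hs
  set G : ℝ → ℝ := fun s => inner ℝ (fderiv ℝ X (u + s • v) v) (X (u + s • v) - p) with hG
  set A : ℝ := c * ‖v‖ ^ 2 with hA
  have hk : ∀ s ∈ Icc (0 : ℝ) 1, HasDerivAt (fun s => G s - G 0 - A * s)
      (HH X p (u + s • v) v v - A) s := by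
    intro s hs
    have h1 := hasDerivAt_line2 hU hX p u v v (t := s) (hWU (hmem s hs))
    have h2 : HasDerivAt (fun s : ℝ => A * s) A s := by
      simpa using (hasDerivAt_id s).const_mul A
    exact (h1.sub_const (G 0)).sub h2
  have km := T5_mono hk fun s hs => sub_nonneg.2 (hc _ (hmem s hs) v)
  have k0 : ∀ s ∈ Icc (0 : ℝ) 1, 0 ≤ G s - G 0 - A * s := by
    intro s hs
    have h1 := km (left_mem_Icc.2 zero_le_one) hs hs.1
    simpa using h1
  have hh : ∀ s ∈ Icc (0 : ℝ) 1, HasDerivAt (fun s => LL X p (u + s • v) - G 0 * s - A / 2 * s ^ 2)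
      (G s - G 0 - A * s) s := by
    intro s hs
    have h1 := hasDerivAt_line hU hX p u v (t := s) (hWU (hmem s hs))
    have h2 : HasDerivAt (fun s : ℝ => G 0 * s) (G 0) s := by
      simpa using (hasDerivAt_id s).const_mul (G 0)
    have h3 : HasDerivAt (fun s : ℝ => A / 2 * s ^ 2) (A * s) s := by
      have := (hasDerivAt_pow 2 s).const_mul (A / 2)
      have e : A / 2 * ((2 : ℕ) * s ^ (2 - 1)) = A * s := by
        rw [Nat.cast_ofNat, show 2 - 1 = 1 from rfl, pow_one]; ring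
      rwa [e] at this
    exact (h1.sub h2).sub h3
  have hm := T5_mono hh k0 (left_mem_Icc.2 zero_le_one) (right_mem_Icc.2 zero_le_one) zero_le_one
  have e0 : G 0 = inner ℝ (fderiv ℝ X u v) (X u - p) := by simp [hG]
  have e1 : u + (1 : ℝ) • v = w := by rw [hv, one_smul]; abel
  simp only [zero_smul, add_zero, mul_zero, sub_zero, one_pow, mul_one, ne_eq, OfNat.ofNat_ne_zero,
    not_false_eq_true, zero_pow, e1] at hm
  rw [← e0]
  linarith

theorem unique_crit {m k : ℕ} {U : Set (E m)} {X : E m → E k} (hU : IsOpen U)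
    (hX : ContDiffOn ℝ ∞ X U) {p : E k} {W : Set (E m)} (hW : Convex ℝ W) (hWU : W ⊆ U) {c : ℝ}
    (hc0 : 0 < c) (hc : ∀ w ∈ W, ∀ v : E m, c * ‖v‖ ^ 2 ≤ HH X p w v v) {u w : E m}
    (hu : u ∈ W) (hw : w ∈ W) (hcu : Crit X p u) (hcw : Crit X p w) : u = w := by
  have h1 := strong_convex hU hX hW hWU hc hu hw
  have h2 := strong_convex hU hX hW hWU hc hw hu
  rw [hcu (w - u)] at h1
  rw [hcw (u - w), norm_sub_rev] at h2
  have h3 : c * ‖w - u‖ ^ 2 ≤ 0 := by linarith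
  have h4 : ‖w - u‖ ^ 2 ≤ 0 := by
    by_contra h
    exact absurd (mul_pos hc0 (not_le.1 h)) (not_lt.2 h3)
  have h5 : ‖w - u‖ = 0 := by
    have := le_antisymm h4 (sq_nonneg _)
    exact pow_eq_zero_iff two_ne_zero |>.1 this
  exact (sub_eq_zero.1 (norm_eq_zero.1 h5)).symm

end MPf7aa
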