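import Pool.Agent.Lib.MP_f7aa1b_gt.T3
import Pool.Agent.Lib.MP_f7aa1b_gt.T4
import Pool.Agent.Lib.MP_f7aa1b_gt.T5

/-!
Row T6. Local persistence of good points.
Proof. HH_lower gives c, d > 0 with HH X p' w >= c |.|^2 for |p'-p| < d, |w-u| < d. Take
0 < rho < min (rho0, d). On closedBall u rho (convex, inside U): LL X p w >= LL X p u + (c/2)|w-u|^2
(strong_convex, Crit). Also LL X p' w - LL X p' u = LL X p w - LL X p u - <p'-p, X w - X u> (LL_shift
with c = p, w = p'-p) and |X w - X u| <= B on the compact ball. Choose delta < d with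
delta B < (c/2) rho^2. For |p'-p| < delta let u' minimise the continuous LL X p' on the compact ball;
on the sphere |w-u| = rho LL X p' w > LL X p' u, so |u'-u| < rho, u' is a local minimum, T3 gives
Crit; HH >= c|v|^2 > 0: Good. Uniqueness of the critical point: unique_crit on closedBall u rho.
-/

open Set Filter Topology Metric MeasureTheory
open scoped ContDiff

namespace MPf7aa

theorem persist {m k : ℕ} {U : Set (E m)} {X : E m → E k} (hU : IsOpen U)
    (hX : ContDiffOn ℝ ∞ X U) {p : E k} {u : E m} (hu : u ∈ U) (hg : Good X p u)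
    {ρ0 : ℝ} (hρ0 : 0 < ρ0) :
    ∃ ρ : ℝ, 0 < ρ ∧ ρ < ρ0 ∧ closedBall u ρ ⊆ U ∧ ∃ δ : ℝ, 0 < δ ∧ ∀ p' : E k, ‖p' - p‖ < δ →
      ∃ u' ∈ ball u ρ, Good X p' u' ∧ (∀ w ∈ closedBall u ρ, LL X p' u' ≤ LL X p' w) ∧
        ∀ w ∈ closedBall u ρ, Crit X p' w → w = u' := by
  obtain ⟨hcrit, hpos⟩ := hg
  obtain ⟨c, hc, d, hd, hH⟩ := HH_lower hU hX hu hpos
  have hpp : ‖p - p‖ < d := by rw [sub_self, norm_zero]; exact hd
  obtain ⟨ρ, hρ, hρlt⟩ : ∃ ρ : ℝ, 0 < ρ ∧ ρ < min ρ0 d := exists_between (lt_min hρ0 hd)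
  have hρ1 : ρ < ρ0 := hρlt.trans_le (min_le_left _ _)
  have hρ2 : ρ < d := hρlt.trans_le (min_le_right _ _)
  have hball : ∀ w ∈ closedBall u ρ, ‖w - u‖ < d := fun w hw => by
    rw [mem_closedBall, dist_eq_norm] at hw
    exact hw.trans_lt hρ2
  have hsub : closedBall u ρ ⊆ U := fun w hw => (hH p hpp w (hball w hw)).1
  have huc : u ∈ closedBall u ρ := mem_closedBall_self hρ.le
  have hcompact : IsCompact (closedBall u ρ) := isCompact_closedBall u ρ
  have hXc : ContinuousOn X (closedBall u ρ) := hX.continuousOn.mono hsub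
  obtain ⟨B, hB⟩ : ∃ B, ∀ w ∈ closedBall u ρ, ‖X w - X u‖ ≤ B :=
    hcompact.exists_bound_of_continuousOn (hXc.sub continuousOn_const)
  have hB0 : 0 ≤ B := (norm_nonneg _).trans (hB u huc)
  have hconv : Convex ℝ (closedBall u ρ) := convex_closedBall u ρ
  have hgrow : ∀ w ∈ closedBall u ρ, LL X p u + c / 2 * ‖w - u‖ ^ 2 ≤ LL X p w := by
    intro w hw
    have h := strong_convex hU hX hconv hsub
      (fun z hz => (hH p hpp z (hball z hz)).2) huc hw
    rw [hcrit (w - u), add_zero] at h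
    exact h
  refine ⟨ρ, hρ, hρ1, hsub, min d (c / 2 * ρ ^ 2 / (B + 1)), lt_min hd (by positivity), ?_⟩
  intro p' hp'
  have hp1 : ‖p' - p‖ < d := hp'.trans_le (min_le_left _ _)
  have hp2 : ‖p' - p‖ * (B + 1) < c / 2 * ρ ^ 2 := by
    have := hp'.trans_le (min_le_right _ _)
    rwa [lt_div_iff₀ (by linarith)] at this
  have hLLc : ContinuousOn (LL X p') (closedBall u ρ) := by
    unfold LL
    exact continuousOn_const.mul ((hXc.sub continuousOn_const).norm.pow 2)
  obtain ⟨u', hu', hmin⟩ := hcompact.exists_isMinOn ⟨u, huc⟩ hLLc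
  have hmin' : ∀ w ∈ closedBall u ρ, LL X p' u' ≤ LL X p' w := fun w hw => hmin hw
  have hlt : ‖u' - u‖ < ρ := by
    have hle : ‖u' - u‖ ≤ ρ := by
      rw [mem_closedBall, dist_eq_norm] at hu'
      exact hu'
    refine lt_of_le_of_ne hle fun heq => ?_
    have h1 := hmin' u huc
    have h2 := LL_shift X p (p' - p) u' u
    rw [add_sub_cancel] at h2
    have h3 := hgrow u' hu'
    rw [heq] at h3
    have h4 : inner ℝ (p' - p) (X u' - X u) ≤ ‖p' - p‖ * B :=
      (real_inner_le_norm _ _).trans (mul_le_mul_of_nonneg_left (hB u' hu') (norm_nonneg _))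
    have h5 : ‖p' - p‖ * (B + 1) = ‖p' - p‖ * B + ‖p' - p‖ := by ring
    have h6 := norm_nonneg (p' - p)
    linarith
  have hub : u' ∈ ball u ρ := by
    rw [mem_ball, dist_eq_norm]
    exact hlt
  have hloc : IsLocalMin (LL X p') u' :=
    hmin.isLocalMin (mem_of_superset (isOpen_ball.mem_nhds hub) ball_subset_closedBall)
  have hcrit' := (second_order_nec hU hX (hsub hu') hloc).1
  refine ⟨u', hub, ⟨hcrit', fun v hv => ?_⟩, hmin', fun w hw hw' => ?_⟩
  · have h1 := (hH p' hp1 u' (hball u' hu')).2 v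
    have h2 : 0 < ‖v‖ := norm_pos_iff.2 hv
    exact lt_of_lt_of_le (by positivity) h1
  · exact unique_crit hU hX hconv hsub hc (fun z hz => (hH p' hp1 z (hball z hz)).2) hw hu'
      hw' hcrit'

end MPf7aa
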