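import Pool.Agent.Lib.MP_f7aa1b_gt.L1
import Pool.Agent.Lib.MP_f7aa1b_gt.T6

/-!
Row L2. Two small lemmas.
mono: with D = LL X 0 v - LL X 0 v', I = <X v, p> - <X v', p>, LL_scale turns the hypotheses into
D <= alpha I and alpha' I <= D; so (alpha - alpha') I >= 0, I >= 0, D >= alpha' I >= 0.
not_deg_good: if Crit, HH >= 0 and not Deg then Good (for v != 0, HH v v >= 0 and HH v v != 0).
-/

open Set Filter Topology Metric MeasureTheory
open scoped ContDiff

namespace MPf7aa

theorem mono {m k : ℕ} (X : E m → E k) (p : E k) {α α' : ℝ} (h0 : 0 < α') (h1 : α' < α)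
    {v v' : E m} (ha : LL X (α • p) v ≤ LL X (α • p) v')
    (hb : LL X (α' • p) v' ≤ LL X (α' • p) v) : LL X 0 v' ≤ LL X 0 v := by
  rw [LL_scale, LL_scale] at ha hb
  have hI : 0 ≤ (α - α') * (inner ℝ (X v) p - inner ℝ (X v') p) := by linarith
  have hI' : 0 ≤ (inner ℝ (X v) p : ℝ) - inner ℝ (X v') p :=
    nonneg_of_mul_nonneg_right hI (sub_pos.2 h1)
  have h2 := mul_nonneg h0.le hI'
  linarith

theorem not_deg_good {m k : ℕ} {X : E m → E k} {p : E k} {u : E m} (hc : Crit X p u)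
    (hn : ∀ v, 0 ≤ HH X p u v v) (hd : ¬ Deg X p u) : Good X p u := by
  refine ⟨hc, fun v hv => lt_of_le_of_ne (hn v) fun h => hd ⟨hc, hn, v, hv, h.symm⟩⟩

/-- limits of critical points with nonnegative second derivative -/
theorem closed_crit {m k : ℕ} {U : Set (E m)} {X : E m → E k} (hU : IsOpen U)
    (hX : ContDiffOn ℝ ∞ X U) {p : E k} {u : E m} (hu : u ∈ U) {pn : ℕ → E k} {un : ℕ → E m}
    (hp : Tendsto pn atTop (𝓝 p)) (hun : Tendsto un atTop (𝓝 u))
    (hc : ∀ i, Crit X (pn i) (un i)) (hn : ∀ i, ∀ v, 0 ≤ HH X (pn i) (un i) v v) :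
    Crit X p u ∧ ∀ v, 0 ≤ HH X p u v v := by
  refine ⟨fun v => ?_, fun v => ?_⟩
  · have ho : IsOpen {q : E k × E m × E m | q.2.1 ∈ U} := hU.preimage (by fun_prop)
    have h1 : ContinuousAt (fun q : E k × E m × E m =>
        (inner ℝ (fderiv ℝ X q.2.1 q.2.2) (X q.2.1 - q.1) : ℝ)) (p, u, v) :=
      (continuousOn_grad hU hX).continuousAt (ho.mem_nhds hu)
    have h2 : Tendsto (fun i => ((pn i, un i, v) : E k × E m × E m)) atTop (𝓝 (p, u, v)) :=
      hp.prodMk_nhds (hun.prodMk_nhds tendsto_const_nhds)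
    have h3 := h1.tendsto.comp h2
    have h4 : (fun q : E k × E m × E m =>
        (inner ℝ (fderiv ℝ X q.2.1 q.2.2) (X q.2.1 - q.1) : ℝ)) ∘
        (fun i => ((pn i, un i, v) : E k × E m × E m)) = fun _ => (0 : ℝ) :=
      funext fun i => hc i v
    rw [h4] at h3
    exact tendsto_nhds_unique h3 tendsto_const_nhds
  · have ho : IsOpen {q : E k × E m × E m × E m | q.2.1 ∈ U} := hU.preimage (by fun_prop)
    have h1 : ContinuousAt (fun q : E k × E m × E m × E m => HH X q.1 q.2.1 q.2.2.1 q.2.2.2)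
        (p, u, v, v) := (continuousOn_HH hU hX).continuousAt (ho.mem_nhds hu)
    have h2 : Tendsto (fun i => ((pn i, un i, v, v) : E k × E m × E m × E m)) atTop
        (𝓝 (p, u, v, v)) :=
      hp.prodMk_nhds (hun.prodMk_nhds (tendsto_const_nhds.prodMk_nhds tendsto_const_nhds))
    have h3 := h1.tendsto.comp h2
    exact ge_of_tendsto h3 (Eventually.of_forall fun i => hn i v)

end MPf7aa
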