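import Pool.Agent.Lib.MP_f7aa1b_gt.T1
import Pool.Agent.Lib.MP_f7aa1b_gt.T2

/-!
Row T7. Taylor estimates on a closed ball D = closedBall a R contained in the open set U (X smooth
on U). Proof. D is compact convex, so X, fderiv X, fderiv (fderiv X), and the third derivative are
bounded on D, X, fderiv X, fderiv fderiv X are Lipschitz on D (Convex.norm_image_sub_le_of_norm_fderiv_le
with fderivWithin replaced by fderiv on the open set U; D is contained in U).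
taylor_X: X w - X u - dX u (w-u) = integral, or apply the mean value inequality to
w -> X w - dX u w on the segment [u,w]: norm of derivative dX(z) - dX(u) <= C |z-u| <= C |w-u|.
taylor_grad: apply the mean value inequality on [u,w] to z -> <dX z v, X z - p> - HH X p u (z-u) v,
whose derivative in direction y is HH X p z y v - HH X p u y v, of size
C (1+|p|) |z-u| |y| |v| (HH is Lipschitz in the point, affine in p).
taylor_LL: g(s) = LL X p (u+s(w-u)): g(1)-g(0)-g'(0)-g''(0)/2 with g''(s)-g''(0) bounded by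
C(1+|p|)|w-u|^3 (use taylor_grad with v = w-u and integrate, or the mean value inequality).
-/

open Set Filter Topology Metric MeasureTheory
open scoped ContDiff

namespace MPf7aa

theorem T7_bd {m : ℕ} {F : Type*} [NormedAddCommGroup F] [NormedSpace ℝ F] {U : Set (E m)}
    (hU : IsOpen U) {f : E m → F} (hf : ContDiffOn ℝ ∞ f U) {a : E m} {R : ℝ}
    (hR : closedBall a R ⊆ U) :
    ∃ M : ℝ, 1 ≤ M ∧ (∀ u ∈ closedBall a R, ‖f u‖ ≤ M) ∧
      (∀ u ∈ closedBall a R, ‖fderiv ℝ f u‖ ≤ M) ∧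
      (∀ u ∈ closedBall a R, ∀ w ∈ closedBall a R, ‖f w - f u‖ ≤ M * ‖w - u‖) := by
  have hK : IsCompact (closedBall a R) := isCompact_closedBall a R
  obtain ⟨M0, h0⟩ := hK.exists_bound_of_continuousOn (hf.continuousOn.mono hR)
  obtain ⟨M1, h1⟩ := hK.exists_bound_of_continuousOn
    ((hf.continuousOn_fderiv_of_isOpen hU (by simp)).mono hR)
  refine ⟨1 + |M0| + |M1|, ?_, ?_, ?_, ?_⟩
  · linarith only [abs_nonneg M0, abs_nonneg M1]
  · intro u hu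
    linarith only [h0 u hu, le_abs_self M0, abs_nonneg M1]
  · intro u hu
    linarith only [h1 u hu, le_abs_self M1, abs_nonneg M0]
  · intro u hu w hw
    refine (convex_closedBall a R).norm_image_sub_le_of_norm_hasFDerivWithin_le
      (f' := fderiv ℝ f) (fun x hx => ?_) (fun x hx => ?_) hu hw
    · exact ((hf.contDiffAt (hU.mem_nhds (hR hx))).differentiableAt
        (by simp)).hasFDerivAt.hasFDerivWithinAt
    · linarith only [h1 x hx, le_abs_self M1, abs_nonneg M0]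

theorem T7_second {m : ℕ} {F : Type*} [NormedAddCommGroup F] [NormedSpace ℝ F] {U : Set (E m)}
    (hU : IsOpen U) {f : E m → F} (hf : ContDiffOn ℝ ∞ f U) {a : E m} {R M : ℝ} (hM : 0 ≤ M)
    (hR : closedBall a R ⊆ U)
    (hL : ∀ u ∈ closedBall a R, ∀ w ∈ closedBall a R,
      ‖fderiv ℝ f w - fderiv ℝ f u‖ ≤ M * ‖w - u‖) {u w : E m} (hu : u ∈ closedBall a R)
    (hw : w ∈ closedBall a R) : ‖f w - f u - fderiv ℝ f u (w - u)‖ ≤ M * ‖w - u‖ ^ 2 := by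
  have hs : segment ℝ u w ⊆ closedBall a R := (convex_closedBall a R).segment_subset hu hw
  have h := (convex_segment u w).norm_image_sub_le_of_norm_hasFDerivWithin_le'
    (f := f) (f' := fderiv ℝ f) (φ := fderiv ℝ f u) (C := M * ‖w - u‖) (fun x hx => ?_)
    (fun x hx => ?_) (left_mem_segment ℝ u w) (right_mem_segment ℝ u w)
  · refine h.trans (le_of_eq ?_)
    ring
  · exact ((hf.contDiffAt (hU.mem_nhds (hR (hs hx)))).differentiableAt
      (by simp)).hasFDerivAt.hasFDerivWithinAt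
  · refine (hL u hu x (hs hx)).trans (mul_le_mul_of_nonneg_left ?_ hM)
    obtain ⟨t, ⟨ht0, ht1⟩, rfl⟩ := (segment_eq_image' ℝ u w ▸ hx : x ∈ (fun θ : ℝ => u + θ • (w - u)) '' Icc 0 1)
    rw [add_sub_cancel_left, norm_smul, Real.norm_of_nonneg ht0]
    exact mul_le_of_le_one_left (norm_nonneg _) ht1

theorem T7_third {m k : ℕ} {U : Set (E m)} {X : E m → E k} (hU : IsOpen U)
    (hX : ContDiffOn ℝ ∞ X U) {a : E m} {R M : ℝ} (hM : 0 ≤ M) (hR : closedBall a R ⊆ U)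
    (h2 : ∀ u ∈ closedBall a R, ∀ w ∈ closedBall a R,
      ‖fderiv ℝ X w - fderiv ℝ X u - fderiv ℝ (fderiv ℝ X) u (w - u)‖ ≤ M * ‖w - u‖ ^ 2)
    {u w : E m} (hu : u ∈ closedBall a R) (hw : w ∈ closedBall a R) :
    ‖X w - X u - fderiv ℝ X u (w - u) - (1 / 2 : ℝ) • fderiv ℝ (fderiv ℝ X) u (w - u) (w - u)‖ ≤
      M * ‖w - u‖ ^ 3 := by
  set h : E m := w - u with hh
  have hseg : ∀ t ∈ Icc (0 : ℝ) 1, u + t • h ∈ closedBall a R := by
    intro t ht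
    have h3 : u + t • h ∈ segment ℝ u w := by
      rw [segment_eq_image']
      exact ⟨t, ht, rfl⟩
    exact (convex_closedBall a R).segment_subset hu hw h3
  have hder : ∀ t ∈ Icc (0 : ℝ) 1, HasDerivWithinAt
      (fun t : ℝ => X (u + t • h) - t • fderiv ℝ X u h -
        ((1 / 2 : ℝ) * t ^ 2) • fderiv ℝ (fderiv ℝ X) u h h)
      (fderiv ℝ X (u + t • h) h - (1 : ℝ) • fderiv ℝ X u h -
        ((1 / 2 : ℝ) * (2 * t)) • fderiv ℝ (fderiv ℝ X) u h h) (Icc (0 : ℝ) 1) t := by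
    intro t ht
    have h1 : HasDerivAt (fun s : ℝ => u + s • h) h t := by
      have := ((hasDerivAt_id t).smul_const h).const_add u
      rwa [one_smul] at this
    have hXd : HasFDerivAt X (fderiv ℝ X (u + t • h)) (u + t • h) :=
      ((hX.contDiffAt (hU.mem_nhds (hR (hseg t ht)))).differentiableAt (by simp)).hasFDerivAt
    have h4 : HasDerivAt (fun s : ℝ => X (u + s • h)) (fderiv ℝ X (u + t • h) h) t :=
      hXd.comp_hasDerivAt t h1
    have h5 : HasDerivAt (fun s : ℝ => s • fderiv ℝ X u h) ((1 : ℝ) • fderiv ℝ X u h) t :=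
      (hasDerivAt_id t).smul_const _
    have h6 : HasDerivAt (fun s : ℝ => ((1 / 2 : ℝ) * s ^ 2) • fderiv ℝ (fderiv ℝ X) u h h)
        (((1 / 2 : ℝ) * (2 * t)) • fderiv ℝ (fderiv ℝ X) u h h) t := by
      have h7 : HasDerivAt (fun s : ℝ => (1 / 2 : ℝ) * s ^ 2) ((1 / 2 : ℝ) * (2 * t)) t := by
        have := (hasDerivAt_pow 2 t).const_mul (1 / 2 : ℝ)
        simpa using this
      exact h7.smul_const _
    exact ((h4.sub h5).sub h6).hasDerivWithinAt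
  have hb : ∀ t ∈ Ico (0 : ℝ) 1, ‖fderiv ℝ X (u + t • h) h - (1 : ℝ) • fderiv ℝ X u h -
        ((1 / 2 : ℝ) * (2 * t)) • fderiv ℝ (fderiv ℝ X) u h h‖ ≤ M * ‖h‖ ^ 3 := by
    intro t ht
    have h3 := h2 u hu (u + t • h) (hseg t ⟨ht.1, ht.2.le⟩)
    rw [add_sub_cancel_left] at h3
    have e : fderiv ℝ X (u + t • h) h - (1 : ℝ) • fderiv ℝ X u h -
        ((1 / 2 : ℝ) * (2 * t)) • fderiv ℝ (fderiv ℝ X) u h h =
        (fderiv ℝ X (u + t • h) - fderiv ℝ X u - fderiv ℝ (fderiv ℝ X) u (t • h)) h := by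
      have e1 : (1 / 2 : ℝ) * (2 * t) = t := by ring
      rw [e1, one_smul, map_smul]
      rfl
    rw [e]
    refine (ContinuousLinearMap.le_opNorm _ _).trans ?_
    have h8 : M * ‖t • h‖ ^ 2 ≤ M * ‖h‖ ^ 2 := by
      apply mul_le_mul_of_nonneg_left _ hM
      apply pow_le_pow_left₀ (norm_nonneg _)
      rw [norm_smul, Real.norm_of_nonneg ht.1]
      exact mul_le_of_le_one_left (norm_nonneg _) ht.2.le
    calc _ ≤ M * ‖h‖ ^ 2 * ‖h‖ := mul_le_mul_of_nonneg_right (h3.trans h8) (norm_nonneg _)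
      _ = M * ‖h‖ ^ 3 := by ring
  have h9 := norm_image_sub_le_of_norm_deriv_le_segment_01' hder hb
  have e0 : (X (u + (1 : ℝ) • h) - (1 : ℝ) • fderiv ℝ X u h -
        ((1 / 2 : ℝ) * (1 : ℝ) ^ 2) • fderiv ℝ (fderiv ℝ X) u h h) -
      (X (u + (0 : ℝ) • h) - (0 : ℝ) • fderiv ℝ X u h -
        ((1 / 2 : ℝ) * (0 : ℝ) ^ 2) • fderiv ℝ (fderiv ℝ X) u h h) =
      X w - X u - fderiv ℝ X u h - (1 / 2 : ℝ) • fderiv ℝ (fderiv ℝ X) u h h := by
    have e1 : u + (1 : ℝ) • h = w := by rw [one_smul, hh]; abel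
    have e2 : u + (0 : ℝ) • h = u := by rw [zero_smul, add_zero]
    rw [e1, e2, one_smul, zero_smul]
    have e3 : (1 / 2 : ℝ) * (1 : ℝ) ^ 2 = 1 / 2 := by norm_num
    have e4 : (1 / 2 : ℝ) * (0 : ℝ) ^ 2 = 0 := by norm_num
    rw [e3, e4, zero_smul]
    abel
  rw [← e0]
  exact h9

theorem T7_inner {k : ℕ} {x y : E k} {A B : ℝ} (hA : ‖x‖ ≤ A) (hB : ‖y‖ ≤ B) :
    |inner ℝ x y| ≤ A * B :=
  (abs_real_inner_le_norm x y).trans
    (mul_le_mul hA hB (norm_nonneg _) ((norm_nonneg _).trans hA))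

theorem taylor {m k : ℕ} {U : Set (E m)} {X : E m → E k} (hU : IsOpen U)
    (hX : ContDiffOn ℝ ∞ X U) {a : E m} {R : ℝ} (hR : closedBall a R ⊆ U) :
    ∃ C : ℝ, 0 < C ∧
      (∀ u ∈ closedBall a R, ∀ w ∈ closedBall a R, ‖X w - X u‖ ≤ C * ‖w - u‖) ∧
      (∀ u ∈ closedBall a R, ∀ v, ‖fderiv ℝ X u v‖ ≤ C * ‖v‖) ∧
      (∀ u ∈ closedBall a R, ∀ w ∈ closedBall a R, ∀ v,
        ‖fderiv ℝ X w v - fderiv ℝ X u v‖ ≤ C * ‖w - u‖ * ‖v‖) ∧
      (∀ u ∈ closedBall a R, ∀ w ∈ closedBall a R,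
        ‖X w - X u - fderiv ℝ X u (w - u)‖ ≤ C * ‖w - u‖ ^ 2) ∧
      (∀ p : E k, ∀ u ∈ closedBall a R, ∀ w ∈ closedBall a R, ∀ v,
        |inner ℝ (fderiv ℝ X w v) (X w - p) - inner ℝ (fderiv ℝ X u v) (X u - p)
          - HH X p u (w - u) v| ≤ C * (1 + ‖p‖) * ‖w - u‖ ^ 2 * ‖v‖) ∧
      (∀ p : E k, ∀ u ∈ closedBall a R, ∀ w ∈ closedBall a R,
        |LL X p w - LL X p u - inner ℝ (fderiv ℝ X u (w - u)) (X u - p)
          - (1 / 2) * HH X p u (w - u) (w - u)| ≤ C * (1 + ‖p‖) * ‖w - u‖ ^ 3) ∧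
      (∀ p : E k, ∀ u ∈ closedBall a R, ∀ v w,
        |HH X p u v w| ≤ C * (1 + ‖p‖) * ‖v‖ * ‖w‖) := by
  obtain ⟨MX, hMX, bX, dX, lX⟩ := T7_bd hU hX hR
  have hX1 : ContDiffOn ℝ ∞ (fderiv ℝ X) U := hX.fderiv_of_isOpen hU (by simp)
  obtain ⟨M1, hM1, b1, d1, l1⟩ := T7_bd hU hX1 hR
  have hX2 : ContDiffOn ℝ ∞ (fderiv ℝ (fderiv ℝ X)) U := hX1.fderiv_of_isOpen hU (by simp)
  obtain ⟨M2, hM2, b2, d2, l2⟩ := T7_bd hU hX2 hR
  set M : ℝ := MX + M1 + M2 with hMdef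
  have hM : 1 ≤ M := by linarith only [hMX, hM1, hM2, hMdef]
  have hM0 : 0 ≤ M := by linarith only [hM]
  have hMX' : MX ≤ M := by linarith only [hM1, hM2, hMdef]
  have hM1' : M1 ≤ M := by linarith only [hMX, hM2, hMdef]
  have hM2' : M2 ≤ M := by linarith only [hMX, hM1, hMdef]
  clear_value M
  have hMM : M ≤ 3 * M ^ 2 := by nlinarith only [hM]
  have bX' : ∀ u ∈ closedBall a R, ‖X u‖ ≤ M := fun u hu => (bX u hu).trans hMX'
  have b1' : ∀ u ∈ closedBall a R, ‖fderiv ℝ X u‖ ≤ M := fun u hu => (b1 u hu).trans hM1'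
  have b2' : ∀ u ∈ closedBall a R, ‖fderiv ℝ (fderiv ℝ X) u‖ ≤ M :=
    fun u hu => (b2 u hu).trans hM2'
  have lX' : ∀ u ∈ closedBall a R, ∀ w ∈ closedBall a R, ‖X w - X u‖ ≤ M * ‖w - u‖ :=
    fun u hu w hw => (lX u hu w hw).trans (mul_le_mul_of_nonneg_right hMX' (norm_nonneg _))
  have l1' : ∀ u ∈ closedBall a R, ∀ w ∈ closedBall a R,
      ‖fderiv ℝ X w - fderiv ℝ X u‖ ≤ M * ‖w - u‖ :=
    fun u hu w hw => (l1 u hu w hw).trans (mul_le_mul_of_nonneg_right hM1' (norm_nonneg _))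
  have l2' : ∀ u ∈ closedBall a R, ∀ w ∈ closedBall a R,
      ‖fderiv ℝ (fderiv ℝ X) w - fderiv ℝ (fderiv ℝ X) u‖ ≤ M * ‖w - u‖ :=
    fun u hu w hw => (l2 u hu w hw).trans (mul_le_mul_of_nonneg_right hM2' (norm_nonneg _))
  have s1 : ∀ u ∈ closedBall a R, ∀ w ∈ closedBall a R,
      ‖X w - X u - fderiv ℝ X u (w - u)‖ ≤ M * ‖w - u‖ ^ 2 :=
    fun u hu w hw => T7_second hU hX hM0 hR l1' hu hw
  have s2 : ∀ u ∈ closedBall a R, ∀ w ∈ closedBall a R,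
      ‖fderiv ℝ X w - fderiv ℝ X u - fderiv ℝ (fderiv ℝ X) u (w - u)‖ ≤ M * ‖w - u‖ ^ 2 :=
    fun u hu w hw => T7_second hU hX1 hM0 hR l2' hu hw
  have s3 : ∀ u ∈ closedBall a R, ∀ w ∈ closedBall a R,
      ‖X w - X u - fderiv ℝ X u (w - u) -
        (1 / 2 : ℝ) • fderiv ℝ (fderiv ℝ X) u (w - u) (w - u)‖ ≤ M * ‖w - u‖ ^ 3 :=
    fun u hu w hw => T7_third hU hX hM0 hR s2 hu hw
  have dv : ∀ u ∈ closedBall a R, ∀ v, ‖fderiv ℝ X u v‖ ≤ M * ‖v‖ := fun u hu v =>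
    (ContinuousLinearMap.le_opNorm _ _).trans (mul_le_mul_of_nonneg_right (b1' u hu) (norm_nonneg _))
  have dw : ∀ u ∈ closedBall a R, ∀ w ∈ closedBall a R, ∀ v,
      ‖fderiv ℝ X w v - fderiv ℝ X u v‖ ≤ M * ‖w - u‖ * ‖v‖ := fun u hu w hw v =>
    (ContinuousLinearMap.le_opNorm (fderiv ℝ X w - fderiv ℝ X u) v).trans
      (mul_le_mul_of_nonneg_right (l1' u hu w hw) (norm_nonneg _))
  have dd : ∀ u ∈ closedBall a R, ∀ v w, ‖fderiv ℝ (fderiv ℝ X) u v w‖ ≤ M * ‖v‖ * ‖w‖ :=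
    fun u hu v w => (ContinuousLinearMap.le_opNorm _ _).trans (mul_le_mul_of_nonneg_right
      ((ContinuousLinearMap.le_opNorm _ _).trans
        (mul_le_mul_of_nonneg_right (b2' u hu) (norm_nonneg _))) (norm_nonneg _))
  have hp : ∀ p : E k, ∀ u ∈ closedBall a R, ‖X u - p‖ ≤ M * (1 + ‖p‖) := by
    intro p u hu
    have h1 := norm_sub_le (X u) p
    have h2 := bX' u hu
    have h3 : ‖p‖ ≤ M * ‖p‖ := le_mul_of_one_le_left (norm_nonneg p) hM
    linarith only [h1, h2, h3]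
  refine ⟨3 * M ^ 2, by positivity, ?_, ?_, ?_, ?_, ?_, ?_, ?_⟩
  · intro u hu w hw
    exact (lX' u hu w hw).trans (mul_le_mul_of_nonneg_right hMM (norm_nonneg _))
  · intro u hu v
    exact (dv u hu v).trans (mul_le_mul_of_nonneg_right hMM (norm_nonneg _))
  · intro u hu w hw v
    refine (dw u hu w hw v).trans ?_
    rw [mul_assoc, mul_assoc]
    exact mul_le_mul_of_nonneg_right hMM (mul_nonneg (norm_nonneg _) (norm_nonneg _))
  · intro u hu w hw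
    exact (s1 u hu w hw).trans (mul_le_mul_of_nonneg_right hMM (by positivity))
  · intro p u hu w hw v
    have e : inner ℝ (fderiv ℝ X w v) (X w - p) - inner ℝ (fderiv ℝ X u v) (X u - p)
          - HH X p u (w - u) v =
        inner ℝ ((fderiv ℝ X w - fderiv ℝ X u - fderiv ℝ (fderiv ℝ X) u (w - u)) v) (X u - p) +
        inner ℝ (fderiv ℝ X u v) (X w - X u - fderiv ℝ X u (w - u)) +
        inner ℝ (fderiv ℝ X w v - fderiv ℝ X u v) (X w - X u) := by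
      unfold HH
      have e1 : X w - p = (X w - X u) + (X u - p) := by abel
      rw [e1]
      simp only [ContinuousLinearMap.sub_apply, inner_sub_left, inner_sub_right, inner_add_right]
      rw [real_inner_comm (fderiv ℝ X u (w - u)) (fderiv ℝ X u v)]
      ring
    rw [e]
    have i1 : |inner ℝ ((fderiv ℝ X w - fderiv ℝ X u - fderiv ℝ (fderiv ℝ X) u (w - u)) v)
        (X u - p)| ≤ (M * ‖w - u‖ ^ 2 * ‖v‖) * (M * (1 + ‖p‖)) :=
      T7_inner ((ContinuousLinearMap.le_opNorm _ _).trans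
        (mul_le_mul_of_nonneg_right (s2 u hu w hw) (norm_nonneg _))) (hp p u hu)
    have i2 : |inner ℝ (fderiv ℝ X u v) (X w - X u - fderiv ℝ X u (w - u))| ≤
        (M * ‖v‖) * (M * ‖w - u‖ ^ 2) := T7_inner (dv u hu v) (s1 u hu w hw)
    have i3 : |inner ℝ (fderiv ℝ X w v - fderiv ℝ X u v) (X w - X u)| ≤
        (M * ‖w - u‖ * ‖v‖) * (M * ‖w - u‖) := T7_inner (dw u hu w hw v) (lX' u hu w hw)
    have i4 : 0 ≤ M ^ 2 * ‖w - u‖ ^ 2 * ‖v‖ * ‖p‖ := by positivity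
    have i5 := abs_add_three (inner ℝ ((fderiv ℝ X w - fderiv ℝ X u -
        fderiv ℝ (fderiv ℝ X) u (w - u)) v) (X u - p))
      (inner ℝ (fderiv ℝ X u v) (X w - X u - fderiv ℝ X u (w - u)))
      (inner ℝ (fderiv ℝ X w v - fderiv ℝ X u v) (X w - X u))
    refine i5.trans ?_
    have i6 : 3 * M ^ 2 * (1 + ‖p‖) * ‖w - u‖ ^ 2 * ‖v‖ =
        (M * ‖w - u‖ ^ 2 * ‖v‖) * (M * (1 + ‖p‖)) + (M * ‖v‖) * (M * ‖w - u‖ ^ 2) +
        (M * ‖w - u‖ * ‖v‖) * (M * ‖w - u‖) + 2 * (M ^ 2 * ‖w - u‖ ^ 2 * ‖v‖ * ‖p‖) := by ring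
    rw [i6]
    linarith only [i1, i2, i3, i4]
  · intro p u hu w hw
    have e : LL X p w - LL X p u - inner ℝ (fderiv ℝ X u (w - u)) (X u - p)
          - (1 / 2) * HH X p u (w - u) (w - u) =
        inner ℝ (X w - X u - fderiv ℝ X u (w - u) -
          (1 / 2 : ℝ) • fderiv ℝ (fderiv ℝ X) u (w - u) (w - u)) (X u - p) +
        (1 / 2) * inner ℝ (X w - X u - fderiv ℝ X u (w - u))
          ((X w - X u) + fderiv ℝ X u (w - u)) := by
      unfold HH LL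
      have e1 : ‖X w - p‖ ^ 2 = inner ℝ (X w - X u) (X w - X u) +
          2 * inner ℝ (X w - X u) (X u - p) + ‖X u - p‖ ^ 2 := by
        have e2 : X w - p = (X w - X u) + (X u - p) := by abel
        rw [e2, norm_add_sq_real, real_inner_self_eq_norm_sq]
      rw [e1]
      generalize X w - X u = A
      generalize X u - p = B
      generalize fderiv ℝ X u (w - u) = L
      generalize fderiv ℝ (fderiv ℝ X) u (w - u) (w - u) = Q
      simp only [inner_sub_left, inner_add_right, inner_smul_left, conj_trivial]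
      rw [real_inner_comm A L]
      ring
    rw [e]
    have i1 : |inner ℝ (X w - X u - fderiv ℝ X u (w - u) -
          (1 / 2 : ℝ) • fderiv ℝ (fderiv ℝ X) u (w - u) (w - u)) (X u - p)| ≤
        (M * ‖w - u‖ ^ 3) * (M * (1 + ‖p‖)) := T7_inner (s3 u hu w hw) (hp p u hu)
    have i2 : |inner ℝ (X w - X u - fderiv ℝ X u (w - u))
          ((X w - X u) + fderiv ℝ X u (w - u))| ≤
        (M * ‖w - u‖ ^ 2) * (M * ‖w - u‖ + M * ‖w - u‖) :=
      T7_inner (s1 u hu w hw) ((norm_add_le _ _).trans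
        (add_le_add (lX' u hu w hw) (dv u hu (w - u))))
    refine (abs_add_le _ _).trans ?_
    rw [abs_mul, abs_of_pos (by norm_num : (0 : ℝ) < 1 / 2)]
    have i4 : 0 ≤ M ^ 2 * ‖w - u‖ ^ 3 * ‖p‖ := by positivity
    have i5 : 0 ≤ M ^ 2 * ‖w - u‖ ^ 3 := by positivity
    have i6 : 3 * M ^ 2 * (1 + ‖p‖) * ‖w - u‖ ^ 3 =
        (M * ‖w - u‖ ^ 3) * (M * (1 + ‖p‖)) +
        (1 / 2) * ((M * ‖w - u‖ ^ 2) * (M * ‖w - u‖ + M * ‖w - u‖)) +
        (M ^ 2 * ‖w - u‖ ^ 3 + 2 * (M ^ 2 * ‖w - u‖ ^ 3 * ‖p‖)) := by ring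
    rw [i6]
    linarith only [i1, i2, i4, i5]
  · intro p u hu v w
    unfold HH
    have i1 : |inner ℝ (fderiv ℝ X u v) (fderiv ℝ X u w)| ≤ (M * ‖v‖) * (M * ‖w‖) :=
      T7_inner (dv u hu v) (dv u hu w)
    have i2 : |inner ℝ (fderiv ℝ (fderiv ℝ X) u v w) (X u - p)| ≤
        (M * ‖v‖ * ‖w‖) * (M * (1 + ‖p‖)) := T7_inner (dd u hu v w) (hp p u hu)
    refine (abs_add_le _ _).trans ?_
    have i4 : 0 ≤ M ^ 2 * ‖v‖ * ‖w‖ * ‖p‖ := by positivity
    have i5 : 0 ≤ M ^ 2 * ‖v‖ * ‖w‖ := by positivity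
    have i6 : 3 * M ^ 2 * (1 + ‖p‖) * ‖v‖ * ‖w‖ =
        (M * ‖v‖) * (M * ‖w‖) + (M * ‖v‖ * ‖w‖) * (M * (1 + ‖p‖)) +
        (M ^ 2 * ‖v‖ * ‖w‖ + 2 * (M ^ 2 * ‖v‖ * ‖w‖ * ‖p‖)) := by ring
    rw [i6]
    linarith only [i1, i2, i4, i5]

end MPf7aa
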