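import Pool.Agent.Lib.MP_f7aa1b_gt.I3
import Pool.Agent.Lib.MP_f7aa1b_gt.L2
import Pool.Agent.Lib.MP_f7aa1b_gt.T7

/-!
Row I10. Step (a): start of the path of good points.
Proof. c = cen s 0. By crit_cen and HH_cen_e, HH X c us e e = (1 - s/s1) GG X us e e < 0 (GG_pos, s > s1).
Along u = us + tau e, tau > 0 small: LL X c u - LL X c us <= (tau^2/2) HH e e + C tau^3 < 0 (T7 with p = c,
us + tau e in closedBall 0 R as |us| < R) and LL X 0 u - LL X 0 us = tau <dX us e, X us> + O(tau^2) < 0. Fix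
such a u0 and let mu = LL X c us - LL X c u0 > 0.
For |w| < delta: by LL_shift LL (c+w) u0 - LL (c+w) us = -mu - <w, X u0 - X us> < - mu/2. On the level set
LL X 0 u = LL X 0 us: LL_cen and minS give
LL (c+w) u - LL (c+w) us >= (1-s)/2 y^2 - |w| y >= - |w|^2/(2(1-s)) > - mu/2, y = |X u - X us| (s1 > 0, so s > 0).
Let um minimise LL X (c+w) on the compact set {closedBall 0 R, LL X 0 <= LL X 0 us} (isCompact_sub):
LL X 0 um < LL X 0 us, |um| < R, level_interior: local minimum; T3; not Deg by field bad of Core (the centre is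
in P and not in Bad), so Good (not_deg_good).
-/

open Set Filter Topology Metric MeasureTheory
open scoped ContDiff

namespace MPf7aa

theorem startgood {m : ℕ} {X : E m → E (m + 1)} {U : Set (E m)} {R r0 : ℝ} {η : E (m + 1)}
    {σ : ℝ} {P Bad : Set (E (m + 1))} {us : E m} {t s1 : ℝ} {e : E m}
    (h : CaseI X U R r0 η σ P Bad us t s1 e)
    {s : ℝ} (hs : s1 < s) (hs' : s < 1) :
    ∃ δ : ℝ, 0 < δ ∧ ∀ w : E (m + 1), ‖w‖ < δ → cen X η us t s w ∈ P →
      cen X η us t s w ∉ Bad → ∃ u ∈ closedBall (0 : E m) R, LL X 0 u < LL X 0 us ∧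
        Good X (cen X η us t s w) u ∧
        LL X (cen X η us t s w) u ≤ LL X (cen X η us t s w) us := by
  obtain ⟨C0, hC0, -, -, -, -, -, hT, hH⟩ := taylor h.core.op h.core.cX h.core.ball
  have hus : ‖us‖ < R := low_norm h.core h.mem h.lev.le
  set c := cen X η us t s 0 with hc
  have hcr : ∀ v, inner ℝ (fderiv ℝ X us v) (X us - c) = 0 := crit_cen h s
  have hen : e ≠ 0 := caseI_e h
  have hGG : 0 < GG X us e e := GG_pos h.core h.mem hen
  have hee : HH X c us e e < 0 := by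
    rw [hc, HH_cen_e h s e]
    apply mul_neg_of_neg_of_pos _ hGG
    have : 1 < s / s1 := by rw [lt_div_iff₀ h.s10, one_mul]; exact hs
    linarith
  have hs0 : 0 < s := h.s10.trans hs
  -- the point u0
  set a : ℝ := -HH X c us e e with ha
  have ha0 : 0 < a := by rw [ha]; linarith
  set q : ℝ := -inner ℝ (fderiv ℝ X us e) (X us) with hq
  have hq0 : 0 < q := by have := h.e0; rw [hq]; linarith
  have hen0 : 0 < ‖e‖ := norm_pos_iff.2 hen
  set A : ℝ := C0 * (1 + ‖c‖) * ‖e‖ ^ 3 with hA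
  have hA0 : 0 < A := by positivity
  set B : ℝ := C0 * ‖e‖ ^ 2 + C0 * ‖e‖ ^ 3 with hB
  have hB0 : 0 < B := by positivity
  obtain ⟨τ, hτ0, hτ1, hτ2, hτ3, hτ4⟩ : ∃ τ : ℝ, 0 < τ ∧ τ ≤ 1 ∧ τ * ‖e‖ < R - ‖us‖ ∧
      A * τ < a / 2 ∧ B * τ < q := by
    have hpos : 0 < min 1 (min ((R - ‖us‖) / (2 * ‖e‖)) (min (a / (4 * A)) (q / (2 * B)))) := by
      refine lt_min one_pos (lt_min (div_pos (by linarith) (by positivity))
        (lt_min (by positivity) (by positivity)))
    refine ⟨_, hpos, min_le_left _ _, ?_, ?_, ?_⟩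
    · have h1 : min 1 (min ((R - ‖us‖) / (2 * ‖e‖)) (min (a / (4 * A)) (q / (2 * B)))) ≤
          (R - ‖us‖) / (2 * ‖e‖) := (min_le_right _ _).trans (min_le_left _ _)
      rw [le_div_iff₀ (by positivity)] at h1
      nlinarith
    · have h1 : min 1 (min ((R - ‖us‖) / (2 * ‖e‖)) (min (a / (4 * A)) (q / (2 * B)))) ≤
          a / (4 * A) := (min_le_right _ _).trans ((min_le_right _ _).trans (min_le_left _ _))
      rw [le_div_iff₀ (by positivity)] at h1
      nlinarith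
    · have h1 : min 1 (min ((R - ‖us‖) / (2 * ‖e‖)) (min (a / (4 * A)) (q / (2 * B)))) ≤
          q / (2 * B) := (min_le_right _ _).trans ((min_le_right _ _).trans (min_le_right _ _))
      rw [le_div_iff₀ (by positivity)] at h1
      nlinarith
  set u0 : E m := us + τ • e with hu0
  have hu0m : u0 ∈ closedBall (0 : E m) R := by
    rw [mem_closedBall, dist_zero_right, hu0]
    refine (norm_add_le _ _).trans ?_
    rw [norm_smul, Real.norm_eq_abs, abs_of_pos hτ0]
    linarith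
  have hdiff : u0 - us = τ • e := by rw [hu0]; abel
  have hnτ : ‖τ • e‖ = τ * ‖e‖ := by rw [norm_smul, Real.norm_eq_abs, abs_of_pos hτ0]
  have h1 : LL X c u0 < LL X c us := by
    have t1 := hT c us h.mem u0 hu0m
    rw [hdiff, hcr, sub_zero, HH_smul_left, HH_smul_right, hnτ] at t1
    have t2 := le_of_abs_le t1
    have t3 : C0 * (1 + ‖c‖) * (τ * ‖e‖) ^ 3 = (A * τ) * τ ^ 2 := by rw [hA]; ring
    rw [t3] at t2
    have t4 : (A * τ) * τ ^ 2 < (a / 2) * τ ^ 2 := mul_lt_mul_of_pos_right hτ3 (by positivity)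
    have t5 : 1 / 2 * (τ * (τ * HH X c us e e)) = -((a / 2) * τ ^ 2) := by rw [ha]; ring
    rw [t5] at t2
    linarith
  have h2 : LL X 0 u0 < LL X 0 us := by
    have t1 := hT 0 us h.mem u0 hu0m
    have t2 := hH 0 us h.mem e e
    rw [hdiff, HH_smul_left, HH_smul_right, hnτ, sub_zero, norm_zero, add_zero, mul_one, map_smul,
      real_inner_smul_left] at t1
    rw [norm_zero, add_zero, mul_one] at t2
    have t3 := le_of_abs_le t1
    have t4 := le_of_abs_le t2
    have t5 : inner ℝ (fderiv ℝ X us e) (X us) = -q := by rw [hq]; ring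
    rw [t5] at t3
    have t6 : 1 / 2 * (τ * (τ * HH X 0 us e e)) ≤ τ * (τ * (C0 * ‖e‖ ^ 2)) := by
      have : τ * τ * HH X 0 us e e ≤ τ * τ * (C0 * ‖e‖ * ‖e‖) :=
        mul_le_mul_of_nonneg_left t4 (by positivity)
      have h0 : 0 ≤ τ * τ * (C0 * ‖e‖ * ‖e‖) := by positivity
      nlinarith
    have t7 : C0 * (τ * ‖e‖) ^ 3 ≤ τ * (τ * (C0 * ‖e‖ ^ 3)) := by
      have : τ ^ 3 ≤ τ ^ 2 := by
        calc τ ^ 3 = τ ^ 2 * τ := by ring
          _ ≤ τ ^ 2 * 1 := mul_le_mul_of_nonneg_left hτ1 (by positivity)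
          _ = τ ^ 2 := mul_one _
      have h0 : 0 ≤ C0 * ‖e‖ ^ 3 := by positivity
      calc C0 * (τ * ‖e‖) ^ 3 = (C0 * ‖e‖ ^ 3) * τ ^ 3 := by ring
        _ ≤ (C0 * ‖e‖ ^ 3) * τ ^ 2 := mul_le_mul_of_nonneg_left this h0
        _ = _ := by ring
    have t8 : τ * (B * τ) < τ * q := mul_lt_mul_of_pos_left hτ4 hτ0
    have t9 : τ * (B * τ) = τ * (τ * (C0 * ‖e‖ ^ 2)) + τ * (τ * (C0 * ‖e‖ ^ 3)) := by
      rw [hB]; ring
    linarith
  set μ : ℝ := LL X c us - LL X c u0 with hμ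
  have hμ0 : 0 < μ := by rw [hμ]; linarith
  set Y : ℝ := ‖X u0 - X us‖ with hY
  have hY0 : 0 ≤ Y := norm_nonneg _
  have h1s : 0 < 1 - s := by linarith
  obtain ⟨δ, hδ0, hδ1, hδ2⟩ : ∃ δ : ℝ, 0 < δ ∧ δ * Y ≤ μ / 2 ∧ δ ^ 2 < μ * (1 - s) := by
    have hpos : 0 < min 1 (min (μ / (2 * (Y + 1))) (μ * (1 - s) / 2)) := by positivity
    refine ⟨_, hpos, ?_, ?_⟩
    · have t1 : min 1 (min (μ / (2 * (Y + 1))) (μ * (1 - s) / 2)) ≤ μ / (2 * (Y + 1)) :=
        (min_le_right _ _).trans (min_le_left _ _)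
      rw [le_div_iff₀ (by positivity)] at t1
      nlinarith
    · have t1 : min 1 (min (μ / (2 * (Y + 1))) (μ * (1 - s) / 2)) ≤ 1 := min_le_left _ _
      have t2 : min 1 (min (μ / (2 * (Y + 1))) (μ * (1 - s) / 2)) ≤ μ * (1 - s) / 2 :=
        (min_le_right _ _).trans (min_le_right _ _)
      have t3 : 0 < μ * (1 - s) := by positivity
      nlinarith
  refine ⟨δ, hδ0, ?_⟩
  intro w hw hP hBad
  have hcw : cen X η us t s w = c + w := by rw [hc, cen, cen, add_zero]
  have hval : LL X (cen X η us t s w) u0 - LL X (cen X η us t s w) us ≤ -(μ / 2) := by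
    rw [hcw, LL_shift]
    have t1 := neg_le_of_abs_le ((abs_real_inner_le_norm w (X u0 - X us)).trans
      (mul_le_mul_of_nonneg_right hw.le hY0))
    rw [← hY] at t1
    linarith
  have hlev : ∀ u ∈ closedBall (0 : E m) R, LL X 0 u = LL X 0 us →
      -(μ / 2) < LL X (cen X η us t s w) u - LL X (cen X η us t s w) us := by
    intro u hu hul
    rw [cen, LL_cen]
    have t1 := h.minS u hu hul
    have t2 : 0 ≤ s * (LL X (t • η) u - LL X (t • η) us) := mul_nonneg hs0.le (by linarith)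
    have t3 := le_of_abs_le (abs_real_inner_le_norm w (X u - X us))
    have t4 : ‖w‖ ^ 2 < μ * (1 - s) :=
      (pow_le_pow_left₀ (norm_nonneg _) hw.le 2).trans_lt hδ2
    set y := ‖X u - X us‖
    have t5 : ‖w‖ * y ≤ (1 - s) * (1 / 2 * y ^ 2) + ‖w‖ ^ 2 / (2 * (1 - s)) := by
      have t6 : 0 ≤ ((1 - s) * y - ‖w‖) ^ 2 / (2 * (1 - s)) := by positivity
      have t7 : ((1 - s) * y - ‖w‖) ^ 2 / (2 * (1 - s)) =
          (1 - s) * (1 / 2 * y ^ 2) + ‖w‖ ^ 2 / (2 * (1 - s)) - ‖w‖ * y := by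
        field_simp
        ring
      linarith
    have t8 : ‖w‖ ^ 2 / (2 * (1 - s)) < μ / 2 := by
      rw [div_lt_iff₀ (by positivity)]
      linarith
    linarith
  -- minimise
  have hcont : ContinuousOn (LL X (cen X η us t s w))
      {u : E m | u ∈ closedBall (0 : E m) R ∧ LL X 0 u ≤ LL X 0 us} := by
    intro u hu
    exact (fderiv_LL_apply h.core.op h.core.cX _ (h.core.ball hu.1)).1.continuousAt.continuousWithinAt
  obtain ⟨um, hum, hmin⟩ := (isCompact_sub h.core (LL X 0 us)).exists_isMinOn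
    ⟨us, h.mem, le_rfl⟩ hcont
  have hm0 : LL X (cen X η us t s w) um ≤ LL X (cen X η us t s w) u0 := hmin ⟨hu0m, h2.le⟩
  have hlt : LL X 0 um < LL X 0 us := by
    rcases hum.2.lt_or_eq with hh | hh
    · exact hh
    · exfalso
      have := hlev um hum.1 hh
      linarith
  obtain ⟨ε, hε, hint⟩ := level_interior h.core hum.1 h.lev.le hlt
  have hloc : IsLocalMin (LL X (cen X η us t s w)) um := by
    filter_upwards [closedBall_mem_nhds um hε] with x hx
    obtain ⟨hx1, hx2⟩ := hint x hx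
    exact hmin ⟨hx1, hx2.le⟩
  obtain ⟨hcrit, hnn⟩ := second_order_nec h.core.op h.core.cX (h.core.ball hum.1) hloc
  refine ⟨um, hum.1, hlt, not_deg_good hcrit hnn (fun hd => hBad ?_), ?_⟩
  · exact h.core.bad _ hP um hum.1 (hlt.le.trans h.lev.le) hd
  · linarith

end MPf7aa
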