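import Pool.Agent.Lib.MP_f7aa1b_gt.I3
import Pool.Agent.Lib.MP_f7aa1b_gt.L2

/-!
Row I11. Step (c): tracking (continuous induction downwards in s).
Proof. F_s u := LL X (cen s w) u - LL X (cen s w) us. Let
A = {s in [s1-eps, s1+eps] | exists u in closedBall 0 R, LL X 0 u <= LL X 0 us, Good X (cen s w) u,
F_s u <= C0 (s1 + eps - s)}. s1 + eps is in A by hstart. a := sInf A.
a in A: s_n in A, s_n -> a, u_n in the compact set {closedBall, LL X 0 <= LL X 0 us} (isCompact_sub); subsequence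
limit u; closed_crit (L2): Crit, HH >= 0; cen a w in P and not in Bad, so not Deg, so Good (not_deg_good); the
inequality by continuity (continuousOn_LL).
For a in A with point u: by hbar LL X 0 u = LL X 0 us is impossible (F_a u <= C0 (s1+eps-a) <= 2 C0 eps), so
LL X 0 u < LL X 0 us. If a > s1 - eps: level_interior at u (rho = LL X 0 us) gives d; persist (T6) at
(cen a w, u) with rho0 = d: for s' < a close to a, s' >= s1 - eps, (|cen s' w - cen a w| small) a Good point u'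
in closedBall u rho, LL X (cen s' w) u' <= LL X (cen s' w) u; so F_{s'} u' <= F_{s'} u <= F_a u + C0 (a - s')
<= C0 (s1+eps-s') (hsl). So s' in A, contradiction. Hence a = s1 - eps and LL X 0 u < LL X 0 us.
-/

open Set Filter Topology Metric MeasureTheory
open scoped ContDiff

namespace MPf7aa

theorem I11_cen_cont {m : ℕ} (X : E m → E (m + 1)) (η : E (m + 1)) (us : E m) (t : ℝ)
    (w : E (m + 1)) : Continuous fun s : ℝ => cen X η us t s w := by
  unfold cen
  exact (continuous_const.add (continuous_id.smul continuous_const)).add continuous_const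

theorem I11_cen_sub {m : ℕ} (X : E m → E (m + 1)) (η : E (m + 1)) (us : E m) (t s s' : ℝ)
    (w : E (m + 1)) :
    cen X η us t s' w - cen X η us t s w = (s' - s) • (t • η - X us) := by
  unfold cen
  rw [sub_smul]
  abel

theorem I11_LL_cont {m : ℕ} {X : E m → E (m + 1)} {U : Set (E m)} (hU : IsOpen U)
    (hX : ContDiffOn ℝ ∞ X U) {p : E (m + 1)} {u : E m} (hu : u ∈ U) {pn : ℕ → E (m + 1)}
    {un : ℕ → E m} (hp : Tendsto pn atTop (𝓝 p)) (hun : Tendsto un atTop (𝓝 u)) :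
    Tendsto (fun i => LL X (pn i) (un i)) atTop (𝓝 (LL X p u)) := by
  have hXc : ContinuousAt X u := hX.continuousOn.continuousAt (hU.mem_nhds hu)
  have h1 : Tendsto (fun i => X (un i)) atTop (𝓝 (X u)) := hXc.tendsto.comp hun
  have h2 : Tendsto (fun i => ‖X (un i) - pn i‖) atTop (𝓝 ‖X u - p‖) := (h1.sub hp).norm
  exact (h2.pow 2).const_mul (1 / 2 : ℝ)

/-- the closed set of parameters -/
theorem I11_closed {m : ℕ} {X : E m → E (m + 1)} {U : Set (E m)} {R r0 : ℝ} {η : E (m + 1)}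
    {σ : ℝ} {P Bad : Set (E (m + 1))} {us : E m} {t s1 : ℝ} {e : E m}
    (h : CaseI X U R r0 η σ P Bad us t s1 e) {C0 : ℝ}
    {ε : ℝ} {w : E (m + 1)}
    (hP : ∀ s : ℝ, s1 - ε ≤ s → s ≤ s1 + ε → cen X η us t s w ∈ P ∧ cen X η us t s w ∉ Bad) :
    IsClosed {s : ℝ | s1 - ε ≤ s ∧ s ≤ s1 + ε ∧ ∃ u ∈ closedBall (0 : E m) R,
      LL X 0 u ≤ LL X 0 us ∧ Good X (cen X η us t s w) u ∧
        LL X (cen X η us t s w) u - LL X (cen X η us t s w) us ≤ C0 * (s1 + ε - s)} := by
  apply IsSeqClosed.isClosed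
  intro sn a hsn ha
  have h1 : s1 - ε ≤ a := ge_of_tendsto' ha fun n => (hsn n).1
  have h2 : a ≤ s1 + ε := le_of_tendsto' ha fun n => (hsn n).2.1
  choose un hmem hlev hgood hval using fun n => (hsn n).2.2
  obtain ⟨u, hu, φ, hφ, hlim⟩ := (isCompact_sub h.core (LL X 0 us)).tendsto_subseq
    (x := un) (fun n => ⟨hmem n, hlev n⟩)
  have hsφ : Tendsto (fun n => sn (φ n)) atTop (𝓝 a) := ha.comp hφ.tendsto_atTop
  have hcen : Tendsto (fun n => cen X η us t (sn (φ n)) w) atTop (𝓝 (cen X η us t a w)) :=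
    ((I11_cen_cont X η us t w).tendsto a).comp hsφ
  have huU : u ∈ U := h.core.ball hu.1
  have husU : us ∈ U := h.core.ball h.mem
  obtain ⟨hc, hn⟩ := closed_crit h.core.op h.core.cX huU hcen hlim
    (fun i => (hgood (φ i)).1) (fun i v => by
      by_cases hv : v = 0
      · subst hv; simp [HH]
      · exact ((hgood (φ i)).2 v hv).le)
  have hnd : ¬ Deg X (cen X η us t a w) u := fun hd =>
    (hP a h1 h2).2 (h.core.bad _ (hP a h1 h2).1 u hu.1 (hu.2.trans h.lev.le) hd)
  refine ⟨h1, h2, u, hu.1, hu.2, not_deg_good hc hn hnd, ?_⟩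
  have hl : Tendsto (fun n => LL X (cen X η us t (sn (φ n)) w) (un (φ n)) -
      LL X (cen X η us t (sn (φ n)) w) us) atTop
      (𝓝 (LL X (cen X η us t a w) u - LL X (cen X η us t a w) us)) :=
    (I11_LL_cont h.core.op h.core.cX huU hcen hlim).sub
      (I11_LL_cont h.core.op h.core.cX husU hcen tendsto_const_nhds)
  have hr : Tendsto (fun n => C0 * (s1 + ε - sn (φ n))) atTop (𝓝 (C0 * (s1 + ε - a))) :=
    (tendsto_const_nhds.sub hsφ).const_mul C0
  exact le_of_tendsto_of_tendsto' hl hr fun n => hval (φ n)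

theorem tracking {m : ℕ} {X : E m → E (m + 1)} {U : Set (E m)} {R r0 : ℝ} {η : E (m + 1)}
    {σ : ℝ} {P Bad : Set (E (m + 1))} {us : E m} {t s1 : ℝ} {e : E m}
    (h : CaseI X U R r0 η σ P Bad us t s1 e)
    {C0 : ℝ} (hC0 : 0 < C0)
    (hsl : ∀ u ∈ closedBall (0 : E m) R, ∀ (s s' : ℝ) (w : E (m + 1)),
      |(LL X (cen X η us t s w) u - LL X (cen X η us t s w) us) -
        (LL X (cen X η us t s' w) u - LL X (cen X η us t s' w) us)| ≤ C0 * |s - s'|)
    {ε : ℝ} (hε : 0 < ε) {w : E (m + 1)}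
    (hP : ∀ s : ℝ, s1 - ε ≤ s → s ≤ s1 + ε → cen X η us t s w ∈ P ∧ cen X η us t s w ∉ Bad)
    (hbar : ∀ s : ℝ, s1 - ε ≤ s → s ≤ s1 + ε → ∀ u ∈ closedBall (0 : E m) R,
      LL X 0 u = LL X 0 us → Crit X (cen X η us t s w) u →
        LL X (cen X η us t s w) us + 2 * C0 * ε < LL X (cen X η us t s w) u)
    (hstart : ∃ u ∈ closedBall (0 : E m) R, LL X 0 u < LL X 0 us ∧
        Good X (cen X η us t (s1 + ε) w) u ∧
        LL X (cen X η us t (s1 + ε) w) u ≤ LL X (cen X η us t (s1 + ε) w) us) :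
    ∃ u ∈ closedBall (0 : E m) R, LL X 0 u < LL X 0 us ∧
      Good X (cen X η us t (s1 - ε) w) u := by
  set A : Set ℝ := {s : ℝ | s1 - ε ≤ s ∧ s ≤ s1 + ε ∧ ∃ u ∈ closedBall (0 : E m) R,
      LL X 0 u ≤ LL X 0 us ∧ Good X (cen X η us t s w) u ∧
        LL X (cen X η us t s w) u - LL X (cen X η us t s w) us ≤ C0 * (s1 + ε - s)} with hA
  have hcl : IsClosed A := I11_closed h hP
  have hne : A.Nonempty := by
    obtain ⟨u, hu, hl, hg, hv⟩ := hstart
    refine ⟨s1 + ε, by linarith, le_rfl, u, hu, hl.le, hg, ?_⟩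
    rw [sub_self, mul_zero]
    linarith
  have hbd : BddBelow A := ⟨s1 - ε, fun s hs => hs.1⟩
  have ha : sInf A ∈ A := hcl.csInf_mem hne hbd
  set a : ℝ := sInf A with hadef
  obtain ⟨ha1, ha2, u, hu, hlu, hg, hv⟩ := ha
  have hlt : LL X 0 u < LL X 0 us := by
    rcases lt_or_eq_of_le hlu with h0 | h0
    · exact h0
    · exfalso
      have h1 := hbar a ha1 ha2 u hu h0 hg.1
      have h2 : C0 * (s1 + ε - a) ≤ C0 * (2 * ε) :=
        mul_le_mul_of_nonneg_left (by linarith) hC0.le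
      linarith
  rcases eq_or_lt_of_le ha1 with h0 | h0
  · refine ⟨u, hu, hlt, ?_⟩
    rw [h0]; exact hg
  · exfalso
    obtain ⟨δ, hδ, hint⟩ := level_interior h.core hu h.lev.le hlt
    obtain ⟨ρ, hρ, hρδ, -, δ', hδ', hpers⟩ :=
      persist h.core.op h.core.cX (h.core.ball hu) hg hδ
    set N : ℝ := ‖t • η - X us‖ with hN
    have hN0 : 0 ≤ N := norm_nonneg _
    set τ : ℝ := min (a - (s1 - ε)) (δ' / (2 * (N + 1))) with hτ
    have hτ0 : 0 < τ := lt_min (by linarith) (by positivity)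
    have hτ1 : τ ≤ a - (s1 - ε) := min_le_left _ _
    have hτ2 : τ * N < δ' := by
      have h3 : τ ≤ δ' / (2 * (N + 1)) := min_le_right _ _
      have h4 : τ * (2 * (N + 1)) ≤ δ' := (le_div_iff₀ (by positivity)).1 h3
      have h5 : 0 ≤ τ * N := mul_nonneg hτ0.le hN0
      have h6 : τ * (2 * (N + 1)) = 2 * (τ * N) + 2 * τ := by ring
      linarith
    have hnorm : ‖cen X η us t (a - τ) w - cen X η us t a w‖ < δ' := by
      rw [I11_cen_sub, norm_smul, sub_sub_cancel_left, norm_neg, Real.norm_of_nonneg hτ0.le]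
      exact hτ2
    obtain ⟨u', hu', hg', hmin, -⟩ := hpers _ hnorm
    have hu'b : u' ∈ closedBall u δ :=
      closedBall_subset_closedBall hρδ.le (ball_subset_closedBall hu')
    obtain ⟨hu'R, hu'l⟩ := hint u' hu'b
    have h7 := hmin u (mem_closedBall_self hρ.le)
    have h8 := (abs_le.1 (hsl u hu (a - τ) a w)).2
    have h9 : |a - τ - a| = τ := by
      rw [sub_sub_cancel_left, abs_neg, abs_of_pos hτ0]
    rw [h9] at h8
    have h10 : C0 * (s1 + ε - (a - τ)) = C0 * (s1 + ε - a) + C0 * τ := by ring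
    have hmemA : a - τ ∈ A := by
      refine ⟨by linarith, by linarith, u', hu'R, hu'l.le, hg', ?_⟩
      rw [h10]
      linarith
    have h11 : a ≤ a - τ := csInf_le hbd hmemA
    linarith

end MPf7aa
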