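import Pool.Agent.Lib.MP_f7aa1b_gt.T1
import Pool.Agent.Lib.MP_f7aa1b_gt.T2

/-!
Row T3. Second order necessary condition at an interior local minimum.
Proof. Fix v. g(s) = LL X p (u + s v) has a local minimum at 0; g'(0) = 0 (IsLocalMin.hasDerivAt_eq_zero
with hasDerivAt_line) gives Crit. If HH X p u v v < 0 then g' has derivative HH < 0 at 0 and g'(0)=0
(hasDerivAt_line2 with w = v), so g' < 0 on (0, delta), g is strictly decreasing on [0, delta), which
contradicts the local minimum.
-/

open Set Filter Topology Metric MeasureTheory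
open scoped ContDiff

namespace MPf7aa

theorem second_order_nec {m k : ℕ} {U : Set (E m)} {X : E m → E k} (hU : IsOpen U)
    (hX : ContDiffOn ℝ ∞ X U) {p : E k} {u : E m} (hu : u ∈ U) (hmin : IsLocalMin (LL X p) u) :
    Crit X p u ∧ ∀ v, 0 ≤ HH X p u v v := by
  have hline : ∀ v : E m, Tendsto (fun s : ℝ => u + s • v) (𝓝 0) (𝓝 u) := by
    intro v
    have : Continuous (fun s : ℝ => u + s • v) := by fun_prop
    have h1 := this.tendsto 0
    rwa [zero_smul, add_zero] at h1
  have hloc : ∀ v : E m, IsLocalMin (fun s : ℝ => LL X p (u + s • v)) 0 := by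
    intro v
    have h1 := (hline v).eventually hmin
    filter_upwards [h1] with s hs
    rw [zero_smul, add_zero]
    exact hs
  have hd0 : ∀ v : E m, inner ℝ (fderiv ℝ X (u + (0 : ℝ) • v) v) (X (u + (0 : ℝ) • v) - p) = 0 := by
    intro v
    exact (hloc v).hasDerivAt_eq_zero
      (hasDerivAt_line hU hX p u v (t := 0) (by rwa [zero_smul, add_zero]))
  refine ⟨fun v => ?_, fun v => ?_⟩
  · have := hd0 v
    rwa [zero_smul, add_zero] at this
  · by_contra hneg
    rw [not_le] at hneg
    have hd2 := hasDerivAt_line2 hU hX p u v v (t := 0) (by rwa [zero_smul, add_zero])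
    rw [hasDerivAt_iff_tendsto_slope] at hd2
    rw [zero_smul, add_zero] at hd2
    have hev := hd2.eventually (eventually_lt_nhds hneg)
    rw [eventually_nhdsWithin_iff] at hev
    obtain ⟨δ, hδ, hδ'⟩ := Metric.eventually_nhds_iff.1
      (hev.and (((hline v).eventually (hU.mem_nhds hu)).and (hloc v)))
    -- the first derivative is negative on (0, δ)
    have hneg' : ∀ s : ℝ, 0 < s → s < δ →
        inner ℝ (fderiv ℝ X (u + s • v) v) (X (u + s • v) - p) < 0 := by
      intro s hs0 hs
      have h1 := (hδ' (y := s) (by rw [Real.dist_eq, sub_zero, abs_of_pos hs0]; exact hs)).1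
        (by simpa using hs0.ne')
      rw [slope_def_field, hd0 v, sub_zero, sub_zero] at h1
      by_contra h2
      rw [not_lt] at h2
      exact absurd h1 (not_lt.2 (div_nonneg h2 hs0.le))
    have hmem : ∀ s : ℝ, 0 ≤ s → s < δ → u + s • v ∈ U := by
      intro s hs0 hs
      exact (hδ' (y := s) (by rw [Real.dist_eq, sub_zero, abs_of_nonneg hs0]; exact hs)).2.1
    have hanti : StrictAntiOn (fun s : ℝ => LL X p (u + s • v)) (Icc 0 (δ / 2)) := by
      apply strictAntiOn_of_deriv_neg (convex_Icc _ _)
      · intro s hs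
        exact (hasDerivAt_line hU hX p u v (hmem s hs.1 (by linarith [hs.2]))).continuousAt.continuousWithinAt
      · intro s hs
        rw [interior_Icc] at hs
        rw [(hasDerivAt_line hU hX p u v (hmem s hs.1.le (by linarith [hs.2]))).deriv]
        exact hneg' s hs.1 (by linarith [hs.2])
    have h3 := hanti (left_mem_Icc.2 (by linarith)) (right_mem_Icc.2 (by linarith)) (by linarith)
    have h4 := (hδ' (y := δ / 2) (by rw [Real.dist_eq, sub_zero, abs_of_pos (by linarith)]; linarith)).2.2
    exact absurd h3 (not_lt.2 h4)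

end MPf7aa
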