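import Pool.Agent.Lib.MP_f7aa1b_gt.I8
import Pool.Agent.Lib.MP_f7aa1b_gt.T3
import Pool.Agent.Lib.MP_f7aa1b_gt.L1

/-!
Row I9. Step (d): the outer good point. Proof. q(v) = <dX us v, X us> is a continuous linear form, q(e) < 0.
For u put al(u) = q(u - us)/q(e), dd(u) = u - us - al(u) e: q(dd u) = 0, u = us + al e + dd. For delta > 0 the set
O = {u | |al u| + |dd u| <= delta} is compact and contains a neighbourhood of each of its points with < delta.
Choose delta <= delta0 (outer_est), <= delta of inner_region, and so small that every u in O is in ball 0 R and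
has LL X 0 u < r0^2/2 (level_interior at us with rho = r0^2/2, and low_norm). Take b0, zeta from outer_est
(b0 also <= the delta of inner_region), kap0 = b0 eps/s1. Given kap, b := kap s1/eps <= b0. Let c = cen (s1-eps) w,
um a minimum point of the continuous LL X c on O. The point us - b e is in O (al = -b, dd = 0). By outer_est
N(um) := |al um + b| + |dd um| < b/2, so |al um| + |dd um| < 2b < delta: um is interior to O, a local minimum
of LL X c: second_order_nec (T3). inner_region (contrapositive): LL X 0 us < LL X 0 um.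
-/

open Set Filter Topology Metric MeasureTheory
open scoped ContDiff

namespace MPf7aa

theorem I9_cont {m k : ℕ} {U : Set (E m)} {X : E m → E k} (hX : ContDiffOn ℝ ∞ X U) (c : E k)
    {O : Set (E m)} (hO : O ⊆ U) : ContinuousOn (LL X c) O := by
  have h2 : ContinuousOn (fun u : E m => ((c, u) : E k × E m)) O :=
    (continuous_const.prodMk continuous_id).continuousOn
  have h3 := (continuousOn_LL hX).comp h2 (fun u hu => hO hu)
  exact h3

theorem outer {m : ℕ} {X : E m → E (m + 1)} {U : Set (E m)} {R r0 : ℝ} {η : E (m + 1)}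
    {σ : ℝ} {P Bad : Set (E (m + 1))} {us : E m} {t s1 : ℝ} {e : E m}
    (h : CaseI X U R r0 η σ P Bad us t s1 e)
    {ε : ℝ} (hε : 0 < ε) (hε1 : ε < s1) :
    ∃ κ0 : ℝ, 0 < κ0 ∧ ∃ ζ : ℝ, 0 < ζ ∧ ∀ κ : ℝ, 0 < κ → κ ≤ κ0 →
      ∀ w : E (m + 1), ‖w + κ • fderiv ℝ X us e‖ ≤ ζ * κ →
        ∃ u ∈ closedBall (0 : E m) R, LL X 0 us < LL X 0 u ∧ LL X 0 u < r0 ^ 2 / 2 ∧
          Crit X (cen X η us t (s1 - ε) w) u ∧
          ∀ v, 0 ≤ HH X (cen X η us t (s1 - ε) w) u v v := by
  have hcore := h.core
  set q : E m →L[ℝ] ℝ := (innerSL ℝ (X us)).comp (fderiv ℝ X us) with hq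
  have hqv : ∀ v, q v = inner ℝ (fderiv ℝ X us v) (X us) := by
    intro v
    rw [hq, ContinuousLinearMap.comp_apply, innerSL_apply_apply, real_inner_comm]
  have hqe : q e < 0 := by rw [hqv]; exact h.e0
  have hqe0 : q e ≠ 0 := hqe.ne
  obtain ⟨δ0, hδ0, hO⟩ := outer_est h hε hε1
  obtain ⟨δi, hδi, hI⟩ := inner_region h
  obtain ⟨δl, hδl, hL⟩ := level_interior hcore h.mem le_rfl h.lev
  have hn : 0 < ‖e‖ + 1 := by linarith only [norm_nonneg e]
  set δ : ℝ := min (min δ0 δi) (δl / (‖e‖ + 1)) with hδd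
  have hδ : 0 < δ := lt_min (lt_min hδ0 hδi) (div_pos hδl hn)
  have hδ0' : δ ≤ δ0 := (min_le_left _ _).trans (min_le_left _ _)
  have hδi' : δ ≤ δi := (min_le_left _ _).trans (min_le_right _ _)
  have hδl' : δ * (‖e‖ + 1) ≤ δl := by
    have : δ ≤ δl / (‖e‖ + 1) := min_le_right _ _
    rwa [le_div_iff₀ hn] at this
  obtain ⟨b0, hb0, hb0δ, ζ, hζ, hest⟩ := hO δ hδ hδ0'
  have ha : 0 < ε / s1 := div_pos hε h.s10
  refine ⟨min b0 δi * (ε / s1), mul_pos (lt_min hb0 hδi) ha, ζ, hζ, ?_⟩
  intro κ hκ hκ0 w hw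
  set b : ℝ := κ / (ε / s1) with hb
  have hbp : 0 < b := div_pos hκ ha
  have hba : b * (ε / s1) = κ := div_mul_cancel₀ κ ha.ne'
  have hbm : b ≤ min b0 δi := by rw [hb, div_le_iff₀ ha]; exact hκ0
  have hbb0 : b ≤ b0 := hbm.trans (min_le_left _ _)
  have hbi : b ≤ δi := hbm.trans (min_le_right _ _)
  -- the coordinates
  set al : E m → ℝ := fun u => q (u - us) / q e with hal
  set dd : E m → E m := fun u => u - us - al u • e with hdd
  have halc : Continuous al := by
    rw [hal]
    exact (q.continuous.comp (continuous_id.sub continuous_const)).div_const _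
  have hddc : Continuous dd := by
    rw [hdd]
    exact (continuous_id.sub continuous_const).sub (halc.smul continuous_const)
  have hdd0 : ∀ u, inner ℝ (fderiv ℝ X us (dd u)) (X us) = 0 := by
    intro u
    rw [← hqv, hdd]
    simp only [map_sub, map_smul, smul_eq_mul, hal]
    field_simp
    ring
  have hu : ∀ u, us + al u • e + dd u = u := by
    intro u
    change us + al u • e + (u - us - al u • e) = u
    generalize al u • e = z
    abel
  set g : E m → ℝ := fun u => |al u| + ‖dd u‖ with hg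
  have hgc : Continuous g := halc.abs.add hddc.norm
  have hclose : ∀ u, g u ≤ δ → u ∈ closedBall us δl := by
    intro u hgu
    rw [mem_closedBall, dist_eq_norm]
    have e1 : u - us = al u • e + dd u := by
      have := hu u
      rw [add_assoc] at this
      exact sub_eq_iff_eq_add'.mpr this.symm
    rw [e1]
    have h1 : 0 ≤ |al u| := abs_nonneg _
    have h2 : 0 ≤ ‖dd u‖ := norm_nonneg _
    have h3 : |al u| + ‖dd u‖ ≤ δ := hgu
    calc ‖al u • e + dd u‖ ≤ ‖al u • e‖ + ‖dd u‖ := norm_add_le _ _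
      _ = |al u| * ‖e‖ + ‖dd u‖ := by rw [norm_smul, Real.norm_eq_abs]
      _ ≤ (|al u| + ‖dd u‖) * (‖e‖ + 1) := by
        have h4 := mul_nonneg h2 (norm_nonneg e)
        linarith only [h1, h2, h4]
      _ ≤ δ * (‖e‖ + 1) := mul_le_mul_of_nonneg_right h3 hn.le
      _ ≤ δl := hδl'
  set O : Set (E m) := {u | g u ≤ δ} with hOd
  have hOc : IsCompact O := by
    refine (isCompact_closedBall us δl).of_isClosed_subset (isClosed_le hgc continuous_const) ?_
    intro u hgu
    exact hclose u hgu
  have hOne : O.Nonempty := by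
    refine ⟨us, ?_⟩
    have h1 : al us = 0 := by simp [hal]
    have h2 : dd us = 0 := by simp [hdd, h1]
    change |al us| + ‖dd us‖ ≤ δ
    rw [h1, h2, abs_zero, norm_zero]
    linarith only [hδ]
  set c : E (m + 1) := cen X η us t (s1 - ε) w with hc
  have hfc : ContinuousOn (LL X c) O :=
    I9_cont hcore.cX c (fun u hgu => hcore.ball (hL u (hclose u hgu)).1)
  obtain ⟨um, hum, hmin⟩ := hOc.exists_isMinOn hOne hfc
  have hbe : us - b • e ∈ O := by
    have h1 : al (us - b • e) = -b := by
      simp only [hal, sub_sub_cancel_left, map_neg, map_smul, smul_eq_mul]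
      field_simp
    have h2 : dd (us - b • e) = 0 := by
      simp only [hdd, h1]
      rw [neg_smul]
      abel
    change |al (us - b • e)| + ‖dd (us - b • e)‖ ≤ δ
    rw [h1, h2, norm_zero, abs_neg, abs_of_pos hbp]
    linarith only [hbb0, hb0δ, hδ]
  have hNum : |al um + b| + ‖dd um‖ < b / 2 := by
    by_contra hcon
    push Not at hcon
    have h1 := hest b hbp hbb0 w (by rw [hba]; exact hw) (al um) (dd um) (hdd0 um) hum hcon
    rw [hu um] at h1
    exact absurd (hmin hbe) (not_le.mpr h1)
  have hgum : g um < δ := by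
    have h1 : |al um| ≤ |al um + b| + b := by
      calc |al um| = |(al um + b) - b| := by rw [add_sub_cancel_right]
        _ ≤ |al um + b| + |b| := abs_sub _ _
        _ = |al um + b| + b := by rw [abs_of_pos hbp]
    change |al um| + ‖dd um‖ < δ
    linarith only [h1, hNum, hbb0, hb0δ, hδ, hbp]
  have hloc : IsLocalMin (LL X c) um := by
    have h1 : ∀ᶠ u in 𝓝 um, g u < δ := hgc.continuousAt.eventually (gt_mem_nhds hgum)
    filter_upwards [h1] with u hgu
    exact hmin (show u ∈ O from hgu.le)
  have humL := hL um (hclose um hum)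
  have hnec := second_order_nec hcore.op hcore.cX (hcore.ball humL.1) hloc
  refine ⟨um, humL.1, ?_, humL.2, hnec.1, hnec.2⟩
  by_contra hcon
  push Not at hcon
  have h1 := hI (al um) b (dd um) (hdd0 um) (le_trans hum hδi') hbp hbi (by rw [hu um]; exact hcon)
  exact absurd h1 (not_le.mpr hNum)

end MPf7aa
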