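import Pool.Agent.Lib.MP_f7aa1b_gt.L3

/-!
Row L4. Lemma 4 of the paper: at most one good point.
Proof. Suppose u1 != u2. level_interior (rho = r0^2/2) gives d1, d2; persist at (p, ui) with
rho0 = min di (|u1-u2|/2): for |p'-p| < delta there are ui' in ball ui rho_i, Good for p', distinct, in
closedBall 0 R, with LL X 0 ui' < r0^2/2. P is open, so a small ball B around p (radius < delta) is in
P; its volume is positive, and null1 holds almost everywhere, so there is p' in B with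
(forall alpha in (0,1], alpha p' not in Bad) (e.g. (ae_iff / Filter.Eventually.and_frequently) or
measure_ball_pos with measure_mono_null). uniq_avoid: u1' = u2', contradiction.
-/

open Set Filter Topology Metric MeasureTheory
open scoped ContDiff

namespace MPf7aa

theorem uniq {m : ℕ} {X : E m → E (m + 1)} {U : Set (E m)} {R r0 : ℝ} {η : E (m + 1)}
    {σ : ℝ} {P Bad : Set (E (m + 1))} (h : Core X U R r0 η σ P Bad) {p : E (m + 1)} (hp : p ∈ P)
    {u1 u2 : E m} (h1 : u1 ∈ closedBall (0 : E m) R) (h2 : u2 ∈ closedBall (0 : E m) R)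
    (l1 : LL X 0 u1 < r0 ^ 2 / 2) (l2 : LL X 0 u2 < r0 ^ 2 / 2)
    (g1 : Good X p u1) (g2 : Good X p u2) : u1 = u2 := by
  by_contra hne
  obtain ⟨d1, hd1, hd1'⟩ := level_interior h h1 le_rfl l1
  obtain ⟨d2, hd2, hd2'⟩ := level_interior h h2 le_rfl l2
  have hdist : 0 < dist u1 u2 := dist_pos.2 hne
  have hU1 : u1 ∈ U := h.ball h1
  have hU2 : u2 ∈ U := h.ball h2
  obtain ⟨ρ1, hρ1, hρ1', -, δ1, hδ1, H1⟩ := persist h.op h.cX hU1 g1
    (ρ0 := min d1 (dist u1 u2 / 2)) (lt_min hd1 (by linarith))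
  obtain ⟨ρ2, hρ2, hρ2', -, δ2, hδ2, H2⟩ := persist h.op h.cX hU2 g2
    (ρ0 := min d2 (dist u1 u2 / 2)) (lt_min hd2 (by linarith))
  have hnh : ∀ᶠ p' in 𝓝 p, p' ∈ P ∧ p' ∈ ball p δ1 ∧ p' ∈ ball p δ2 :=
    (h.Pop.eventually_mem hp).and
      ((isOpen_ball.eventually_mem (mem_ball_self hδ1)).and
        (isOpen_ball.eventually_mem (mem_ball_self hδ2)))
  obtain ⟨r, hr, hball⟩ := Metric.eventually_nhds_iff_ball.1 hnh
  have hex : ∃ p' ∈ ball p r, ∀ α : ℝ, 0 < α → α ≤ 1 → α • p' ∉ Bad := by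
    by_contra hcon
    have h0 : volume (ball p r) = 0 := by
      refine measure_mono_null (fun x hx => ?_) (ae_iff.1 h.null1)
      intro hx2
      exact hcon ⟨x, hx, hx2⟩
    exact (measure_ball_pos volume p hr).ne' h0
  obtain ⟨p', hp', hav⟩ := hex
  obtain ⟨hP, hb1, hb2⟩ := hball p' hp'
  obtain ⟨v1, hv1, gv1, -, -⟩ := H1 p' (mem_ball_iff_norm.1 hb1)
  obtain ⟨v2, hv2, gv2, -, -⟩ := H2 p' (mem_ball_iff_norm.1 hb2)
  have e1 := hd1' v1 (mem_closedBall.2 ((mem_ball.1 hv1).le.trans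
    (hρ1'.le.trans (min_le_left _ _))))
  have e2 := hd2' v2 (mem_closedBall.2 ((mem_ball.1 hv2).le.trans
    (hρ2'.le.trans (min_le_left _ _))))
  have heq : v1 = v2 := uniq_avoid h hP hav e1.1 e2.1 e1.2 e2.2 gv1 gv2
  have t1 : dist v1 u1 < dist u1 u2 / 2 :=
    (mem_ball.1 hv1).trans (hρ1'.trans_le (min_le_right _ _))
  have t2 : dist v2 u2 < dist u1 u2 / 2 :=
    (mem_ball.1 hv2).trans (hρ2'.trans_le (min_le_right _ _))
  rw [← heq] at t2
  have t3 := dist_triangle_left u1 u2 v1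
  linarith

end MPf7aa
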