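import Pool.Agent.Lib.MP_f7aa1b_gt.I6
import Pool.Agent.Lib.MP_f7aa1b_gt.I9
import Pool.Agent.Lib.MP_f7aa1b_gt.I10
import Pool.Agent.Lib.MP_f7aa1b_gt.I11
import Pool.Agent.Lib.MP_f7aa1b_gt.L4

/-!
Row I12. Case I is impossible.
Proof. C0 from slope; eps0, zeta from barrier; eps_P from cen_P; eps := min of eps0, eps_P, s1/2, (1-s1)/2 (all
positive). kap0 from barrier, kap0', zeta' from outer (eps), delta from startgood (s = s1 + eps < 1).
zeta'' := min zeta zeta', kap so small that kap (|dX us e| + zeta'') < min delta eps_P. Ev := dX us e.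
null2 with v := t eta - X us: for almost every w', w' + s v is not in Bad for all s. The open ball around
X us - kap Ev of radius zeta'' kap has positive measure, so it contains such a w'; w := w' - X us:
|w + kap Ev| < zeta'' kap, |w| < min delta eps_P, cen s w = w' + s v not in Bad, and in P for
|s - s1| <= eps (cen_P). startgood, tracking: u with LL X 0 u < LL X 0 us, Good for cen (s1-eps) w.
outer: u' with LL X 0 us < LL X 0 u' < r0^2/2, Crit, HH >= 0, not Deg (field bad), so Good (not_deg_good).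
uniq (L4): u = u', contradiction.
-/

open Set Filter Topology Metric MeasureTheory
open scoped ContDiff

namespace MPf7aa

theorem I12_pick {k : ℕ} {S : Set (E k)} {a v : E k} {r : ℝ} (hr : 0 < r)
    (hn : ∀ᵐ w ∂(volume : Measure (E k)), ∀ s : ℝ, w + s • v ∉ S) :
    ∃ w ∈ ball a r, ∀ s : ℝ, w + s • v ∉ S := by
  by_contra hcon
  push Not at hcon
  have h1 : volume (ball a r) ≤ volume {w : E k | ¬ ∀ s : ℝ, w + s • v ∉ S} := by
    refine measure_mono ?_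
    intro w hw
    rw [mem_ofPred_eq]
    push Not
    exact hcon w hw
  rw [ae_iff.1 hn] at h1
  exact absurd h1 (not_le.2 (measure_ball_pos volume a hr))

theorem caseI_false {m : ℕ} {X : E m → E (m + 1)} {U : Set (E m)} {R r0 : ℝ} {η : E (m + 1)}
    {σ : ℝ} {P Bad : Set (E (m + 1))} {us : E m} {t s1 : ℝ} {e : E m}
    (h : CaseI X U R r0 η σ P Bad us t s1 e) : False := by
  obtain ⟨C0, hC0, hsl⟩ := slope h
  obtain ⟨ε0, hε0, ζ, hζ, hbar⟩ := barrier h hC0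
  obtain ⟨εP, hεP, hcP⟩ := cen_P h
  have hs10 := h.s10
  have hs11 := h.s11
  obtain ⟨ε, hε, hε1, hε2, hε3, hε4⟩ : ∃ ε : ℝ, 0 < ε ∧ ε ≤ ε0 ∧ ε ≤ εP ∧ ε < s1 ∧ s1 + ε < 1 := by
    have e1 : 0 < (1 - s1) / 2 := by linarith
    have e2 : 0 < s1 / 2 := by linarith
    refine ⟨min (min ε0 εP) (min (s1 / 2) ((1 - s1) / 2)), by positivity,
      (min_le_left _ _).trans (min_le_left _ _), (min_le_left _ _).trans (min_le_right _ _), ?_, ?_⟩
    · have : min (min ε0 εP) (min (s1 / 2) ((1 - s1) / 2)) ≤ s1 / 2 :=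
        (min_le_right _ _).trans (min_le_left _ _)
      linarith
    · have : min (min ε0 εP) (min (s1 / 2) ((1 - s1) / 2)) ≤ (1 - s1) / 2 :=
        (min_le_right _ _).trans (min_le_right _ _)
      linarith
  obtain ⟨κ0, hκ0, hbar2⟩ := hbar ε hε hε1
  obtain ⟨κ1, hκ1, ζ1, hζ1, hout⟩ := outer h hε hε3
  obtain ⟨δ, hδ, hst⟩ := startgood h (s := s1 + ε) (by linarith) hε4
  obtain ⟨ζ2, hζ2, hζa, hζb⟩ : ∃ ζ2 : ℝ, 0 < ζ2 ∧ ζ2 ≤ ζ ∧ ζ2 ≤ ζ1 :=
    ⟨min ζ ζ1, by positivity, min_le_left _ _, min_le_right _ _⟩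
  obtain ⟨κ, hκ, hκa, hκb, hκc⟩ : ∃ κ : ℝ, 0 < κ ∧ κ ≤ κ0 ∧ κ ≤ κ1 ∧
      κ * (‖fderiv ℝ X us e‖ + ζ2) < min δ εP := by
    have hD : 0 < ‖fderiv ℝ X us e‖ + ζ2 := by positivity
    have hM : 0 < min δ εP := lt_min hδ hεP
    refine ⟨min (min κ0 κ1) (min δ εP / (2 * (‖fderiv ℝ X us e‖ + ζ2))), by positivity,
      (min_le_left _ _).trans (min_le_left _ _), (min_le_left _ _).trans (min_le_right _ _), ?_⟩
    calc min (min κ0 κ1) (min δ εP / (2 * (‖fderiv ℝ X us e‖ + ζ2))) * (‖fderiv ℝ X us e‖ + ζ2)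
        ≤ min δ εP / (2 * (‖fderiv ℝ X us e‖ + ζ2)) * (‖fderiv ℝ X us e‖ + ζ2) :=
          mul_le_mul_of_nonneg_right (min_le_right _ _) hD.le
      _ = min δ εP / 2 := by field_simp
      _ < min δ εP := by linarith
  obtain ⟨w', hw'b, hw'n⟩ := I12_pick (a := X us - κ • fderiv ℝ X us e) (r := ζ2 * κ)
    (by positivity) (h.core.null2 (t • η - X us))
  obtain ⟨w, hw⟩ : ∃ w : E (m + 1), w = w' - X us := ⟨_, rfl⟩
  have hcen : ∀ s : ℝ, cen X η us t s w = w' + s • (t • η - X us) := by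
    intro s
    unfold cen
    rw [hw]
    abel
  have hnb : ∀ s : ℝ, cen X η us t s w ∉ Bad := fun s => by rw [hcen]; exact hw'n s
  have hw1 : ‖w + κ • fderiv ℝ X us e‖ < ζ2 * κ := by
    rw [mem_ball, dist_eq_norm] at hw'b
    have : w + κ • fderiv ℝ X us e = w' - (X us - κ • fderiv ℝ X us e) := by rw [hw]; abel
    rw [this]; exact hw'b
  have hw2 : ‖w‖ < min δ εP := by
    have e1 : w = (w + κ • fderiv ℝ X us e) - κ • fderiv ℝ X us e := by abel
    have e2 : ‖w‖ ≤ ‖w + κ • fderiv ℝ X us e‖ + ‖κ • fderiv ℝ X us e‖ := by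
      conv_lhs => rw [e1]
      exact norm_sub_le _ _
    rw [norm_smul, Real.norm_of_nonneg hκ.le] at e2
    have e3 : κ * (‖fderiv ℝ X us e‖ + ζ2) = ζ2 * κ + κ * ‖fderiv ℝ X us e‖ := by ring
    linarith
  have hwδ : ‖w‖ < δ := hw2.trans_le (min_le_left _ _)
  have hwP : ‖w‖ ≤ εP := (hw2.trans_le (min_le_right _ _)).le
  have hP : ∀ s : ℝ, s1 - ε ≤ s → s ≤ s1 + ε → cen X η us t s w ∈ P := by
    intro s h1 h2
    refine hcP s ?_ w hwP
    rw [abs_le]
    constructor <;> linarith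
  have hP2 : cen X η us t (s1 - ε) w ∈ P := hP _ le_rfl (by linarith)
  have hstart := hst w hwδ (hP _ (by linarith) le_rfl) (hnb _)
  have hκζ : ζ2 * κ ≤ ζ * κ := mul_le_mul_of_nonneg_right hζa hκ.le
  have hκζ1 : ζ2 * κ ≤ ζ1 * κ := mul_le_mul_of_nonneg_right hζb hκ.le
  obtain ⟨u1, hu1m, hu1l, hu1g⟩ := tracking h hC0 hsl hε (w := w)
    (fun s h1 h2 => ⟨hP s h1 h2, hnb s⟩) (hbar2 κ hκ hκa w (hw1.le.trans hκζ)) hstart
  obtain ⟨u2, hu2m, hu2a, hu2b, hu2c, hu2n⟩ := hout κ hκ hκb w (hw1.le.trans hκζ1)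
  have hnd : ¬ Deg X (cen X η us t (s1 - ε) w) u2 := fun hd =>
    hnb _ (h.core.bad _ hP2 u2 hu2m hu2b.le hd)
  have hg2 := not_deg_good hu2c hu2n hnd
  have heq := uniq h.core hP2 hu1m hu2m (hu1l.trans h.lev) hu2b hu1g hg2
  rw [heq] at hu1l
  exact absurd hu1l (not_lt.2 hu2a.le)

end MPf7aa
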