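import Pool.Agent.Lib.MP_f7aa1b_gt.I1

/-!
Row I2. Elementary facts in Case I.
caseI_ne: e0 is false if X us = 0 (X 0 = 0).
caseI_e: e0 is false for e = 0. crit_cen: Crit_center. HH_cen_e: HH_center and ker:
s1 HH(t eta) e v = -(1-s1) GG e v, so (1-s) GG + s HH = (1 - s/s1) GG. HH_cen_nn: field nn and HH_center.
H_ker: for <dX us v, X us> = 0, second_order_constr (T8; n from not_crit0; near us all points are in
closedBall 0 R since |us| < R) gives HH X (t eta) us v v >= 0, so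
HH X (cen s 0) us v v >= (1 - s) GG X us v v >= ((1 - s1)/2) c^2 |v|^2 (field imm of Core) for 0 <= s <= (1+s1)/2.
cen_bound: |cen s w| <= |X us| + |s| |t eta - X us| + |w|.
cen_P: Deg X (cen s1 0) us (crit_cen, nn, HH e e = 0, e != 0), so field focal of Core gives cen s1 0 in P,
P is open and (s, w) -> cen s w is continuous.
-/

open Set Filter Topology Metric MeasureTheory
open scoped ContDiff

namespace MPf7aa

theorem caseI_ne {m : ℕ} {X : E m → E (m + 1)} {U : Set (E m)} {R r0 : ℝ} {η : E (m + 1)}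
    {σ : ℝ} {P Bad : Set (E (m + 1))} {us : E m} {t s1 : ℝ} {e : E m}
    (h : CaseI X U R r0 η σ P Bad us t s1 e) : us ≠ 0 := by
  intro h0
  have h1 := h.e0
  rw [h0, h.core.X0, inner_zero_right] at h1
  exact lt_irrefl _ h1

theorem caseI_e {m : ℕ} {X : E m → E (m + 1)} {U : Set (E m)} {R r0 : ℝ} {η : E (m + 1)}
    {σ : ℝ} {P Bad : Set (E (m + 1))} {us : E m} {t s1 : ℝ} {e : E m}
    (h : CaseI X U R r0 η σ P Bad us t s1 e) : e ≠ 0 := by
  intro h0
  have h1 := h.e0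
  rw [h0, map_zero, inner_zero_left] at h1
  exact lt_irrefl _ h1

theorem crit_cen {m : ℕ} {X : E m → E (m + 1)} {U : Set (E m)} {R r0 : ℝ} {η : E (m + 1)}
    {σ : ℝ} {P Bad : Set (E (m + 1))} {us : E m} {t s1 : ℝ} {e : E m}
    (h : CaseI X U R r0 η σ P Bad us t s1 e) (s : ℝ) : Crit X (cen X η us t s 0) us := by
  have h1 := Crit_center h.crit s
  simpa only [cen, add_zero] using h1

theorem HH_cen_e {m : ℕ} {X : E m → E (m + 1)} {U : Set (E m)} {R r0 : ℝ} {η : E (m + 1)}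
    {σ : ℝ} {P Bad : Set (E (m + 1))} {us : E m} {t s1 : ℝ} {e : E m}
    (h : CaseI X U R r0 η σ P Bad us t s1 e) (s : ℝ) (v : E m) :
    HH X (cen X η us t s 0) us e v = (1 - s / s1) * GG X us e v := by
  have h1 : HH X (cen X η us t s 0) us e v =
      (1 - s) * GG X us e v + s * HH X (t • η) us e v := by
    have h2 := HH_center X (t • η) us e v s
    simpa only [cen, add_zero] using h2
  have h3 := h.ker v
  have h4 := h.s10
  have h5 : HH X (t • η) us e v = -((1 - s1) * GG X us e v) / s1 := by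
    field_simp
    linarith
  rw [h1, h5]
  field_simp
  ring

theorem HH_cen_nn {m : ℕ} {X : E m → E (m + 1)} {U : Set (E m)} {R r0 : ℝ} {η : E (m + 1)}
    {σ : ℝ} {P Bad : Set (E (m + 1))} {us : E m} {t s1 : ℝ} {e : E m}
    (h : CaseI X U R r0 η σ P Bad us t s1 e) (v : E m) : 0 ≤ HH X (cen X η us t s1 0) us v v := by
  have h2 := HH_center X (t • η) us v v s1
  have h3 : cen X η us t s1 0 = X us + s1 • (t • η - X us) := by simp only [cen, add_zero]
  rw [h3, h2]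
  exact h.nn v

theorem H_ker {m : ℕ} {X : E m → E (m + 1)} {U : Set (E m)} {R r0 : ℝ} {η : E (m + 1)}
    {σ : ℝ} {P Bad : Set (E (m + 1))} {us : E m} {t s1 : ℝ} {e : E m}
    (h : CaseI X U R r0 η σ P Bad us t s1 e) :
    ∃ c : ℝ, 0 < c ∧ ∀ s : ℝ, 0 ≤ s → s ≤ (1 + s1) / 2 → ∀ v : E m,
      inner ℝ (fderiv ℝ X us v) (X us) = 0 → c * ‖v‖ ^ 2 ≤ HH X (cen X η us t s 0) us v v := by
  obtain ⟨c, hc, himm⟩ := h.core.imm
  have hU : us ∈ U := h.core.ball h.mem
  obtain ⟨n, hn⟩ := not_crit0 h.core h.mem (caseI_ne h)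
  have hlt : ‖us‖ < R := low_norm h.core h.mem h.lev.le
  have hmin : ∀ᶠ w in 𝓝 us, LL X 0 w = LL X 0 us → LL X (t • η) us ≤ LL X (t • η) w := by
    have h1 : ∀ᶠ w in 𝓝 us, w ∈ ball (0 : E m) R :=
      isOpen_ball.mem_nhds (by simpa using hlt)
    filter_upwards [h1] with w hw hl
    exact h.minS w (ball_subset_closedBall hw) hl
  refine ⟨(1 - s1) / 2 * c ^ 2, mul_pos (by have := h.s11; linarith) (pow_pos hc 2), ?_⟩
  intro s hs0 hs1 v hv
  have h2 : 0 ≤ HH X (t • η) us v v :=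
    second_order_constr h.core.op h.core.cX hU h.crit hn hmin hv
  have h3 : cen X η us t s 0 = X us + s • (t • η - X us) := by simp only [cen, add_zero]
  rw [h3, HH_center X (t • η) us v v s]
  have h4 : c ^ 2 * ‖v‖ ^ 2 ≤ GG X us v v := by
    have h5 := himm us h.mem v
    have h6 : GG X us v v = ‖fderiv ℝ X us v‖ ^ 2 := by
      simp only [GG, real_inner_self_eq_norm_sq]
    rw [h6, ← mul_pow]
    exact pow_le_pow_left₀ (by positivity) h5 2
  have h7 : (1 - s1) / 2 ≤ 1 - s := by linarith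
  have h8 : 0 ≤ GG X us v v := le_trans (by positivity) h4
  have h9 : 0 ≤ (1 - s1) / 2 := by have := h.s11; linarith
  calc (1 - s1) / 2 * c ^ 2 * ‖v‖ ^ 2 = (1 - s1) / 2 * (c ^ 2 * ‖v‖ ^ 2) := by ring
    _ ≤ (1 - s1) / 2 * GG X us v v := mul_le_mul_of_nonneg_left h4 h9
    _ ≤ (1 - s) * GG X us v v := mul_le_mul_of_nonneg_right h7 h8
    _ ≤ (1 - s) * GG X us v v + s * HH X (t • η) us v v :=
        le_add_of_nonneg_right (mul_nonneg hs0 h2)

theorem cen_bound {m : ℕ} {X : E m → E (m + 1)} {U : Set (E m)} {R r0 : ℝ} {η : E (m + 1)}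
    {σ : ℝ} {P Bad : Set (E (m + 1))} {us : E m} {t s1 : ℝ} {e : E m}
    (h : CaseI X U R r0 η σ P Bad us t s1 e) :
    ∃ B : ℝ, 0 < B ∧ ∀ s : ℝ, |s| ≤ 1 → ∀ w : E (m + 1), ‖cen X η us t s w‖ ≤ B + ‖w‖ := by
  refine ⟨‖X us‖ + ‖t • η - X us‖ + 1, by positivity, ?_⟩
  intro s hs w
  calc ‖cen X η us t s w‖ ≤ ‖X us‖ + ‖s • (t • η - X us)‖ + ‖w‖ := norm_add₃_le
    _ ≤ ‖X us‖ + ‖t • η - X us‖ + ‖w‖ := by
        have h1 : ‖s • (t • η - X us)‖ ≤ ‖t • η - X us‖ := by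
          rw [norm_smul, Real.norm_eq_abs]
          exact mul_le_of_le_one_left (norm_nonneg _) hs
        linarith
    _ ≤ ‖X us‖ + ‖t • η - X us‖ + 1 + ‖w‖ := by linarith

theorem cen_P {m : ℕ} {X : E m → E (m + 1)} {U : Set (E m)} {R r0 : ℝ} {η : E (m + 1)}
    {σ : ℝ} {P Bad : Set (E (m + 1))} {us : E m} {t s1 : ℝ} {e : E m}
    (h : CaseI X U R r0 η σ P Bad us t s1 e) :
    ∃ ε : ℝ, 0 < ε ∧ ∀ s : ℝ, |s - s1| ≤ ε → ∀ w : E (m + 1), ‖w‖ ≤ ε →
      cen X η us t s w ∈ P := by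
  have hdeg : Deg X (X us + s1 • (t • η - X us)) us := by
    have h3 : cen X η us t s1 0 = X us + s1 • (t • η - X us) := by simp only [cen, add_zero]
    rw [← h3]
    refine ⟨crit_cen h s1, HH_cen_nn h, e, caseI_e h, ?_⟩
    rw [HH_cen_e h s1 e, div_self h.s10.ne']
    ring
  have hP : cen X η us t s1 0 ∈ P := by
    have h4 := h.core.focal us h.mem h.lev.le t h.t0 h.tσ.le s1 h.s10 h.s11 hdeg
    simpa only [cen, add_zero] using h4
  have hcont : Continuous fun q : ℝ × E (m + 1) => cen X η us t q.1 q.2 := by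
    unfold cen
    fun_prop
  have hnhds : ∀ᶠ q in 𝓝 ((s1, 0) : ℝ × E (m + 1)), cen X η us t q.1 q.2 ∈ P :=
    hcont.continuousAt.eventually (h.core.Pop.mem_nhds hP)
  obtain ⟨ε, hε, hb⟩ := Metric.eventually_nhds_iff.1 hnhds
  refine ⟨ε / 2, by positivity, fun s hs w hw => ?_⟩
  refine hb (y := (s, w)) ?_
  rw [Prod.dist_eq, max_lt_iff]
  constructor
  · rw [Real.dist_eq]
    linarith
  · rw [dist_zero_right]
    linarith

end MPf7aa
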