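import Pool.Agent.Lib.MP_f7aa1b_gt.I2

/-!
Row I3. Values of L at the centres cen s w (algebra).
LL_cen: LL_shift (c = cen s 0, w = w) and LL_center (p = t eta).
slope: the difference of the two brackets is (s - s') (f1 u - f0 u) with
f1 u = LL X (t eta) u - LL X (t eta) us, f0 u = |X u - X us|^2/2, and |f1 - f0| is bounded on the compact ball
closedBall 0 R (continuousOn_LL).
LL_cen_split: s = s1 - eps, a = eps/s1, 1 - a = s/s1 (s1 > 0): by LL_cen
(1-s) f0 + s f1 = (1-a) ((1-s1) f0 + s1 f1) + a f0, and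
a f0 - <w, X u - X us> = (a/2) |X u - X us - w/a|^2 - |w|^2/(2a).
-/

open Set Filter Topology Metric MeasureTheory
open scoped ContDiff

namespace MPf7aa

theorem LL_cen {m k : ℕ} (X : E m → E (k + 1)) (η : E (k + 1)) (us u : E m) (t s : ℝ)
    (w : E (k + 1)) :
    LL X (X us + s • (t • η - X us) + w) u - LL X (X us + s • (t • η - X us) + w) us =
      (1 - s) * ((1 / 2) * ‖X u - X us‖ ^ 2) + s * (LL X (t • η) u - LL X (t • η) us)
        - inner ℝ w (X u - X us) := by
  rw [LL_shift X (X us + s • (t • η - X us)) w u us, LL_center X (t • η) u us s]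

theorem slope {m : ℕ} {X : E m → E (m + 1)} {U : Set (E m)} {R r0 : ℝ} {η : E (m + 1)}
    {σ : ℝ} {P Bad : Set (E (m + 1))} {us : E m} {t s1 : ℝ} {e : E m}
    (h : CaseI X U R r0 η σ P Bad us t s1 e) :
    ∃ C0 : ℝ, 0 < C0 ∧ ∀ u ∈ closedBall (0 : E m) R, ∀ (s s' : ℝ) (w : E (m + 1)),
      |(LL X (cen X η us t s w) u - LL X (cen X η us t s w) us) -
        (LL X (cen X η us t s' w) u - LL X (cen X η us t s' w) us)| ≤ C0 * |s - s'| := by
  have hL := continuousOn_LL h.core.cX
  have hc : ∀ q : E (m + 1), ContinuousOn (fun u => LL X q u) (closedBall (0 : E m) R) := by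
    intro q
    have hf : ContinuousOn (fun u : E m => ((q, u) : E (m + 1) × E m)) (closedBall (0 : E m) R) :=
      (Continuous.prodMk_right q).continuousOn
    have hm : MapsTo (fun u : E m => ((q, u) : E (m + 1) × E m)) (closedBall (0 : E m) R)
      {q | q.2 ∈ U} := fun u hu => h.core.ball hu
    have := hL.comp hf hm
    exact this
  have hg : ContinuousOn (fun u => (LL X (t • η) u - LL X (t • η) us) - LL X (X us) u)
      (closedBall (0 : E m) R) :=
    ((hc (t • η)).sub (continuousOn_const (c := LL X (t • η) us))).sub (hc (X us))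
  obtain ⟨C, hC⟩ := (isCompact_closedBall (0 : E m) R).exists_bound_of_continuousOn hg
  refine ⟨max C 1, lt_max_of_lt_right one_pos, fun u hu s s' w => ?_⟩
  have h1 := hC u hu
  rw [Real.norm_eq_abs] at h1
  have e1 : (LL X (cen X η us t s w) u - LL X (cen X η us t s w) us) -
      (LL X (cen X η us t s' w) u - LL X (cen X η us t s' w) us) =
      ((LL X (t • η) u - LL X (t • η) us) - LL X (X us) u) * (s - s') := by
    unfold cen
    rw [LL_cen X η us u t s w, LL_cen X η us u t s' w]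
    have e0 : LL X (X us) u = (1 / 2) * ‖X u - X us‖ ^ 2 := rfl
    rw [e0]
    ring
  rw [e1, abs_mul]
  exact mul_le_mul_of_nonneg_right (h1.trans (le_max_left _ _)) (abs_nonneg _)

theorem LL_cen_split {m : ℕ} {X : E m → E (m + 1)} {U : Set (E m)} {R r0 : ℝ} {η : E (m + 1)}
    {σ : ℝ} {P Bad : Set (E (m + 1))} {us : E m} {t s1 : ℝ} {e : E m}
    (h : CaseI X U R r0 η σ P Bad us t s1 e)
    {ε : ℝ} (hε : 0 < ε) (u : E m) (w : E (m + 1)) :
    LL X (cen X η us t (s1 - ε) w) u - LL X (cen X η us t (s1 - ε) w) us =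
      (1 - ε / s1) * (LL X (cen X η us t s1 0) u - LL X (cen X η us t s1 0) us)
        + (ε / s1) / 2 * ‖X u - X us - (ε / s1)⁻¹ • w‖ ^ 2 - ‖w‖ ^ 2 / (2 * (ε / s1)) := by
  have hs1 := h.s10
  have ha : 0 < ε / s1 := div_pos hε hs1
  have hεa : ε = ε / s1 * s1 := by field_simp
  set a := ε / s1 with ha'
  have e1 : ‖X u - X us - a⁻¹ • w‖ ^ 2 =
      ‖X u - X us‖ ^ 2 - 2 * (a⁻¹ * inner ℝ (X u - X us) w) + (a⁻¹) ^ 2 * ‖w‖ ^ 2 := by
    rw [norm_sub_sq_real, inner_smul_right, norm_smul, Real.norm_of_nonneg (inv_pos.2 ha).le,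
      mul_pow]
  unfold cen
  rw [LL_cen X η us u t (s1 - ε) w, LL_cen X η us u t s1 0, e1,
    real_inner_comm w (X u - X us), inner_zero_left]
  generalize LL X (t • η) u = y1
  generalize LL X (t • η) us = y2
  generalize (inner ℝ w (X u - X us) : ℝ) = y3
  generalize ‖X u - X us‖ = y4
  generalize ‖w‖ = y5
  clear_value a
  subst hεa
  field_simp
  ring

end MPf7aa
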