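import Pool.Agent.Lib.MP_f7aa1b_gt.I3

/-!
Row I4. Points of the level set with small value are close to us.
Proof. Put y = |X u - X us|, b = (1 - s1)/4 > 0. For eps <= s1 and eps <= (1-s1)/2: s >= 0, 1 - s >= (1-s1)/2.
LL_cen and minS (f1 >= 0 on the level set): eps >= LL c u - LL c us >= b y^2 - eps y.
If y >= 1 then b y^2 <= 2 eps y, b <= b y <= 2 eps: impossible for eps < b/2. So y < 1 and b y^2 <= 2 eps.
Field inj of Core: c |u - us| <= y, so c^2 |u-us|^2 <= 2 eps/b <= c^2 delta^2 for eps <= b c^2 delta^2/2.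
-/

open Set Filter Topology Metric MeasureTheory
open scoped ContDiff

namespace MPf7aa

theorem close_of_low {m : ℕ} {X : E m → E (m + 1)} {U : Set (E m)} {R r0 : ℝ} {η : E (m + 1)}
    {σ : ℝ} {P Bad : Set (E (m + 1))} {us : E m} {t s1 : ℝ} {e : E m}
    (h : CaseI X U R r0 η σ P Bad us t s1 e)
    {δ : ℝ} (hδ : 0 < δ) :
    ∃ ε : ℝ, 0 < ε ∧ ∀ s : ℝ, |s - s1| ≤ ε → ∀ w : E (m + 1), ‖w‖ ≤ ε →
      ∀ u ∈ closedBall (0 : E m) R, LL X 0 u = LL X 0 us →
        LL X (cen X η us t s w) u ≤ LL X (cen X η us t s w) us + ε → ‖u - us‖ ≤ δ := by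
  obtain ⟨c, hc, hinj⟩ := h.core.inj
  have hs10 := h.s10
  have hs11 := h.s11
  obtain ⟨b, hb⟩ : ∃ b : ℝ, b = (1 - s1) / 4 := ⟨_, rfl⟩
  have hb0 : 0 < b := by rw [hb]; linarith
  have hcd : 0 < b * (c ^ 2 * δ ^ 2) / 2 := by positivity
  refine ⟨min (min s1 (b / 4)) (b * (c ^ 2 * δ ^ 2) / 2), ?_, ?_⟩
  · exact lt_min (lt_min hs10 (by linarith)) hcd
  intro s hs w hw u hu hlev hlow
  obtain ⟨ε, hε⟩ : ∃ ε : ℝ, ε = min (min s1 (b / 4)) (b * (c ^ 2 * δ ^ 2) / 2) := ⟨_, rfl⟩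
  rw [← hε] at hs hw hlow
  have h1 : ε ≤ s1 := by rw [hε]; exact (min_le_left _ _).trans (min_le_left _ _)
  have h2 : ε ≤ b / 4 := by rw [hε]; exact (min_le_left _ _).trans (min_le_right _ _)
  have h3 : ε ≤ b * (c ^ 2 * δ ^ 2) / 2 := by rw [hε]; exact min_le_right _ _
  have hε0 : 0 < ε := by
    rw [hε]; exact lt_min (lt_min hs10 (by linarith only [hb0])) hcd
  have hs' := abs_le.mp hs
  have hs0 : 0 ≤ s := by linarith only [hs'.1, h1]
  have hs1 : b ≤ (1 - s) / 2 := by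
    have : s ≤ s1 + b / 4 := by linarith only [hs'.2, h2]
    linarith only [this, hb, hb0]
  have hf := h.minS u hu hlev
  have key := LL_cen X η us u t s w
  obtain ⟨y, hy⟩ : ∃ y : ℝ, y = ‖X u - X us‖ := ⟨_, rfl⟩
  have hy0 : 0 ≤ y := by rw [hy]; exact norm_nonneg _
  have hin : inner ℝ w (X u - X us) ≤ ε * y := by
    refine (real_inner_le_norm _ _).trans ?_
    rw [← hy]
    exact mul_le_mul_of_nonneg_right hw hy0
  have hlow' : LL X (cen X η us t s w) u - LL X (cen X η us t s w) us ≤ ε := by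
    linarith only [hlow]
  unfold cen at hlow'
  rw [key, ← hy] at hlow'
  have hsf : 0 ≤ s * (LL X (t • η) u - LL X (t • η) us) :=
    mul_nonneg hs0 (by linarith only [hf])
  have hby : b * y ^ 2 ≤ (1 - s) * ((1 / 2) * y ^ 2) := by
    have : b * y ^ 2 ≤ (1 - s) / 2 * y ^ 2 := mul_le_mul_of_nonneg_right hs1 (sq_nonneg y)
    linarith only [this]
  have hmain : b * y ^ 2 ≤ ε + ε * y := by linarith only [hlow', hsf, hby, hin]
  have hy1 : y < 1 := by
    by_contra hcon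
    push Not at hcon
    have e1 : ε ≤ ε * y := le_mul_of_one_le_right hε0.le hcon
    have e2 : ε * y ≤ b / 4 * y := mul_le_mul_of_nonneg_right h2 hy0
    have e3 : b * y ≤ b * y ^ 2 := by
      have : y ≤ y ^ 2 := by
        rw [sq]; exact le_mul_of_one_le_left hy0 hcon
      exact mul_le_mul_of_nonneg_left this hb0.le
    have e4 : 0 < b * y := mul_pos hb0 (lt_of_lt_of_le one_pos hcon)
    linarith only [e1, e2, e3, e4, hmain]
  have hmain2 : b * y ^ 2 ≤ 2 * ε := by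
    have e1 : ε * y ≤ ε := mul_le_of_le_one_right hε0.le hy1.le
    linarith only [e1, hmain]
  have hy2 : y ^ 2 ≤ c ^ 2 * δ ^ 2 := by
    have e1 : b * y ^ 2 ≤ b * (c ^ 2 * δ ^ 2) := by linarith only [hmain2, h3]
    exact le_of_mul_le_mul_left e1 hb0
  have hcu : c * ‖u - us‖ ≤ y := by rw [hy]; exact hinj u hu us h.mem
  have hyd : y ≤ c * δ := by
    have e0 : 0 ≤ c * δ := (mul_pos hc hδ).le
    have e1 : y ^ 2 ≤ (c * δ) ^ 2 := by rw [mul_pow]; exact hy2
    exact (pow_le_pow_iff_left₀ hy0 e0 two_ne_zero).mp e1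
  exact le_of_mul_le_mul_left (hcu.trans hyd) hc

end MPf7aa
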