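import Pool.Agent.Lib.MP_f7aa1b_gt.I2
import Pool.Agent.Lib.MP_f7aa1b_gt.T7

/-!
Row I5. Lower bound of the second derivative in the direction of nearby points of the level set.
Proof. d = u - us, q = <dX us e, X us> < 0. T7 (a = 0, R, p = 0) and LL X 0 u = LL X 0 us give
|<dX us d, X us>| <= (1/2)|HH X 0 us d d| + C |d|^3 <= C1 |d|^2 if |d| <= 1. With alpha = <dX us d, X us>/q:
|alpha| <= C2 |d|^2 and d' = d - alpha e is in ker. HH (at the centre cen s 0, symmetric: HH_symm, bilinear T2)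
HH d d = HH d' d' + 2 alpha HH e d' + alpha^2 HH e e >= c |d'|^2 - C3 |alpha| (|d'| + |alpha|) (H_ker; last
clause of taylor; cen_bound with w = 0, |s| <= 1). |d'| >= |d| - C2 |e| |d|^2 >= |d|/2, |d'| <= 2|d| for small
|d|. So HH d d >= (c/4)|d|^2 - C4 |d|^3 >= (c/8) |d|^2 for |d| <= delta.
-/

open Set Filter Topology Metric MeasureTheory
open scoped ContDiff

namespace MPf7aa

theorem I5_arith {N K D c A M : ℝ} (hN : 0 ≤ N) (hD : 0 ≤ D) (hc : 0 < c)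
    (hA0 : 0 ≤ A) (hKN : K * N ≤ 1 / 2) (hDK : 40 * (D * (K * N)) ≤ c) (hA : A ≤ K * N * N)
    (hM1 : N - A ≤ M) (hM2 : M ≤ N + A) :
    c / 8 * N ^ 2 ≤ c * M ^ 2 - 2 * (D * (A * M)) - D * A ^ 2 := by
  have hA2 : A ≤ N / 2 := by
    have := mul_le_mul_of_nonneg_right hKN hN
    linarith
  have hM3 : N / 2 ≤ M := by linarith
  have hM4 : M ≤ 3 * N / 2 := by linarith
  have hM0 : 0 ≤ M := by linarith
  have e1 : N ^ 2 / 4 ≤ M ^ 2 := by
    have := mul_self_le_mul_self (by linarith : (0 : ℝ) ≤ N / 2) hM3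
    nlinarith
  have e2 : A * M ≤ K * N * N * (3 * N / 2) :=
    mul_le_mul hA hM4 hM0 (hA0.trans hA)
  have e3 : A ^ 2 ≤ K * N * N * (N / 2) := by
    rw [sq]
    exact mul_le_mul hA hA2 hA0 (hA0.trans hA)
  have e4 : D * (A * M) ≤ D * (K * N) * (3 / 2) * N ^ 2 := by
    calc D * (A * M) ≤ D * (K * N * N * (3 * N / 2)) := mul_le_mul_of_nonneg_left e2 hD
      _ = D * (K * N) * (3 / 2) * N ^ 2 := by ring
  have e5 : D * A ^ 2 ≤ D * (K * N) * (1 / 2) * N ^ 2 := by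
    calc D * A ^ 2 ≤ D * (K * N * N * (N / 2)) := mul_le_mul_of_nonneg_left e3 hD
      _ = D * (K * N) * (1 / 2) * N ^ 2 := by ring
  have e6 : D * (K * N) * N ^ 2 ≤ c / 40 * N ^ 2 :=
    mul_le_mul_of_nonneg_right (by linarith) (sq_nonneg N)
  have e7 : c * (N ^ 2 / 4) ≤ c * M ^ 2 := mul_le_mul_of_nonneg_left e1 hc.le
  have e8 : 0 ≤ c * N ^ 2 := mul_nonneg hc.le (sq_nonneg N)
  nlinarith

theorem H_near {m : ℕ} {X : E m → E (m + 1)} {U : Set (E m)} {R r0 : ℝ} {η : E (m + 1)}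
    {σ : ℝ} {P Bad : Set (E (m + 1))} {us : E m} {t s1 : ℝ} {e : E m}
    (h : CaseI X U R r0 η σ P Bad us t s1 e) :
    ∃ c : ℝ, 0 < c ∧ ∃ δ : ℝ, 0 < δ ∧ ∀ s : ℝ, 0 ≤ s → s ≤ (1 + s1) / 2 →
      ∀ u ∈ closedBall (0 : E m) R, LL X 0 u = LL X 0 us → ‖u - us‖ ≤ δ →
        c * ‖u - us‖ ^ 2 ≤ HH X (cen X η us t s 0) us (u - us) (u - us) := by
  obtain ⟨C, hC, -, -, -, -, -, hT, hb⟩ := taylor h.core.op h.core.cX h.core.ball
  obtain ⟨c, hc, hker⟩ := H_ker h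
  obtain ⟨B, hB, hcen⟩ := cen_bound h
  set q : ℝ := inner ℝ (fderiv ℝ X us e) (X us) with hq
  have hq0 : q < 0 := h.e0
  obtain ⟨C2, hC2⟩ : ∃ C2 : ℝ, C2 = 3 / 2 * C / |q| := ⟨_, rfl⟩
  have hqa : 0 < |q| := abs_pos.2 hq0.ne
  have hC20 : 0 < C2 := by rw [hC2]; positivity
  obtain ⟨K, hK⟩ : ∃ K : ℝ, K = C2 * ‖e‖ + 1 := ⟨_, rfl⟩
  have hK0 : 0 < K := by rw [hK]; positivity
  obtain ⟨D, hD⟩ : ∃ D : ℝ, D = C * (1 + B) := ⟨_, rfl⟩
  have hD0 : 0 < D := by rw [hD]; positivity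
  refine ⟨c / 8, by positivity, min 1 (min (1 / (2 * K)) (c / (40 * D * K))), by positivity, ?_⟩
  intro s hs0 hs1 u hu hlev hdist
  set d : E m := u - us with hd
  set N : ℝ := ‖d‖ with hN
  have hN0 : 0 ≤ N := norm_nonneg _
  have hN1 : N ≤ 1 := hdist.trans (min_le_left _ _)
  have hN2 : K * N ≤ 1 / 2 := by
    have h1 : N ≤ 1 / (2 * K) := hdist.trans ((min_le_right _ _).trans (min_le_left _ _))
    rw [le_div_iff₀ (by positivity)] at h1
    linarith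
  have hN3 : 40 * (D * (K * N)) ≤ c := by
    have h1 : N ≤ c / (40 * D * K) := hdist.trans ((min_le_right _ _).trans (min_le_right _ _))
    rw [le_div_iff₀ (by positivity)] at h1
    linarith
  -- first order
  have hL : |inner ℝ (fderiv ℝ X us d) (X us)| ≤ 3 / 2 * C * N ^ 2 := by
    have h1 := hT 0 us h.mem u hu
    have h2 := hb 0 us h.mem d d
    rw [hlev, norm_zero, add_zero, mul_one, sub_zero, sub_self, zero_sub] at h1
    rw [norm_zero, add_zero, mul_one] at h2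
    rw [← hd, ← hN] at h1
    rw [← hN] at h2
    rw [abs_le] at h1 h2
    have h3 : C * N ^ 3 ≤ C * N ^ 2 := by
      refine mul_le_mul_of_nonneg_left ?_ hC.le
      exact pow_le_pow_of_le_one hN0 hN1 (by norm_num)
    rw [abs_le]
    constructor <;> nlinarith [h1.1, h1.2, h2.1, h2.2]
  obtain ⟨α, hα⟩ : ∃ α : ℝ, α = inner ℝ (fderiv ℝ X us d) (X us) / q := ⟨_, rfl⟩
  have hαb : |α| ≤ C2 * N ^ 2 := by
    rw [hα, abs_div, div_le_iff₀ hqa]
    refine hL.trans (le_of_eq ?_)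
    rw [hC2]
    field_simp
  obtain ⟨d', hd'⟩ : ∃ d' : E m, d' = d - α • e := ⟨_, rfl⟩
  have hdd : d = d' + α • e := by rw [hd']; abel
  have hkd : inner ℝ (fderiv ℝ X us d') (X us) = 0 := by
    rw [hd', map_sub, map_smul, inner_sub_left, real_inner_smul_left, ← hq, hα,
      div_mul_cancel₀ _ hq0.ne, sub_self]
  have hA : |α| * ‖e‖ ≤ K * N * N := by
    calc |α| * ‖e‖ ≤ C2 * N ^ 2 * ‖e‖ := mul_le_mul_of_nonneg_right hαb (norm_nonneg _)
      _ = C2 * ‖e‖ * N ^ 2 := by ring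
      _ ≤ K * N ^ 2 := mul_le_mul_of_nonneg_right (by rw [hK]; linarith) (sq_nonneg _)
      _ = K * N * N := by ring
  have hsm : ‖α • e‖ = |α| * ‖e‖ := by rw [norm_smul, Real.norm_eq_abs]
  have hM1 : N - |α| * ‖e‖ ≤ ‖d'‖ := by
    have := norm_sub_norm_le d (α • e)
    rw [← hd', hsm] at this
    exact this
  have hM2 : ‖d'‖ ≤ N + |α| * ‖e‖ := by
    have := norm_sub_le d (α • e)
    rw [← hd', hsm] at this
    exact this
  -- the second derivative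
  have hs1' : s ≤ 1 := by linarith [h.s11]
  have hp : ‖cen X η us t s 0‖ ≤ B := by
    have := hcen s (by rw [abs_of_nonneg hs0]; exact hs1') 0
    rwa [norm_zero, add_zero] at this
  set p := cen X η us t s 0 with hpdef
  have hbp : ∀ v w, |HH X p us v w| ≤ D * (‖v‖ * ‖w‖) := by
    intro v w
    refine (hb p us h.mem v w).trans ?_
    calc C * (1 + ‖p‖) * ‖v‖ * ‖w‖ = C * (1 + ‖p‖) * (‖v‖ * ‖w‖) := by ring
      _ ≤ D * (‖v‖ * ‖w‖) := by
        rw [hD]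
        gcongr
  have hexp : HH X p us d d = HH X p us d' d' + α * HH X p us d' e + α * HH X p us e d'
      + α * (α * HH X p us e e) := by
    rw [hdd, HH_add_left, HH_add_right, HH_add_right, HH_smul_left, HH_smul_left, HH_smul_right,
      HH_smul_right]
    ring
  have h1 := hker s hs0 hs1 d' hkd
  have hx : |α * HH X p us d' e| ≤ D * (|α| * ‖e‖ * ‖d'‖) := by
    rw [abs_mul]
    calc |α| * |HH X p us d' e| ≤ |α| * (D * (‖d'‖ * ‖e‖)) :=
          mul_le_mul_of_nonneg_left (hbp _ _) (abs_nonneg _)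
      _ = D * (|α| * ‖e‖ * ‖d'‖) := by ring
  have hy : |α * HH X p us e d'| ≤ D * (|α| * ‖e‖ * ‖d'‖) := by
    rw [abs_mul]
    calc |α| * |HH X p us e d'| ≤ |α| * (D * (‖e‖ * ‖d'‖)) :=
          mul_le_mul_of_nonneg_left (hbp _ _) (abs_nonneg _)
      _ = D * (|α| * ‖e‖ * ‖d'‖) := by ring
  have hz : |α * (α * HH X p us e e)| ≤ D * (|α| * ‖e‖) ^ 2 := by
    rw [abs_mul, abs_mul]
    calc |α| * (|α| * |HH X p us e e|) ≤ |α| * (|α| * (D * (‖e‖ * ‖e‖))) := by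
          gcongr
          exact hbp _ _
      _ = D * (|α| * ‖e‖) ^ 2 := by ring
  have hfin := I5_arith hN0 hD0.le hc (by positivity : 0 ≤ |α| * ‖e‖) hN2 hN3 hA hM1 hM2
  rw [hexp]
  have k1 := (abs_le.1 hx).1
  have k2 := (abs_le.1 hy).1
  have k3 := (abs_le.1 hz).1
  linarith

end MPf7aa
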