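import Pool.Agent.Lib.MP_f7aa1b_gt.I4
import Pool.Agent.Lib.MP_f7aa1b_gt.I5

/-!
Row I6. The barrier. Proof. Write Ev = dX us e (norm g > 0 by imm), d = u - us, c0 = cen s 0,
cen s w = c0 + w. Constants: c, delta from I5, C from T7 (a = 0, R), B from cen_bound,
C5 = C (1 + B). Suppose u is in the level set, Crit X (c0 + w) u, and
LL (c0+w) u <= LL (c0+w) us + 2 C0 eps. Take delta1 <= delta, delta1 <= 1, C5 delta1 <= c/2, and eps' = the
constant of close_of_low for delta1. If eps <= eps', 2 C0 eps <= eps' and |w| <= eps' then |d| <= delta1.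
Crit: <dX u v, X u - c0> = <dX u v, w> for all v. crit_cen: <dX us v, X us - c0> = 0. T7 (gradient clause,
p = c0): |<dX u v, w> - HH X c0 us d v| <= C5 |d|^2 |v| for all v.
v = d: c |d|^2 <= HH d d <= C |d| |w| + C5 |d|^3 <= C |d| |w| + (c/2)|d|^2, so |d| <= (2C/c) |w|.
v = e: HH_cen_e: |HH e d| = |1 - s/s1| |GG e d| <= (eps/s1) C^2 |e| |d| (HH_symm), so
|<dX u e, w>| <= C6 (eps + |d|) |d|. Also |<dX u e, w> - <Ev, w>| <= C |d| |e| |w| (T7), and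
<Ev, w> = - kap g^2 + <Ev, w + kap Ev>, |<Ev, w + kap Ev>| <= g zeta kap. With zeta = g/4 (so |w| <= 2 g kap):
kap g^2 <= (g^2/4) kap + C7 kap^2 + C7 eps kap, i.e. (3/4) g^2 <= C7 (kap + eps): impossible for eps <= eps0,
kap <= kap0 small (kap0 also with 2 g kap0 <= eps').
-/

open Set Filter Topology Metric MeasureTheory
open scoped ContDiff

namespace MPf7aa

theorem barrier {m : ℕ} {X : E m → E (m + 1)} {U : Set (E m)} {R r0 : ℝ} {η : E (m + 1)}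
    {σ : ℝ} {P Bad : Set (E (m + 1))} {us : E m} {t s1 : ℝ} {e : E m}
    (h : CaseI X U R r0 η σ P Bad us t s1 e)
    {C0 : ℝ} (hC0 : 0 < C0) :
    ∃ ε0 : ℝ, 0 < ε0 ∧ ∃ ζ : ℝ, 0 < ζ ∧ ∀ ε : ℝ, 0 < ε → ε ≤ ε0 → ∃ κ0 : ℝ, 0 < κ0 ∧
      ∀ κ : ℝ, 0 < κ → κ ≤ κ0 → ∀ w : E (m + 1), ‖w + κ • fderiv ℝ X us e‖ ≤ ζ * κ →
        ∀ s : ℝ, s1 - ε ≤ s → s ≤ s1 + ε → ∀ u ∈ closedBall (0 : E m) R, LL X 0 u = LL X 0 us →
          Crit X (cen X η us t s w) u →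
            LL X (cen X η us t s w) us + 2 * C0 * ε < LL X (cen X η us t s w) u := by
  obtain ⟨c, hc, δ, hδ, hnear⟩ := H_near h
  obtain ⟨C, hC, _, hT2, hT3, _, hT5, _, _⟩ := taylor h.core.op h.core.cX h.core.ball
  obtain ⟨B, hB, hBc⟩ := cen_bound h
  obtain ⟨ci, hci, himm⟩ := h.core.imm
  have he0 : e ≠ 0 := caseI_e h
  have hs1 := h.s10
  have hs11 := h.s11
  set g : ℝ := ‖fderiv ℝ X us e‖ with hg
  have hgpos : 0 < g := lt_of_lt_of_le (mul_pos hci (norm_pos_iff.2 he0)) (himm us h.mem e)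
  have hepos : 0 < ‖e‖ := norm_pos_iff.2 he0
  set C5 : ℝ := C * (1 + B) with hC5
  have hC5pos : 0 < C5 := mul_pos hC (by linarith)
  obtain ⟨δ1, hδ1, hδ1δ, hδ1c⟩ : ∃ δ1 : ℝ, 0 < δ1 ∧ δ1 ≤ δ ∧ C5 * δ1 ≤ c / 2 := by
    refine ⟨min δ (c / 2 / C5), lt_min hδ (by positivity), min_le_left _ _, ?_⟩
    calc C5 * min δ (c / 2 / C5) ≤ C5 * (c / 2 / C5) :=
          mul_le_mul_of_nonneg_left (min_le_right _ _) hC5pos.le
      _ = c / 2 := by field_simp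
  obtain ⟨ε', hε', hclose⟩ := close_of_low h hδ1
  set C1 : ℝ := 4 * C * g / c with hC1
  have hC1pos : 0 < C1 := by positivity
  set C7 : ℝ := ‖e‖ * (C ^ 2 / s1 * C1 + C5 * C1 ^ 2 + 2 * g * C * C1) with hC7
  have hC7pos : 0 < C7 := by positivity
  obtain ⟨ε0, hε0, hε0a, hε0b, hε0c, hε0d, hε0e⟩ : ∃ ε0 : ℝ, 0 < ε0 ∧ ε0 ≤ ε' ∧
      2 * C0 * ε0 ≤ ε' ∧ ε0 ≤ s1 ∧ ε0 ≤ (1 - s1) / 2 ∧ C7 * ε0 ≤ g ^ 2 / 4 := by
    have h1 : 0 < (1 - s1) / 2 := by linarith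
    refine ⟨min (min ε' (ε' / (2 * C0))) (min (min s1 ((1 - s1) / 2)) (g ^ 2 / 4 / C7)),
      lt_min (lt_min hε' (by positivity)) (lt_min (lt_min hs1 h1) (by positivity)),
      (min_le_left _ _).trans (min_le_left _ _), ?_,
      (min_le_right _ _).trans ((min_le_left _ _).trans (min_le_left _ _)),
      (min_le_right _ _).trans ((min_le_left _ _).trans (min_le_right _ _)), ?_⟩
    · calc 2 * C0 * min (min ε' (ε' / (2 * C0))) (min (min s1 ((1 - s1) / 2)) (g ^ 2 / 4 / C7))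
          ≤ 2 * C0 * (ε' / (2 * C0)) :=
            mul_le_mul_of_nonneg_left ((min_le_left _ _).trans (min_le_right _ _)) (by positivity)
        _ = ε' := by field_simp
    · calc C7 * min (min ε' (ε' / (2 * C0))) (min (min s1 ((1 - s1) / 2)) (g ^ 2 / 4 / C7))
          ≤ C7 * (g ^ 2 / 4 / C7) :=
            mul_le_mul_of_nonneg_left ((min_le_right _ _).trans (min_le_right _ _)) hC7pos.le
        _ = g ^ 2 / 4 := by field_simp
  refine ⟨ε0, hε0, g / 4, by positivity, fun ε hε hεle => ?_⟩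
  obtain ⟨κ0, hκ0, hκ0a, hκ0b⟩ : ∃ κ0 : ℝ, 0 < κ0 ∧ 2 * g * κ0 ≤ ε' ∧ C7 * κ0 ≤ g ^ 2 / 4 := by
    refine ⟨min (ε' / (2 * g)) (g ^ 2 / 4 / C7), lt_min (by positivity) (by positivity), ?_, ?_⟩
    · calc 2 * g * min (ε' / (2 * g)) (g ^ 2 / 4 / C7) ≤ 2 * g * (ε' / (2 * g)) :=
            mul_le_mul_of_nonneg_left (min_le_left _ _) (by positivity)
        _ = ε' := by field_simp
    · calc C7 * min (ε' / (2 * g)) (g ^ 2 / 4 / C7) ≤ C7 * (g ^ 2 / 4 / C7) :=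
            mul_le_mul_of_nonneg_left (min_le_right _ _) hC7pos.le
        _ = g ^ 2 / 4 := by field_simp
  refine ⟨κ0, hκ0, fun κ hκ hκle w hw s hsl hsu u hu hlev hcrit => ?_⟩
  by_contra hcon
  rw [not_lt] at hcon
  -- bounds for s and w
  have hs0 : 0 ≤ s := by linarith
  have hsh : s ≤ (1 + s1) / 2 := by linarith
  have hsabs : |s| ≤ 1 := by rw [abs_of_nonneg hs0]; linarith
  have hss1 : |s - s1| ≤ ε := by rw [abs_le]; constructor <;> linarith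
  have hwn : ‖w‖ ≤ 2 * g * κ := by
    have h1 : w = (w + κ • fderiv ℝ X us e) - κ • fderiv ℝ X us e := by abel
    have h2 : ‖w‖ ≤ ‖w + κ • fderiv ℝ X us e‖ + ‖κ • fderiv ℝ X us e‖ := by
      conv_lhs => rw [h1]
      exact norm_sub_le _ _
    rw [norm_smul, Real.norm_of_nonneg hκ.le, ← hg] at h2
    have h3 : 0 < g * κ := mul_pos hgpos hκ
    linarith
  have hwε : ‖w‖ ≤ ε' :=
    hwn.trans ((mul_le_mul_of_nonneg_left hκle (by positivity)).trans hκ0a)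
  -- u is close to us
  have hd1 : ‖u - us‖ ≤ δ1 := by
    refine hclose s (hss1.trans (hεle.trans hε0a)) w hwε u hu hlev ?_
    have h1 : 2 * C0 * ε ≤ 2 * C0 * ε0 := mul_le_mul_of_nonneg_left hεle (by positivity)
    linarith
  set d : E m := u - us with hd
  have hcenw : cen X η us t s w = cen X η us t s 0 + w := by
    unfold cen
    rw [add_zero]
  have hc0n : ‖cen X η us t s 0‖ ≤ B := by
    have := hBc s hsabs 0
    rwa [norm_zero, add_zero] at this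
  -- gradient estimate
  have key : ∀ v : E m, |inner ℝ (fderiv ℝ X u v) w - HH X (cen X η us t s 0) us d v| ≤
      C5 * ‖d‖ ^ 2 * ‖v‖ := by
    intro v
    have h1 := hT5 (cen X η us t s 0) us h.mem u hu v
    have h2 : inner ℝ (fderiv ℝ X us v) (X us - cen X η us t s 0) = (0 : ℝ) := crit_cen h s v
    have h3 : inner ℝ (fderiv ℝ X u v) (X u - cen X η us t s w) = (0 : ℝ) := hcrit v
    rw [hcenw, ← sub_sub, inner_sub_right] at h3
    have h4 : inner ℝ (fderiv ℝ X u v) (X u - cen X η us t s 0) =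
        (inner ℝ (fderiv ℝ X u v) w : ℝ) := by linarith
    rw [h2, h4, sub_zero] at h1
    refine h1.trans ?_
    have h5 : C * (1 + ‖cen X η us t s 0‖) ≤ C5 :=
      mul_le_mul_of_nonneg_left (by linarith) hC.le
    exact mul_le_mul_of_nonneg_right (mul_le_mul_of_nonneg_right h5 (by positivity))
      (norm_nonneg _)
  -- first consequence
  have hdn : 0 ≤ ‖d‖ := norm_nonneg _
  have hdw : ‖d‖ ≤ C1 * κ := by
    have h1 := hnear s hs0 hsh u hu hlev (hd1.trans hδ1δ)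
    have h2 := (abs_le.1 (key d)).1
    have h3 : (inner ℝ (fderiv ℝ X u d) w : ℝ) ≤ C * ‖d‖ * ‖w‖ :=
      (real_inner_le_norm _ _).trans (mul_le_mul_of_nonneg_right (hT2 u hu d) (norm_nonneg _))
    have h4 : C5 * ‖d‖ ^ 2 * ‖d‖ ≤ c / 2 * ‖d‖ ^ 2 := by
      have h5 : C5 * ‖d‖ ≤ c / 2 :=
        (mul_le_mul_of_nonneg_left hd1 hC5pos.le).trans hδ1c
      have h6 := mul_le_mul_of_nonneg_right h5 (sq_nonneg ‖d‖)
      linarith [h6, show C5 * ‖d‖ ^ 2 * ‖d‖ = C5 * ‖d‖ * ‖d‖ ^ 2 by ring]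
    have h7 : c / 2 * ‖d‖ ^ 2 ≤ C * ‖d‖ * (2 * g * κ) := by
      have h8 : C * ‖d‖ * ‖w‖ ≤ C * ‖d‖ * (2 * g * κ) :=
        mul_le_mul_of_nonneg_left hwn (by positivity)
      linarith
    rcases hdn.eq_or_lt with h0 | h0
    · rw [← h0]; positivity
    · have h9 : c / 2 * ‖d‖ ≤ C * (2 * g * κ) := by
        have h10 : ‖d‖ * (c / 2 * ‖d‖) ≤ ‖d‖ * (C * (2 * g * κ)) := by
          linarith [h7, show ‖d‖ * (c / 2 * ‖d‖) = c / 2 * ‖d‖ ^ 2 by ring,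
            show ‖d‖ * (C * (2 * g * κ)) = C * ‖d‖ * (2 * g * κ) by ring]
        exact le_of_mul_le_mul_left h10 h0
      rw [hC1, div_mul_eq_mul_div, le_div_iff₀ hc]
      linarith
  -- test with e
  have hGG : |GG X us e d| ≤ C ^ 2 * ‖e‖ * ‖d‖ := by
    refine (abs_real_inner_le_norm _ _).trans ?_
    have h1 := mul_le_mul (hT2 us h.mem e) (hT2 us h.mem d) (norm_nonneg _) (by positivity)
    refine h1.trans (le_of_eq ?_)
    ring
  have hHe : |HH X (cen X η us t s 0) us d e| ≤ ε / s1 * (C ^ 2 * ‖e‖ * ‖d‖) := by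
    rw [HH_symm h.core.op h.core.cX _ (h.core.ball h.mem) d e, HH_cen_e h s d, abs_mul]
    refine mul_le_mul ?_ hGG (abs_nonneg _) (by positivity)
    have h1 : 1 - s / s1 = -((s - s1) / s1) := by field_simp; ring
    rw [h1, abs_neg, abs_div, abs_of_pos hs1]
    exact div_le_div_of_nonneg_right hss1 hs1.le
  have hke := abs_le.1 (key e)
  have hHe' := abs_le.1 hHe
  have hdiff : |(inner ℝ (fderiv ℝ X u e) w : ℝ) - inner ℝ (fderiv ℝ X us e) w| ≤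
      C * ‖d‖ * ‖e‖ * ‖w‖ := by
    rw [← inner_sub_left]
    exact (abs_real_inner_le_norm _ _).trans
      (mul_le_mul_of_nonneg_right (hT3 us h.mem u hu e) (norm_nonneg _))
  have hdiff' := abs_le.1 hdiff
  have hEv : (inner ℝ (fderiv ℝ X us e) w : ℝ) ≤ -(3 / 4 * (κ * g ^ 2)) := by
    have h1 : (inner ℝ (fderiv ℝ X us e) (w + κ • fderiv ℝ X us e) : ℝ) =
        inner ℝ (fderiv ℝ X us e) w + κ * g ^ 2 := by
      rw [inner_add_right, real_inner_smul_right, real_inner_self_eq_norm_sq]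
    have h2 : (inner ℝ (fderiv ℝ X us e) (w + κ • fderiv ℝ X us e) : ℝ) ≤ g * (g / 4 * κ) :=
      (real_inner_le_norm _ _).trans (mul_le_mul_of_nonneg_left hw hgpos.le)
    have h3 : g * (g / 4 * κ) = 1 / 4 * (κ * g ^ 2) := by ring
    linarith
  -- final estimate
  have hA : ε / s1 * (C ^ 2 * ‖e‖ * ‖d‖) ≤ ‖e‖ * (C ^ 2 / s1 * C1) * κ * ε := by
    have h1 : ε / s1 * (C ^ 2 * ‖e‖ * ‖d‖) = ε / s1 * (C ^ 2 * ‖e‖) * ‖d‖ := by ring
    have h2 : ‖e‖ * (C ^ 2 / s1 * C1) * κ * ε = ε / s1 * (C ^ 2 * ‖e‖) * (C1 * κ) := by ring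
    rw [h1, h2]
    exact mul_le_mul_of_nonneg_left hdw (by positivity)
  have hdsq : ‖d‖ ^ 2 ≤ C1 ^ 2 * κ ^ 2 := by
    rw [← mul_pow]
    exact pow_le_pow_left₀ hdn hdw 2
  have hBd : C5 * ‖d‖ ^ 2 * ‖e‖ ≤ ‖e‖ * (C5 * C1 ^ 2) * κ * κ := by
    have h2 : ‖e‖ * (C5 * C1 ^ 2) * κ * κ = C5 * (C1 ^ 2 * κ ^ 2) * ‖e‖ := by ring
    rw [h2]
    exact mul_le_mul_of_nonneg_right (mul_le_mul_of_nonneg_left hdsq hC5pos.le) hepos.le
  have hCd : C * ‖d‖ * ‖e‖ * ‖w‖ ≤ ‖e‖ * (2 * g * C * C1) * κ * κ := by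
    have h2 : ‖e‖ * (2 * g * C * C1) * κ * κ = C * (C1 * κ) * ‖e‖ * (2 * g * κ) := by ring
    rw [h2]
    exact mul_le_mul (mul_le_mul_of_nonneg_right (mul_le_mul_of_nonneg_left hdw hC.le) hepos.le)
      hwn (norm_nonneg _) (by positivity)
  have hκε : C7 * ε ≤ g ^ 2 / 4 := (mul_le_mul_of_nonneg_left hεle hC7pos.le).trans hε0e
  have hκκ : C7 * κ ≤ g ^ 2 / 4 := (mul_le_mul_of_nonneg_left hκle hC7pos.le).trans hκ0b
  have hsum : ‖e‖ * (C ^ 2 / s1 * C1) * κ * ε + ‖e‖ * (C5 * C1 ^ 2) * κ * κ +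
      ‖e‖ * (2 * g * C * C1) * κ * κ ≤ κ * (C7 * ε) + κ * (C7 * κ) := by
    have h1 : κ * (C7 * ε) + κ * (C7 * κ) - (‖e‖ * (C ^ 2 / s1 * C1) * κ * ε +
        ‖e‖ * (C5 * C1 ^ 2) * κ * κ + ‖e‖ * (2 * g * C * C1) * κ * κ) =
        ‖e‖ * (C5 * C1 ^ 2 + 2 * g * C * C1) * κ * ε + ‖e‖ * (C ^ 2 / s1 * C1) * κ * κ := by
      rw [hC7]; ring
    have h2 : 0 ≤ ‖e‖ * (C5 * C1 ^ 2 + 2 * g * C * C1) * κ * ε +
        ‖e‖ * (C ^ 2 / s1 * C1) * κ * κ := by positivity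
    linarith
  have h1 := mul_le_mul_of_nonneg_left hκε hκ.le
  have h2 := mul_le_mul_of_nonneg_left hκκ hκ.le
  have h3 : 0 < κ * g ^ 2 := by positivity
  linarith [hke.1, hHe'.1, hdiff'.1, hEv, hA, hBd, hCd, hsum, h1, h2, h3,
    show κ * (g ^ 2 / 4) = 1 / 4 * (κ * g ^ 2) by ring]

end MPf7aa
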