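import Pool.Agent.Lib.MP_f7aa1b_gt.I2
import Pool.Agent.Lib.MP_f7aa1b_gt.T7

/-!
Row I7. Estimates near us in the coordinates u = us + alpha e + d, d in ker dQ(us),
dQ(us) v = <dX us v, X us>, q = -dQ(us) e > 0. |us| < R (low_norm), so for small delta all points below are in
closedBall 0 R; T7 with a = 0, R.
fs1_bounds: c1 = cen s1 0. By crit_cen the gradient term vanishes; v = alpha e + d, |v| <= C(|alpha|+|d|);
LL c1 (us+v) - LL c1 us = (1/2) HH v v + O(|v|^3), HH v v >= 0 (HH_cen_nn); for v = - b e: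
HH e e = 0 (HH_cen_e with s = s1).
X_bounds: X(us+v) - X us = dX us v + O(|v|^2), so X(us+v) - X us + b dX us e = dX us v' + O(|v|^2),
v' = (alpha+b) e + d; |dX us v'| >= c |v'| (field imm); |alpha+b| q = |dQ v'| <= C |v'| and
|d| <= |v'| + |alpha+b||e|, so |v'| >= c' (|alpha+b| + |d|).
inner_region: LL X 0 (us+v) - LL X 0 us >= dQ(v) - C'|v|^2 and dQ(v) = - alpha q; so
-alpha <= C''(|alpha|+|d|)^2. If alpha >= -b/2 then |alpha+b| >= b/2. If alpha < -b/2 and |d| < b/2 then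
|d| < |alpha| and |alpha| <= 4 C'' |alpha|^2, |alpha| >= 1/(4C''): impossible for delta < 1/(4C''). So
|d| >= b/2.
-/

open Set Filter Topology Metric MeasureTheory
open scoped ContDiff

namespace MPf7aa

theorem I7_norm {m : ℕ} (e d : E m) (α : ℝ) :
    ‖α • e + d‖ ≤ (1 + ‖e‖) * (|α| + ‖d‖) := by
  have h1 : ‖α • e + d‖ ≤ |α| * ‖e‖ + ‖d‖ := by
    refine (norm_add_le _ _).trans ?_
    rw [norm_smul, Real.norm_eq_abs]
  have h2 := norm_nonneg e
  have h3 := norm_nonneg d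
  have h4 := abs_nonneg α
  nlinarith

theorem I7_mem {m : ℕ} {us e d : E m} {α R : ℝ}
    (h : |α| + ‖d‖ ≤ (R - ‖us‖) / (1 + ‖e‖)) : us + α • e + d ∈ closedBall (0 : E m) R := by
  have he : 0 < 1 + ‖e‖ := by have := norm_nonneg e; linarith
  rw [mem_closedBall, dist_zero_right, add_assoc]
  have h1 := I7_norm e d α
  have h2 : (1 + ‖e‖) * (|α| + ‖d‖) ≤ R - ‖us‖ := by
    rw [le_div_iff₀ he] at h
    linarith
  have h3 := norm_add_le us (α • e + d)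
  linarith

theorem I7_sq {a b : ℝ} (ha : 0 ≤ a) (h : a ≤ b) : a ^ 2 ≤ b ^ 2 := pow_le_pow_left₀ ha h 2

theorem fs1_bounds {m : ℕ} {X : E m → E (m + 1)} {U : Set (E m)} {R r0 : ℝ} {η : E (m + 1)}
    {σ : ℝ} {P Bad : Set (E (m + 1))} {us : E m} {t s1 : ℝ} {e : E m}
    (h : CaseI X U R r0 η σ P Bad us t s1 e) :
    ∃ C δ : ℝ, 0 < C ∧ 0 < δ ∧
      (∀ (α : ℝ) (d : E m), inner ℝ (fderiv ℝ X us d) (X us) = 0 → |α| + ‖d‖ ≤ δ →
        us + α • e + d ∈ closedBall (0 : E m) R ∧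
        -(C * (|α| + ‖d‖) ^ 3) ≤
          LL X (cen X η us t s1 0) (us + α • e + d) - LL X (cen X η us t s1 0) us) ∧
      ∀ b : ℝ, 0 ≤ b → b ≤ δ →
        LL X (cen X η us t s1 0) (us - b • e) - LL X (cen X η us t s1 0) us ≤ C * b ^ 3 := by
  obtain ⟨C0, hC0, -, -, -, -, -, hT, -⟩ := taylor h.core.op h.core.cX h.core.ball
  have hus : ‖us‖ < R := low_norm h.core h.mem h.lev.le
  have he : 0 < 1 + ‖e‖ := by have := norm_nonneg e; linarith
  set c1 := cen X η us t s1 0 with hc1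
  have hcr : ∀ v, inner ℝ (fderiv ℝ X us v) (X us - c1) = 0 := crit_cen h s1
  have hee : HH X c1 us e e = 0 := by
    rw [hc1, HH_cen_e h s1 e, div_self h.s10.ne', sub_self, zero_mul]
  have hK : 0 < C0 * (1 + ‖c1‖) := mul_pos hC0 (by have := norm_nonneg c1; linarith)
  refine ⟨C0 * (1 + ‖c1‖) * (1 + ‖e‖) ^ 3, (R - ‖us‖) / (1 + ‖e‖),
    mul_pos hK (pow_pos he 3), div_pos (by linarith) he, ?_, ?_⟩
  · intro α d _ hδ
    have hm := I7_mem hδ
    refine ⟨hm, ?_⟩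
    have h1 := hT c1 us h.mem _ hm
    have e1 : us + α • e + d - us = α • e + d := by abel
    rw [e1, hcr, sub_zero] at h1
    have h2 := HH_cen_nn h (α • e + d)
    rw [← hc1] at h2
    have h3 := neg_le_of_abs_le h1
    have h4 : ‖α • e + d‖ ^ 3 ≤ ((1 + ‖e‖) * (|α| + ‖d‖)) ^ 3 :=
      pow_le_pow_left₀ (norm_nonneg _) (I7_norm e d α) 3
    have h5 : C0 * (1 + ‖c1‖) * ‖α • e + d‖ ^ 3 ≤
        C0 * (1 + ‖c1‖) * ((1 + ‖e‖) * (|α| + ‖d‖)) ^ 3 := mul_le_mul_of_nonneg_left h4 hK.le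
    rw [mul_pow] at h5
    linarith
  · intro b hb hδ
    have hδ' : |-b| + ‖(0 : E m)‖ ≤ (R - ‖us‖) / (1 + ‖e‖) := by
      rw [norm_zero, add_zero, abs_neg, abs_of_nonneg hb]
      exact hδ
    have hm := I7_mem hδ'
    have e0 : us + (-b) • e + 0 = us - b • e := by
      rw [add_zero, neg_smul, sub_eq_add_neg]
    rw [e0] at hm
    have h1 := hT c1 us h.mem _ hm
    have e1 : us - b • e - us = (-b) • e := by
      rw [neg_smul]
      abel
    rw [e1, hcr, sub_zero, HH_smul_left, HH_smul_right, hee, mul_zero, mul_zero, mul_zero,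
      sub_zero] at h1
    have h3 := le_of_abs_le h1
    have h4 : ‖(-b) • e‖ ≤ (1 + ‖e‖) * b := by
      rw [norm_smul, Real.norm_eq_abs, abs_neg, abs_of_nonneg hb]
      have := norm_nonneg e
      nlinarith
    have h5 : C0 * (1 + ‖c1‖) * ‖(-b) • e‖ ^ 3 ≤ C0 * (1 + ‖c1‖) * ((1 + ‖e‖) * b) ^ 3 :=
      mul_le_mul_of_nonneg_left (pow_le_pow_left₀ (norm_nonneg _) h4 3) hK.le
    rw [mul_pow] at h5
    linarith

/-- v' = β e + d is bounded below -/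
theorem I7_lower {m : ℕ} {X : E m → E (m + 1)} {U : Set (E m)} {R r0 : ℝ} {η : E (m + 1)}
    {σ : ℝ} {P Bad : Set (E (m + 1))} {us : E m} {t s1 : ℝ} {e : E m}
    (h : CaseI X U R r0 η σ P Bad us t s1 e) :
    ∃ c : ℝ, 0 < c ∧ ∀ (β : ℝ) (d : E m), inner ℝ (fderiv ℝ X us d) (X us) = 0 →
      c * (|β| + ‖d‖) ≤ ‖fderiv ℝ X us (β • e + d)‖ := by
  obtain ⟨C0, hC0, -, hB, -, -, -, -, -⟩ := taylor h.core.op h.core.cX h.core.ball
  obtain ⟨ci, hci, himm⟩ := h.core.imm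
  set q : ℝ := -inner ℝ (fderiv ℝ X us e) (X us) with hq
  have hq0 : 0 < q := by have := h.e0; rw [hq]; linarith
  set K : ℝ := C0 * ‖X us‖ / q with hK
  have hK0 : 0 ≤ K := by positivity
  have he := norm_nonneg e
  have hden : 0 < 1 + K + K * ‖e‖ := by positivity
  refine ⟨ci / (1 + K + K * ‖e‖), div_pos hci hden, ?_⟩
  intro β d hd
  set v' : E m := β • e + d with hv'
  have h1 : |β| ≤ K * ‖v'‖ := by
    have e1 : inner ℝ (fderiv ℝ X us v') (X us) = -(β * q) := by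
      rw [hv', map_add, map_smul, inner_add_left, real_inner_smul_left, hd, hq]
      ring
    have e2 : |β * q| ≤ C0 * ‖v'‖ * ‖X us‖ := by
      have e3 := abs_real_inner_le_norm (fderiv ℝ X us v') (X us)
      rw [e1, abs_neg] at e3
      exact e3.trans (mul_le_mul_of_nonneg_right (hB us h.mem v') (norm_nonneg _))
    rw [abs_mul, abs_of_pos hq0] at e2
    rw [hK, div_mul_eq_mul_div, le_div_iff₀ hq0]
    linarith
  have h2 : ‖d‖ ≤ ‖v'‖ + |β| * ‖e‖ := by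
    have e4 : d = v' - β • e := by rw [hv']; abel
    calc ‖d‖ = ‖v' - β • e‖ := by rw [← e4]
      _ ≤ ‖v'‖ + ‖β • e‖ := norm_sub_le _ _
      _ = ‖v'‖ + |β| * ‖e‖ := by rw [norm_smul, Real.norm_eq_abs]
  have h3 : |β| + ‖d‖ ≤ (1 + K + K * ‖e‖) * ‖v'‖ := by
    have h4 : |β| * ‖e‖ ≤ K * ‖v'‖ * ‖e‖ := mul_le_mul_of_nonneg_right h1 he
    linarith
  have h5 := himm us h.mem v'
  calc ci / (1 + K + K * ‖e‖) * (|β| + ‖d‖)
      ≤ ci / (1 + K + K * ‖e‖) * ((1 + K + K * ‖e‖) * ‖v'‖) :=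
        mul_le_mul_of_nonneg_left h3 (div_pos hci hden).le
    _ = ci * ‖v'‖ := by
        rw [← mul_assoc, div_mul_cancel₀ _ hden.ne']
    _ ≤ ‖fderiv ℝ X us v'‖ := h5

theorem X_bounds {m : ℕ} {X : E m → E (m + 1)} {U : Set (E m)} {R r0 : ℝ} {η : E (m + 1)}
    {σ : ℝ} {P Bad : Set (E (m + 1))} {us : E m} {t s1 : ℝ} {e : E m}
    (h : CaseI X U R r0 η σ P Bad us t s1 e) :
    ∃ c C δ : ℝ, 0 < c ∧ 0 < C ∧ 0 < δ ∧
      (∀ (α b : ℝ) (d : E m), inner ℝ (fderiv ℝ X us d) (X us) = 0 → |α| + ‖d‖ ≤ δ →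
        c * (|α + b| + ‖d‖) - C * (|α| + ‖d‖) ^ 2 ≤
          ‖X (us + α • e + d) - X us + b • fderiv ℝ X us e‖) ∧
      ∀ b : ℝ, 0 ≤ b → b ≤ δ →
        ‖X (us - b • e) - X us + b • fderiv ℝ X us e‖ ≤ C * b ^ 2 := by
  obtain ⟨C0, hC0, -, -, -, hT, -, -, -⟩ := taylor h.core.op h.core.cX h.core.ball
  obtain ⟨c, hc, hlow⟩ := I7_lower h
  have hus : ‖us‖ < R := low_norm h.core h.mem h.lev.le
  have he : 0 < 1 + ‖e‖ := by have := norm_nonneg e; linarith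
  refine ⟨c, C0 * (1 + ‖e‖) ^ 2, (R - ‖us‖) / (1 + ‖e‖), hc, mul_pos hC0 (pow_pos he 2),
    div_pos (by linarith) he, ?_, ?_⟩
  · intro α b d hd hδ
    have hm := I7_mem hδ
    have h1 := hT us h.mem _ hm
    have e1 : us + α • e + d - us = α • e + d := by abel
    rw [e1] at h1
    have h2 := hlow (α + b) d hd
    have e2 : fderiv ℝ X us ((α + b) • e + d) =
        (X (us + α • e + d) - X us + b • fderiv ℝ X us e) -
          (X (us + α • e + d) - X us - fderiv ℝ X us (α • e + d)) := by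
      rw [map_add, map_smul, map_add, map_smul, add_smul]
      abel
    rw [e2] at h2
    have h3 := norm_sub_le (X (us + α • e + d) - X us + b • fderiv ℝ X us e)
      (X (us + α • e + d) - X us - fderiv ℝ X us (α • e + d))
    have h4 : C0 * ‖α • e + d‖ ^ 2 ≤ C0 * ((1 + ‖e‖) * (|α| + ‖d‖)) ^ 2 :=
      mul_le_mul_of_nonneg_left (I7_sq (norm_nonneg _) (I7_norm e d α)) hC0.le
    rw [mul_pow] at h4
    linarith
  · intro b hb hδ
    have hδ' : |-b| + ‖(0 : E m)‖ ≤ (R - ‖us‖) / (1 + ‖e‖) := by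
      rw [norm_zero, add_zero, abs_neg, abs_of_nonneg hb]
      exact hδ
    have hm := I7_mem hδ'
    have e0 : us + (-b) • e + 0 = us - b • e := by
      rw [add_zero, neg_smul, sub_eq_add_neg]
    rw [e0] at hm
    have h1 := hT us h.mem _ hm
    have e1 : us - b • e - us = (-b) • e := by
      rw [neg_smul]
      abel
    rw [e1, map_smul, neg_smul b (fderiv ℝ X us e), sub_neg_eq_add] at h1
    have h4 : ‖(-b) • e‖ ≤ (1 + ‖e‖) * b := by
      rw [norm_smul, Real.norm_eq_abs, abs_neg, abs_of_nonneg hb]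
      have := norm_nonneg e
      nlinarith
    have h5 : C0 * ‖(-b) • e‖ ^ 2 ≤ C0 * ((1 + ‖e‖) * b) ^ 2 :=
      mul_le_mul_of_nonneg_left (I7_sq (norm_nonneg _) h4) hC0.le
    rw [mul_pow] at h5
    linarith

theorem inner_region {m : ℕ} {X : E m → E (m + 1)} {U : Set (E m)} {R r0 : ℝ} {η : E (m + 1)}
    {σ : ℝ} {P Bad : Set (E (m + 1))} {us : E m} {t s1 : ℝ} {e : E m}
    (h : CaseI X U R r0 η σ P Bad us t s1 e) :
    ∃ δ : ℝ, 0 < δ ∧ ∀ (α b : ℝ) (d : E m), inner ℝ (fderiv ℝ X us d) (X us) = 0 →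
      |α| + ‖d‖ ≤ δ → 0 < b → b ≤ δ → LL X 0 (us + α • e + d) ≤ LL X 0 us →
        b / 2 ≤ |α + b| + ‖d‖ := by
  obtain ⟨C0, hC0, -, -, -, -, -, hT, hH⟩ := taylor h.core.op h.core.cX h.core.ball
  have hus : ‖us‖ < R := low_norm h.core h.mem h.lev.le
  have he : 0 < 1 + ‖e‖ := by have := norm_nonneg e; linarith
  set q : ℝ := -inner ℝ (fderiv ℝ X us e) (X us) with hq
  have hq0 : 0 < q := by have := h.e0; rw [hq]; linarith
  set K : ℝ := 2 * C0 * (1 + ‖e‖) ^ 2 / q with hK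
  have hK0 : 0 < K := by positivity
  refine ⟨min ((R - ‖us‖) / (1 + ‖e‖)) (min (1 / (1 + ‖e‖)) (1 / (8 * K))), ?_, ?_⟩
  · refine lt_min (div_pos (by linarith) he) (lt_min (by positivity) (by positivity))
  intro α b d hd hδ hb _ hle
  have hδ1 : |α| + ‖d‖ ≤ (R - ‖us‖) / (1 + ‖e‖) := hδ.trans (min_le_left _ _)
  have hδ2 : |α| + ‖d‖ ≤ 1 / (1 + ‖e‖) := hδ.trans ((min_le_right _ _).trans (min_le_left _ _))
  have hδ3 : |α| + ‖d‖ ≤ 1 / (8 * K) := hδ.trans ((min_le_right _ _).trans (min_le_right _ _))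
  by_contra hcon
  rw [not_le] at hcon
  have hd0 := norm_nonneg d
  have hab := abs_nonneg (α + b)
  have h1 : |α + b| < b / 2 := by linarith
  have h2 : ‖d‖ < b / 2 := by linarith
  have h3 : α < -(b / 2) := by
    have := (abs_lt.1 h1).2
    linarith
  have hα : |α| = -α := abs_of_neg (by linarith)
  have hm := I7_mem hδ1
  have t1 := hT 0 us h.mem _ hm
  have e1 : us + α • e + d - us = α • e + d := by abel
  rw [e1, sub_zero, norm_zero, add_zero, mul_one] at t1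
  have t2 := hH 0 us h.mem (α • e + d) (α • e + d)
  rw [norm_zero, add_zero, mul_one] at t2
  have e2 : inner ℝ (fderiv ℝ X us (α • e + d)) (X us) = -(α * q) := by
    rw [map_add, map_smul, inner_add_left, real_inner_smul_left, hd, hq]
    ring
  rw [e2] at t1
  have hv := I7_norm e d α
  have hv1 : ‖α • e + d‖ ≤ 1 := by
    refine hv.trans ?_
    rw [le_div_iff₀ he] at hδ2
    linarith
  have hv0 := norm_nonneg (α • e + d)
  have t3 := neg_le_of_abs_le t1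
  have t4 := neg_le_of_abs_le t2
  have t5 : ‖α • e + d‖ ^ 3 ≤ ‖α • e + d‖ ^ 2 := by
    calc ‖α • e + d‖ ^ 3 = ‖α • e + d‖ ^ 2 * ‖α • e + d‖ := by ring
      _ ≤ ‖α • e + d‖ ^ 2 * 1 := mul_le_mul_of_nonneg_left hv1 (sq_nonneg _)
      _ = _ := mul_one _
  have t6 : ‖α • e + d‖ ^ 2 ≤ ((1 + ‖e‖) * (|α| + ‖d‖)) ^ 2 := I7_sq hv0 hv
  have t7 : -(α * q) ≤ 2 * C0 * ‖α • e + d‖ ^ 2 := by
    have t8 : C0 * ‖α • e + d‖ ^ 3 ≤ C0 * ‖α • e + d‖ ^ 2 := mul_le_mul_of_nonneg_left t5 hC0.le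
    nlinarith
  have t9 : |α| + ‖d‖ ≤ 2 * |α| := by rw [hα]; linarith
  have t10 : ((1 + ‖e‖) * (|α| + ‖d‖)) ^ 2 ≤ (1 + ‖e‖) ^ 2 * (4 * |α| ^ 2) := by
    have := I7_sq (by positivity : (0 : ℝ) ≤ |α| + ‖d‖) t9
    rw [mul_pow]
    refine mul_le_mul_of_nonneg_left ?_ (sq_nonneg _)
    linarith
  have t11 : |α| * q ≤ 2 * C0 * ((1 + ‖e‖) ^ 2 * (4 * |α| ^ 2)) := by
    have : 2 * C0 * ‖α • e + d‖ ^ 2 ≤ 2 * C0 * ((1 + ‖e‖) ^ 2 * (4 * |α| ^ 2)) :=
      mul_le_mul_of_nonneg_left (t6.trans t10) (by positivity)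
    rw [hα] at this ⊢
    linarith
  have hα0 : 0 < |α| := by rw [hα]; linarith
  have hKq : K * q = 2 * C0 * (1 + ‖e‖) ^ 2 := by rw [hK, div_mul_cancel₀ _ hq0.ne']
  have t12 : |α| * q ≤ (4 * K * |α| * |α|) * q := by
    calc |α| * q ≤ 2 * C0 * ((1 + ‖e‖) ^ 2 * (4 * |α| ^ 2)) := t11
      _ = (K * q) * (4 * |α| ^ 2) := by rw [hKq]; ring
      _ = _ := by ring
  have t13 : |α| ≤ 4 * K * |α| * |α| := le_of_mul_le_mul_right t12 hq0
  have t14 : 1 ≤ 4 * K * |α| := by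
    by_contra hlt
    rw [not_le] at hlt
    have : 4 * K * |α| * |α| < 1 * |α| := mul_lt_mul_of_pos_right hlt hα0
    linarith
  rw [le_div_iff₀ (by positivity)] at hδ3
  nlinarith

end MPf7aa
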