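import Pool.Agent.Lib.MP_f7aa1b_gt.I7
import Pool.Agent.Lib.MP_f7aa1b_gt.I3

/-!
Row I8. Pure estimate for step (d). Notation: a = eps/s1 in (0,1), b = kap/a, Ev = dX us e,
F(u) = (1-a) (LL c1 u - LL c1 us) + (a/2) |X u - X us - (1/a) w|^2, c1 = cen s1 0; N = |alpha+b| + |d|.
Let c, C, delta0 be common constants for I7 (all three theorems). w = - kap Ev + r, |r| <= zeta kap, so
X u - X us - w/a = (X u - X us + b Ev) - r/a, |r/a| <= zeta b.
Claim 1: if |alpha| + |d| <= delta and b <= 2N then F >= (a c^2/16) N^2, provided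
3 C delta + 2 zeta <= c/2, 9 C delta <= a c^2/16, delta <= delta0. Indeed |alpha|+|d| <= N + b <= 3N, so
|X u - X us - w/a| >= c N - C delta 3N - 2 zeta N >= (c/2) N and LL-term >= - C delta 9 N^2.
Claim 2: F(us - b e) <= C b^3 + (a/2)(C b^2 + zeta b)^2 <= C b^3 + a C^2 b^4 + a zeta^2 b^2 < (a c^2/64) b^2 if
zeta^2 <= c^2/512, C b < a c^2/512, C^2 b^2 <= c^2/512, b <= delta0.
Statement: if N >= b/2 then F(us - b e) < F(us + alpha e + d).
-/

open Set Filter Topology Metric MeasureTheory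
open scoped ContDiff

namespace MPf7aa

theorem I8_low {a c C1 C2 ζ δ b N M x y : ℝ} (ha : 0 < a) (ha1 : a < 1) (hc : 0 < c) (hC1 : 0 < C1)
    (hC2 : 0 < C2) (hN : 0 ≤ N) (hM0 : 0 ≤ M) (hMδ : M ≤ δ) (hMN : M ≤ 3 * N) (hb : b ≤ 2 * N)
    (hζ : 0 ≤ ζ) (h1 : 3 * C2 * δ ≤ c / 4) (h2 : 2 * ζ ≤ c / 8) (h3 : 9 * C1 * δ ≤ a * c ^ 2 / 16)
    (hx : -(C1 * M ^ 3) ≤ x) (hy : c * N - C2 * M ^ 2 - ζ * b ≤ y) :
    a * c ^ 2 / 16 * N ^ 2 ≤ (1 - a) * x + a / 2 * y ^ 2 := by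
  have hδ : 0 ≤ δ := hM0.trans hMδ
  have hM2 : M * M ≤ δ * (3 * N) := mul_le_mul hMδ hMN hM0 hδ
  have e1 : C2 * M ^ 2 ≤ c / 4 * N := by
    calc C2 * M ^ 2 = C2 * (M * M) := by ring
      _ ≤ C2 * (δ * (3 * N)) := mul_le_mul_of_nonneg_left hM2 hC2.le
      _ = 3 * C2 * δ * N := by ring
      _ ≤ c / 4 * N := mul_le_mul_of_nonneg_right h1 hN
  have e2 : ζ * b ≤ c / 8 * N := by
    calc ζ * b ≤ ζ * (2 * N) := mul_le_mul_of_nonneg_left hb hζ
      _ = 2 * ζ * N := by ring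
      _ ≤ c / 8 * N := mul_le_mul_of_nonneg_right h2 hN
  have hcN : 0 ≤ c * N := mul_nonneg hc.le hN
  have e3 : c / 2 * N ≤ y := by linarith only [hy, e1, e2, hcN]
  have e4 : (c / 2 * N) ^ 2 ≤ y ^ 2 := pow_le_pow_left₀ (mul_nonneg (by linarith only [hc]) hN) e3 2
  have e5 : a / 2 * (c / 2 * N) ^ 2 ≤ a / 2 * y ^ 2 :=
    mul_le_mul_of_nonneg_left e4 (by linarith only [ha])
  have e6 : M ^ 3 ≤ δ * (9 * N ^ 2) := by
    calc M ^ 3 = M * (M * M) := by ring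
      _ ≤ δ * ((3 * N) * (3 * N)) :=
        mul_le_mul hMδ (mul_le_mul hMN hMN hM0 (by linarith only [hN])) (mul_nonneg hM0 hM0) hδ
      _ = δ * (9 * N ^ 2) := by ring
  have e7 : C1 * M ^ 3 ≤ a * c ^ 2 / 16 * N ^ 2 := by
    calc C1 * M ^ 3 ≤ C1 * (δ * (9 * N ^ 2)) := mul_le_mul_of_nonneg_left e6 hC1.le
      _ = 9 * C1 * δ * N ^ 2 := by ring
      _ ≤ a * c ^ 2 / 16 * N ^ 2 := mul_le_mul_of_nonneg_right h3 (sq_nonneg N)
  have e8 : 0 ≤ C1 * M ^ 3 := mul_nonneg hC1.le (pow_nonneg hM0 3)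
  have e9 : (1 - a) * -(C1 * M ^ 3) ≤ (1 - a) * x :=
    mul_le_mul_of_nonneg_left hx (by linarith only [ha1])
  have e10 : 0 ≤ a * (C1 * M ^ 3) := mul_nonneg ha.le e8
  linarith only [e5, e7, e9, e10]

theorem I8_up {a c C1 C2 ζ b x y : ℝ} (ha : 0 < a) (ha1 : a < 1) (hc : 0 < c) (hC1 : 0 < C1)
    (hb : 0 < b) (hx : x ≤ C1 * b ^ 3) (hy0 : 0 ≤ y) (hy : y ≤ C2 * b ^ 2 + ζ * b)
    (h1 : C1 * b ≤ a * c ^ 2 / 256) (h2 : C2 * b ≤ c / 16) (h3 : ζ ≤ c / 16) :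
    (1 - a) * x + a / 2 * y ^ 2 < a * c ^ 2 / 64 * b ^ 2 := by
  have e1 : y ≤ c / 8 * b := by
    calc y ≤ C2 * b ^ 2 + ζ * b := hy
      _ = (C2 * b + ζ) * b := by ring
      _ ≤ c / 8 * b := mul_le_mul_of_nonneg_right (by linarith only [h2, h3]) hb.le
  have e2 : y ^ 2 ≤ (c / 8 * b) ^ 2 := pow_le_pow_left₀ hy0 e1 2
  have e3 : a / 2 * y ^ 2 ≤ a / 2 * (c / 8 * b) ^ 2 :=
    mul_le_mul_of_nonneg_left e2 (by linarith only [ha])
  have e4 : (1 - a) * x ≤ (1 - a) * (C1 * b ^ 3) :=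
    mul_le_mul_of_nonneg_left hx (by linarith only [ha1])
  have e5 : C1 * b ^ 3 ≤ a * c ^ 2 / 256 * b ^ 2 := by
    calc C1 * b ^ 3 = C1 * b * b ^ 2 := by ring
      _ ≤ a * c ^ 2 / 256 * b ^ 2 := mul_le_mul_of_nonneg_right h1 (sq_nonneg b)
  have e6 : 0 ≤ a * (C1 * b ^ 3) := mul_nonneg ha.le (mul_nonneg hC1.le (pow_nonneg hb.le 3))
  have e7 : 0 < a * c ^ 2 * b ^ 2 := mul_pos (mul_pos ha (pow_pos hc 2)) (pow_pos hb 2)
  linarith only [e3, e4, e5, e6, e7]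

theorem outer_est {m : ℕ} {X : E m → E (m + 1)} {U : Set (E m)} {R r0 : ℝ} {η : E (m + 1)}
    {σ : ℝ} {P Bad : Set (E (m + 1))} {us : E m} {t s1 : ℝ} {e : E m}
    (h : CaseI X U R r0 η σ P Bad us t s1 e)
    {ε : ℝ} (hε : 0 < ε) (hε1 : ε < s1) :
    ∃ δ0 : ℝ, 0 < δ0 ∧ ∀ δ : ℝ, 0 < δ → δ ≤ δ0 → ∃ b0 : ℝ, 0 < b0 ∧ b0 < δ / 4 ∧
      ∃ ζ : ℝ, 0 < ζ ∧ ∀ b : ℝ, 0 < b → b ≤ b0 →
      ∀ w : E (m + 1), ‖w + (b * (ε / s1)) • fderiv ℝ X us e‖ ≤ ζ * (b * (ε / s1)) →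
        ∀ (α : ℝ) (d : E m), inner ℝ (fderiv ℝ X us d) (X us) = 0 → |α| + ‖d‖ ≤ δ →
          b / 2 ≤ |α + b| + ‖d‖ →
            LL X (cen X η us t (s1 - ε) w) (us - b • e) <
              LL X (cen X η us t (s1 - ε) w) (us + α • e + d) := by
  obtain ⟨C1, δ1, hC1, hδ1, hA1, hB1⟩ := fs1_bounds h
  obtain ⟨c, C2, δ2, hc, hC2, hδ2, hA2, hB2⟩ := X_bounds h
  have hs1 : 0 < s1 := h.s10
  set a : ℝ := ε / s1 with ha
  have ha0 : 0 < a := div_pos hε hs1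
  have ha1 : a < 1 := (div_lt_one hs1).mpr hε1
  set c1 : E (m + 1) := cen X η us t s1 0 with hc1
  refine ⟨min (min δ1 δ2) (min (c / (12 * C2)) (a * c ^ 2 / (144 * C1))), lt_min (lt_min hδ1 hδ2)
    (lt_min (div_pos hc (by linarith only [hC2]))
      (div_pos (mul_pos ha0 (pow_pos hc 2)) (by linarith only [hC1]))), ?_⟩
  intro δ hδ hδ0
  have g1 : δ ≤ δ1 := hδ0.trans ((min_le_left _ _).trans (min_le_left _ _))
  have g2 : δ ≤ δ2 := hδ0.trans ((min_le_left _ _).trans (min_le_right _ _))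
  have g3 : 3 * C2 * δ ≤ c / 4 := by
    have : δ ≤ c / (12 * C2) := hδ0.trans ((min_le_right _ _).trans (min_le_left _ _))
    rw [le_div_iff₀ (by linarith only [hC2])] at this
    linarith only [this]
  have g4 : 9 * C1 * δ ≤ a * c ^ 2 / 16 := by
    have : δ ≤ a * c ^ 2 / (144 * C1) := hδ0.trans ((min_le_right _ _).trans (min_le_right _ _))
    rw [le_div_iff₀ (by linarith only [hC1])] at this
    linarith only [this]
  refine ⟨min (δ / 8) (min (a * c ^ 2 / (256 * C1)) (c / (16 * C2))), lt_min (by linarith only [hδ])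
    (lt_min (div_pos (mul_pos ha0 (pow_pos hc 2)) (by linarith only [hC1]))
      (div_pos hc (by linarith only [hC2]))),
    lt_of_le_of_lt (min_le_left _ _) (by linarith only [hδ]), c / 16, by linarith only [hc], ?_⟩
  intro b hb hbb w hw α d hd hαd hN
  have k1 : b ≤ δ / 8 := hbb.trans (min_le_left _ _)
  have k2 : C1 * b ≤ a * c ^ 2 / 256 := by
    have : b ≤ a * c ^ 2 / (256 * C1) := hbb.trans ((min_le_right _ _).trans (min_le_left _ _))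
    rw [le_div_iff₀ (by linarith only [hC1])] at this
    linarith only [this]
  have k3 : C2 * b ≤ c / 16 := by
    have : b ≤ c / (16 * C2) := hbb.trans ((min_le_right _ _).trans (min_le_right _ _))
    rw [le_div_iff₀ (by linarith only [hC2])] at this
    linarith only [this]
  -- the remainder
  set Ev : E (m + 1) := fderiv ℝ X us e with hEv
  set r : E (m + 1) := w + (b * a) • Ev with hr
  have hw' : a⁻¹ • w = a⁻¹ • r - b • Ev := by
    rw [hr, smul_add, smul_smul, show a⁻¹ * (b * a) = b by field_simp, add_sub_cancel_right]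
  have hr' : ‖a⁻¹ • r‖ ≤ c / 16 * b := by
    rw [norm_smul, Real.norm_eq_abs, abs_of_pos (inv_pos.mpr ha0)]
    calc a⁻¹ * ‖r‖ ≤ a⁻¹ * (c / 16 * (b * a)) := mul_le_mul_of_nonneg_left hw (inv_pos.mpr ha0).le
      _ = c / 16 * b := by field_simp
  have hdec : ∀ u : E m, X u - X us - a⁻¹ • w = (X u - X us + b • Ev) - a⁻¹ • r := by
    intro u
    rw [hw']
    abel
  -- lower bound
  have hNb : |α| + ‖d‖ ≤ |α + b| + ‖d‖ + b := by
    have : |α| ≤ |α + b| + |b| := by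
      calc |α| = |(α + b) - b| := by rw [add_sub_cancel_right]
        _ ≤ |α + b| + |b| := abs_sub _ _
    rw [abs_of_pos hb] at this
    linarith only [this]
  have hN0 : 0 ≤ |α + b| + ‖d‖ := add_nonneg (abs_nonneg _) (norm_nonneg _)
  have hlow := I8_low (a := a) (c := c) (C1 := C1) (C2 := C2) (ζ := c / 16) (δ := δ) (b := b)
    (N := |α + b| + ‖d‖) (M := |α| + ‖d‖)
    (x := LL X c1 (us + α • e + d) - LL X c1 us)
    (y := ‖X (us + α • e + d) - X us - a⁻¹ • w‖) ha0 ha1 hc hC1 hC2 hN0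
    (add_nonneg (abs_nonneg _) (norm_nonneg _)) hαd (by linarith only [hNb, hN]) (by linarith only [hN])
    (by linarith only [hc]) g3 (by linarith only [hc]) g4 (hA1 α d hd (hαd.trans g1)).2 (by
      rw [hdec]
      have q1 := hA2 α b d hd (hαd.trans g2)
      have q2 := norm_sub_norm_le (X (us + α • e + d) - X us + b • Ev) (a⁻¹ • r)
      linarith only [q1, q2, hr'])
  -- upper bound
  have hup := I8_up (a := a) (c := c) (C1 := C1) (C2 := C2) (ζ := c / 16) (b := b)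
    (x := LL X c1 (us - b • e) - LL X c1 us)
    (y := ‖X (us - b • e) - X us - a⁻¹ • w‖) ha0 ha1 hc hC1 hb
    (hB1 b hb.le (by linarith only [k1, g1, hδ])) (norm_nonneg _) (by
      rw [hdec]
      have q1 := hB2 b hb.le (by linarith only [k1, g2, hδ])
      have q2 := norm_sub_le (X (us - b • e) - X us + b • Ev) (a⁻¹ • r)
      linarith only [q1, q2, hr']) k2 k3 le_rfl
  have hfin : a * c ^ 2 / 64 * b ^ 2 ≤ a * c ^ 2 / 16 * (|α + b| + ‖d‖) ^ 2 := by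
    have q1 : (b / 2) ^ 2 ≤ (|α + b| + ‖d‖) ^ 2 := pow_le_pow_left₀ (by linarith only [hb]) hN 2
    have q2 : 0 ≤ a * c ^ 2 / 16 := div_nonneg (mul_nonneg ha0.le (sq_nonneg c)) (by norm_num)
    calc a * c ^ 2 / 64 * b ^ 2 = a * c ^ 2 / 16 * (b / 2) ^ 2 := by ring
      _ ≤ a * c ^ 2 / 16 * (|α + b| + ‖d‖) ^ 2 := mul_le_mul_of_nonneg_left q1 q2
  have s1' := LL_cen_split h hε (us - b • e) w
  have s2' := LL_cen_split h hε (us + α • e + d) w
  rw [← ha, ← hc1] at s1' s2'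
  linarith only [s1', s2', hlow, hup, hfin]

end MPf7aa
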