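import Pool.Agent.Lib.MP_f7aa1b_gt.Core

/-!
Row K1. A calculus lemma. Proof. Let c > 0 with c < 1/(2 sqrt C) (so 4 c^2 C < 1), and r' with 0 < 2 r' < rho and
8 C r' < c^2. Let |u1| < r', suppose phi u1 > 0 (otherwise consider - phi). u1 != 0 as phi 0 = 0 (second hypothesis).
g u = sqrt (max (phi u) 0) - c |u - u1| is continuous on the compact ball B = closedBall u1 |u1| (in ball 0 rho); let
u2 be a maximum point; g u2 >= g u1 = sqrt (phi u1) > 0, so phi u2 > 0.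
If |u2 - u1| < |u1|: near u2 sqrt phi is differentiable with derivative dphi/(2 sqrt phi), norm
>= 1/(2 sqrt C) > c (first hypothesis at u2); take a unit vector v with (d sqrt phi)(u2) v > c (operator norm attained
or close): then for small tau > 0 g (u2 + tau v) >= sqrt phi (u2 + tau v) - c|u2-u1| - c tau > g u2. Contradiction.
So |u2 - u1| = |u1| and sqrt (phi u2) > c |u1|, phi u2 > c^2 |u1|^2; but phi u2 <= C |u2|^3 <= 8 C |u1|^3 <=
8 C r' |u1|^2 < c^2 |u1|^2. Contradiction.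
-/

open Set Filter Topology Metric MeasureTheory
open scoped ContDiff

namespace MPf7aa

theorem K1_aux {k : ℕ} {φ : E k → ℝ} {ρ C c r : ℝ} (hC : 0 < C) (hc : 0 < c)
    (hcC : 4 * c ^ 2 * C < 1) (hr : 2 * r ≤ ρ) (hr2 : 8 * C * r ≤ c ^ 2)
    (hd : ∀ w ∈ ball (0 : E k) ρ, DifferentiableAt ℝ φ w)
    (h1 : ∀ w ∈ ball (0 : E k) ρ, |φ w| ≤ C * ‖fderiv ℝ φ w‖ ^ 2)
    (h2 : ∀ w ∈ ball (0 : E k) ρ, |φ w| ≤ C * ‖w‖ ^ 3) :
    ∀ w ∈ ball (0 : E k) r, φ w ≤ 0 := by
  intro u1 hu1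
  rw [mem_ball_zero_iff] at hu1
  by_contra hpos
  push Not at hpos
  have hu10 : 0 < ‖u1‖ := by
    rw [norm_pos_iff]
    rintro rfl
    have hm : (0 : E k) ∈ ball (0 : E k) ρ := by
      rw [mem_ball_zero_iff]
      rw [norm_zero] at hu1 ⊢
      linarith
    have := h2 0 hm
    rw [norm_zero, zero_pow (by norm_num), mul_zero] at this
    have h3 := abs_nonpos_iff.mp this
    linarith
  have hsub : ∀ u ∈ closedBall u1 ‖u1‖, u ∈ ball (0 : E k) ρ ∧ ‖u‖ ≤ 2 * ‖u1‖ := by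
    intro u hu
    rw [mem_closedBall, dist_eq_norm] at hu
    have : ‖u‖ ≤ ‖u - u1‖ + ‖u1‖ := by
      have := norm_add_le (u - u1) u1
      rwa [sub_add_cancel] at this
    refine ⟨?_, by linarith⟩
    rw [mem_ball_zero_iff]
    linarith
  have hcont : ContinuousOn (fun u => Real.sqrt (φ u) - c * ‖u - u1‖) (closedBall u1 ‖u1‖) := by
    refine ContinuousOn.sub ?_ (by fun_prop)
    refine Real.continuous_sqrt.comp_continuousOn ?_
    intro u hu
    exact (hd u (hsub u hu).1).continuousAt.continuousWithinAt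
  obtain ⟨u2, hu2, hmax⟩ := (isCompact_closedBall u1 ‖u1‖).exists_isMaxOn
    ⟨u1, mem_closedBall_self hu10.le⟩ hcont
  have hmax' : ∀ u ∈ closedBall u1 ‖u1‖,
      Real.sqrt (φ u) - c * ‖u - u1‖ ≤ Real.sqrt (φ u2) - c * ‖u2 - u1‖ := fun u hu => hmax hu
  have hsq1 : 0 < Real.sqrt (φ u1) := Real.sqrt_pos.mpr hpos
  have hm1 := hmax' u1 (mem_closedBall_self hu10.le)
  rw [sub_self, norm_zero, mul_zero, sub_zero] at hm1
  have hn2 : 0 ≤ c * ‖u2 - u1‖ := by positivity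
  have hsq2 : 0 < Real.sqrt (φ u2) := by linarith
  have hφ2 : 0 < φ u2 := Real.sqrt_pos.mp hsq2
  have hs2 := Real.sq_sqrt hφ2.le
  rcases lt_or_ge ‖u2 - u1‖ ‖u1‖ with hlt | hge
  · -- interior maximum
    have hdiff := (hd u2 (hsub u2 hu2).1).hasFDerivAt
    have hbound : ∀ v : E k, fderiv ℝ φ u2 v ≤ 2 * Real.sqrt (φ u2) * (c * ‖v‖) := by
      intro v
      have hline : HasDerivAt (fun τ : ℝ => u2 + τ • v) v 0 := by
        have h := ((hasDerivAt_id (0 : ℝ)).smul_const v).const_add u2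
        simpa using h
      have h3 : HasDerivAt (fun τ : ℝ => φ (u2 + τ • v)) (fderiv ℝ φ u2 v) 0 := by
        have hd0 : HasFDerivAt φ (fderiv ℝ φ u2) (u2 + (0 : ℝ) • v) := by
          rw [zero_smul, add_zero]
          exact hdiff
        exact hd0.comp_hasDerivAt (0 : ℝ) hline
      have h4 : HasDerivAt (fun τ : ℝ => Real.sqrt (φ (u2 + τ • v)))
          (fderiv ℝ φ u2 v / (2 * Real.sqrt (φ u2))) 0 := by
        have h5 := h3.sqrt (by rw [zero_smul, add_zero]; exact hφ2.ne')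
        rw [zero_smul, add_zero] at h5
        exact h5
      have h6 : fderiv ℝ φ u2 v / (2 * Real.sqrt (φ u2)) ≤ c * ‖v‖ := by
        have h7 := h4.tendsto_slope_zero_right
        refine le_of_tendsto h7 ?_
        have hcl : ContinuousAt (fun τ : ℝ => u2 + τ • v) 0 := hline.continuousAt
        have hopen : ball u1 ‖u1‖ ∈ 𝓝 (u2 + (0 : ℝ) • v) := by
          rw [zero_smul, add_zero]
          exact isOpen_ball.mem_nhds (by rw [mem_ball, dist_eq_norm]; exact hlt)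
        have hev : ∀ᶠ τ : ℝ in 𝓝[>] 0, u2 + τ • v ∈ ball u1 ‖u1‖ :=
          (hcl.eventually hopen).filter_mono nhdsWithin_le_nhds
        filter_upwards [hev, self_mem_nhdsWithin] with τ hτ hτ0
        have hτ1 : (0 : ℝ) < τ := hτ0
        have h8 := hmax' _ (ball_subset_closedBall hτ)
        have h9 : ‖u2 + τ • v - u1‖ ≤ ‖u2 - u1‖ + τ * ‖v‖ := by
          have e1 : u2 + τ • v - u1 = (u2 - u1) + τ • v := by abel
          rw [e1]
          refine (norm_add_le _ _).trans ?_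
          rw [norm_smul, Real.norm_of_nonneg hτ1.le]
        have h10 := mul_le_mul_of_nonneg_left h9 hc.le
        rw [zero_add, zero_smul, add_zero, smul_eq_mul, inv_mul_le_iff₀ hτ1]
        nlinarith
      rw [div_le_iff₀ (by positivity)] at h6
      linarith
    have hnorm : ‖fderiv ℝ φ u2‖ ≤ 2 * Real.sqrt (φ u2) * c := by
      refine ContinuousLinearMap.opNorm_le_bound _ (by positivity) fun v => ?_
      rw [Real.norm_eq_abs, abs_le]
      have ha := hbound v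
      have hb := hbound (-v)
      rw [map_neg, norm_neg] at hb
      constructor <;> linarith
    have h11 := h1 u2 (hsub u2 hu2).1
    rw [abs_of_pos hφ2] at h11
    have h12 : ‖fderiv ℝ φ u2‖ ^ 2 ≤ (2 * Real.sqrt (φ u2) * c) ^ 2 :=
      pow_le_pow_left₀ (norm_nonneg _) hnorm 2
    have h13 : (2 * Real.sqrt (φ u2) * c) ^ 2 = 4 * c ^ 2 * φ u2 := by
      rw [mul_pow, mul_pow, hs2]
      ring
    rw [h13] at h12
    have h14 := mul_le_mul_of_nonneg_left h12 hC.le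
    have h15 : C * (4 * c ^ 2 * φ u2) = (4 * c ^ 2 * C) * φ u2 := by ring
    have h16 : (4 * c ^ 2 * C) * φ u2 < 1 * φ u2 := mul_lt_mul_of_pos_right hcC hφ2
    linarith
  · -- boundary
    have h3 : c * ‖u1‖ < Real.sqrt (φ u2) := by
      have := mul_le_mul_of_nonneg_left hge hc.le
      linarith
    have h4 : (c * ‖u1‖) ^ 2 < φ u2 := by
      rw [← hs2]
      exact pow_lt_pow_left₀ h3 (by positivity) (by norm_num)
    have h5 := h2 u2 (hsub u2 hu2).1
    rw [abs_of_pos hφ2] at h5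
    have h6 : ‖u2‖ ^ 3 ≤ (2 * ‖u1‖) ^ 3 := pow_le_pow_left₀ (norm_nonneg _) (hsub u2 hu2).2 3
    have h7 := mul_le_mul_of_nonneg_left h6 hC.le
    have h8 : C * (2 * ‖u1‖) ^ 3 = (8 * C * ‖u1‖) * ‖u1‖ ^ 2 := by ring
    have h9 : 8 * C * ‖u1‖ ≤ c ^ 2 := by
      have := mul_le_mul_of_nonneg_left hu1.le (by positivity : (0 : ℝ) ≤ 8 * C)
      linarith
    have h10 := mul_le_mul_of_nonneg_right h9 (by positivity : (0 : ℝ) ≤ ‖u1‖ ^ 2)
    have h11 : (c * ‖u1‖) ^ 2 = c ^ 2 * ‖u1‖ ^ 2 := by ring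
    linarith

theorem calc_zero {k : ℕ} {φ : E k → ℝ} {ρ C : ℝ} (hρ : 0 < ρ) (hC : 0 < C)
    (hd : ∀ w ∈ ball (0 : E k) ρ, DifferentiableAt ℝ φ w)
    (h1 : ∀ w ∈ ball (0 : E k) ρ, |φ w| ≤ C * ‖fderiv ℝ φ w‖ ^ 2)
    (h2 : ∀ w ∈ ball (0 : E k) ρ, |φ w| ≤ C * ‖w‖ ^ 3) :
    ∃ ρ' : ℝ, 0 < ρ' ∧ ∀ w ∈ ball (0 : E k) ρ', φ w = 0 := by
  set c : ℝ := Real.sqrt (1 / (8 * C)) with hcdef
  have hc : 0 < c := Real.sqrt_pos.mpr (by positivity)
  have hc2 : c ^ 2 = 1 / (8 * C) := Real.sq_sqrt (by positivity)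
  have hcC : 4 * c ^ 2 * C < 1 := by
    rw [hc2]
    have : 4 * (1 / (8 * C)) * C = 1 / 2 := by
      field_simp
      norm_num
    rw [this]
    norm_num
  set r : ℝ := min (ρ / 2) (c ^ 2 / (8 * C)) with hrdef
  have hr0 : 0 < r := lt_min (by positivity) (by positivity)
  have hr1 : 2 * r ≤ ρ := by
    have := min_le_left (ρ / 2) (c ^ 2 / (8 * C))
    linarith
  have hr2 : 8 * C * r ≤ c ^ 2 := by
    have := min_le_right (ρ / 2) (c ^ 2 / (8 * C))
    have h3 := mul_le_mul_of_nonneg_left this (by positivity : (0 : ℝ) ≤ 8 * C)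
    have h4 : 8 * C * (c ^ 2 / (8 * C)) = c ^ 2 := by field_simp
    linarith
  refine ⟨r, hr0, fun w hw => ?_⟩
  have ha := K1_aux hC hc hcC hr1 hr2 hd h1 h2 w hw
  have hf : ∀ w, fderiv ℝ (fun u => -φ u) w = -fderiv ℝ φ w := fun w => fderiv_fun_neg
  have hb := K1_aux (φ := fun u => -φ u) hC hc hcC hr1 hr2 (fun w hw => (hd w hw).neg)
    (fun w hw => by rw [hf, norm_neg, abs_neg]; exact h1 w hw)
    (fun w hw => by rw [abs_neg]; exact h2 w hw) w hw
  linarith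

end MPf7aa
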