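import Pool.Agent.Lib.MP_f7aa1b_gt.L2

/-!
Row L3. Uniqueness of good points when the segment from 0 to p avoids Bad. (Continuous induction.)
Proof. Suppose u1 != u2; rho := max (LL X 0 u1) (LL X 0 u2) < r0^2/2. Let
A = {alpha in [0,1] | exists v1 v2 in closedBall 0 R, LL X 0 vi <= rho, Good X (alpha p) vi, v1 != v2};
1 is in A; a := sInf A.
(i) a in A. Take alpha_n in A, alpha_n -> a (exists_seq_tendsto_sInf), v1n, v2n; the set
{closedBall, LL <= rho} is compact (isCompact_sub); pass to a common subsequence, limits v1, v2.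
closed_crit: Crit and HH >= 0 at v1, v2 for the centre a p. If a > 0: a p in P (Pcone), a p is not
in Bad, so by field bad not Deg, so Good (not_deg_good). If a = 0: Good by HH_zero_pos (0 p = 0).
If v1 = v2 =: v then persist (at (a p, v), v in U, rho0 = 1) gives a ball around v in which for centres
near a p there is only one critical point; but v1n, v2n are in it for large n: contradiction.
(ii) a = 0. Suppose a > 0. By low_norm |vi| < R; level: no condition needed. Choose rho0 > 0 with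
closedBall vi rho0 in closedBall 0 R and 2 rho0 < |v1 - v2|; persist at (a p, vi) gives balls and delta. Since
(p' = a p) the point vi itself is critical in its ball it is the minimiser of LL X (a p) on
closedBall vi rho_i (last two clauses of persist). For alpha' < a close to a (0 < alpha',
|alpha' p - a p| < delta) there are vi' in ball vi rho_i, Good for alpha' p, minimisers of LL X (alpha' p) on
closedBall vi rho_i. mono (alpha := a, v := vi, v' := vi') gives LL X 0 vi' <= LL X 0 vi <= rho; v1' != v2'.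
So alpha' in A, contradiction with a = sInf A.
(iii) 0 in A: the two points are critical for L_0, both are 0 by uniq0. Contradiction.
-/

open Set Filter Topology Metric MeasureTheory
open scoped ContDiff

namespace MPf7aa

theorem L3_crit {m : ℕ} {X : E m → E (m + 1)} {U : Set (E m)} {R r0 : ℝ} {η : E (m + 1)}
    {σ : ℝ} {P Bad : Set (E (m + 1))} (h : Core X U R r0 η σ P Bad) {p : E (m + 1)} (hp : p ∈ P)
    (hav : ∀ α : ℝ, 0 < α → α ≤ 1 → α • p ∉ Bad) {a : ℝ} (ha0 : 0 ≤ a) (ha1 : a ≤ 1)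
    {u : E m} (hu : u ∈ closedBall (0 : E m) R) (hl : LL X 0 u ≤ r0 ^ 2 / 2)
    (hc : Crit X (a • p) u) (hn : ∀ v, 0 ≤ HH X (a • p) u v v) : Good X (a • p) u := by
  rcases ha0.eq_or_lt with h0 | h0
  · refine ⟨hc, fun v hv => ?_⟩
    rw [← h0, zero_smul]
    exact HH_zero_pos h hu hv
  · refine not_deg_good hc hn (fun hd => ?_)
    exact hav a h0 ha1 (h.bad _ (h.Pcone p hp a h0) u hu hl hd)

/-- passage to a smaller parameter near a good point -/
theorem L3_step {m : ℕ} {X : E m → E (m + 1)} {U : Set (E m)} {R r0 : ℝ} {η : E (m + 1)}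
    {σ : ℝ} {P Bad : Set (E (m + 1))} (h : Core X U R r0 η σ P Bad) {p : E (m + 1)}
    {a : ℝ} {x : E m} (hx : x ∈ closedBall (0 : E m) R)
    (hl : LL X 0 x ≤ r0 ^ 2 / 2) (hg : Good X (a • p) x) {d : ℝ} (hd : 0 < d) :
    ∃ δ : ℝ, 0 < δ ∧ ∀ α : ℝ, 0 < α → α < a → ‖α • p - a • p‖ < δ →
      ∃ x' ∈ closedBall (0 : E m) R, LL X 0 x' ≤ LL X 0 x ∧ Good X (α • p) x' ∧ dist x' x < d := by
  have hxR : ‖x‖ < R := low_norm h hx hl
  have hρ0 : 0 < min (R - ‖x‖) d := lt_min (by linarith) hd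
  obtain ⟨ρ, hρ, hρ', -, δ, hδ, hper⟩ := persist h.op h.cX (h.ball hx) hg hρ0
  refine ⟨δ, hδ, fun α h0 h1 hα => ?_⟩
  obtain ⟨x', hx', hg', hmin', -⟩ := hper (α • p) hα
  obtain ⟨x0, hx0, -, hmin, huniq⟩ := hper (a • p) (by simpa using hδ)
  have hxx : x = x0 := huniq x (mem_closedBall_self hρ.le) hg.1
  rw [← hxx] at hmin
  have hdist : dist x' x < ρ := hx'
  refine ⟨x', ?_, ?_, hg', lt_of_lt_of_le (hdist.trans hρ') (min_le_right _ _)⟩
  · rw [mem_closedBall_zero_iff]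
    have h3 : ‖x' - x‖ < R - ‖x‖ := by
      rw [← dist_eq_norm]
      exact lt_of_lt_of_le (hdist.trans hρ') (min_le_left _ _)
    have h4 : ‖x'‖ ≤ ‖x' - x‖ + ‖x‖ := by
      have := norm_add_le (x' - x) x
      rwa [sub_add_cancel] at this
    linarith
  · exact mono X p h0 h1 (hmin x' (ball_subset_closedBall hx'))
      (hmin' x (mem_closedBall_self hρ.le))

/-- two sequences of good points with a common limit coincide eventually -/
theorem L3_sep {m : ℕ} {X : E m → E (m + 1)} {U : Set (E m)} {R r0 : ℝ} {η : E (m + 1)}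
    {σ : ℝ} {P Bad : Set (E (m + 1))} (h : Core X U R r0 η σ P Bad) {q : E (m + 1)}
    {x : E m} (hx : x ∈ closedBall (0 : E m) R) (hg : Good X q x)
    {qn : ℕ → E (m + 1)} {x1 x2 : ℕ → E m} (hq : Tendsto qn atTop (𝓝 q))
    (h1 : Tendsto x1 atTop (𝓝 x)) (h2 : Tendsto x2 atTop (𝓝 x))
    (g1 : ∀ n, Good X (qn n) (x1 n)) (g2 : ∀ n, Good X (qn n) (x2 n)) : ∃ n, x1 n = x2 n := by
  obtain ⟨ρ, hρ, -, -, δ, hδ, hper⟩ := persist h.op h.cX (h.ball hx) hg one_pos
  have e1 : ∀ᶠ n in atTop, x1 n ∈ closedBall x ρ :=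
    h1.eventually (closedBall_mem_nhds x hρ)
  have e2 : ∀ᶠ n in atTop, x2 n ∈ closedBall x ρ :=
    h2.eventually (closedBall_mem_nhds x hρ)
  have e3 : ∀ᶠ n in atTop, qn n ∈ ball q δ := hq.eventually (ball_mem_nhds q hδ)
  obtain ⟨n, hn1, hn2, hn3⟩ := (e1.and (e2.and e3)).exists
  rw [mem_ball, dist_eq_norm] at hn3
  obtain ⟨u', -, -, -, hu⟩ := hper (qn n) hn3
  exact ⟨n, (hu _ hn1 (g1 n).1).trans (hu _ hn2 (g2 n).1).symm⟩

theorem uniq_avoid {m : ℕ} {X : E m → E (m + 1)} {U : Set (E m)} {R r0 : ℝ} {η : E (m + 1)}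
    {σ : ℝ} {P Bad : Set (E (m + 1))} (h : Core X U R r0 η σ P Bad) {p : E (m + 1)} (hp : p ∈ P)
    (hav : ∀ α : ℝ, 0 < α → α ≤ 1 → α • p ∉ Bad) {u1 u2 : E m}
    (h1 : u1 ∈ closedBall (0 : E m) R) (h2 : u2 ∈ closedBall (0 : E m) R)
    (l1 : LL X 0 u1 < r0 ^ 2 / 2) (l2 : LL X 0 u2 < r0 ^ 2 / 2)
    (g1 : Good X p u1) (g2 : Good X p u2) : u1 = u2 := by
  by_contra hne
  obtain ⟨ρ, hρ1, hρ2, hρr⟩ : ∃ ρ : ℝ, LL X 0 u1 ≤ ρ ∧ LL X 0 u2 ≤ ρ ∧ ρ ≤ r0 ^ 2 / 2 :=
    ⟨max (LL X 0 u1) (LL X 0 u2), le_max_left _ _, le_max_right _ _, (max_lt l1 l2).le⟩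
  set K : Set (E m) := {u : E m | u ∈ closedBall (0 : E m) R ∧ LL X 0 u ≤ ρ} with hKdef
  have hK : IsCompact K := isCompact_sub h ρ
  set A : Set ℝ := {α | 0 ≤ α ∧ α ≤ 1 ∧ ∃ v1 ∈ K, ∃ v2 ∈ K, Good X (α • p) v1 ∧
    Good X (α • p) v2 ∧ v1 ≠ v2} with hAdef
  have h1A : (1 : ℝ) ∈ A :=
    ⟨zero_le_one, le_refl _, u1, ⟨h1, hρ1⟩, u2, ⟨h2, hρ2⟩, by rwa [one_smul], by rwa [one_smul],
      hne⟩
  have hbdd : BddBelow A := ⟨0, fun α hα => hα.1⟩
  -- the infimum is attained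
  have haA : sInf A ∈ A := by
    obtain ⟨an, -, hlim, hmem⟩ := exists_seq_tendsto_sInf ⟨1, h1A⟩ hbdd
    choose h0 hle v1 hv1 v2 hv2 hg1 hg2 hneq using hmem
    obtain ⟨x, hxK, φ, hφ, hxlim⟩ := hK.tendsto_subseq hv1
    obtain ⟨y, hyK, ψ, hψ, hylim⟩ := hK.tendsto_subseq (fun n => hv2 (φ n))
    have hχ : Tendsto (fun n => φ (ψ n)) atTop atTop := hφ.tendsto_atTop.comp hψ.tendsto_atTop
    have ha : Tendsto (fun n => an (φ (ψ n))) atTop (𝓝 (sInf A)) := hlim.comp hχ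
    have hap : Tendsto (fun n => an (φ (ψ n)) • p) atTop (𝓝 (sInf A • p)) := ha.smul_const p
    have hx : Tendsto (fun n => v1 (φ (ψ n))) atTop (𝓝 x) := hxlim.comp hψ.tendsto_atTop
    have hy : Tendsto (fun n => v2 (φ (ψ n))) atTop (𝓝 y) := hylim
    have ha0 : 0 ≤ sInf A := ge_of_tendsto' ha (fun n => h0 _)
    have ha1 : sInf A ≤ 1 := le_of_tendsto' ha (fun n => hle _)
    have nng : ∀ (q : E (m + 1)) (u : E m), Good X q u → ∀ v, 0 ≤ HH X q u v v := by
      intro q u hg v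
      by_cases hv : v = 0
      · have := HH_smul_left X q u v v 0
        rw [hv, smul_zero, zero_mul] at this
        rw [hv, this]
      · exact (hg.2 v hv).le
    have cx := closed_crit h.op h.cX (h.ball hxK.1) hap hx (fun n => (hg1 _).1)
      (fun n => nng _ _ (hg1 _))
    have cy := closed_crit h.op h.cX (h.ball hyK.1) hap hy (fun n => (hg2 _).1)
      (fun n => nng _ _ (hg2 _))
    have gx : Good X (sInf A • p) x :=
      L3_crit h hp hav ha0 ha1 hxK.1 (hxK.2.trans hρr) cx.1 cx.2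
    have gy : Good X (sInf A • p) y :=
      L3_crit h hp hav ha0 ha1 hyK.1 (hyK.2.trans hρr) cy.1 cy.2
    refine ⟨ha0, ha1, x, hxK, y, hyK, gx, gy, fun hxy => ?_⟩
    rw [← hxy] at hy
    obtain ⟨n, hn⟩ := L3_sep h hxK.1 gx hap hx hy (fun n => hg1 _) (fun n => hg2 _)
    exact hneq _ hn
  obtain ⟨ha0, ha1, x, hxK, y, hyK, gx, gy, hxy⟩ := haA
  -- the infimum is zero
  have hzero : sInf A = 0 := by
    rcases ha0.eq_or_lt with h0 | h0
    · exact h0.symm
    exfalso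
    have hd : 0 < dist x y / 2 := half_pos (dist_pos.2 hxy)
    obtain ⟨δ1, hδ1, s1⟩ := L3_step h hxK.1 (hxK.2.trans hρr) gx hd
    obtain ⟨δ2, hδ2, s2⟩ := L3_step h hyK.1 (hyK.2.trans hρr) gy hd
    have hcont : Tendsto (fun α : ℝ => ‖α • p - sInf A • p‖) (𝓝[<] (sInf A)) (𝓝 0) := by
      have hc : Continuous (fun α : ℝ => ‖α • p - sInf A • p‖) := by fun_prop
      have := hc.tendsto (sInf A)
      rw [sub_self, norm_zero] at this
      exact this.mono_left nhdsWithin_le_nhds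
    have e1 : ∀ᶠ α in 𝓝[<] (sInf A), ‖α • p - sInf A • p‖ < min δ1 δ2 :=
      hcont.eventually (gt_mem_nhds (lt_min hδ1 hδ2))
    have e2 : ∀ᶠ α in 𝓝[<] (sInf A), 0 < α := by
      have : ∀ᶠ α in 𝓝 (sInf A), 0 < α := lt_mem_nhds h0
      exact this.filter_mono nhdsWithin_le_nhds
    have e3 : ∀ᶠ α in 𝓝[<] (sInf A), α < sInf A := eventually_mem_nhdsWithin
    obtain ⟨α, hα1, hα0, hαa⟩ := (e1.and (e2.and e3)).exists
    obtain ⟨x', hx'R, hx'l, gx', hx'd⟩ := s1 α hα0 hαa (lt_of_lt_of_le hα1 (min_le_left _ _))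
    obtain ⟨y', hy'R, hy'l, gy', hy'd⟩ := s2 α hα0 hαa (lt_of_lt_of_le hα1 (min_le_right _ _))
    have hαA : α ∈ A := by
      refine ⟨hα0.le, hαa.le.trans ha1, x', ⟨hx'R, hx'l.trans hxK.2⟩, y', ⟨hy'R, hy'l.trans hyK.2⟩,
        gx', gy', fun he => ?_⟩
      have t1 := dist_triangle x x' y
      rw [he] at t1 hx'd
      rw [dist_comm] at hx'd
      linarith
    exact absurd (csInf_le hbdd hαA) (not_le.2 hαa)
  rw [hzero, zero_smul] at gx gy
  exact hxy ((uniq0 h hxK.1 gx.1).trans (uniq0 h hyK.1 gy.1).symm)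

end MPf7aa
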