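import Pool.Agent.Lib.MP_f7aa1b_gt.L1

/-!
Row M1. The maximum point. Write Q = LL X 0, h u = <X u, eta>, k0 = 1/sigma, rho1 = Q u1 (>= 0),
rhoe = (rho1 + r0^2/2)/2 > rho1, g := h u1 - k0 rho1 > 0, a := g / (2 (rho1 + 1)) > 0,
N := (r0 + 1) / (rhoe - rho1)^2,
phi(u) = h u - (k0 + a) Q u - N (max (Q u - rho1) 0)^2. phi(u1) = g - a rho1 > 0, phi(0) = 0.
D = {u in closedBall 0 R, Q u <= rhoe} is compact (isCompact_sub) and phi is continuous on it; let us
be a maximum point; phi(us) >= phi(u1) > 0. So us != 0. If Q us = rhoe then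
h us <= |X us| <= r0 (X_norm_le) and phi(us) <= r0 - N (rhoe - rho1)^2 < 0: impossible; so Q us < rhoe,
|us| < R (low_norm), and us is an interior point of D (level_interior): local maximum of phi.
phi is differentiable at us (x -> (max x 0)^2 has derivative 2 max x 0 everywhere), so d phi(us) = 0
which reads <dX us v, eta> = lam <dX us v, X us> with lam = k0 + a + 2 N max (Q us - rho1) 0 > k0
(fderiv_LL_apply with p = 0). If u in closedBall and Q u = Q us then u in D, phi u <= phi us and the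
terms with Q are equal: h u <= h us.
-/

open Set Filter Topology Metric MeasureTheory
open scoped ContDiff

namespace MPf7aa

theorem M1_aux (x : ℝ) : HasDerivAt (fun y : ℝ => (max y 0) ^ 2) (2 * max x 0) x := by
  rcases lt_trichotomy x 0 with h | h | h
  · have h1 : (fun y : ℝ => (max y 0) ^ 2) =ᶠ[𝓝 x] fun _ => 0 := by
      filter_upwards [Iio_mem_nhds h] with y hy
      rw [max_eq_right (le_of_lt hy)]
      norm_num
    rw [max_eq_right h.le, mul_zero]
    exact (hasDerivAt_const x (0 : ℝ)).congr_of_eventuallyEq h1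
  · subst h
    rw [max_self, mul_zero]
    have h1 : HasDerivAt (fun y : ℝ => y ^ 2) 0 0 := by
      simpa using hasDerivAt_pow 2 (0 : ℝ)
    rw [hasDerivAt_iff_isLittleO] at h1 ⊢
    refine Asymptotics.IsBigO.trans_isLittleO ?_ h1
    refine Asymptotics.IsBigO.of_bound 1 (Filter.Eventually.of_forall (fun y => ?_))
    simp only [max_self, smul_eq_mul, mul_zero, sub_zero, ne_eq, OfNat.ofNat_ne_zero,
      not_false_eq_true, zero_pow, norm_pow, Real.norm_eq_abs, one_mul, sq_abs]
    rcases le_total y 0 with hy | hy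
    · rw [max_eq_right hy]
      nlinarith [sq_nonneg y]
    · rw [max_eq_left hy]
  · have h1 : (fun y : ℝ => (max y 0) ^ 2) =ᶠ[𝓝 x] fun y => y ^ 2 := by
      filter_upwards [Ioi_mem_nhds h] with y hy
      rw [max_eq_left (le_of_lt hy)]
    rw [max_eq_left h.le]
    have h2 : HasDerivAt (fun y : ℝ => y ^ 2) (2 * x) x := by
      simpa using hasDerivAt_pow 2 x
    exact h2.congr_of_eventuallyEq h1

theorem maxpt {m : ℕ} {X : E m → E (m + 1)} {U : Set (E m)} {R r0 : ℝ} {η : E (m + 1)}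
    {σ : ℝ} {P Bad : Set (E (m + 1))} (h : Core X U R r0 η σ P Bad) {u1 : E m}
    (h1 : u1 ∈ closedBall (0 : E m) R) (l1 : LL X 0 u1 < r0 ^ 2 / 2)
    (hbig : (1 / σ) * LL X 0 u1 < inner ℝ (X u1) η) :
    ∃ us ∈ closedBall (0 : E m) R, us ≠ 0 ∧ LL X 0 us < r0 ^ 2 / 2 ∧ ∃ lam : ℝ, 1 / σ < lam ∧
      (∀ v, inner ℝ (fderiv ℝ X us v) η = lam * inner ℝ (fderiv ℝ X us v) (X us)) ∧
      ∀ u ∈ closedBall (0 : E m) R, LL X 0 u = LL X 0 us → inner ℝ (X u) η ≤ inner ℝ (X us) η := by
  have hQ0 : ∀ u, 0 ≤ LL X 0 u := fun u => by unfold LL; positivity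
  set ρ1 : ℝ := LL X 0 u1 with hρ1
  set ρe : ℝ := (ρ1 + r0 ^ 2 / 2) / 2 with hρe
  set g : ℝ := inner ℝ (X u1) η - (1 / σ) * ρ1 with hg
  set a : ℝ := g / (2 * (ρ1 + 1)) with ha
  set N : ℝ := (r0 + 1) / (ρe - ρ1) ^ 2 with hN
  have hρ1' : 0 ≤ ρ1 := hQ0 u1
  have hgpos : 0 < g := by rw [hg]; linarith
  have hapos : 0 < a := by rw [ha]; positivity
  have hr0 := h.hr0
  have hρ1e : ρ1 < ρe := by rw [hρe]; linarith
  have hρer : ρe < r0 ^ 2 / 2 := by rw [hρe]; linarith
  have hNpos : 0 < N := by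
    rw [hN]
    have : 0 < ρe - ρ1 := by linarith
    positivity
  have hσ := h.hσ
  set φ : E m → ℝ := fun u => inner ℝ (X u) η - (1 / σ + a) * LL X 0 u -
    N * (max (LL X 0 u - ρ1) 0) ^ 2 with hφ
  have hφ1 : 0 < φ u1 := by
    have e1 : φ u1 = g - a * ρ1 := by
      simp only [hφ, ← hρ1, sub_self, max_self, hg]
      ring
    have e2 : a * (2 * (ρ1 + 1)) = g := by
      rw [ha]; field_simp
    rw [e1]
    nlinarith
  have hφ0 : φ 0 = 0 := by
    have e0 : LL X 0 0 = 0 := LL_zero h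
    simp only [hφ, h.X0, e0, inner_zero_left, mul_zero, sub_zero, zero_sub]
    rw [max_eq_right (by linarith)]
    norm_num
  have hcQ : ContinuousOn (LL X 0) (closedBall (0 : E m) R) := by
    have hc := continuousOn_LL (k := m + 1) h.cX
    refine hc.comp (f := fun u : E m => ((0 : E (m + 1)), u)) (by fun_prop) ?_
    intro u hu
    exact h.ball hu
  have hcX : ContinuousOn X (closedBall (0 : E m) R) := h.cX.continuousOn.mono h.ball
  have hcφ : ContinuousOn φ (closedBall (0 : E m) R) := by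
    refine ContinuousOn.sub (ContinuousOn.sub (ContinuousOn.inner (𝕜 := ℝ) hcX continuousOn_const)
      (continuousOn_const.mul hcQ)) (continuousOn_const.mul (ContinuousOn.pow
      (ContinuousOn.sup (hcQ.sub continuousOn_const) continuousOn_const) 2))
  set D : Set (E m) := {u : E m | u ∈ closedBall (0 : E m) R ∧ LL X 0 u ≤ ρe} with hD
  have hDc : IsCompact D := isCompact_sub h ρe
  obtain ⟨us, husD, hmax⟩ := hDc.exists_isMaxOn ⟨u1, h1, hρ1e.le⟩
    (hcφ.mono (fun u hu => hu.1))
  have hmax' : ∀ u ∈ D, φ u ≤ φ us := fun u hu => hmax hu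
  have hφus : 0 < φ us := lt_of_lt_of_le hφ1 (hmax' u1 ⟨h1, hρ1e.le⟩)
  have hus0 : us ≠ 0 := by
    intro e
    rw [e, hφ0] at hφus
    exact lt_irrefl _ hφus
  have hQus : LL X 0 us < ρe := by
    refine lt_of_le_of_ne husD.2 (fun e => ?_)
    have e1 : inner ℝ (X us) η ≤ r0 := by
      have e2 := real_inner_le_norm (X us) η
      rw [h.unit, mul_one] at e2
      exact e2.trans (X_norm_le h (by rw [e]; exact hρer.le))
    have e3 : N * (max (LL X 0 us - ρ1) 0) ^ 2 = r0 + 1 := by
      rw [e, max_eq_left (by linarith), hN]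
      have : ρe - ρ1 ≠ 0 := by linarith
      field_simp
    have e4 : 0 ≤ (1 / σ + a) * LL X 0 us := by
      have := hQ0 us
      positivity
    have e5 : φ us = inner ℝ (X us) η - (1 / σ + a) * LL X 0 us -
      N * (max (LL X 0 us - ρ1) 0) ^ 2 := rfl
    rw [e3] at e5
    linarith
  obtain ⟨δ, hδ, hball⟩ := level_interior h husD.1 hρer.le hQus
  have husU : us ∈ U := h.ball husD.1
  refine ⟨us, husD.1, hus0, by linarith, 1 / σ + a + 2 * N * max (LL X 0 us - ρ1) 0, ?_, ?_, ?_⟩
  · have : 0 ≤ max (LL X 0 us - ρ1) 0 := le_max_right _ _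
    have : 0 ≤ 2 * N * max (LL X 0 us - ρ1) 0 := by positivity
    linarith
  · intro v
    have hdX : HasFDerivAt X (fderiv ℝ X us) us :=
      ((h.cX.contDiffAt (h.op.mem_nhds husU)).differentiableAt (by simp)).hasFDerivAt
    have hc : HasDerivAt (fun t : ℝ => us + t • v) v 0 := by
      simpa using ((hasDerivAt_id (0 : ℝ)).smul_const v).const_add us
    have hXc : HasDerivAt (fun t : ℝ => X (us + t • v)) (fderiv ℝ X us v) 0 := by
      have hdX' : HasFDerivAt X (fderiv ℝ X us) (us + (0 : ℝ) • v) := by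
        rw [zero_smul, add_zero]; exact hdX
      exact hdX'.comp_hasDerivAt (0 : ℝ) hc
    have hh : HasDerivAt (fun t : ℝ => inner ℝ (X (us + t • v)) η)
        (inner ℝ (fderiv ℝ X us v) η) 0 := by
      have := hXc.inner ℝ (hasDerivAt_const (0 : ℝ) η)
      simpa using this
    have hQc : HasDerivAt (fun t : ℝ => LL X 0 (us + t • v))
        (inner ℝ (fderiv ℝ X us v) (X us)) 0 := by
      have := hasDerivAt_line h.op h.cX (0 : E (m + 1)) us v (t := 0) (by simpa using husU)
      simpa using this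
    have hM : HasDerivAt (fun t : ℝ => (max (LL X 0 (us + t • v) - ρ1) 0) ^ 2)
        (2 * max (LL X 0 us - ρ1) 0 * inner ℝ (fderiv ℝ X us v) (X us)) 0 := by
      have h2 := HasDerivAt.comp (0 : ℝ) (h₂ := fun y : ℝ => (max y 0) ^ 2)
        (h := fun t : ℝ => LL X 0 (us + t • v) - ρ1)
        (M1_aux (LL X 0 (us + (0 : ℝ) • v) - ρ1)) (hQc.sub_const ρ1)
      rw [zero_smul, add_zero] at h2
      exact h2
    have hφc : HasDerivAt (fun t : ℝ => φ (us + t • v))
        (inner ℝ (fderiv ℝ X us v) η - (1 / σ + a) * inner ℝ (fderiv ℝ X us v) (X us) -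
          N * (2 * max (LL X 0 us - ρ1) 0 * inner ℝ (fderiv ℝ X us v) (X us))) 0 :=
      (hh.sub (hQc.const_mul _)).sub (hM.const_mul _)
    have hloc : IsLocalMax (fun t : ℝ => φ (us + t • v)) 0 := by
      have hcont : ContinuousAt (fun t : ℝ => us + t • v) 0 := hc.continuousAt
      have hn : ∀ᶠ t in 𝓝 (0 : ℝ), us + t • v ∈ closedBall us δ := by
        apply hcont
        simp only [zero_smul, add_zero]
        exact closedBall_mem_nhds us hδ
      filter_upwards [hn] with t ht
      simp only [zero_smul, add_zero]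
      exact hmax' _ ⟨(hball _ ht).1, (hball _ ht).2.le⟩
    have := hloc.hasDerivAt_eq_zero hφc
    linarith
  · intro u hu e
    have h2 := hmax' u ⟨hu, by rw [e]; exact hQus.le⟩
    simp only [hφ, e] at h2
    linarith

end MPf7aa
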