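import Pool.Agent.Lib.MP_f7aa1b_gt.F2c
import Pool.Agent.Lib.MP_f7aa1b_gt.F6c
import Pool.Agent.Lib.MP_f7aa1b_gt.F7a
import Pool.Agent.Lib.MP_f7aa1b_gt.F7d

/-!
Assembly (done).
-/

open Set Filter Topology Metric MeasureTheory
open scoped ContDiff

namespace MPf7aa

theorem unb_empty_zero {M : Set (E 0)} {b : E 0 × E 0} (hb : b ∈ UNB M) : False := by
  have h1 : ‖b.2‖ = 1 := hb.2.1
  have h2 : b.2 = 0 := Subsingleton.elim _ _
  rw [h2, norm_zero] at h1
  exact zero_ne_one h1

/-- Through every point of the unit normal bundle of a Dupin submanifold and every principal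
curvature there is a curvature surface, and every distance function is Morse-Bott. -/
theorem main {n d : ℕ} (M : Set (E n)) (hM : IsSubmfd d M) (hD : IsDupin M) :
    (∀ b ∈ UNB M, ∀ κ0 : ℝ, IsPrinc M κ0 b →
      ∃ (S : Set (E n × E n)) (κ : E n × E n → ℝ), IsCurvSurface M S κ ∧ b ∈ S ∧ κ b = κ0) ∧
    ∀ p : E n, MorseBott d M p := by
  cases n with
  | zero =>
    refine ⟨fun b hb => (unb_empty_zero hb).elim, ?_⟩
    intro p x0 hx0
    obtain ⟨U, φ, hφ⟩ := hM x0 hx0.1
    have hxp : x0 = p := Subsingleton.elim _ _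
    subst hxp
    exact crit_at_point hφ
  | succ m =>
    refine ⟨?_, ?_⟩
    · intro b0 hb0 κ0 hp
      obtain ⟨U, b, hb⟩ := unb_submfd hM b0 hb0
      by_cases hκ : κ0 = 0
      · subst hκ
        exact surface_zero hD hb hp
      · exact surface_nonzero hD hb hκ hp
    · intro p x0 hx0
      by_cases hxp : x0 = p
      · subst hxp
        obtain ⟨U, φ, hφ⟩ := hM x0 hx0.1
        exact crit_at_point hφ
      · exact morseBott_ne hD (unb_submfd hM) hx0 hxp

end MPf7aa
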