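import Pool.Agent.Lib.MP_f7aa1b_gt.Core

/-!
Row N0. A Lipschitz map of E n into itself with singular derivative almost everywhere on S has a null image.
Proof. S = S1 union S2, S1 = points of S where g is differentiable with non-injective derivative, volume S2 = 0.
volume (g S1) = 0: addHaar_image_eq_zero_of_det_fderivWithin_eq_zero (HasFDerivAt.hasFDerivWithinAt; the
determinant of a non-injective endomorphism is 0, e.g. LinearMap.det_eq_zero_iff_ker_ne_bot or
ContinuousLinearMap.det). volume (g S2) = 0: g is Lipschitz on S2 and S2 is null: Hausdorff measure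
(LipschitzOnWith.hausdorffMeasure_image_le) and volume = c * Hausdorff measure of dimension n on E n
(both are additive Haar measures; MeasureTheory.isAddHaarMeasure_hausdorffMeasure or
EuclideanSpace.hausdorffMeasure... / hausdorffMeasure_pi_real), or directly by covering S2 with small balls.
-/

open Set Filter Topology Metric MeasureTheory
open scoped ContDiff

namespace MPf7aa

theorem null_lip {n : ℕ} {g : E n → E n} {S : Set (E n)} {K : NNReal} (hg : LipschitzOnWith K g S)
    (hd : ∀ᵐ x ∂(volume : Measure (E n)), x ∈ S →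
      DifferentiableAt ℝ g x ∧ ∃ v : E n, v ≠ 0 ∧ fderiv ℝ g x v = 0) :
    volume (g '' S) = 0 := by
  have hd' : volume {x | ¬ (x ∈ S → DifferentiableAt ℝ g x ∧
      ∃ v : E n, v ≠ 0 ∧ fderiv ℝ g x v = 0)} = 0 := ae_iff.1 hd
  have hsub : g '' S ⊆ g '' {x | x ∈ S ∧ (DifferentiableAt ℝ g x ∧
      ∃ v : E n, v ≠ 0 ∧ fderiv ℝ g x v = 0)} ∪
      g '' (S ∩ {x | ¬ (x ∈ S → DifferentiableAt ℝ g x ∧
      ∃ v : E n, v ≠ 0 ∧ fderiv ℝ g x v = 0)}) := by
    rintro y ⟨x, hx, rfl⟩
    by_cases h : DifferentiableAt ℝ g x ∧ ∃ v : E n, v ≠ 0 ∧ fderiv ℝ g x v = 0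
    · exact Or.inl ⟨x, ⟨hx, h⟩, rfl⟩
    · exact Or.inr ⟨x, ⟨hx, fun h' => h (h' hx)⟩, rfl⟩
  refine measure_mono_null hsub (measure_union_null ?_ ?_)
  · apply addHaar_image_eq_zero_of_det_fderivWithin_eq_zero volume (f' := fun x => fderiv ℝ g x)
    · rintro x ⟨_, hx, _⟩
      exact hx.hasFDerivAt.hasFDerivWithinAt
    · rintro x ⟨_, _, v, hv, h0⟩
      have h1 : LinearMap.det ((fderiv ℝ g x : E n →L[ℝ] E n) : E n →ₗ[ℝ] E n) = 0 := by
        rw [LinearMap.det_eq_zero_iff_ker_ne_bot]
        intro hker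
        apply hv
        have h2 : v ∈ LinearMap.ker ((fderiv ℝ g x : E n →L[ℝ] E n) : E n →ₗ[ℝ] E n) := by
          rw [LinearMap.mem_ker]
          exact h0
        rw [hker] at h2
        exact h2
      exact h1
  · set N : Set (E n) := S ∩ {x | ¬ (x ∈ S → DifferentiableAt ℝ g x ∧
      ∃ v : E n, v ≠ 0 ∧ fderiv ℝ g x v = 0)} with hN
    have h1 : volume N = 0 := measure_mono_null inter_subset_right hd'
    have h2 : (μH[(Module.finrank ℝ (E n) : ℝ)] : Measure (E n)) N = 0 :=
      (Measure.absolutelyContinuous_isAddHaarMeasure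
        (μH[(Module.finrank ℝ (E n) : ℝ)] : Measure (E n)) volume) h1
    have h3 : (μH[(Module.finrank ℝ (E n) : ℝ)] : Measure (E n)) (g '' N) = 0 := by
      have h4 := (hg.mono (inter_subset_left : N ⊆ S)).hausdorffMeasure_image_le
        (d := (Module.finrank ℝ (E n) : ℝ)) (Nat.cast_nonneg _)
      rw [h2, mul_zero] at h4
      exact nonpos_iff_eq_zero.1 h4
    exact (Measure.absolutelyContinuous_isAddHaarMeasure volume
      (μH[(Module.finrank ℝ (E n) : ℝ)] : Measure (E n))) h3

end MPf7aa
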