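import Pool.Agent.Lib.MP_f7aa1b_gt.N0

/-!
Row N1. The same for maps of E m x R (sup norm) into E (m+1).
Proof. Choose a continuous linear equivalence A : E (m+1) -> E m x R (equal finrank;
ContinuousLinearEquiv.ofFinrankEq). g := F o A is Lipschitz on A^-1 S; at x with A x outside the exceptional null
set it is differentiable with a kernel vector A^-1 v (chain rule). The preimage of a null set of E m x R under A is
null in E (m+1): the pushforward of volume by A is an additive Haar measure on E m x R
(ContinuousLinearEquiv.isAddHaarMeasure_map), hence a multiple of volume (isAddHaarMeasure unique up to a constant: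
Measure.isAddHaarMeasure_eq_smul), so A is quasi measure preserving. Then null_lip; F '' S = g '' (A^-1 S).
-/

open Set Filter Topology Metric MeasureTheory
open scoped ContDiff

namespace MPf7aa

theorem null_prod {m : ℕ} {F : E m × ℝ → E (m + 1)} {S : Set (E m × ℝ)} {K : NNReal}
    (hg : LipschitzOnWith K F S)
    (hd : ∀ᵐ x ∂(volume : Measure (E m × ℝ)), x ∈ S →
      DifferentiableAt ℝ F x ∧ ∃ v : E m × ℝ, v ≠ 0 ∧ fderiv ℝ F x v = 0) :
    volume (F '' S) = 0 := by
  have hfin : Module.finrank ℝ (E (m + 1)) = Module.finrank ℝ (E m × ℝ) := by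
    simp [Module.finrank_prod]
  let A : E (m + 1) ≃L[ℝ] (E m × ℝ) := ContinuousLinearEquiv.ofFinrankEq hfin
  have hmap : (Measure.map A (volume : Measure (E (m + 1)))).IsAddHaarMeasure :=
    A.isAddHaarMeasure_map _
  have hvol : (volume : Measure (E m × ℝ)).IsAddHaarMeasure :=
    inferInstanceAs ((volume : Measure (E m)).prod (volume : Measure ℝ)).IsAddHaarMeasure
  have hq : Measure.QuasiMeasurePreserving A (volume : Measure (E (m + 1)))
      (volume : Measure (E m × ℝ)) :=
    ⟨A.continuous.measurable, Measure.absolutelyContinuous_isAddHaarMeasure _ _⟩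
  have hd' := hq.ae hd
  have himg : F '' S = (F ∘ A) '' (A ⁻¹' S) := by
    rw [image_comp, image_preimage_eq S A.surjective]
  rw [himg]
  refine null_lip (K := K * ‖(A : E (m + 1) →L[ℝ] (E m × ℝ))‖₊) ?_ ?_
  · exact hg.comp ((A : E (m + 1) →L[ℝ] (E m × ℝ)).lipschitz.lipschitzOnWith) (mapsTo_preimage A S)
  · filter_upwards [hd'] with x hx hxS
    obtain ⟨h1, v, hv, h2⟩ := hx hxS
    have hA : HasFDerivAt (F ∘ A) ((fderiv ℝ F (A x)).comp (A : E (m + 1) →L[ℝ] (E m × ℝ))) x :=
      h1.hasFDerivAt.comp x A.hasFDerivAt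
    refine ⟨hA.differentiableAt, A.symm v, ?_, ?_⟩
    · intro h0
      apply hv
      rw [← A.apply_symm_apply v, h0, map_zero]
    · rw [hA.fderiv, ContinuousLinearMap.comp_apply]
      change fderiv ℝ F (A x) (A (A.symm v)) = 0
      rw [A.apply_symm_apply, h2]

end MPf7aa
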